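import Mathlib

/-! Automatic continuity of surjective homomorphisms onto `B(Y)`, and rank one operators. -/

set_option autoImplicit false

open Filter Topology

namespace Pool.Agent.H148R3

variable {𝕜 : Type*} [RCLike 𝕜]

section AutoCont

variable {A : Type*} [NormedRing A] [NormedAlgebra 𝕜 A] [CompleteSpace A]
variable {Y : Type*} [NormedAddCommGroup Y] [NormedSpace 𝕜 Y] [CompleteSpace Y]

/-- rank one operator `v ↦ f v • y`. -/
noncomputable abbrev rk (f : StrongDual 𝕜 Y) (y : Y) : Y →L[𝕜] Y := ContinuousLinearMap.smulRight f y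

lemma scalar_bound (ψ : A →ₐ[𝕜] (Y →L[𝕜] Y)) (f : StrongDual 𝕜 Y) (y : Y) (hfy : f y = 1)
    (e : A) (he : ψ e = rk f y) (a : A) : ‖f (ψ a y)‖ ≤ ‖e * a * e‖ := by
  by_contra hlt
  rw [not_le] at hlt
  set l : 𝕜 := f (ψ a y) with hl
  have hl0 : l ≠ 0 := by
    intro h0
    rw [h0, norm_zero] at hlt
    exact absurd hlt (not_lt.2 (norm_nonneg _))
  have hlp : 0 < ‖l‖ := norm_pos_iff.2 hl0
  set b : A := l⁻¹ • (e * a * e) with hb
  have hb1 : ‖b‖ < 1 := by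
    rw [hb, norm_smul, norm_inv, inv_mul_lt_iff₀ hlp, mul_one]
    exact hlt
  have hψb : ψ b = rk f y := by
    rw [hb, map_smul, map_mul, map_mul, he]
    ext v
    simp only [ContinuousLinearMap.smul_apply, ContinuousLinearMap.mul_apply,
      ContinuousLinearMap.smulRight_apply, map_smul, smul_eq_mul]
    rw [← hl, smul_smul, smul_smul]
    congr 1
    field_simp
  have hu : IsUnit (1 - b) := (Units.oneSub b hb1).isUnit
  have hu2 : IsUnit (1 - rk f y) := by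
    have := hu.map ψ
    rwa [map_sub, map_one, hψb] at this
  obtain ⟨u, hu⟩ := hu2
  have h1 : (1 - rk f y) y = 0 := by
    simp [hfy]
  have h2 : y = 0 := by
    have h3 : (↑u⁻¹ * (u : Y →L[𝕜] Y)) y = y := by
      rw [Units.inv_mul]; rfl
    rw [← h3, ContinuousLinearMap.mul_apply, hu, h1, map_zero]
  rw [h2, map_zero] at hfy
  exact zero_ne_one hfy

lemma weak_bound (ψ : A →ₐ[𝕜] (Y →L[𝕜] Y)) (hψ : Function.Surjective ψ)
    (f : StrongDual 𝕜 Y) (y : Y) : ∃ C : ℝ, ∀ a : A, ‖f (ψ a y)‖ ≤ C * ‖a‖ := by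
  have key : ∀ f : StrongDual 𝕜 Y, f y = 1 → ∃ C : ℝ, ∀ a : A, ‖f (ψ a y)‖ ≤ C * ‖a‖ := by
    intro f hf
    obtain ⟨e, he⟩ := hψ (rk f y)
    refine ⟨‖e‖ * ‖e‖, fun a => (scalar_bound ψ f y hf e he a).trans ?_⟩
    calc ‖e * a * e‖ ≤ ‖e‖ * ‖a‖ * ‖e‖ :=
          (norm_mul_le _ _).trans (by gcongr; exact norm_mul_le _ _)
      _ = _ := by ring
  by_cases hy : y = 0
  · exact ⟨0, fun a => by simp [hy]⟩
  by_cases hfy : f y = 0
  · obtain ⟨g, -, hg⟩ := exists_dual_vector 𝕜 y (norm_ne_zero_iff.2 hy)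
    have hn : ((‖y‖ : ℝ) : 𝕜) ≠ 0 := by
      simpa using hy
    set g' : StrongDual 𝕜 Y := ((‖y‖ : ℝ) : 𝕜)⁻¹ • g with hg'
    have h1 : g' y = 1 := by
      rw [hg', ContinuousLinearMap.smul_apply, hg, smul_eq_mul, inv_mul_cancel₀ hn]
    obtain ⟨C1, hC1⟩ := key g' h1
    obtain ⟨C2, hC2⟩ := key (f + g') (by rw [ContinuousLinearMap.add_apply, hfy, h1, zero_add])
    refine ⟨C1 + C2, fun a => ?_⟩
    have h2 : f (ψ a y) = (f + g') (ψ a y) - g' (ψ a y) := by simp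
    rw [h2]
    refine (norm_sub_le _ _).trans ?_
    have := hC1 a
    have := hC2 a
    linarith
  · obtain ⟨C, hC⟩ := key ((f y)⁻¹ • f) (by simp [hfy])
    refine ⟨‖f y‖ * C, fun a => ?_⟩
    have h2 := hC a
    rw [ContinuousLinearMap.smul_apply, norm_smul, norm_inv,
      inv_mul_le_iff₀ (norm_pos_iff.2 hfy)] at h2
    rw [mul_assoc]
    exact h2

/-- Automatic continuity. -/
theorem auto_cont (ψ : A →ₐ[𝕜] (Y →L[𝕜] Y)) (hψ : Function.Surjective ψ) :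
    ∃ C : ℝ, 0 ≤ C ∧ ∀ a : A, ‖ψ a‖ ≤ C * ‖a‖ := by
  -- pointwise bounds
  have h1 : ∀ y : Y, ∃ C : ℝ, ∀ a : {a : A // ‖a‖ ≤ 1}, ‖ψ a y‖ ≤ C := by
    intro y
    have h2 : ∃ C', ∀ a : {a : A // ‖a‖ ≤ 1},
        ‖NormedSpace.inclusionInDoubleDual 𝕜 Y (ψ a y)‖ ≤ C' := by
      apply banach_steinhaus
      intro f
      obtain ⟨C, hC⟩ := weak_bound ψ hψ f y
      refine ⟨|C|, fun a => ?_⟩
      rw [NormedSpace.dual_def]
      refine (hC a).trans ?_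
      calc C * ‖(a : A)‖ ≤ |C| * ‖(a : A)‖ := by gcongr; exact le_abs_self C
        _ ≤ |C| * 1 := by gcongr; exact a.2
        _ = |C| := mul_one _
    obtain ⟨C', hC'⟩ := h2
    refine ⟨C', fun a => ?_⟩
    have h3 := hC' a
    rwa [show ‖NormedSpace.inclusionInDoubleDual 𝕜 Y (ψ a y)‖ = ‖ψ a y‖ from
      (NormedSpace.inclusionInDoubleDualLi 𝕜).norm_map (ψ a y)] at h3
  obtain ⟨C, hC⟩ := banach_steinhaus (g := fun a : {a : A // ‖a‖ ≤ 1} => ψ a) h1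
  have hC0 : 0 ≤ C := (norm_nonneg _).trans (hC ⟨0, by simp⟩)
  refine ⟨C, hC0, fun a => ?_⟩
  by_cases ha : a = 0
  · simp [ha]
  have hn : 0 < ‖a‖ := norm_pos_iff.2 ha
  have h4 := hC ⟨(((‖a‖)⁻¹ : ℝ) : 𝕜) • a, by
    rw [norm_smul, RCLike.norm_ofReal, abs_of_pos (inv_pos.2 hn), inv_mul_cancel₀ hn.ne']⟩
  simp only [map_smul] at h4
  rw [norm_smul, RCLike.norm_ofReal, abs_of_pos (inv_pos.2 hn), inv_mul_le_iff₀ hn] at h4
  linarith [mul_comm C ‖a‖]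

/-- Lifting with norm control. -/
theorem lift_bound (ψ : A →ₐ[𝕜] (Y →L[𝕜] Y)) (hψ : Function.Surjective ψ) :
    ∃ C : ℝ, 0 < C ∧ ∀ S : Y →L[𝕜] Y, ∃ a : A, ψ a = S ∧ ‖a‖ ≤ C * ‖S‖ := by
  obtain ⟨C, hC0, hC⟩ := auto_cont ψ hψ
  let F : A →L[𝕜] (Y →L[𝕜] Y) := LinearMap.mkContinuous ψ.toLinearMap C hC
  obtain ⟨C', hC', h⟩ := ContinuousLinearMap.exists_preimage_norm_le F (by
    intro S
    obtain ⟨a, ha⟩ := hψ S
    exact ⟨a, ha⟩)
  exact ⟨C', hC', fun S => h S⟩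

end AutoCont

section RankOne

variable {X : Type*} [NormedAddCommGroup X] [NormedSpace 𝕜 X]
variable {B : Type*} [Ring B] [Algebra 𝕜 B]

/-- If the kernel is nonzero then all rank one operators are killed. -/
theorem rank_one_killed (ψ : (X →L[𝕜] X) →ₐ[𝕜] B) (T : X →L[𝕜] X) (hT : T ≠ 0)
    (hψ : ψ T = 0) (f : StrongDual 𝕜 X) (x : X) : ψ (rk f x) = 0 := by
  obtain ⟨v, hv⟩ : ∃ v, T v ≠ 0 := by
    by_contra h
    push Not at h
    exact hT (ContinuousLinearMap.ext fun v => by simpa using h v)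
  obtain ⟨g, -, hg⟩ := exists_dual_vector 𝕜 (T v) (norm_ne_zero_iff.2 hv)
  have hn : ((‖T v‖ : ℝ) : 𝕜) ≠ 0 := by simpa using hv
  have h1 : rk f x = rk (((‖T v‖ : ℝ) : 𝕜)⁻¹ • g) x * T * rk f v := by
    ext w
    simp only [ContinuousLinearMap.mul_apply, ContinuousLinearMap.smulRight_apply, map_smul,
      ContinuousLinearMap.smul_apply, smul_eq_mul, hg]
    rw [inv_mul_cancel₀ hn, one_smul]
  rw [h1, map_mul, map_mul, hψ, mul_zero, zero_mul]

end RankOne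

end Pool.Agent.H148R3
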