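import Mathlib

set_option autoImplicit false

open Finset

namespace Pool.Agent.H148R3.GR

/-- Positive part. -/
def pp (x : ℝ) : ℝ := max x 0

lemma pp_nonneg (x : ℝ) : 0 ≤ pp x := le_max_right _ _
lemma le_pp (x : ℝ) : x ≤ pp x := le_max_left _ _
lemma pp_mono {x y : ℝ} (h : x ≤ y) : pp x ≤ pp y := max_le_max h le_rfl
lemma pp_of_nonneg {x : ℝ} (h : 0 ≤ x) : pp x = x := max_eq_left h
lemma pp_of_nonpos {x : ℝ} (h : x ≤ 0) : pp x = 0 := max_eq_right h
lemma pp_cont : Continuous pp := continuous_id.max continuous_const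
lemma min_eq_sub_pp (a l : ℝ) : min a l = a - pp (a - l) := by
  unfold pp
  rcases le_total a l with h | h
  · rw [min_eq_left h, max_eq_right (by linarith)]; ring
  · rw [min_eq_right h, max_eq_left (by linarith)]; ring

lemma pp_sub_min {a l τ : ℝ} (h : l ≤ τ) : pp (min a τ - l) = pp (a - l) - pp (a - τ) := by
  unfold pp
  rcases le_total a τ with h1 | h1
  · rw [min_eq_left h1, max_eq_right (a := a - τ) (by linarith)]; ring
  · rw [min_eq_right h1, max_eq_left (a := a - τ) (by linarith),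
      max_eq_left (a := a - l) (by linarith), max_eq_left (by linarith)]; ring

variable {ι : Type*}

/-- Admissible pairs `(v, u)` for the weight `g`, everything supported in `E`. -/
structure Adm (E : Finset ι) (g v u : ι → ℝ) : Prop where
  v0 : ∀ i, 0 ≤ v i
  vg : ∀ i, v i ≤ g i
  u0 : ∀ i, 0 ≤ u i
  gs : ∀ i, i ∉ E → g i = 0
  us : ∀ i, i ∉ E → u i = 0
  dj : ∀ i, v i = 0 ∨ u i = 0
  b : ∑ i ∈ E, (v i + u i) ≤ ∑ i ∈ E, g i
  c : ∀ i, ∑ j ∈ E, u j ≤ 4 * ∑ j ∈ E, pp (g j - v i)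
  d : ∀ l, 0 < l → (∃ i, 4 * l < u i) →
    ∑ j ∈ E, pp (u j - 4 * l) + ∑ j ∈ E, u j ≤ 8 * ∑ j ∈ E, pp (g j - l)

lemma Adm.g0 {E : Finset ι} {g v u : ι → ℝ} (h : Adm E g v u) (i : ι) : 0 ≤ g i :=
  (h.v0 i).trans (h.vg i)

lemma Adm.vs {E : Finset ι} {g v u : ι → ℝ} (h : Adm E g v u) {i : ι} (hi : i ∉ E) : v i = 0 :=
  le_antisymm ((h.vg i).trans (h.gs i hi).le) (h.v0 i)

lemma Adm.self {E : Finset ι} {g : ι → ℝ} (g0 : ∀ i, 0 ≤ g i) (gs : ∀ i, i ∉ E → g i = 0) :
    Adm E g g 0 where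
  v0 := g0
  vg := fun _ => le_rfl
  u0 := fun _ => le_rfl
  gs := gs
  us := fun _ _ => rfl
  dj := fun _ => Or.inr rfl
  b := by simp
  c := fun i => by
    simp only [Pi.zero_apply, sum_const_zero]
    exact mul_nonneg (by norm_num) (sum_nonneg fun j _ => pp_nonneg _)
  d := fun l hl ⟨i, hi⟩ => by
    simp only [Pi.zero_apply] at hi
    linarith

lemma Adm.mono {E E' : Finset ι} {g v u : ι → ℝ} (h : Adm E g v u) (hE : E ⊆ E') :
    Adm E' g v u := by
  have e1 : ∑ i ∈ E', u i = ∑ i ∈ E, u i := (sum_subset hE fun i _ hi => h.us i hi).symm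
  have e2 : ∑ i ∈ E', g i = ∑ i ∈ E, g i := (sum_subset hE fun i _ hi => h.gs i hi).symm
  have e3 : ∑ i ∈ E', (v i + u i) = ∑ i ∈ E, (v i + u i) :=
    (sum_subset hE fun i _ hi => by rw [h.us i hi, h.vs hi, add_zero]).symm
  have e4 : ∀ l, 0 ≤ l → ∑ i ∈ E', pp (g i - l) = ∑ i ∈ E, pp (g i - l) := fun l hl =>
    (sum_subset hE fun i _ hi => by rw [h.gs i hi]; exact pp_of_nonpos (by linarith)).symm
  have e5 : ∀ l, 0 ≤ l → ∑ i ∈ E', pp (u i - l) = ∑ i ∈ E, pp (u i - l) := fun l hl =>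
    (sum_subset hE fun i _ hi => by rw [h.us i hi]; exact pp_of_nonpos (by linarith)).symm
  exact {
    v0 := h.v0
    vg := h.vg
    u0 := h.u0
    gs := fun i hi => h.gs i (fun h' => hi (hE h'))
    us := fun i hi => h.us i (fun h' => hi (hE h'))
    dj := h.dj
    b := by rw [e3, e2]; exact h.b
    c := fun i => by rw [e1, e4 _ (h.v0 i)]; exact h.c i
    d := fun l hl hi => by
      rw [e1, e4 l hl.le, e5 (4 * l) (by linarith)]; exact h.d l hl hi }

open Classical in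
lemma Adm.restrict {E : Finset ι} {g v u : ι → ℝ} (h : Adm E g v u) (R : Set ι) :
    Adm E g (R.indicator v) (R.indicator u) := by
  have hv : ∀ i, R.indicator v i ≤ v i := fun i => Set.indicator_le_self' (fun _ _ => h.v0 _) i
  have hu : ∀ i, R.indicator u i ≤ u i := fun i => Set.indicator_le_self' (fun _ _ => h.u0 _) i
  have hv0 : ∀ i, 0 ≤ R.indicator v i := fun i => Set.indicator_nonneg (fun _ _ => h.v0 _) i
  have hu0 : ∀ i, 0 ≤ R.indicator u i := fun i => Set.indicator_nonneg (fun _ _ => h.u0 _) i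
  have hsu : ∑ j ∈ E, R.indicator u j ≤ ∑ j ∈ E, u j := sum_le_sum fun i _ => hu i
  exact {
    v0 := hv0
    vg := fun i => (hv i).trans (h.vg i)
    u0 := hu0
    gs := h.gs
    us := fun i hi => le_antisymm ((hu i).trans (h.us i hi).le) (hu0 i)
    dj := fun i => by
      rcases h.dj i with h1 | h1
      · exact Or.inl (le_antisymm ((hv i).trans h1.le) (hv0 i))
      · exact Or.inr (le_antisymm ((hu i).trans h1.le) (hu0 i))
    b := (sum_le_sum fun i _ => add_le_add (hv i) (hu i)).trans h.b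
    c := fun i => by
      refine hsu.trans ((h.c i).trans ?_)
      exact mul_le_mul_of_nonneg_left (sum_le_sum fun j _ => pp_mono (by linarith [hv i]))
        (by norm_num)
    d := fun l hl ⟨i, hi⟩ => by
      refine le_trans (add_le_add (sum_le_sum fun j _ => pp_mono (by linarith [hu j])) hsu)
        (h.d l hl ⟨i, hi.trans_le (hu i)⟩) }

/-- Core step, for the transported pair. -/
lemma core [DecidableEq ι] {E T : Finset ι} {g v u : ι → ℝ} (hT : T ⊆ E)
    (v0 : ∀ i, 0 ≤ v i) (u0 : ∀ i, 0 ≤ u i) (g0 : ∀ i, 0 ≤ g i)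
    (gs : ∀ i, i ∉ E → g i = 0) (us : ∀ i, i ∉ E → u i = 0) (vs : ∀ i, i ∉ E → v i = 0)
    (dj : ∀ i, v i = 0 ∨ u i = 0)
    (vg : ∀ i, i ∉ T → v i ≤ g i)
    (hb : ∑ i ∈ E, (v i + u i) ≤ ∑ i ∈ E, g i)
    (hc : ∀ i, ∑ j ∈ E, u j ≤ 4 * ∑ j ∈ E, pp (g j - v i))
    (he : ∀ l L, l ≤ L → ∑ j ∈ E, (pp (v j - l) - pp (v j - L)) ≤
      ∑ j ∈ E, (pp (g j - l) - pp (g j - L)))
    (hd : ∀ l, 0 < l → (∃ i, 4 * l < u i) →
      ∑ j ∈ E, pp (u j - 4 * l) + ∑ j ∈ E, u j ≤ 8 * ∑ j ∈ E, pp (g j - l)) :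
    ∃ v' u' : ι → ℝ, Adm E g v' u' ∧ (∀ i, i ∉ T → v' i + u' i ≤ v i + u i) ∧
      ∑ i ∈ E, (v' i + u' i) = ∑ i ∈ E, (v i + u i) := by
  have hε0 : 0 ≤ ∑ i ∈ T, v i := sum_nonneg fun i _ => v0 i
  rcases hε0.eq_or_lt with hε | hε
  · -- trivial case
    have hvT : ∀ i ∈ T, v i = 0 := (sum_eq_zero_iff_of_nonneg fun i _ => v0 i).mp hε.symm
    refine ⟨v, u, ⟨v0, fun i => ?_, u0, gs, us, dj, hb, hc, hd⟩, fun i _ => le_rfl, rfl⟩
    by_cases hi : i ∈ T
    · rw [hvT i hi]; exact g0 i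
    · exact vg i hi
  set ε := ∑ i ∈ T, v i with hεdef
  set m := ∑ i ∈ E, u i with hm
  have hm0 : 0 ≤ m := sum_nonneg fun i _ => u0 i
  have hsplit : ∀ F : ι → ℝ, ∑ i ∈ E, F i = ∑ i ∈ E \ T, F i + ∑ i ∈ T, F i := fun F =>
    (sum_sdiff hT).symm
  -- maximum of v
  have hEne : E.Nonempty := by
    rcases T.eq_empty_or_nonempty with h | h
    · rw [h, sum_empty] at hεdef; linarith
    · exact h.mono hT
  obtain ⟨i0, hi0, hmax⟩ := exists_max_image E v hEne
  set L := v i0 with hL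
  have hLpos : 0 < L := by
    by_contra hcon
    have : ε ≤ 0 := sum_nonpos fun i hi => (hmax i (hT hi)).trans (not_lt.mp hcon)
    linarith
  have hvE : ε ≤ ∑ i ∈ E, v i := sum_le_sum_of_subset_of_nonneg hT fun i _ _ => v0 i
  have hgpos : 0 < ∑ i ∈ E, g i := by
    have : ∑ i ∈ E, (v i + u i) = ∑ i ∈ E, v i + m := sum_add_distrib
    linarith
  -- the function φ
  set φ : ℝ → ℝ := fun l => 4 * ∑ j ∈ E, pp (g j - l) - m - ε - ∑ j ∈ E \ T, pp (v j - l) with hφ
  have hφc : Continuous φ := by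
    have h1 : ∀ (w : ι → ℝ) (s : Finset ι), Continuous fun l : ℝ => ∑ j ∈ s, pp (w j - l) :=
      fun w s => continuous_finsetSum _ fun j _ => pp_cont.comp (continuous_const.sub continuous_id)
    exact ((((h1 g E).const_mul 4).sub continuous_const).sub continuous_const).sub (h1 v (E \ T))
  have hφ0 : 0 < φ 0 := by
    have e1 : ∑ j ∈ E, pp (g j - 0) = ∑ j ∈ E, g j :=
      sum_congr rfl fun j _ => by rw [sub_zero, pp_of_nonneg (g0 j)]
    have e2 : ∑ j ∈ E \ T, pp (v j - 0) = ∑ j ∈ E \ T, v j :=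
      sum_congr rfl fun j _ => by rw [sub_zero, pp_of_nonneg (v0 j)]
    have e3 := hsplit v
    have e4 : ∑ i ∈ E, (v i + u i) = ∑ i ∈ E, v i + m := sum_add_distrib
    simp only [hφ, e1, e2]
    linarith
  obtain ⟨l', hl'0, hl'L, hφ', hor⟩ : ∃ l', 0 < l' ∧ l' ≤ L ∧ 0 ≤ φ l' ∧ (φ l' = 0 ∨ l' = L) := by
    rcases le_or_gt 0 (φ L) with h | h
    · exact ⟨L, hLpos, le_rfl, h, Or.inr rfl⟩
    · obtain ⟨l', hl', hz⟩ := intermediate_value_Icc' hLpos.le hφc.continuousOn ⟨h.le, hφ0.le⟩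
      refine ⟨l', lt_of_le_of_ne hl'.1 ?_, hl'.2, hz.ge, Or.inl hz⟩
      rintro rfl
      linarith
  set δ := ∑ j ∈ E \ T, pp (v j - l') with hδ
  set ξ := ∑ j ∈ T, pp (v j - l') with hξ
  have hδ0 : 0 ≤ δ := sum_nonneg fun _ _ => pp_nonneg _
  have hξ0 : 0 ≤ ξ := sum_nonneg fun _ _ => pp_nonneg _
  set eg : ℝ → ℝ := fun l => ∑ j ∈ E, pp (g j - l) with heg
  have heg_anti : ∀ {a b : ℝ}, a ≤ b → eg b ≤ eg a := fun hab =>
    sum_le_sum fun j _ => pp_mono (by linarith)
  have hφ'' : m + ε + δ ≤ 4 * eg l' := by simp only [hφ] at hφ'; simp only [heg, hδ]; linarith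
  have hvL : ∀ j ∈ E, pp (v j - L) = 0 := fun j hj => pp_of_nonpos (by linarith [hmax j hj])
  have hsum_vl : ∑ j ∈ E, pp (v j - l') = δ + ξ := hsplit _
  have h34 : 3 * δ + 4 * ξ ≤ ε := by
    rcases hor with h | h
    · have h1 : m + ε + δ = 4 * eg l' := by simp only [hφ] at h; simp only [heg, hδ]; linarith
      have h2 : m ≤ 4 * eg L := hc i0
      have h3 := he l' L hl'L
      rw [sum_sub_distrib, sum_sub_distrib, hsum_vl, sum_eq_zero hvL] at h3
      have h3' : δ + ξ - 0 ≤ eg l' - eg L := h3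
      linarith
    · have h1 : δ + ξ = 0 := by rw [← hsum_vl, h]; exact sum_eq_zero hvL
      have : δ = 0 := by linarith
      have : ξ = 0 := by linarith
      linarith
  -- τ
  set ω := min m (ε + δ) with hω
  have hω0 : 0 ≤ ω := le_min hm0 (by linarith)
  have hωm : ω ≤ m := min_le_left _ _
  have hωe : ω ≤ ε + δ := min_le_right _ _
  set ψ : ℝ → ℝ := fun t => ∑ j ∈ E, pp (u j - t) with hψ
  have hψc : Continuous ψ :=
    continuous_finsetSum _ fun j _ => pp_cont.comp (continuous_const.sub continuous_id)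
  have hψ0 : ψ 0 = m := sum_congr rfl fun j _ => by rw [sub_zero, pp_of_nonneg (u0 j)]
  have hψm : ψ m = 0 := sum_eq_zero fun j hj =>
    pp_of_nonpos (by linarith [single_le_sum (fun i _ => u0 i) hj])
  obtain ⟨τ, hτ, hψτ⟩ := intermediate_value_Icc' hm0 hψc.continuousOn
    (show ω ∈ Set.Icc (ψ m) (ψ 0) from ⟨by rw [hψm]; exact hω0, by rw [hψ0]; exact hωm⟩)
  have hτ0 : 0 ≤ τ := hτ.1
  -- k
  have hεξ : 0 < ε - ξ := by linarith
  set k := (ε + δ + ω) / (ε - ξ) with hk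
  have hk0 : 0 ≤ k := div_nonneg (by linarith) hεξ.le
  have hk4 : k < 4 := by rw [hk, div_lt_iff₀ hεξ]; linarith
  have hkm : k * (ε - ξ) = ε + δ + ω := div_mul_cancel₀ _ hεξ.ne'
  -- the new pair
  set v' : ι → ℝ := fun i => if i ∈ T then 0 else min (v i) l' with hv'
  set w : ι → ℝ := fun i => if i ∈ T then k * min (v i) l' else 0 with hw
  set u' : ι → ℝ := fun i => min (u i) τ + w i with hu'
  have hw0 : ∀ i, 0 ≤ w i := fun i => by
    simp only [hw]; split_ifs
    · exact mul_nonneg hk0 (le_min (v0 i) hl'0.le)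
    · exact le_rfl
  have hwl : ∀ i, w i ≤ k * l' := fun i => by
    simp only [hw]; split_ifs
    · exact mul_le_mul_of_nonneg_left (min_le_right _ _) hk0
    · exact mul_nonneg hk0 hl'0.le
  have hmin0 : ∀ i, 0 ≤ min (u i) τ := fun i => le_min (u0 i) hτ0
  have hu'0 : ∀ i, 0 ≤ u' i := fun i => add_nonneg (hmin0 i) (hw0 i)
  have hwv : ∀ i, v i = 0 → w i = 0 := fun i hi => by
    simp only [hw]; split_ifs
    · rw [hi, min_eq_left hl'0.le, mul_zero]
    · rfl
  have hv'l : ∀ i, v' i ≤ l' := fun i => by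
    simp only [hv']; split_ifs
    · exact hl'0.le
    · exact min_le_right _ _
  have hv'0 : ∀ i, 0 ≤ v' i := fun i => by
    simp only [hv']; split_ifs
    · exact le_rfl
    · exact le_min (v0 i) hl'0.le
  have hsw : ∑ i ∈ E, w i = ε + δ + ω := by
    rw [hsplit]
    have e1 : ∑ i ∈ E \ T, w i = 0 := sum_eq_zero fun i hi => by
      simp only [hw]; rw [if_neg (mem_sdiff.mp hi).2]
    have e2 : ∑ i ∈ T, w i = k * (ε - ξ) := by
      rw [hεdef, hξ, ← sum_sub_distrib, mul_sum]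
      refine sum_congr rfl fun i hi => ?_
      simp only [hw]; rw [if_pos hi, min_eq_sub_pp]
    rw [e1, e2, hkm, zero_add]
  have hsmin : ∑ i ∈ E, min (u i) τ = m - ω := by
    rw [← hψτ, hm]; simp only [hψ]; rw [← sum_sub_distrib]
    exact sum_congr rfl fun i _ => min_eq_sub_pp _ _
  have hsu' : ∑ i ∈ E, u' i = m + ε + δ := by
    simp only [hu']; rw [sum_add_distrib, hsw, hsmin]; ring
  have hsv' : ∑ i ∈ E, v' i = ∑ i ∈ E \ T, v i - δ := by
    rw [hsplit]
    have e1 : ∑ i ∈ T, v' i = 0 := sum_eq_zero fun i hi => by simp only [hv']; rw [if_pos hi]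
    rw [e1, add_zero, hδ, ← sum_sub_distrib]
    refine sum_congr rfl fun i hi => ?_
    simp only [hv']; rw [if_neg (mem_sdiff.mp hi).2, min_eq_sub_pp]
  have hmass : ∑ i ∈ E, (v' i + u' i) = ∑ i ∈ E, (v i + u i) := by
    have h1 : ∑ i ∈ E, (v' i + u' i) = ∑ i ∈ E, v' i + ∑ i ∈ E, u' i := sum_add_distrib
    have h2 : ∑ i ∈ E, (v i + u i) = ∑ i ∈ E, v i + m := sum_add_distrib
    have h3 := hsplit v
    rw [h1, h2, hsu', hsv']; linarith
  refine ⟨v', u', ⟨hv'0, fun i => ?_, hu'0, gs, fun i hi => ?_, fun i => ?_, ?_, fun i => ?_,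
    fun l hl hi => ?_⟩, fun i hi => ?_, hmass⟩
  · simp only [hv']; split_ifs with h
    · exact g0 i
    · exact (min_le_left _ _).trans (vg i h)
  · simp only [hu']
    rw [us i hi, hwv i (vs i hi), min_eq_left hτ0, add_zero]
  · by_cases hiT : i ∈ T
    · left; simp only [hv']; rw [if_pos hiT]
    · rcases dj i with h | h
      · left; simp only [hv']; rw [if_neg hiT, h, min_eq_left hl'0.le]
      · right; simp only [hu', hw]; rw [if_neg hiT, h, min_eq_left hτ0, add_zero]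
  · rw [hmass]; exact hb
  · rw [hsu']
    refine hφ''.trans ?_
    exact mul_le_mul_of_nonneg_left (heg_anti (hv'l i)) (by norm_num)
  · rcases lt_or_ge l l' with hll | hll
    · have h1 : ∑ j ∈ E, pp (u' j - 4 * l) ≤ ∑ j ∈ E, u' j := sum_le_sum fun j _ => by
        refine max_le ?_ (hu'0 j); linarith
      have h2 : eg l' ≤ eg l := heg_anti hll.le
      have h3 : ∑ j ∈ E, pp (u' j - 4 * l) + ∑ j ∈ E, u' j ≤ 8 * eg l := by
        rw [hsu'] at h1 ⊢; linarith
      exact h3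
    · have hwl4 : ∀ j, w j ≤ 4 * l := fun j => (hwl j).trans (by nlinarith)
      have hpe : ∀ j, pp (u' j - 4 * l) = pp (min (u j) τ - 4 * l) := fun j => by
        rcases dj j with h | h
        · simp only [hu']; rw [hwv j h, add_zero]
        · simp only [hu']; rw [h, min_eq_left hτ0, zero_add]
          rw [pp_of_nonpos (by linarith [hwl4 j]), pp_of_nonpos (by linarith)]
      obtain ⟨i, hi⟩ := hi
      have hi2 : 4 * l < min (u i) τ := by
        rcases dj i with h | h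
        · simp only [hu'] at hi; rw [hwv i h, add_zero] at hi; exact hi
        · simp only [hu'] at hi; rw [h, min_eq_left hτ0, zero_add] at hi
          exact absurd hi (not_lt.mpr (hwl4 i))
      have hτl : 4 * l < τ := hi2.trans_le (min_le_right _ _)
      have hil : 4 * l < u i := hi2.trans_le (min_le_left _ _)
      have hold := hd l hl ⟨i, hil⟩
      have e1 : ∑ j ∈ E, pp (u' j - 4 * l) = ∑ j ∈ E, pp (u j - 4 * l) - ω := by
        rw [← hψτ]; simp only [hψ]; rw [← sum_sub_distrib]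
        exact sum_congr rfl fun j _ => by rw [hpe j, pp_sub_min hτl.le]
      have hωeq : ω = ε + δ := by
        rcases min_choice m (ε + δ) with h | h
        · exfalso
          have h1 : ∑ j ∈ E, min (u j) τ = 0 := by rw [hsmin, hω, h]; ring
          have h2 := (sum_eq_zero_iff_of_nonneg fun j _ => hmin0 j).mp h1
          have hiE : i ∈ E := by
            by_contra hcon
            rw [us i hcon] at hil; linarith
          have := h2 i hiE
          linarith
        · exact h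
      rw [e1, hsu']
      linarith
  · simp only [hv', hu', hw]
    rw [if_neg hi, if_neg hi, add_zero]
    exact add_le_add (min_le_left _ _) (min_le_left _ _)

end Pool.Agent.H148R3.GR
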