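import Mathlib
import Pool.Agent.H148R3.GR1

set_option autoImplicit false

open Finset

namespace Pool.Agent.H148R3.GR

variable {ι : Type*}

lemma pp_diff_mono {a b l L : ℝ} (hab : a ≤ b) (hl : l ≤ L) :
    pp (a - l) - pp (a - L) ≤ pp (b - l) - pp (b - L) := by
  unfold pp
  rcases le_total (a - l) 0 with h1 | h1
  · rw [max_eq_right h1, max_eq_right (a := a - L) (by linarith)]
    have : max (b - L) 0 ≤ max (b - l) 0 := max_le_max (by linarith) le_rfl
    linarith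
  · rw [max_eq_left h1, max_eq_left (a := b - l) (by linarith)]
    rcases le_total (a - L) 0 with h2 | h2
    · rw [max_eq_right h2]
      rcases le_total (b - L) 0 with h3 | h3
      · rw [max_eq_right h3]; linarith
      · rw [max_eq_left h3]; linarith
    · rw [max_eq_left h2, max_eq_left (a := b - L) (by linarith)]; linarith

/-- Swapping involution. -/
lemma exists_swap [DecidableEq ι] {S T : Finset ι} (hd : Disjoint S T) (hc : S.card = T.card) :
    ∃ π : Equiv.Perm ι, (∀ i ∈ S, π i ∈ T) ∧ (∀ i ∈ T, π i ∈ S) ∧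
      (∀ i, i ∉ S → i ∉ T → π i = i) := by
  classical
  let e : S ≃ T := Finset.equivOfCardEq hc
  let f : ι → ι := fun i =>
    if h : i ∈ S then (e ⟨i, h⟩ : ι) else if h' : i ∈ T then (e.symm ⟨i, h'⟩ : ι) else i
  have fS : ∀ i (h : i ∈ S), f i = e ⟨i, h⟩ := fun i h => by simp only [f, dif_pos h]
  have fT : ∀ i (h : i ∈ T), f i = e.symm ⟨i, h⟩ := fun i h => by
    have h' : i ∉ S := fun h'' => (Finset.disjoint_left.mp hd) h'' h
    simp only [f, dif_neg h', dif_pos h]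
  have fN : ∀ i, i ∉ S → i ∉ T → f i = i := fun i h h' => by
    simp only [f, dif_neg h, dif_neg h']
  have hinv : Function.Involutive f := by
    intro i
    by_cases h : i ∈ S
    · rw [fS i h, fT _ (e ⟨i, h⟩).2]
      simp
    · by_cases h' : i ∈ T
      · rw [fT i h', fS _ (e.symm ⟨i, h'⟩).2]
        simp
      · rw [fN i h h', fN i h h']
  refine ⟨hinv.toPerm f, fun i hi => ?_, fun i hi => ?_, fun i h h' => ?_⟩
  · change f i ∈ T
    rw [fS i hi]; exact (e ⟨i, hi⟩).2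
  · change f i ∈ S
    rw [fT i hi]; exact (e.symm ⟨i, hi⟩).2
  · exact fN i h h'

/-- Property (A) for the family of admissible weights. -/
theorem propA [DecidableEq ι] {E S T : Finset ι} {g v u : ι → ℝ} (h : Adm E g v u)
    (hS : S ⊆ E) (hT : T ⊆ E) (hd : Disjoint S T) (hc : S.card = T.card)
    (hvT : ∀ i ∈ T, v i = 0) (huT : ∀ i ∈ T, u i = 0) :
    ∃ v' u' : ι → ℝ, Adm E g v' u' ∧ ∀ (x : ι → ℝ) (t : ℝ), (∀ i ∈ E \ (S ∪ T), x i ≤ t) →
      ∑ i ∈ E \ (S ∪ T), (v i + u i) * x i + t * ∑ i ∈ S, (v i + u i) ≤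
        ∑ i ∈ E \ (S ∪ T), (v' i + u' i) * x i + t * ∑ i ∈ T, (v' i + u' i) := by
  obtain ⟨π, πS, πT, πN⟩ := exists_swap hd hc
  have πE : ∀ i, i ∈ E ↔ π i ∈ E := by
    have key : ∀ i, i ∈ E → π i ∈ E := fun i hi => by
      by_cases h1 : i ∈ S
      · exact hT (πS i h1)
      · by_cases h2 : i ∈ T
        · exact hS (πT i h2)
        · rw [πN i h1 h2]; exact hi
    intro i
    refine ⟨key i, fun hi => ?_⟩
    by_contra hcon
    have h1 : i ∉ S := fun h' => hcon (hS h')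
    have h2 : i ∉ T := fun h' => hcon (hT h')
    rw [πN i h1 h2] at hi
    exact hcon hi
  have hsum : ∀ F : ι → ℝ, ∑ i ∈ E, F (π i) = ∑ i ∈ E, F i := fun F =>
    Finset.sum_equiv π πE fun i _ => rfl
  have hout : ∀ i, i ∉ E → π i = i := fun i hi =>
    πN i (fun h' => hi (hS h')) (fun h' => hi (hT h'))
  have hvS : ∀ i ∈ S, v (π i) = 0 := fun i hi => hvT _ (πS i hi)
  have huS : ∀ i ∈ S, u (π i) = 0 := fun i hi => huT _ (πS i hi)
  obtain ⟨v', u', hA, hle, hmass⟩ := core (E := E) (T := T) (g := g) (v := fun i => v (π i))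
    (u := fun i => u (π i)) hT (fun i => h.v0 _) (fun i => h.u0 _) h.g0 h.gs
    (fun i hi => by rw [hout i hi]; exact h.us i hi)
    (fun i hi => by rw [hout i hi]; exact h.vs hi)
    (fun i => h.dj _)
    (fun i hi => by
      by_cases h1 : i ∈ S
      · rw [hvS i h1]; exact h.g0 i
      · rw [πN i h1 hi]; exact h.vg i)
    (by rw [hsum fun i => v i + u i]; exact h.b)
    (fun i => by rw [hsum u]; exact h.c _)
    (fun l L hl => by
      rw [hsum fun j => pp (v j - l) - pp (v j - L)]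
      exact sum_le_sum fun j _ => pp_diff_mono (h.vg j) hl)
    (fun l hl ⟨i, hi⟩ => by
      rw [hsum fun j => pp (u j - 4 * l), hsum u]
      exact h.d l hl ⟨π i, hi⟩)
  refine ⟨v', u', hA, fun x t hx => ?_⟩
  have hsplit : ∀ F : ι → ℝ, ∑ i ∈ E, F i = ∑ i ∈ E \ (S ∪ T), F i + (∑ i ∈ S, F i + ∑ i ∈ T, F i) := by
    intro F
    rw [← sum_union hd]
    exact (sum_sdiff (union_subset hS hT)).symm
  have e1 : ∑ i ∈ S, (v' i + u' i) = 0 := sum_eq_zero fun i hi => by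
    have h1 := hle i (fun h' => (Finset.disjoint_left.mp hd) hi h')
    simp only [hvS i hi, huS i hi, add_zero] at h1
    exact le_antisymm h1 (add_nonneg (hA.v0 i) (hA.u0 i))
  have e2 : ∑ i ∈ E, (v' i + u' i) = ∑ i ∈ E, (v i + u i) := by
    rw [hmass]; exact hsum fun i => v i + u i
  have e3 : ∑ i ∈ T, (v i + u i) = 0 := sum_eq_zero fun i hi => by
    rw [hvT i hi, huT i hi, add_zero]
  rw [hsplit, hsplit fun i => v i + u i, e1, e3] at e2
  have e4 : ∑ i ∈ E \ (S ∪ T), ((v i + u i) - (v' i + u' i)) * x i ≤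
      ∑ i ∈ E \ (S ∪ T), ((v i + u i) - (v' i + u' i)) * t := by
    refine sum_le_sum fun i hi => mul_le_mul_of_nonneg_left (hx i hi) ?_
    have hi' := (mem_sdiff.mp hi).2
    rw [mem_union, not_or] at hi'
    have h1 := hle i hi'.2
    simp only [πN i hi'.1 hi'.2] at h1
    linarith
  have e5 : ∑ i ∈ E \ (S ∪ T), ((v i + u i) - (v' i + u' i)) * x i =
      ∑ i ∈ E \ (S ∪ T), (v i + u i) * x i - ∑ i ∈ E \ (S ∪ T), (v' i + u' i) * x i := by
    rw [← sum_sub_distrib]; exact sum_congr rfl fun i _ => by ring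
  have e6 : ∑ i ∈ E \ (S ∪ T), ((v i + u i) - (v' i + u' i)) * t =
      t * (∑ i ∈ E \ (S ∪ T), (v i + u i) - ∑ i ∈ E \ (S ∪ T), (v' i + u' i)) := by
    rw [← sum_sub_distrib, ← sum_mul]; ring
  rw [e5, e6] at e4
  have e7 : ∑ i ∈ E \ (S ∪ T), (v i + u i) - ∑ i ∈ E \ (S ∪ T), (v' i + u' i) =
      ∑ i ∈ T, (v' i + u' i) - ∑ i ∈ S, (v i + u i) := by linarith
  rw [e7] at e4
  linarith

/-- Boundedness of the `u` part against a functional of democracy type. -/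
theorem u_bound {E : Finset ι} {g v u : ι → ℝ} (h : Adm E g v u) {θ C2 C3 : ℝ} (h0 : 0 < θ)
    (h1 : θ < 1) (hC2 : 0 ≤ C2) (hC3 : 0 ≤ C3)
    (F3 : ∀ F : Finset ι, ∑ i ∈ F, g i ≤ C2 * (F.card : ℝ) ^ θ)
    (z : ι → ℝ) (z0 : ∀ i, 0 ≤ z i)
    (F4 : ∀ F : Finset ι, ∑ i ∈ F, z i ≤ C3 * (F.card : ℝ) ^ (1 - θ)) :
    ∑ i ∈ E, u i * z i ≤ 16 * C2 * C3 := by
  classical
  have h1' : 0 < 1 - θ := by linarith
  by_cases hu : ∀ i ∈ E, u i = 0
  · rw [sum_eq_zero fun i hi => by rw [hu i hi, zero_mul]]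
    positivity
  push Not at hu
  obtain ⟨i1, hi1, hi1'⟩ := hu
  obtain ⟨i0, hi0, hmax⟩ := exists_max_image E u ⟨i1, hi1⟩
  set M := u i0 with hM
  have hMpos : 0 < M := (lt_of_le_of_ne (h.u0 i1) (Ne.symm hi1')).trans_le (hmax i1 hi1)
  set n := ∑ i ∈ E, u i with hn
  have hnpos : 0 < n := hMpos.trans_le (single_le_sum (fun i _ => h.u0 i) hi0)
  -- level set of g
  set l := M / 8 with hl
  have hlpos : 0 < l := by positivity
  have hd := h.d l hlpos ⟨i0, by rw [hl]; linarith⟩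
  set F := E.filter (fun i => l < g i) with hF
  have hpp0 : 0 ≤ ∑ j ∈ E, pp (u j - 4 * l) := sum_nonneg fun _ _ => pp_nonneg _
  have hgF : ∑ j ∈ E, pp (g j - l) ≤ ∑ j ∈ F, g j := by
    rw [hF, sum_filter]
    refine sum_le_sum fun j _ => ?_
    split_ifs with hj
    · rw [pp_of_nonneg (by linarith)]; linarith
    · rw [pp_of_nonpos (by linarith)]
  have hn8 : n ≤ 8 * ∑ j ∈ F, g j := by linarith
  have hFc : 0 < (F.card : ℝ) := by
    rw [Nat.cast_pos, card_pos]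
    by_contra hcon
    rw [not_nonempty_iff_eq_empty] at hcon
    rw [hcon, sum_empty] at hn8
    linarith
  have hlF : l * F.card ≤ ∑ j ∈ F, g j := by
    rw [mul_comm, ← nsmul_eq_mul]
    exact card_nsmul_le_sum F g l fun j hj => (mem_filter.mp hj).2.le
  have hF3 := F3 F
  have hFθ : 0 < (F.card : ℝ) ^ θ := Real.rpow_pos_of_pos hFc _
  have hFθ' : 0 < (F.card : ℝ) ^ (1 - θ) := Real.rpow_pos_of_pos hFc _
  have hcard : l * (F.card : ℝ) ^ (1 - θ) ≤ C2 := by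
    have e : (F.card : ℝ) = (F.card : ℝ) ^ θ * (F.card : ℝ) ^ (1 - θ) := by
      rw [← Real.rpow_add hFc]; norm_num
    have h2 : l * (F.card : ℝ) ≤ C2 * (F.card : ℝ) ^ θ := hlF.trans hF3
    have h3 : (l * (F.card : ℝ) ^ (1 - θ)) * (F.card : ℝ) ^ θ ≤ C2 * (F.card : ℝ) ^ θ := by
      calc (l * (F.card : ℝ) ^ (1 - θ)) * (F.card : ℝ) ^ θ = l * (F.card : ℝ) := by
            conv_rhs => rw [e]
            ring
        _ ≤ _ := h2
    exact le_of_mul_le_mul_right h3 hFθ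
  have hkey : n ^ (1 - θ) * M ^ θ ≤ 8 * C2 := by
    have h2 : n ≤ (8 * C2) * (F.card : ℝ) ^ θ := by linarith
    have h3 : n ^ (1 - θ) ≤ ((8 * C2) * (F.card : ℝ) ^ θ) ^ (1 - θ) :=
      Real.rpow_le_rpow hnpos.le h2 h1'.le
    have h4 : M * (F.card : ℝ) ^ (1 - θ) ≤ 8 * C2 := by
      have : M = 8 * l := by rw [hl]; ring
      rw [this]; linarith
    have h5 : (M * (F.card : ℝ) ^ (1 - θ)) ^ θ ≤ (8 * C2) ^ θ :=
      Real.rpow_le_rpow (by positivity) h4 h0.le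
    have h6 : ((8 * C2) * (F.card : ℝ) ^ θ) ^ (1 - θ) =
        (8 * C2) ^ (1 - θ) * ((F.card : ℝ) ^ (1 - θ)) ^ θ := by
      rw [Real.mul_rpow (by positivity) hFθ.le, ← Real.rpow_mul hFc.le, ← Real.rpow_mul hFc.le,
        mul_comm θ]
    have h7 : (M * (F.card : ℝ) ^ (1 - θ)) ^ θ = M ^ θ * ((F.card : ℝ) ^ (1 - θ)) ^ θ :=
      Real.mul_rpow hMpos.le hFθ'.le
    have h8 : 0 < M ^ θ := Real.rpow_pos_of_pos hMpos _
    have h9 : (8 * C2) = (8 * C2) ^ (1 - θ) * (8 * C2) ^ θ := by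
      have : 0 < 8 * C2 := (mul_pos hMpos hFθ').trans_le h4
      rw [← Real.rpow_add this]; norm_num
    calc n ^ (1 - θ) * M ^ θ ≤ ((8 * C2) ^ (1 - θ) * ((F.card : ℝ) ^ (1 - θ)) ^ θ) * M ^ θ := by
          rw [← h6]; exact mul_le_mul_of_nonneg_right h3 h8.le
      _ = (8 * C2) ^ (1 - θ) * (M * (F.card : ℝ) ^ (1 - θ)) ^ θ := by rw [h7]; ring
      _ ≤ (8 * C2) ^ (1 - θ) * (8 * C2) ^ θ :=
          mul_le_mul_of_nonneg_left h5 (by positivity)
      _ = 8 * C2 := h9.symm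
  -- now the functional: threshold t
  rcases hC3.eq_or_lt with hC | hC
  · -- C3 = 0
    have hz : ∀ i, z i = 0 := fun i => by
      have := F4 {i}
      rw [← hC, zero_mul, sum_singleton] at this
      exact le_antisymm this (z0 i)
    rw [sum_eq_zero fun i _ => by rw [hz i, mul_zero], ← hC, mul_zero]
  have hMn : 0 < M ^ θ * n ^ (-θ) := mul_pos (Real.rpow_pos_of_pos hMpos _) (Real.rpow_pos_of_pos hnpos _)
  set t := C3 * (M ^ θ * n ^ (-θ)) with ht
  have htpos : 0 < t := mul_pos hC hMn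
  set R := E.filter (fun i => t < z i) with hR
  have h10 : ∑ i ∈ E, u i * z i ≤ t * n + M * ∑ i ∈ R, z i := by
    rw [hn, mul_sum, hR, sum_filter, mul_sum, ← sum_add_distrib]
    refine sum_le_sum fun i hi => ?_
    split_ifs with hz
    · have := mul_le_mul_of_nonneg_right (hmax i hi) (z0 i)
      have := mul_nonneg htpos.le (h.u0 i)
      linarith
    · have := mul_le_mul_of_nonneg_left (not_lt.mp hz) (h.u0 i)
      linarith
  have h11 : M * ∑ i ∈ R, z i ≤ C3 * (M ^ θ * n ^ (1 - θ)) := by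
    rcases R.eq_empty_or_nonempty with hRe | hRe
    · rw [hRe, sum_empty, mul_zero]; positivity
    have hRc : 0 < (R.card : ℝ) := by rw [Nat.cast_pos, card_pos]; exact hRe
    have hRθ : 0 < (R.card : ℝ) ^ θ := Real.rpow_pos_of_pos hRc _
    have hRθ' : 0 < (R.card : ℝ) ^ (1 - θ) := Real.rpow_pos_of_pos hRc _
    have htR : t * R.card ≤ ∑ i ∈ R, z i := by
      rw [mul_comm, ← nsmul_eq_mul]
      exact card_nsmul_le_sum R z t fun j hj => (mem_filter.mp hj).2.le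
    have h12 := F4 R
    have h13 : t * (R.card : ℝ) ^ θ ≤ C3 := by
      have e : (R.card : ℝ) = (R.card : ℝ) ^ θ * (R.card : ℝ) ^ (1 - θ) := by
        rw [← Real.rpow_add hRc]; norm_num
      have h3 : (t * (R.card : ℝ) ^ θ) * (R.card : ℝ) ^ (1 - θ) ≤ C3 * (R.card : ℝ) ^ (1 - θ) := by
        calc (t * (R.card : ℝ) ^ θ) * (R.card : ℝ) ^ (1 - θ) = t * (R.card : ℝ) := by
              conv_rhs => rw [e]
              ring
          _ ≤ _ := htR.trans h12
      exact le_of_mul_le_mul_right h3 hRθ'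
    -- (card R)^θ ≤ (n / M)^θ
    have h14 : (R.card : ℝ) ^ θ ≤ (n / M) ^ θ := by
      have h15 : (M ^ θ * n ^ (-θ)) * (R.card : ℝ) ^ θ ≤ 1 := by
        have : C3 * ((M ^ θ * n ^ (-θ)) * (R.card : ℝ) ^ θ) ≤ C3 * 1 := by
          rw [← mul_assoc, mul_one]; exact h13
        exact le_of_mul_le_mul_left this hC
      rw [Real.div_rpow hnpos.le hMpos.le, le_div_iff₀ (Real.rpow_pos_of_pos hMpos _)]
      have h16 : n ^ θ * ((M ^ θ * n ^ (-θ)) * (R.card : ℝ) ^ θ) ≤ n ^ θ * 1 :=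
        mul_le_mul_of_nonneg_left h15 (Real.rpow_nonneg hnpos.le _)
      have h17 : n ^ θ * n ^ (-θ) = 1 := by rw [← Real.rpow_add hnpos]; norm_num
      calc (R.card : ℝ) ^ θ * M ^ θ = (n ^ θ * n ^ (-θ)) * (M ^ θ * (R.card : ℝ) ^ θ) := by
            rw [h17]; ring
        _ = n ^ θ * ((M ^ θ * n ^ (-θ)) * (R.card : ℝ) ^ θ) := by ring
        _ ≤ n ^ θ * 1 := h16
        _ = n ^ θ := mul_one _
    have h18 : (R.card : ℝ) ≤ n / M := (Real.rpow_le_rpow_iff hRc.le (by positivity) h0).mp h14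
    have h19 : (R.card : ℝ) ^ (1 - θ) ≤ (n / M) ^ (1 - θ) := Real.rpow_le_rpow hRc.le h18 h1'.le
    have h20 : M * (n / M) ^ (1 - θ) = M ^ θ * n ^ (1 - θ) := by
      rw [Real.div_rpow hnpos.le hMpos.le]
      have e : M = M ^ θ * M ^ (1 - θ) := by rw [← Real.rpow_add hMpos]; norm_num
      have hne : M ^ (1 - θ) ≠ 0 := (Real.rpow_pos_of_pos hMpos _).ne'
      calc M * (n ^ (1 - θ) / M ^ (1 - θ)) = (M ^ θ * M ^ (1 - θ)) * (n ^ (1 - θ) / M ^ (1 - θ)) := by
            rw [← e]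
        _ = _ := by field_simp
    calc M * ∑ i ∈ R, z i ≤ M * (C3 * (R.card : ℝ) ^ (1 - θ)) := mul_le_mul_of_nonneg_left h12 hMpos.le
      _ ≤ M * (C3 * (n / M) ^ (1 - θ)) :=
          mul_le_mul_of_nonneg_left (mul_le_mul_of_nonneg_left h19 hC3) hMpos.le
      _ = C3 * (M * (n / M) ^ (1 - θ)) := by ring
      _ = _ := by rw [h20]
  have h21 : t * n = C3 * (M ^ θ * n ^ (1 - θ)) := by
    have e : n ^ (-θ) * n = n ^ (1 - θ) := by
      have h22 : n ^ (-θ) * n ^ (1:ℝ) = n ^ (1 - θ) := by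
        rw [← Real.rpow_add hnpos]; congr 1; ring
      rwa [Real.rpow_one] at h22
    rw [ht, ← e]; ring
  calc ∑ i ∈ E, u i * z i ≤ t * n + M * ∑ i ∈ R, z i := h10
    _ ≤ C3 * (M ^ θ * n ^ (1 - θ)) + C3 * (M ^ θ * n ^ (1 - θ)) := by rw [h21]; linarith
    _ = 2 * C3 * (n ^ (1 - θ) * M ^ θ) := by ring
    _ ≤ 2 * C3 * (8 * C2) := mul_le_mul_of_nonneg_left hkey (by positivity)
    _ = 16 * C2 * C3 := by ring

end Pool.Agent.H148R3.GR
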