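import Mathlib
import Pool.Agent.H148R3.GR2

set_option autoImplicit false

open Finset

namespace Pool.Agent.H148R3.GR

variable {ι : Type*} {𝕜 : Type*} [RCLike 𝕜] {X : Type*} [NormedAddCommGroup X] [NormedSpace 𝕜 X]

/-- The values whose supremum is the new norm. -/
def Vals (a : ι → X →ₗ[𝕜] 𝕜) (G : Set (ι → ℝ)) (f : X) : Set ℝ :=
  {r | ∃ (E : Finset ι) (g v u : ι → ℝ), g ∈ G ∧ Adm E g v u ∧
    r = ∑ i ∈ E, (v i + u i) * ‖a i f‖}

/-- The new norm. -/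
noncomputable def NN (a : ι → X →ₗ[𝕜] 𝕜) (G : Set (ι → ℝ)) (f : X) : ℝ := sSup (Vals a G f)

theorem abstract_main (e : ι → X) (a : ι → X →ₗ[𝕜] 𝕜) (G : Set (ι → ℝ))
    (hbi : ∀ i, a i (e i) = 1) (hbi' : ∀ i j, i ≠ j → a i (e j) = 0)
    (g0 : ∀ g ∈ G, ∀ i, 0 ≤ g i)
    {K C2 C3 θ : ℝ} (h0 : 0 < θ) (h1 : θ < 1) (hK : 0 ≤ K) (hC2 : 0 ≤ C2) (hC3 : 0 ≤ C3)
    (F1 : ∀ f M, (∀ g ∈ G, ∀ E : Finset ι, (∀ i, i ∉ E → g i = 0) →
      ∑ i ∈ E, g i * ‖a i f‖ ≤ M) → ‖f‖ ≤ M)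
    (F2 : ∀ f, ∀ g ∈ G, ∀ E : Finset ι, (∀ i, i ∉ E → g i = 0) →
      ∑ i ∈ E, g i * ‖a i f‖ ≤ K * ‖f‖)
    (F3 : ∀ g ∈ G, ∀ F : Finset ι, ∑ i ∈ F, g i ≤ C2 * (F.card : ℝ) ^ θ)
    (F4 : ∀ f, ∀ F : Finset ι, ∑ i ∈ F, ‖a i f‖ ≤ C3 * (F.card : ℝ) ^ (1 - θ) * ‖f‖) :
    (∀ f g, NN a G (f + g) ≤ NN a G f + NN a G g) ∧
    (∀ (c : 𝕜) f, NN a G (c • f) = ‖c‖ * NN a G f) ∧
    (∀ f, ‖f‖ ≤ NN a G f) ∧ (∀ f, NN a G f ≤ (K + 16 * C2 * C3) * ‖f‖) ∧
    (∀ f (A B : Finset ι), B.card ≤ A.card → (∀ i ∈ A, ∀ j, j ∉ A → ‖a j f‖ ≤ ‖a i f‖) →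
      ∀ b : ι → 𝕜, NN a G (f - ∑ i ∈ A, a i f • e i) ≤ NN a G (f - ∑ i ∈ B, b i • e i)) := by
  classical
  have hbd : ∀ f, ∀ r ∈ Vals a G f, r ≤ (K + 16 * C2 * C3) * ‖f‖ := by
    rintro f r ⟨E, g, v, u, hg, hA, rfl⟩
    have e1 : ∑ i ∈ E, (v i + u i) * ‖a i f‖ = ∑ i ∈ E, v i * ‖a i f‖ + ∑ i ∈ E, u i * ‖a i f‖ := by
      rw [← sum_add_distrib]; exact sum_congr rfl fun i _ => by ring
    have e2 : ∑ i ∈ E, v i * ‖a i f‖ ≤ K * ‖f‖ :=
      (sum_le_sum fun i _ => mul_le_mul_of_nonneg_right (hA.vg i) (norm_nonneg _)).trans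
        (F2 f g hg E hA.gs)
    have e3 := u_bound hA h0 h1 hC2 (mul_nonneg hC3 (norm_nonneg f)) (F3 g hg)
      (fun i => ‖a i f‖) (fun i => norm_nonneg _) (fun F => by
        have := F4 f F
        calc _ ≤ _ := this
          _ = _ := by ring)
    rw [e1]
    linarith
  have hbdd : ∀ f, BddAbove (Vals a G f) := fun f => ⟨_, hbd f⟩
  have hle : ∀ f, ∀ r ∈ Vals a G f, r ≤ NN a G f := fun f r hr => le_csSup (hbdd f) hr
  have hlow : ∀ f, ‖f‖ ≤ NN a G f := fun f => F1 f _ fun g hg E hE => by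
    have := hle f _ ⟨E, g, g, 0, hg, Adm.self (g0 g hg) hE, rfl⟩
    simpa using this
  have hnn : ∀ f, 0 ≤ NN a G f := fun f => (norm_nonneg f).trans (hlow f)
  have hmem : ∀ f (E : Finset ι) (g v u : ι → ℝ), g ∈ G → Adm E g v u →
      ∑ i ∈ E, (v i + u i) * ‖a i f‖ ≤ NN a G f := fun f E g v u hg hA =>
    hle f _ ⟨E, g, v, u, hg, hA, rfl⟩
  have hsmul : ∀ (c : 𝕜) f, NN a G (c • f) ≤ ‖c‖ * NN a G f := fun c f => by
    refine Real.sSup_le ?_ (mul_nonneg (norm_nonneg _) (hnn f))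
    rintro r ⟨E, g, v, u, hg, hA, rfl⟩
    have e1 : ∑ i ∈ E, (v i + u i) * ‖a i (c • f)‖ = ‖c‖ * ∑ i ∈ E, (v i + u i) * ‖a i f‖ := by
      rw [mul_sum]; exact sum_congr rfl fun i _ => by rw [map_smul, norm_smul]; ring
    rw [e1]
    exact mul_le_mul_of_nonneg_left (hmem f E g v u hg hA) (norm_nonneg _)
  refine ⟨fun f g => ?_, fun c f => ?_, hlow, fun f => Real.sSup_le (hbd f)
    (by positivity), fun f A B hBA hgr b => ?_⟩
  · refine Real.sSup_le ?_ (add_nonneg (hnn f) (hnn g))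
    rintro r ⟨E, w, v, u, hw, hA, rfl⟩
    have e1 : ∑ i ∈ E, (v i + u i) * ‖a i (f + g)‖ ≤
        ∑ i ∈ E, (v i + u i) * ‖a i f‖ + ∑ i ∈ E, (v i + u i) * ‖a i g‖ := by
      rw [← sum_add_distrib]
      refine sum_le_sum fun i _ => ?_
      rw [map_add, ← mul_add]
      exact mul_le_mul_of_nonneg_left (norm_add_le _ _) (add_nonneg (hA.v0 i) (hA.u0 i))
    exact e1.trans (add_le_add (hmem f E w v u hw hA) (hmem g E w v u hw hA))
  · refine le_antisymm (hsmul c f) ?_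
    rcases eq_or_ne c 0 with rfl | hc
    · rw [norm_zero, zero_mul]; exact hnn _
    · have h2 := hsmul c⁻¹ (c • f)
      rw [smul_smul, inv_mul_cancel₀ hc, one_smul, norm_inv] at h2
      have h3 : 0 < ‖c‖ := norm_pos_iff.mpr hc
      calc ‖c‖ * NN a G f ≤ ‖c‖ * (‖c‖⁻¹ * NN a G (c • f)) := mul_le_mul_of_nonneg_left h2 h3.le
        _ = NN a G (c • f) := by rw [← mul_assoc, mul_inv_cancel₀ h3.ne', one_mul]
  · rcases A.eq_empty_or_nonempty with hAe | hAne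
    · have hBe : B = ∅ := by rw [← card_eq_zero]; rw [hAe, card_empty] at hBA; omega
      rw [hAe, hBe]; simp
    obtain ⟨i0, hi0, hmin⟩ := exists_min_image A (fun i => ‖a i f‖) hAne
    set t := ‖a i0 f‖ with ht
    have ht0 : 0 ≤ t := norm_nonneg _
    have hout : ∀ j, j ∉ A → ‖a j f‖ ≤ t := fun j hj => hgr i0 hi0 j hj
    -- coefficients
    have hco : ∀ (s : Finset ι) (w : ι → 𝕜) (j : ι), a j (∑ i ∈ s, w i • e i) = if j ∈ s then w j else 0 := by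
      intro s w j
      rw [map_sum]
      simp_rw [map_smul]
      by_cases hj : j ∈ s
      · rw [if_pos hj, sum_eq_single j (fun i _ hij => by rw [hbi' j i (Ne.symm hij), smul_zero])
          (fun h => absurd hj h), hbi, smul_eq_mul, mul_one]
      · rw [if_neg hj]
        refine sum_eq_zero fun i hi => ?_
        rw [hbi' j i (fun h => hj (h ▸ hi)), smul_zero]
    have hf1 : ∀ j, a j (f - ∑ i ∈ A, a i f • e i) = if j ∈ A then 0 else a j f := fun j => by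
      rw [map_sub, hco A (fun i => a i f) j]; split_ifs <;> simp
    have hf2 : ∀ j, j ∉ B → a j (f - ∑ i ∈ B, b i • e i) = a j f := fun j hj => by
      rw [map_sub, hco B b j, if_neg hj, sub_zero]
    -- the sets
    have hcard : (B \ A).card ≤ (A \ B).card := Finset.card_sdiff_le_card_sdiff_iff.mpr hBA
    obtain ⟨T, hTsub, hTcard⟩ := Finset.exists_subset_card_eq hcard
    set S := B \ A with hS
    have hTA : ∀ i ∈ T, i ∈ A := fun i hi => (mem_sdiff.mp (hTsub hi)).1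
    have hTB : ∀ i ∈ T, i ∉ B := fun i hi => (mem_sdiff.mp (hTsub hi)).2
    have hSA : ∀ i ∈ S, i ∉ A := fun i hi => (mem_sdiff.mp hi).2
    have hSB : ∀ i ∈ S, i ∈ B := fun i hi => (mem_sdiff.mp hi).1
    have hST : Disjoint S T := Finset.disjoint_left.mpr fun i hi hi' => hSA i hi (hTA i hi')
    refine Real.sSup_le ?_ (hnn _)
    rintro r ⟨E, g, v, u, hg, hA, rfl⟩
    set E' := E ∪ (A ∪ B) with hE'
    have hEE' : E ⊆ E' := subset_union_left
    have hSE : S ⊆ E' := fun i hi => mem_union_right _ (mem_union_right _ (hSB i hi))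
    have hTE : T ⊆ E' := fun i hi => mem_union_right _ (mem_union_left _ (hTA i hi))
    have hA' := hA.mono hEE'
    have hA1 := hA'.restrict {i | i ∉ A}
    set v1 := Set.indicator {i | i ∉ A} v with hv1
    set u1 := Set.indicator {i | i ∉ A} u with hu1
    have hv1A : ∀ i ∈ A, v1 i = 0 := fun i hi => Set.indicator_of_notMem (by simpa using hi) _
    have hu1A : ∀ i ∈ A, u1 i = 0 := fun i hi => Set.indicator_of_notMem (by simpa using hi) _
    have hv1N : ∀ i, i ∉ A → v1 i = v i := fun i hi => Set.indicator_of_mem (by simpa using hi) _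
    have hu1N : ∀ i, i ∉ A → u1 i = u i := fun i hi => Set.indicator_of_mem (by simpa using hi) _
    obtain ⟨v', u', hA2, hP⟩ := propA hA1 hSE hTE hST hTcard.symm (fun i hi => hv1A i (hTA i hi))
      (fun i hi => hu1A i (hTA i hi))
    set x : ι → ℝ := fun i => if i ∈ A then 0 else ‖a i f‖ with hx
    have hxA : ∀ i ∈ A, x i = 0 := fun i hi => by simp only [hx, if_pos hi]
    have hxN : ∀ i, i ∉ A → x i = ‖a i f‖ := fun i hi => by simp only [hx, if_neg hi]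
    have hxt : ∀ i, x i ≤ t := fun i => by
      by_cases hi : i ∈ A
      · rw [hxA i hi]; exact ht0
      · rw [hxN i hi]; exact hout i hi
    have hP' := hP x t fun i _ => hxt i
    have hsplit : ∀ F : ι → ℝ, ∑ i ∈ E', F i =
        ∑ i ∈ E' \ (S ∪ T), F i + (∑ i ∈ S, F i + ∑ i ∈ T, F i) := by
      intro F
      rw [← sum_union hST]
      exact (sum_sdiff (union_subset hSE hTE)).symm
    have l1 : ∑ i ∈ E, (v i + u i) * ‖a i (f - ∑ i ∈ A, a i f • e i)‖ =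
        ∑ i ∈ E', (v1 i + u1 i) * x i := by
      rw [sum_subset hEE' fun i _ hi => by rw [hA.us i hi, hA.vs hi, add_zero, zero_mul]]
      refine sum_congr rfl fun i _ => ?_
      rw [hf1 i]
      by_cases hi : i ∈ A
      · rw [if_pos hi, hxA i hi]; simp
      · rw [if_neg hi, hxN i hi, hv1N i hi, hu1N i hi]
    have l2 : ∑ i ∈ E', (v1 i + u1 i) * x i ≤
        ∑ i ∈ E' \ (S ∪ T), (v1 i + u1 i) * x i + t * ∑ i ∈ S, (v1 i + u1 i) := by
      rw [hsplit fun i => (v1 i + u1 i) * x i]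
      have e1 : ∑ i ∈ T, (v1 i + u1 i) * x i = 0 := sum_eq_zero fun i hi => by
        rw [hxA i (hTA i hi), mul_zero]
      have e2 : ∑ i ∈ S, (v1 i + u1 i) * x i ≤ t * ∑ i ∈ S, (v1 i + u1 i) := by
        rw [mul_sum]
        refine sum_le_sum fun i _ => ?_
        rw [mul_comm t]
        exact mul_le_mul_of_nonneg_left (hxt i) (add_nonneg (hA1.v0 i) (hA1.u0 i))
      linarith
    have l3 : ∑ i ∈ E' \ (S ∪ T), (v' i + u' i) * x i + t * ∑ i ∈ T, (v' i + u' i) ≤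
        ∑ i ∈ E', (v' i + u' i) * ‖a i (f - ∑ i ∈ B, b i • e i)‖ := by
      rw [hsplit fun i => (v' i + u' i) * ‖a i (f - ∑ i ∈ B, b i • e i)‖]
      have e1 : 0 ≤ ∑ i ∈ S, (v' i + u' i) * ‖a i (f - ∑ i ∈ B, b i • e i)‖ :=
        sum_nonneg fun i _ => mul_nonneg (add_nonneg (hA2.v0 i) (hA2.u0 i)) (norm_nonneg _)
      have e2 : t * ∑ i ∈ T, (v' i + u' i) ≤
          ∑ i ∈ T, (v' i + u' i) * ‖a i (f - ∑ i ∈ B, b i • e i)‖ := by
        rw [mul_sum]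
        refine sum_le_sum fun i hi => ?_
        rw [mul_comm t, hf2 i (hTB i hi)]
        exact mul_le_mul_of_nonneg_left (hmin i (hTA i hi)) (add_nonneg (hA2.v0 i) (hA2.u0 i))
      have e3 : ∑ i ∈ E' \ (S ∪ T), (v' i + u' i) * x i ≤
          ∑ i ∈ E' \ (S ∪ T), (v' i + u' i) * ‖a i (f - ∑ i ∈ B, b i • e i)‖ := by
        refine sum_le_sum fun i hi => mul_le_mul_of_nonneg_left ?_
          (add_nonneg (hA2.v0 i) (hA2.u0 i))
        by_cases hiA : i ∈ A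
        · rw [hxA i hiA]; exact norm_nonneg _
        · have hiB : i ∉ B := fun hB =>
            (mem_sdiff.mp hi).2 (mem_union_left _ (mem_sdiff.mpr ⟨hB, hiA⟩))
          rw [hxN i hiA, hf2 i hiB]
      linarith
    rw [l1]
    exact (l2.trans hP').trans (l3.trans (hmem _ E' g v' u' hg hA2))

end Pool.Agent.H148R3.GR
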