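import Mathlib

/-! An injection of `Set (Set ℕ)` into the ultrafilters on `ℕ`. -/

set_option autoImplicit false

open Filter Topology

namespace Pool.Agent.H148R3

open Classical in
/-- the trace of `s` on `{0,...,n-1}` -/
noncomputable def tr (n : ℕ) (s : Set ℕ) : Finset ℕ := (Finset.range n).filter (· ∈ s)

lemma tr_inj_eventually {s t : Set ℕ} (h : s ≠ t) : ∀ᶠ n in atTop, tr n s ≠ tr n t := by
  obtain ⟨k, hk⟩ : ∃ k, ¬ (k ∈ s ↔ k ∈ t) := by
    by_contra hc
    push Not at hc
    exact h (Set.ext hc)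
  filter_upwards [eventually_gt_atTop k] with n hn heq
  have h1 : k ∈ tr n s ↔ k ∈ tr n t := by rw [heq]
  simp only [tr, Finset.mem_filter, Finset.mem_range, hn, true_and] at h1
  exact hk h1

lemma exists_sep (F : Finset (Set ℕ)) : ∃ n : ℕ, ∀ s ∈ F, ∀ t ∈ F, tr n s = tr n t → s = t := by
  have h : ∀ᶠ n : ℕ in atTop, ∀ s ∈ F, ∀ t ∈ F, tr n s = tr n t → s = t := by
    rw [eventually_all_finset]
    intro s hs
    rw [eventually_all_finset]
    intro t ht
    by_cases hst : s = t
    · exact Eventually.of_forall fun n _ => hst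
    · filter_upwards [tr_inj_eventually hst] with n hn h
      exact absurd h hn
  exact h.exists

/-- the countable index set -/
abbrev J : Type := ℕ × Finset (Finset ℕ)

noncomputable def enc : J → ℕ := Encodable.encode

lemma enc_inj : Function.Injective enc := Encodable.encode_injective

/-- independent family -/
def indep (s : Set ℕ) : Set ℕ := {k | ∃ j : J, tr j.1 s ∈ j.2 ∧ enc j = k}

lemma mem_indep (s : Set ℕ) (j : J) : enc j ∈ indep s ↔ tr j.1 s ∈ j.2 := by
  constructor
  · rintro ⟨j', h, hj⟩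
    rw [enc_inj hj] at h
    exact h
  · intro h
    exact ⟨j, h, rfl⟩

open Classical in
noncomputable def jE (E : Set (Set ℕ)) (F : Finset (Set ℕ)) : J :=
  ((exists_sep F).choose, (F.filter (· ∈ E)).image (tr (exists_sep F).choose))

lemma jE_mem (E : Set (Set ℕ)) (F : Finset (Set ℕ)) (s : Set ℕ) (hs : s ∈ F) :
    enc (jE E F) ∈ indep s ↔ s ∈ E := by
  classical
  rw [mem_indep]
  simp only [jE, Finset.mem_image, Finset.mem_filter]
  constructor
  · rintro ⟨t, ⟨ht, htE⟩, h⟩
    have := (exists_sep F).choose_spec t ht s hs h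
    rwa [← this]
  · intro h
    exact ⟨s, ⟨hs, h⟩, rfl⟩

/-- the ultrafilter attached to `E`. -/
noncomputable def uE (E : Set (Set ℕ)) : Ultrafilter ℕ :=
  Ultrafilter.of (Filter.map (fun F => enc (jE E F)) atTop)

lemma mem_uE (E : Set (Set ℕ)) (s : Set ℕ) : indep s ∈ uE E ↔ s ∈ E := by
  classical
  have h1 : ∀ (Z : Set ℕ), (∀ᶠ F : Finset (Set ℕ) in atTop, enc (jE E F) ∈ Z) → Z ∈ uE E := by
    intro Z hZ
    have h2 : ((uE E : Ultrafilter ℕ) : Filter ℕ) ≤ Filter.map (fun F => enc (jE E F)) atTop :=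
      Ultrafilter.of_le _
    exact h2 hZ
  constructor
  · intro h
    by_contra hs
    have h3 : (indep s)ᶜ ∈ uE E := by
      apply h1
      filter_upwards [eventually_ge_atTop ({s} : Finset (Set ℕ))] with F hF
      rw [Set.mem_compl_iff, jE_mem E F s (hF (Finset.mem_singleton_self s))]
      exact hs
    exact (Ultrafilter.compl_mem_iff_notMem.1 h3) h
  · intro hs
    apply h1
    filter_upwards [eventually_ge_atTop ({s} : Finset (Set ℕ))] with F hF
    rw [jE_mem E F s (hF (Finset.mem_singleton_self s))]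
    exact hs

lemma uE_inj : Function.Injective uE := by
  intro E E' h
  ext s
  rw [← mem_uE E s, ← mem_uE E' s, h]

end Pool.Agent.H148R3
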