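import Mathlib
import Pool.Agent.H148R3.Auto
import Pool.Agent.H148R3.Indep

/-! The gluing lemma for `c₀`-type decompositions. -/

set_option autoImplicit false

open Filter Topology Set

namespace Pool.Agent.H148R3

variable {𝕜 : Type*} [RCLike 𝕜]
variable {X : Type*} [NormedAddCommGroup X] [NormedSpace 𝕜 X]

/-- A family of projections indexed by the sets of natural numbers, of `c₀`-type. -/
structure C0Sys (P : Set ℕ → (X →L[𝕜] X)) (c : ℝ) : Prop where
  mul : ∀ A B, P A * P B = P (A ∩ B)
  add : ∀ A B, Disjoint A B → P (A ∪ B) = P A + P B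
  tail : ∀ x, Tendsto (fun m : ℕ => P (Ici m) x) atTop (𝓝 0)
  glue : ∀ (F : Finset ℕ) (C : ℕ → Set ℕ) (z : ℕ → X) (M : ℝ), 0 ≤ M →
    (∀ i j, i ≠ j → Disjoint (C i) (C j)) → (∀ n, ‖z n‖ ≤ M) → ‖∑ n ∈ F, P (C n) (z n)‖ ≤ c * M

namespace C0Sys

variable {P : Set ℕ → (X →L[𝕜] X)} {c : ℝ} (h : C0Sys P c)
include h

lemma empty : P ∅ = 0 := by
  have := h.add ∅ ∅ (Set.disjoint_empty _)
  simpa using this

lemma tail' (A : Set ℕ) (x : X) : Tendsto (fun m : ℕ => P (A ∩ Ici m) x) atTop (𝓝 0) := by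
  have h1 : ∀ m, P (A ∩ Ici m) x = P A (P (Ici m) x) := by
    intro m
    rw [← h.mul]
    rfl
  simp only [h1]
  have := ((P A).continuous.tendsto 0).comp (h.tail x)
  simpa [Function.comp_def] using this

lemma c_nonneg [Nontrivial X] : 0 ≤ c := by
  have := h.glue ∅ (fun n => {n}) (fun _ => 0) 1 zero_le_one
    (fun i j hij => by simpa using hij) (by simp)
  simpa using this

lemma norm_le (A : Set ℕ) (x : X) : ‖P A x‖ ≤ c * ‖x‖ := by
  have h1 := h.glue {0} (fun n => if n = 0 then A else ∅) (fun _ => x) ‖x‖ (norm_nonneg _)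
    (fun i j hij => by
      by_cases hi : i = 0
      · have hj : j ≠ 0 := fun hj => hij (hi.trans hj.symm)
        simp [hj]
      · simp [hi]) (fun _ => le_rfl)
  simpa using h1

/-- Gluing of operators. -/
lemma glue_ops [CompleteSpace X] [TopologicalSpace.SeparableSpace X] [Nontrivial X]
    (T : ℕ → (X →L[𝕜] X)) (M : ℝ) (hM : 0 ≤ M) (hT : ∀ n, ‖T n‖ ≤ M)
    (B : ℕ → Set ℕ) (hB : ∀ i j, i ≠ j → Disjoint (B i) (B j)) :
    ∃ (m : ℕ → ℕ) (S : X →L[𝕜] X), ∀ n, P (B n) * S = P (B n ∩ Ici (m n)) * T n := by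
  classical
  have hc := h.c_nonneg
  set d := TopologicalSpace.denseSeq X with hd
  have hdd : DenseRange d := TopologicalSpace.denseRange_denseSeq X
  have h1 : ∀ n, ∃ m : ℕ, ∀ j ≤ n, ‖P (B n ∩ Ici m) (T n (d j))‖ ≤ (1 / 2) ^ n := by
    intro n
    have h2 : ∀ᶠ m : ℕ in atTop, ∀ j ∈ Finset.range (n + 1),
        ‖P (B n ∩ Ici m) (T n (d j))‖ ≤ (1 / 2) ^ n := by
      rw [eventually_all_finset]
      intro j _
      have h3 := (h.tail' (B n) (T n (d j))).norm
      rw [norm_zero] at h3
      exact (h3.eventually (gt_mem_nhds (by positivity : (0 : ℝ) < (1 / 2) ^ n))).mono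
        fun m hm => hm.le
    obtain ⟨m, hm⟩ := h2.exists
    exact ⟨m, fun j hj => hm j (Finset.mem_range.2 (by omega))⟩
  choose m hm using h1
  set T' : ℕ → (X →L[𝕜] X) := fun n => P (B n ∩ Ici (m n)) * T n with hT'
  have hdis : ∀ i j, i ≠ j → Disjoint (B i ∩ Ici (m i)) (B j ∩ Ici (m j)) := fun i j hij =>
    (hB i j hij).mono inter_subset_left inter_subset_left
  set S : ℕ → (X →L[𝕜] X) := fun N => ∑ n ∈ Finset.range N, T' n with hS
  have hSapp : ∀ N x, S N x = ∑ n ∈ Finset.range N, P (B n ∩ Ici (m n)) (T n x) := by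
    intro N x
    simp only [hS, hT']
    rw [ContinuousLinearMap.sum_apply]
    rfl
  have hTx : ∀ n x, ‖T n x‖ ≤ M * ‖x‖ := fun n x =>
    (ContinuousLinearMap.le_opNorm _ _).trans (by gcongr; exact hT n)
  have hSb : ∀ N x, ‖S N x‖ ≤ c * (M * ‖x‖) := by
    intro N x
    rw [hSapp]
    exact h.glue _ _ (fun n => T n x) _ (by positivity) hdis (fun n => hTx n x)
  -- Cauchy on the dense sequence
  have hcd : ∀ j, CauchySeq (fun N => S N (d j)) := by
    intro j
    have hsum : Summable (fun n => ‖P (B n ∩ Ici (m n)) (T n (d j))‖) := by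
      have hg : Summable (fun n : ℕ => ((1 : ℝ) / 2) ^ n) :=
        summable_geometric_of_lt_one (by norm_num) (by norm_num)
      rw [← summable_nat_add_iff j] at hg ⊢
      refine Summable.of_nonneg_of_le (fun n => norm_nonneg _) (fun n => ?_) hg
      exact hm (n + j) j (by omega)
    have := hsum.of_norm.hasSum.tendsto_sum_nat.cauchySeq
    simpa only [hSapp] using this
  have hcx : ∀ x, CauchySeq (fun N => S N x) := by
    intro x
    rw [Metric.cauchySeq_iff]
    intro ε hε
    set K : ℝ := c * M + 1 with hK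
    have hK0 : 0 < K := by positivity
    obtain ⟨j, hj⟩ := hdd.exists_dist_lt x (show 0 < ε / (4 * K) by positivity)
    obtain ⟨N, hN⟩ := Metric.cauchySeq_iff.1 (hcd j) (ε / 4) (by positivity)
    refine ⟨N, fun a ha b hb => ?_⟩
    have h2 := hN a ha b hb
    have h3 : ∀ a, dist (S a x) (S a (d j)) ≤ ε / 4 := by
      intro a
      rw [dist_eq_norm, ← map_sub]
      refine (hSb a _).trans ?_
      rw [dist_eq_norm] at hj
      have h5 : c * (M * ‖x - d j‖) ≤ K * (ε / (4 * K)) := by
        rw [← mul_assoc]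
        gcongr
        linarith
      refine h5.trans (le_of_eq ?_)
      field_simp
    have h4 : dist (S a x) (S b x) ≤
        dist (S a x) (S a (d j)) + dist (S a (d j)) (S b (d j)) + dist (S b (d j)) (S b x) :=
      dist_triangle4 _ _ _ _
    have h5 := h3 a
    have h6 := h3 b
    rw [dist_comm] at h6
    linarith
  choose L hL using fun x => cauchySeq_tendsto_of_complete (hcx x)
  let Slin : X →ₗ[𝕜] X :=
    { toFun := L
      map_add' := fun x y => by
        refine tendsto_nhds_unique (hL (x + y)) ?_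
        have := (hL x).add (hL y)
        simpa only [map_add] using this
      map_smul' := fun r x => by
        refine tendsto_nhds_unique (hL (r • x)) ?_
        have := (hL x).const_smul r
        simpa only [map_smul, RingHom.id_apply] using this }
  have hLb : ∀ x, ‖Slin x‖ ≤ (c * M) * ‖x‖ := by
    intro x
    refine le_of_tendsto (hL x).norm (Eventually.of_forall fun N => ?_)
    rw [mul_assoc]
    exact hSb N x
  refine ⟨m, LinearMap.mkContinuous Slin (c * M) hLb, fun n => ?_⟩
  ext x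
  change P (B n) (L x) = P (B n ∩ Ici (m n)) (T n x)
  have h2 : Tendsto (fun N => P (B n) (S N x)) atTop (𝓝 (P (B n) (L x))) :=
    ((P (B n)).continuous.tendsto _).comp (hL x)
  refine tendsto_nhds_unique h2 ?_
  refine tendsto_const_nhds.congr' ?_
  filter_upwards [eventually_gt_atTop n] with N hN
  rw [hSapp, map_sum]
  rw [Finset.sum_eq_single n]
  · change _ = (P (B n) * P (B n ∩ Ici (m n))) (T n x)
    rw [h.mul, ← inter_assoc, inter_self]
  · intro k _ hk
    change (P (B n) * P (B k ∩ Ici (m k))) (T k x) = 0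
    rw [h.mul]
    have : B n ∩ (B k ∩ Ici (m k)) = ∅ := by
      rw [← inter_assoc, (hB n k hk.symm).inter_eq, empty_inter]
    rw [this, h.empty]
    rfl
  · intro hn
    exact absurd (Finset.mem_range.2 hN) hn

end C0Sys

end Pool.Agent.H148R3
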