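import Mathlib

set_option autoImplicit false

open Finset

namespace Pool.Agent.H148R3.HR

/-- Values on the cells of level `n` of the Haar series with coefficients `c`. -/
def val {K : Type*} [Ring K] (r : K) (c : ℕ → K) : ℕ → ℕ → K
  | 0, _ => c 0
  | n + 1, k => val r c n (k / 2) + (if k % 2 = 0 then 1 else -1) * (r ^ n * c (2 ^ n + k / 2))

section ring
variable {K : Type*} [CommRing K]

lemma val_even (r : K) (c : ℕ → K) (n j : ℕ) :
    val r c (n + 1) (2 * j) = val r c n j + r ^ n * c (2 ^ n + j) := by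
  rw [val, Nat.mul_div_cancel_left _ (by norm_num), if_pos (by omega)]; ring

lemma val_odd (r : K) (c : ℕ → K) (n j : ℕ) :
    val r c (n + 1) (2 * j + 1) = val r c n j - r ^ n * c (2 ^ n + j) := by
  rw [val, show (2 * j + 1) / 2 = j by omega, if_neg (by omega)]; ring

lemma sum_double {M : Type*} [AddCommMonoid M] (F : ℕ → M) (n : ℕ) :
    ∑ k ∈ range (2 * n), F k = ∑ j ∈ range n, (F (2 * j) + F (2 * j + 1)) := by
  induction n with
  | zero => simp
  | succ n ih => rw [show 2 * (n + 1) = 2 * n + 1 + 1 by ring, sum_range_succ, sum_range_succ, ih,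
      sum_range_succ, add_assoc]

lemma sum_pow_succ {M : Type*} [AddCommMonoid M] (F : ℕ → M) (n : ℕ) :
    ∑ k ∈ range (2 ^ (n + 1)), F k = ∑ j ∈ range (2 ^ n), (F (2 * j) + F (2 * j + 1)) := by
  rw [show 2 ^ (n + 1) = 2 * 2 ^ n by ring, sum_double]

lemma sum_pow_succ' {M : Type*} [AddCommMonoid M] (F : ℕ → M) (n : ℕ) :
    ∑ k ∈ range (2 ^ (n + 1)), F k =
      ∑ j ∈ range (2 ^ n), F j + ∑ j ∈ range (2 ^ n), F (2 ^ n + j) := by
  rw [show 2 ^ (n + 1) = 2 ^ n + 2 ^ n by ring, sum_range_add]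

lemma pairing {r s : K} (hrs : r * s = 2) (a b : ℕ → K) (n : ℕ) :
    ∑ k ∈ range (2 ^ n), val r a n k * val s b n k = 2 ^ n * ∑ m ∈ range (2 ^ n), a m * b m := by
  induction n with
  | zero => simp [val]
  | succ n ih =>
    rw [sum_pow_succ, sum_pow_succ' (fun m => a m * b m)]
    have hp : r ^ n * s ^ n = 2 ^ n := by rw [← mul_pow, hrs]
    have e : ∀ j, val r a (n + 1) (2 * j) * val s b (n + 1) (2 * j) +
        val r a (n + 1) (2 * j + 1) * val s b (n + 1) (2 * j + 1) =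
        2 * (val r a n j * val s b n j) + 2 * (2 ^ n * (a (2 ^ n + j) * b (2 ^ n + j))) := by
      intro j
      rw [val_even, val_even, val_odd, val_odd]
      linear_combination (2 * a (2 ^ n + j) * b (2 ^ n + j)) * hp
    simp_rw [e]
    rw [sum_add_distrib, ← mul_sum, ← mul_sum, ih, ← mul_sum]
    ring

lemma val_congr (r : K) {c c' : ℕ → K} {n : ℕ} (h : ∀ m < 2 ^ n, c m = c' m) :
    ∀ k < 2 ^ n, val r c n k = val r c' n k := by
  induction n with
  | zero => intro k _; simp only [val]; exact h 0 (by norm_num)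
  | succ n ih =>
    intro k hk
    have hk2 : k / 2 < 2 ^ n := by rw [pow_succ] at hk; omega
    rw [val, val, ih (fun m hm => h m (hm.trans (by rw [pow_succ]; omega))) _ hk2,
      h (2 ^ n + k / 2) (by rw [pow_succ]; omega)]

end ring

lemma surj {K : Type*} [Field K] [CharZero K] {s : K} (hs : s ≠ 0) (n : ℕ) :
    ∀ B : ℕ → K, ∃ b : ℕ → K, (∀ m, 2 ^ n ≤ m → b m = 0) ∧
      ∀ k < 2 ^ n, val s b n k = B k := by
  induction n with
  | zero =>
    intro B
    refine ⟨fun m => if m = 0 then B 0 else 0, fun m hm => ?_, fun k hk => ?_⟩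
    · show (if m = 0 then B 0 else 0) = 0
      rw [if_neg (by simp at hm; omega)]
    · have : k = 0 := by simp at hk; exact hk
      simp [val, this]
  | succ n ih =>
    intro B
    obtain ⟨b, hb0, hb⟩ := ih (fun j => (B (2 * j) + B (2 * j + 1)) / 2)
    set b' : ℕ → K := fun m => if m < 2 ^ n then b m else if m < 2 ^ (n + 1) then
      (B (2 * (m - 2 ^ n)) - B (2 * (m - 2 ^ n) + 1)) / (2 * s ^ n) else 0 with hb'
    refine ⟨b', fun m hm => ?_, fun k hk => ?_⟩
    · simp only [hb']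
      rw [if_neg (by rw [pow_succ] at hm; omega), if_neg (by omega)]
    · have hk2 : k / 2 < 2 ^ n := by rw [pow_succ] at hk; omega
      have h1 : val s b' n (k / 2) = (B (2 * (k / 2)) + B (2 * (k / 2) + 1)) / 2 := by
        rw [val_congr s (c' := b) (fun m hm => by simp only [hb', if_pos hm]) _ hk2]
        exact hb _ hk2
      have h2 : b' (2 ^ n + k / 2) = (B (2 * (k / 2)) - B (2 * (k / 2) + 1)) / (2 * s ^ n) := by
        simp only [hb']
        rw [if_neg (by omega), if_pos (by rw [pow_succ]; omega), Nat.add_sub_cancel_left]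
      have hsn : s ^ n ≠ 0 := pow_ne_zero _ hs
      rw [val, h1, h2]
      rcases Nat.mod_two_eq_zero_or_one k with h | h
      · rw [if_pos h]
        have : 2 * (k / 2) = k := by omega
        rw [this]; field_simp; ring
      · rw [if_neg (by omega)]
        have : 2 * (k / 2) + 1 = k := by omega
        rw [this]; field_simp; ring

/-! ### The Bellman function -/

/-- The biconcave function, in coordinates `u = x + y`, `v = x - y`. -/
noncomputable def W (t u v : ℝ) : ℝ :=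
  if |v| ≤ t then min 0 (min ((t - u) * (t + v)) ((t + u) * (t - v)))
  else min ((t - u) * (t + v)) ((t + u) * (t - v))

lemma W_symm {t : ℝ} (ht : 0 < t) (u v : ℝ) : W t u v = W t v u := by
  have e1 : (t - v) * (t + u) = (t + u) * (t - v) := by ring
  have e2 : (t + v) * (t - u) = (t - u) * (t + v) := by ring
  unfold W
  rw [e1, e2, min_comm ((t + u) * (t - v))]
  set P := (t - u) * (t + v) with hP
  set Q := (t + u) * (t - v) with hQ
  by_cases hv : |v| ≤ t <;> by_cases hu : |u| ≤ t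
  · rw [if_pos hv, if_pos hu]
  · rw [if_pos hv, if_neg hu]
    apply min_eq_right
    rw [abs_le] at hv hu
    rw [not_and_or, not_le, not_le] at hu
    rcases hu with h | h
    · exact (min_le_right _ _).trans (by rw [hQ]; exact mul_nonpos_of_nonpos_of_nonneg (by linarith) (by linarith))
    · exact (min_le_left _ _).trans (by rw [hP]; exact mul_nonpos_of_nonpos_of_nonneg (by linarith) (by linarith))
  · rw [if_neg hv, if_pos hu]
    symm
    apply min_eq_right
    rw [abs_le] at hv hu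
    rw [not_and_or, not_le, not_le] at hv
    rcases hv with h | h
    · exact (min_le_left _ _).trans (by rw [hP]; exact mul_nonpos_of_nonneg_of_nonpos (by linarith) (by linarith))
    · exact (min_le_right _ _).trans (by rw [hQ]; exact mul_nonpos_of_nonneg_of_nonpos (by linarith) (by linarith))
  · rw [if_neg hv, if_neg hu]

lemma W_conc (t u v d : ℝ) : W t (u + d) v + W t (u - d) v ≤ 2 * W t u v := by
  unfold W
  have m1 : ∀ a b : ℝ, min a b ≤ a := fun a b => min_le_left _ _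
  have m2 : ∀ a b : ℝ, min a b ≤ b := fun a b => min_le_right _ _
  split_ifs with hv
  · have h1 := m1 0 (min ((t - (u + d)) * (t + v)) ((t + (u + d)) * (t - v)))
    have h2 := m2 0 (min ((t - (u + d)) * (t + v)) ((t + (u + d)) * (t - v)))
    have h3 := m1 ((t - (u + d)) * (t + v)) ((t + (u + d)) * (t - v))
    have h4 := m2 ((t - (u + d)) * (t + v)) ((t + (u + d)) * (t - v))
    have h1' := m1 0 (min ((t - (u - d)) * (t + v)) ((t + (u - d)) * (t - v)))
    have h2' := m2 0 (min ((t - (u - d)) * (t + v)) ((t + (u - d)) * (t - v)))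
    have h3' := m1 ((t - (u - d)) * (t + v)) ((t + (u - d)) * (t - v))
    have h4' := m2 ((t - (u - d)) * (t + v)) ((t + (u - d)) * (t - v))
    set L := min 0 (min ((t - (u + d)) * (t + v)) ((t + (u + d)) * (t - v))) +
      min 0 (min ((t - (u - d)) * (t + v)) ((t + (u - d)) * (t - v))) with hL
    have : L / 2 ≤ min 0 (min ((t - u) * (t + v)) ((t + u) * (t - v))) := by
      refine le_min (by linarith) (le_min ?_ ?_)
      · nlinarith
      · nlinarith
    linarith
  · have h3 := m1 ((t - (u + d)) * (t + v)) ((t + (u + d)) * (t - v))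
    have h4 := m2 ((t - (u + d)) * (t + v)) ((t + (u + d)) * (t - v))
    have h3' := m1 ((t - (u - d)) * (t + v)) ((t + (u - d)) * (t - v))
    have h4' := m2 ((t - (u - d)) * (t + v)) ((t + (u - d)) * (t - v))
    set L := (min ((t - (u + d)) * (t + v)) ((t + (u + d)) * (t - v))) +
      (min ((t - (u - d)) * (t + v)) ((t + (u - d)) * (t - v))) with hL
    have : L / 2 ≤ (min ((t - u) * (t + v)) ((t + u) * (t - v))) := by
      refine le_min ?_ ?_
      · nlinarith
      · nlinarith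
    linarith

lemma W_conc' {t : ℝ} (ht : 0 < t) (u v d : ℝ) : W t u (v + d) + W t u (v - d) ≤ 2 * W t u v := by
  rw [W_symm ht u, W_symm ht u, W_symm ht u]; exact W_conc t v u d

/-- In the coordinates `x, y`. -/
noncomputable def w (t x y : ℝ) : ℝ := W t (x + y) (x - y)

lemma w_step {t : ℝ} (ht : 0 < t) (x y h k : ℝ) (hk : k = h ∨ k = -h) :
    w t (x + h) (y + k) + w t (x - h) (y - k) ≤ 2 * w t x y := by
  unfold w
  rcases hk with rfl | rfl
  · have := W_conc t (x + y) (x - y) (2 * k)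
    rw [show x + k + (y + k) = x + y + 2 * k by ring, show x + k - (y + k) = x - y by ring,
      show x - k + (y - k) = x + y - 2 * k by ring, show x - k - (y - k) = x - y by ring]
    exact this
  · have := W_conc' ht (x + y) (x - y) (2 * h)
    rw [show x + h + (y + -h) = x + y by ring, show x + h - (y + -h) = x - y + 2 * h by ring,
      show x - h + (y - -h) = x + y by ring, show x - h - (y - -h) = x - y - 2 * h by ring]
    exact this

lemma w_start {t : ℝ} (ht : 0 < t) (x y : ℝ) (hy : y = x ∨ y = -x) : w t x y ≤ 0 := by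
  have key : ∀ u, W t u 0 ≤ 0 := fun u => by
    unfold W
    rw [abs_zero, if_pos ht.le]; exact min_le_left _ _
  unfold w
  rcases hy with rfl | rfl
  · rw [sub_self]; exact key _
  · rw [add_neg_cancel, W_symm ht]; exact key _

lemma w_low {t : ℝ} (ht : 0 < t) (x y : ℝ) :
    (if t ≤ |y| / 2 then y ^ 2 / 4 else 0) - (if t ≤ |x| + |y| then x ^ 2 else 0) ≤ w t x y := by
  have hP : (t - (x + y)) * (t + (x - y)) = (t - y) ^ 2 - x ^ 2 := by ring
  have hQ : (t + (x + y)) * (t - (x - y)) = (t + y) ^ 2 - x ^ 2 := by ring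
  unfold w W
  rw [hP, hQ]
  have hx0 := abs_nonneg x
  have hy0 := abs_nonneg y
  by_cases h1 : t ≤ |y| / 2
  · rw [if_pos h1, if_pos (by linarith)]
    have h2 : |y| / 2 ≤ |y| - t := by linarith
    have h3 : y ^ 2 / 4 ≤ (|y| - t) ^ 2 := by
      rw [← sq_abs y]; nlinarith
    have h4 : (|y| - t) ^ 2 ≤ (t - y) ^ 2 := by
      have : |y| ^ 2 = y ^ 2 := sq_abs y
      have := le_abs_self y
      nlinarith
    have h5 : (|y| - t) ^ 2 ≤ (t + y) ^ 2 := by
      have : |y| ^ 2 = y ^ 2 := sq_abs y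
      have := neg_abs_le y
      nlinarith
    split_ifs with hv
    · refine le_min ?_ (le_min (by linarith) (by linarith))
      have h6 : |y| - t ≤ |x| := by
        have := abs_sub_abs_le_abs_sub y x
        rw [abs_sub_comm] at this; linarith
      have h7 : y ^ 2 / 4 ≤ x ^ 2 := by
        rw [← sq_abs x]; nlinarith
      linarith
    · exact le_min (by linarith) (by linarith)
  · rw [if_neg h1]
    by_cases h2 : t ≤ |x| + |y|
    · rw [if_pos h2]
      split_ifs with hv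
      · exact le_min (by nlinarith [sq_nonneg x]) (le_min (by nlinarith [sq_nonneg (t - y)]) (by nlinarith [sq_nonneg (t + y)]))
      · exact le_min (by nlinarith [sq_nonneg (t - y)]) (by nlinarith [sq_nonneg (t + y)])
    · rw [if_neg h2]
      push Not at h2
      have hv : |x - y| ≤ t := (abs_sub _ _).trans h2.le
      have hu : |x + y| ≤ t := (abs_add_le _ _).trans h2.le
      rw [if_pos hv, ← hP, ← hQ]
      rw [abs_le] at hv hu
      refine le_min (by norm_num) (le_min ?_ ?_)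
      · have := mul_nonneg (show 0 ≤ t - (x + y) by linarith) (show 0 ≤ t + (x - y) by linarith)
        linarith
      · have := mul_nonneg (show 0 ≤ t + (x + y) by linarith) (show 0 ≤ t - (x - y) by linarith)
        linarith

/-- Supermartingale property along the tree. -/
lemma tree {F : ℝ → ℝ → ℝ} (hF : ∀ x y h k : ℝ, k = h ∨ k = -h →
      F (x + h) (y + k) + F (x - h) (y - k) ≤ 2 * F x y)
    (r : ℝ) (a : ℕ → ℝ) (θ : ℕ → ℝ) (hθ : ∀ i, θ i = 1 ∨ θ i = -1) (n : ℕ) :
    ∑ k ∈ range (2 ^ n), F (val r a n k) (val r (fun i => θ i * a i) n k) ≤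
      2 ^ n * F (a 0) (θ 0 * a 0) := by
  induction n with
  | zero => simp [val]
  | succ n ih =>
    rw [sum_pow_succ]
    have e : ∀ j, F (val r a (n + 1) (2 * j)) (val r (fun i => θ i * a i) (n + 1) (2 * j)) +
        F (val r a (n + 1) (2 * j + 1)) (val r (fun i => θ i * a i) (n + 1) (2 * j + 1)) ≤
        2 * F (val r a n j) (val r (fun i => θ i * a i) n j) := by
      intro j
      rw [val_even, val_even, val_odd, val_odd]
      apply hF
      rcases hθ (2 ^ n + j) with h | h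
      · left; rw [h]; ring
      · right; rw [h]; ring
    calc _ ≤ ∑ j ∈ range (2 ^ n), 2 * F (val r a n j) (val r (fun i => θ i * a i) n j) :=
          sum_le_sum fun j _ => e j
      _ = 2 * ∑ j ∈ range (2 ^ n), F (val r a n j) (val r (fun i => θ i * a i) n j) := by
          rw [mul_sum]
      _ ≤ 2 * (2 ^ n * F (a 0) (θ 0 * a 0)) := by linarith
      _ = _ := by ring

lemma trunc {t : ℝ} (ht : 0 < t) (r : ℝ) (a : ℕ → ℝ) (θ : ℕ → ℝ) (hθ : ∀ i, θ i = 1 ∨ θ i = -1)
    (n : ℕ) :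
    ∑ k ∈ range (2 ^ n), (val r (fun i => θ i * a i) n k) ^ 2 *
        (if t ≤ |val r (fun i => θ i * a i) n k| / 2 then 1 else 0) ≤
      ∑ k ∈ range (2 ^ n), 4 * (val r a n k) ^ 2 *
        (if t ≤ |val r a n k| + |val r (fun i => θ i * a i) n k| then 1 else 0) := by
  have h1 := tree (fun x y h k hk => w_step ht x y h k hk) r a θ hθ n
  have h2 : w t (a 0) (θ 0 * a 0) ≤ 0 := w_start ht _ _ (by
    rcases hθ 0 with h | h
    · left; rw [h, one_mul]
    · right; rw [h]; ring)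
  have h3 : (2:ℝ) ^ n * w t (a 0) (θ 0 * a 0) ≤ 0 := mul_nonpos_of_nonneg_of_nonpos (by positivity) h2
  have h4 := (sum_le_sum fun k (_ : k ∈ range (2 ^ n)) =>
    w_low ht (val r a n k) (val r (fun i => θ i * a i) n k)).trans (h1.trans h3)
  rw [sum_sub_distrib] at h4
  have e1 : ∑ k ∈ range (2 ^ n), (val r (fun i => θ i * a i) n k) ^ 2 *
        (if t ≤ |val r (fun i => θ i * a i) n k| / 2 then 1 else 0) =
      4 * ∑ k ∈ range (2 ^ n), (if t ≤ |val r (fun i => θ i * a i) n k| / 2 then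
        (val r (fun i => θ i * a i) n k) ^ 2 / 4 else 0) := by
    rw [mul_sum]; refine sum_congr rfl fun k _ => ?_
    split_ifs <;> ring
  have e2 : ∑ k ∈ range (2 ^ n), 4 * (val r a n k) ^ 2 *
        (if t ≤ |val r a n k| + |val r (fun i => θ i * a i) n k| then 1 else 0) =
      4 * ∑ k ∈ range (2 ^ n), (if t ≤ |val r a n k| + |val r (fun i => θ i * a i) n k| then
        (val r a n k) ^ 2 else 0) := by
    rw [mul_sum]; refine sum_congr rfl fun k _ => ?_
    split_ifs <;> ring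
  rw [e1, e2]
  linarith

open MeasureTheory in
lemma int_trunc {q : ℝ} (hq : 2 < q) {c T : ℝ} (hc : 0 ≤ c) (hcT : c ≤ T) :
    ∫ t in Set.Ioc 0 T, (if t ≤ c then (1:ℝ) else 0) * t ^ (q - 3) = c ^ (q - 2) / (q - 2) := by
  have e : (fun t : ℝ => (if t ≤ c then (1:ℝ) else 0) * t ^ (q - 3)) =
      Set.indicator (Set.Iic c) (fun t => t ^ (q - 3)) := by
    funext t
    simp only [Set.indicator, Set.mem_Iic]
    split_ifs <;> simp
  rw [e, setIntegral_indicator measurableSet_Iic]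
  have e2 : Set.Ioc 0 T ∩ Set.Iic c = Set.Ioc 0 c := by
    ext t; simp only [Set.mem_inter_iff, Set.mem_Ioc, Set.mem_Iic]
    constructor
    · rintro ⟨⟨h1, _⟩, h2⟩; exact ⟨h1, h2⟩
    · rintro ⟨h1, h2⟩; exact ⟨⟨h1, h2.trans hcT⟩, h2⟩
  rw [e2, ← intervalIntegral.integral_of_le hc, integral_rpow (Or.inl (by linarith))]
  rw [show q - 3 + 1 = q - 2 by ring, Real.zero_rpow (by linarith), sub_zero]

open MeasureTheory in
lemma integrable_trunc {q : ℝ} (hq : 2 < q) (c : ℝ) {T : ℝ} (hT : 0 ≤ T) :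
    IntegrableOn (fun t => (if t ≤ c then (1:ℝ) else 0) * t ^ (q - 3)) (Set.Ioc 0 T) := by
  have h : IntegrableOn (fun t : ℝ => t ^ (q - 3)) (Set.Ioc 0 T) := by
    have := intervalIntegral.intervalIntegrable_rpow' (a := 0) (b := T) (r := q - 3) (by linarith)
    exact (intervalIntegrable_iff_integrableOn_Ioc_of_le hT).mp this
  have e : (fun t : ℝ => (if t ≤ c then (1:ℝ) else 0) * t ^ (q - 3)) =
      Set.indicator (Set.Iic c) (fun t => t ^ (q - 3)) := by
    funext t
    simp only [Set.indicator, Set.mem_Iic]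
    split_ifs <;> simp
  rw [e]
  exact h.indicator measurableSet_Iic

open MeasureTheory in
/-- From truncated second moments to `q`-th moments. -/
lemma integrate {q : ℝ} (hq : 2 < q) (N : ℕ) (x y : ℕ → ℝ)
    (h : ∀ t, 0 < t → ∑ k ∈ range N, (y k) ^ 2 * (if t ≤ |y k| / 2 then 1 else 0) ≤
      ∑ k ∈ range N, 4 * (x k) ^ 2 * (if t ≤ |x k| + |y k| then 1 else 0)) :
    ∑ k ∈ range N, (y k) ^ 2 * (|y k| / 2) ^ (q - 2) ≤
      ∑ k ∈ range N, 4 * (x k) ^ 2 * (|x k| + |y k|) ^ (q - 2) := by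
  set T := ∑ k ∈ range N, (|x k| + |y k|) with hT
  have hT0 : 0 ≤ T := sum_nonneg fun k _ => by positivity
  have hkT : ∀ k ∈ range N, |x k| + |y k| ≤ T := fun k hk =>
    single_le_sum (f := fun k => |x k| + |y k|) (fun k _ => by positivity) hk
  have hI1 : ∀ k, IntegrableOn (fun t => (y k) ^ 2 * ((if t ≤ |y k| / 2 then (1:ℝ) else 0) *
      t ^ (q - 3))) (Set.Ioc 0 T) := fun k => (integrable_trunc hq _ hT0).const_mul _
  have hI2 : ∀ k, IntegrableOn (fun t => 4 * (x k) ^ 2 * ((if t ≤ |x k| + |y k| then (1:ℝ) else 0) *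
      t ^ (q - 3))) (Set.Ioc 0 T) := fun k => (integrable_trunc hq _ hT0).const_mul _
  have hmono : ∫ t in Set.Ioc 0 T, ∑ k ∈ range N, (y k) ^ 2 *
      ((if t ≤ |y k| / 2 then (1:ℝ) else 0) * t ^ (q - 3)) ≤
      ∫ t in Set.Ioc 0 T, ∑ k ∈ range N, 4 * (x k) ^ 2 *
        ((if t ≤ |x k| + |y k| then (1:ℝ) else 0) * t ^ (q - 3)) := by
    refine setIntegral_mono_on (integrable_finsetSum _ fun k _ => hI1 k)
      (integrable_finsetSum _ fun k _ => hI2 k) measurableSet_Ioc fun t ht => ?_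
    have h1 := h t ht.1
    have h2 : 0 ≤ t ^ (q - 3) := Real.rpow_nonneg ht.1.le _
    have h3 := mul_le_mul_of_nonneg_right h1 h2
    rw [sum_mul, sum_mul] at h3
    simpa only [mul_assoc] using h3
  rw [integral_finsetSum _ fun k _ => hI1 k, integral_finsetSum _ fun k _ => hI2 k] at hmono
  have e1 : ∀ k ∈ range N, ∫ t in Set.Ioc 0 T, (y k) ^ 2 *
      ((if t ≤ |y k| / 2 then (1:ℝ) else 0) * t ^ (q - 3)) =
      ((y k) ^ 2 * (|y k| / 2) ^ (q - 2)) / (q - 2) := fun k hk => by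
    rw [integral_const_mul, int_trunc hq (by positivity) ?_]
    · ring
    · have := hkT k hk
      have := abs_nonneg (x k)
      have := abs_nonneg (y k)
      linarith
  have e2 : ∀ k ∈ range N, ∫ t in Set.Ioc 0 T, 4 * (x k) ^ 2 *
      ((if t ≤ |x k| + |y k| then (1:ℝ) else 0) * t ^ (q - 3)) =
      (4 * (x k) ^ 2 * (|x k| + |y k|) ^ (q - 2)) / (q - 2) := fun k hk => by
    rw [integral_const_mul, int_trunc hq (by positivity) (hkT k hk)]
    ring
  rw [sum_congr rfl e1, sum_congr rfl e2, ← sum_div, ← sum_div] at hmono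
  exact (div_le_div_iff_of_pos_right (by linarith)).mp hmono

/-- Constant. -/
noncomputable def KU (q : ℝ) : ℝ := 2 ^ (q + 1) * (1 + 2 ^ q) ^ (q - 2)

lemma KU_ge (q : ℝ) (hq : 2 ≤ q) : 1 ≤ KU q := by
  unfold KU
  have h1 : (1:ℝ) ≤ 2 ^ (q + 1) := Real.one_le_rpow (by norm_num) (by linarith)
  have h2 : (1:ℝ) ≤ (1 + 2 ^ q) ^ (q - 2) := Real.one_le_rpow (by
    have : (0:ℝ) < 2 ^ q := by positivity
    linarith) (by linarith)
  nlinarith

lemma pointwise {q : ℝ} (hq : 2 < q) (x y : ℝ) :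
    2 ^ q * (x ^ 2 * (|x| + |y|) ^ (q - 2)) ≤
      |y| ^ q / 2 + 2 ^ q * (1 + 2 ^ q) ^ (q - 2) * |x| ^ q := by
  have hx0 := abs_nonneg x
  have hy0 := abs_nonneg y
  have h2q : (0:ℝ) < 2 ^ q := by positivity
  have sq2 : ∀ z : ℝ, z ^ 2 * |z| ^ (q - 2) = |z| ^ q := fun z => by
    rcases eq_or_ne z 0 with rfl | hz
    · rw [abs_zero, Real.zero_rpow (by linarith), Real.zero_rpow (by linarith)]; ring
    · have : 0 < |z| := abs_pos.mpr hz
      rw [← sq_abs, ← Real.rpow_natCast, ← Real.rpow_add this]; congr 1; push_cast; ring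
  rcases le_or_gt |y| (2 ^ q * |x|) with h | h
  · have h1 : (|x| + |y|) ^ (q - 2) ≤ ((1 + 2 ^ q) * |x|) ^ (q - 2) :=
      Real.rpow_le_rpow (by positivity) (by linarith) (by linarith)
    rw [Real.mul_rpow (by positivity) hx0] at h1
    have h2 : x ^ 2 * (|x| + |y|) ^ (q - 2) ≤ (1 + 2 ^ q) ^ (q - 2) * |x| ^ q := by
      calc x ^ 2 * (|x| + |y|) ^ (q - 2) ≤ x ^ 2 * ((1 + 2 ^ q) ^ (q - 2) * |x| ^ (q - 2)) :=
            mul_le_mul_of_nonneg_left h1 (sq_nonneg _)
        _ = (1 + 2 ^ q) ^ (q - 2) * (x ^ 2 * |x| ^ (q - 2)) := by ring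
        _ = _ := by rw [sq2]
    have h3 : 0 ≤ |y| ^ q / 2 := by positivity
    calc 2 ^ q * (x ^ 2 * (|x| + |y|) ^ (q - 2)) ≤ 2 ^ q * ((1 + 2 ^ q) ^ (q - 2) * |x| ^ q) :=
          mul_le_mul_of_nonneg_left h2 h2q.le
      _ ≤ _ := by linarith [mul_assoc ((2:ℝ) ^ q) ((1 + 2 ^ q) ^ (q - 2)) (|x| ^ q)]
  · have h1q : (1:ℝ) ≤ 2 ^ q := Real.one_le_rpow (by norm_num) (by linarith)
    have hxy : |x| ≤ |y| := by nlinarith
    have h1 : (|x| + |y|) ^ (q - 2) ≤ (2 * |y|) ^ (q - 2) :=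
      Real.rpow_le_rpow (by positivity) (by linarith) (by linarith)
    rw [Real.mul_rpow (by positivity) hy0] at h1
    have h2 : (2 ^ q) ^ 2 * x ^ 2 ≤ y ^ 2 := by
      rw [← sq_abs x, ← sq_abs y, ← mul_pow]
      exact pow_le_pow_left₀ (by positivity) h.le 2
    have h3 : 2 ^ q * (x ^ 2 * (|x| + |y|) ^ (q - 2)) ≤
        2 ^ q * (x ^ 2 * (2 ^ (q - 2) * |y| ^ (q - 2))) :=
      mul_le_mul_of_nonneg_left (mul_le_mul_of_nonneg_left h1 (sq_nonneg _)) h2q.le
    have h4 : (2:ℝ) ^ (q - 2) = 2 ^ q / 4 := by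
      rw [Real.rpow_sub (by norm_num)]; norm_num
    have h5 : 2 ^ q * (x ^ 2 * (2 ^ (q - 2) * |y| ^ (q - 2))) =
        ((2 ^ q) ^ 2 * x ^ 2) * |y| ^ (q - 2) / 4 := by rw [h4]; ring
    have h6 : ((2 ^ q) ^ 2 * x ^ 2) * |y| ^ (q - 2) ≤ y ^ 2 * |y| ^ (q - 2) :=
      mul_le_mul_of_nonneg_right h2 (by positivity)
    rw [sq2] at h6
    have h7 : 0 ≤ 2 ^ q * (1 + 2 ^ q) ^ (q - 2) * |x| ^ q := by positivity
    have h8 : 0 ≤ |y| ^ q := by positivity
    linarith

/-- Unconditionality of the Haar system in `L_q`, `2 ≤ q < ∞` (real coefficients and signs). -/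
theorem uncond {q : ℝ} (hq : 2 ≤ q) (r : ℝ) (a : ℕ → ℝ) (θ : ℕ → ℝ)
    (hθ : ∀ i, θ i = 1 ∨ θ i = -1) (n : ℕ) :
    ∑ k ∈ range (2 ^ n), |val r (fun i => θ i * a i) n k| ^ q ≤
      KU q * ∑ k ∈ range (2 ^ n), |val r a n k| ^ q := by
  rcases hq.eq_or_lt with rfl | hq
  · have h1 := tree (F := fun x y => y ^ 2 - x ^ 2) (fun x y h k hk => by
      change (y + k) ^ 2 - (x + h) ^ 2 + ((y - k) ^ 2 - (x - h) ^ 2) ≤ 2 * (y ^ 2 - x ^ 2)
      rcases hk with rfl | rfl <;> nlinarith) r a θ hθ n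
    have h2 : (θ 0 * a 0) ^ 2 - (a 0) ^ 2 = 0 := by
      rcases hθ 0 with h | h <;> rw [h] <;> ring
    simp only [h2, mul_zero] at h1
    rw [sum_sub_distrib] at h1
    have e : ∀ z : ℝ, |z| ^ (2:ℝ) = z ^ 2 := fun z => by
      rw [show (2:ℝ) = ((2:ℕ):ℝ) by norm_num, Real.rpow_natCast, sq_abs]
    simp_rw [e]
    have h3 : 0 ≤ ∑ k ∈ range (2 ^ n), (val r a n k) ^ 2 := sum_nonneg fun _ _ => sq_nonneg _
    have h4 := KU_ge 2 le_rfl
    nlinarith
  · set x : ℕ → ℝ := fun k => val r a n k with hx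
    set y : ℕ → ℝ := fun k => val r (fun i => θ i * a i) n k with hy
    have h1 := integrate hq (2 ^ n) x y fun t ht => trunc ht r a θ hθ n
    have sq2 : ∀ z : ℝ, z ^ 2 * |z| ^ (q - 2) = |z| ^ q := fun z => by
      rcases eq_or_ne z 0 with rfl | hz
      · rw [abs_zero, Real.zero_rpow (by linarith), Real.zero_rpow (by linarith)]; ring
      · have : 0 < |z| := abs_pos.mpr hz
        rw [← sq_abs, ← Real.rpow_natCast, ← Real.rpow_add this]; congr 1; push_cast; ring
    have h4 : (2:ℝ) ^ (q - 2) = 2 ^ q / 4 := by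
      rw [Real.rpow_sub (by norm_num)]; norm_num
    have h2q : (0:ℝ) < 2 ^ q := by positivity
    have e1 : ∀ k, |y k| ^ q = 2 ^ (q - 2) * ((y k) ^ 2 * (|y k| / 2) ^ (q - 2)) := fun k => by
      rw [Real.div_rpow (abs_nonneg _) (by norm_num), ← sq2 (y k)]
      have : (2:ℝ) ^ (q - 2) ≠ 0 := by positivity
      field_simp
    have h5 : ∑ k ∈ range (2 ^ n), |y k| ^ q ≤
        ∑ k ∈ range (2 ^ n), 2 ^ q * ((x k) ^ 2 * (|x k| + |y k|) ^ (q - 2)) := by
      simp_rw [e1]
      rw [← mul_sum]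
      calc 2 ^ (q - 2) * ∑ k ∈ range (2 ^ n), (y k) ^ 2 * (|y k| / 2) ^ (q - 2) ≤
          2 ^ (q - 2) * ∑ k ∈ range (2 ^ n), 4 * (x k) ^ 2 * (|x k| + |y k|) ^ (q - 2) :=
            mul_le_mul_of_nonneg_left h1 (by positivity)
        _ = _ := by
            rw [h4, mul_sum]; exact sum_congr rfl fun k _ => by ring
    have h6 : ∑ k ∈ range (2 ^ n), 2 ^ q * ((x k) ^ 2 * (|x k| + |y k|) ^ (q - 2)) ≤
        ∑ k ∈ range (2 ^ n), (|y k| ^ q / 2 + 2 ^ q * (1 + 2 ^ q) ^ (q - 2) * |x k| ^ q) :=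
      sum_le_sum fun k _ => pointwise hq _ _
    rw [sum_add_distrib, ← sum_div] at h6
    have h8 : ∑ k ∈ range (2 ^ n), 2 ^ q * (1 + 2 ^ q) ^ (q - 2) * |x k| ^ q =
        2 ^ q * (1 + 2 ^ q) ^ (q - 2) * ∑ k ∈ range (2 ^ n), |x k| ^ q := by rw [mul_sum]
    rw [h8] at h6
    have h7 : ∑ k ∈ range (2 ^ n), |y k| ^ q ≤
        2 * (2 ^ q * (1 + 2 ^ q) ^ (q - 2)) * ∑ k ∈ range (2 ^ n), |x k| ^ q := by linarith
    refine h7.trans (le_of_eq ?_)
    unfold KU
    rw [Real.rpow_add (by norm_num), Real.rpow_one]; ring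

end Pool.Agent.H148R3.HR
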