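import Mathlib
import Pool.Agent.H148R3.HR1

set_option autoImplicit false

open Finset

namespace Pool.Agent.H148R3.HR

variable {𝕜 : Type*} [RCLike 𝕜]

/-- Normalised `ℓ_p` norm of an array with `2^n` entries. -/
noncomputable def nm (p : ℝ) (n : ℕ) (A : ℕ → 𝕜) : ℝ :=
  ((∑ k ∈ range (2 ^ n), ‖A k‖ ^ p) / 2 ^ n) ^ (1 / p)

lemma nm_nonneg (p : ℝ) (n : ℕ) (A : ℕ → 𝕜) : 0 ≤ nm p n A := by
  unfold nm; exact Real.rpow_nonneg (div_nonneg (sum_nonneg fun _ _ => by positivity) (by positivity)) _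

lemma nm_pow {p : ℝ} (hp : 0 < p) (n : ℕ) (A : ℕ → 𝕜) :
    nm p n A ^ p = (∑ k ∈ range (2 ^ n), ‖A k‖ ^ p) / 2 ^ n := by
  unfold nm
  rw [← Real.rpow_mul (div_nonneg (sum_nonneg fun _ _ => by positivity) (by positivity)),
    one_div_mul_cancel hp.ne', Real.rpow_one]

lemma nm_le_of {p : ℝ} (hp : 0 < p) {n : ℕ} {A : ℕ → 𝕜} {M : ℝ} (hM : 0 ≤ M)
    (h : ∑ k ∈ range (2 ^ n), ‖A k‖ ^ p ≤ M ^ p * 2 ^ n) : nm p n A ≤ M := by
  unfold nm
  have h1 : (∑ k ∈ range (2 ^ n), ‖A k‖ ^ p) / 2 ^ n ≤ M ^ p := by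
    rw [div_le_iff₀ (by positivity)]; exact h
  calc _ ≤ (M ^ p) ^ (1 / p) := Real.rpow_le_rpow
        (div_nonneg (sum_nonneg fun _ _ => by positivity) (by positivity)) h1 (by positivity)
    _ = M := by rw [← Real.rpow_mul hM, mul_one_div_cancel hp.ne', Real.rpow_one]

lemma nm_mono {𝕜' : Type*} [RCLike 𝕜'] {p : ℝ} (hp : 0 < p) {n : ℕ} {A : ℕ → 𝕜} {B : ℕ → 𝕜'}
    (h : ∀ k < 2 ^ n, ‖A k‖ ≤ ‖B k‖) : nm p n A ≤ nm p n B := by
  unfold nm
  refine Real.rpow_le_rpow (div_nonneg (sum_nonneg fun _ _ => by positivity) (by positivity)) ?_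
    (by positivity)
  refine div_le_div_of_nonneg_right (sum_le_sum fun k hk => ?_) (by positivity)
  exact Real.rpow_le_rpow (norm_nonneg _) (h k (mem_range.mp hk)) hp.le

lemma holder {p q : ℝ} (hpq : p.HolderConjugate q) (n : ℕ) (A B : ℕ → 𝕜) :
    ‖∑ k ∈ range (2 ^ n), A k * B k‖ ≤ 2 ^ n * (nm p n A * nm q n B) := by
  have h1 := Real.inner_le_Lp_mul_Lq_of_nonneg (range (2 ^ n)) hpq (f := fun k => ‖A k‖)
    (g := fun k => ‖B k‖) (fun _ _ => norm_nonneg _) (fun _ _ => norm_nonneg _)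
  have h2 : ‖∑ k ∈ range (2 ^ n), A k * B k‖ ≤ ∑ k ∈ range (2 ^ n), ‖A k‖ * ‖B k‖ :=
    (norm_sum_le _ _).trans (sum_le_sum fun k _ => (norm_mul _ _).le)
  refine h2.trans (h1.trans (le_of_eq ?_))
  unfold nm
  have hp := hpq.pos
  have hq := hpq.symm.pos
  rw [Real.div_rpow (sum_nonneg fun _ _ => by positivity) (by positivity),
    Real.div_rpow (sum_nonneg fun _ _ => by positivity) (by positivity)]
  have e : ((2:ℝ) ^ n) ^ (1 / p) * ((2:ℝ) ^ n) ^ (1 / q) = 2 ^ n := by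
    rw [← Real.rpow_add (by positivity), one_div, one_div, hpq.inv_add_inv_eq_one, Real.rpow_one]
  have h3 : ((2:ℝ) ^ n) ^ (1 / p) ≠ 0 := by positivity
  have h4 : ((2:ℝ) ^ n) ^ (1 / q) ≠ 0 := by positivity
  have h5 : ∀ X Y P2 Q2 : ℝ, P2 ≠ 0 → Q2 ≠ 0 → P2 * Q2 = 2 ^ n →
      X * Y = 2 ^ n * (X / P2 * (Y / Q2)) := by
    intro X Y P2 Q2 hP hQ h
    rw [← h]; field_simp
  exact h5 _ _ _ _ h3 h4 e

/-- Norming functional. -/
lemma norming {p q : ℝ} (hpq : p.HolderConjugate q) (n : ℕ) (A : ℕ → 𝕜) :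
    ∃ B : ℕ → 𝕜, nm q n B ≤ 1 ∧
      ∑ k ∈ range (2 ^ n), A k * B k = ((2 ^ n * nm p n A : ℝ) : 𝕜) := by
  have hp := hpq.pos
  have hq := hpq.symm.pos
  have hp1 : 1 < p := hpq.lt
  set S := nm p n A with hS
  rcases (nm_nonneg p n A).eq_or_lt with h | h
  · refine ⟨fun _ => 0, ?_, ?_⟩
    · refine nm_le_of hq zero_le_one ?_
      rw [sum_eq_zero fun k _ => by rw [norm_zero, Real.zero_rpow hq.ne']]
      positivity
    · rw [hS, ← h]; simp
  have hSpos : 0 < S := h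
  -- sign
  have hsg : ∀ z : 𝕜, ∃ s : 𝕜, ‖s‖ ≤ 1 ∧ z * s = (‖z‖ : 𝕜) := fun z => by
    rcases eq_or_ne z 0 with rfl | hz
    · exact ⟨0, by simp, by simp⟩
    · have hz' : ‖z‖ ≠ 0 := norm_ne_zero_iff.mpr hz
      refine ⟨(‖z‖ : 𝕜) * z⁻¹, ?_, ?_⟩
      · rw [norm_mul, norm_inv, RCLike.norm_ofReal, abs_norm, mul_inv_cancel₀ hz']
      · field_simp
  choose sg hsg1 hsg2 using hsg
  set c : ℕ → ℝ := fun k => ‖A k‖ ^ (p - 1) / S ^ (p - 1) with hc
  have hc0 : ∀ k, 0 ≤ c k := fun k => by simp only [hc]; positivity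
  have hSp : S ^ p = (∑ k ∈ range (2 ^ n), ‖A k‖ ^ p) / 2 ^ n := nm_pow hp n A
  have hsum : ∑ k ∈ range (2 ^ n), ‖A k‖ ^ p = S ^ p * 2 ^ n := by
    rw [hSp]; field_simp
  refine ⟨fun k => (c k : 𝕜) * sg (A k), ?_, ?_⟩
  · refine nm_le_of hq zero_le_one ?_
    rw [Real.one_rpow, one_mul]
    have e : (p - 1) * q = p := by
      have := hpq.sub_one_mul_conj
      exact this
    have h1 : ∀ k ∈ range (2 ^ n), ‖(c k : 𝕜) * sg (A k)‖ ^ q ≤ ‖A k‖ ^ p / S ^ p := fun k _ => by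
      have h2 : ‖(c k : 𝕜) * sg (A k)‖ ≤ c k := by
        rw [norm_mul, RCLike.norm_ofReal, abs_of_nonneg (hc0 k)]
        exact mul_le_of_le_one_right (hc0 k) (hsg1 _)
      refine (Real.rpow_le_rpow (norm_nonneg _) h2 hq.le).trans (le_of_eq ?_)
      simp only [hc]
      rw [Real.div_rpow (by positivity) (by positivity), ← Real.rpow_mul (norm_nonneg _),
        ← Real.rpow_mul hSpos.le, e]
    refine (sum_le_sum h1).trans (le_of_eq ?_)
    rw [← sum_div, hsum]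
    have : S ^ p ≠ 0 := by positivity
    field_simp
  · have h1 : ∀ k, A k * ((c k : 𝕜) * sg (A k)) = ((‖A k‖ ^ p / S ^ (p - 1) : ℝ) : 𝕜) := fun k => by
      have h2 : A k * ((c k : 𝕜) * sg (A k)) = (c k : 𝕜) * (A k * sg (A k)) := by ring
      rw [h2, hsg2, ← RCLike.ofReal_mul]
      congr 1
      simp only [hc]
      have h3 : ‖A k‖ ^ (p - 1) * ‖A k‖ = ‖A k‖ ^ p := by
        rcases (norm_nonneg (A k)).eq_or_lt with h | h
        · rw [← h, Real.zero_rpow (by linarith), mul_zero]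
          exact (Real.zero_rpow hp.ne').symm
        · have := Real.rpow_add h (p - 1) 1
          rw [Real.rpow_one] at this
          rw [← this]; congr 1; ring
      rw [← h3]; ring
    simp_rw [h1]
    rw [← RCLike.ofReal_sum, ← sum_div, hsum]
    congr 1
    have h4 : S ^ p = S ^ (p - 1) * S := by
      have := Real.rpow_add hSpos (p - 1) 1
      rw [Real.rpow_one] at this
      rw [← this]; congr 1; ring
    have h5 : S ^ (p - 1) ≠ 0 := by positivity
    rw [h4]; field_simp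

/-! ### Upper estimates -/

/-- Counting array. -/
noncomputable def cnt (F : Finset ℕ) : ℕ → ℕ → ℝ
  | 0, _ => if 0 ∈ F then 1 else 0
  | n + 1, k => cnt F n (k / 2) + 2 ^ n * (if 2 ^ n + k / 2 ∈ F then 1 else 0)

lemma cnt_nonneg (F : Finset ℕ) (n k : ℕ) : 0 ≤ cnt F n k := by
  induction n generalizing k with
  | zero => unfold cnt; split_ifs <;> norm_num
  | succ n ih =>
    unfold cnt
    have h1 := ih (k / 2)
    have h2 : (0:ℝ) ≤ 2 ^ n * (if 2 ^ n + k / 2 ∈ F then 1 else 0) := by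
      split_ifs <;> simp
    linarith

lemma sum_cnt (F : Finset ℕ) (n : ℕ) :
    ∑ k ∈ range (2 ^ n), cnt F n k = 2 ^ n * ∑ m ∈ range (2 ^ n), (if m ∈ F then (1:ℝ) else 0) := by
  induction n with
  | zero => rw [pow_zero, pow_zero, sum_range_one, sum_range_one, one_mul, cnt]
  | succ n ih =>
    rw [sum_pow_succ, sum_pow_succ' (fun m => if m ∈ F then (1:ℝ) else 0)]
    have e : ∀ j, cnt F (n + 1) (2 * j) + cnt F (n + 1) (2 * j + 1) =
        2 * cnt F n j + 2 * 2 ^ n * (if 2 ^ n + j ∈ F then 1 else 0) := by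
      intro j
      rw [cnt, cnt, show (2 * j) / 2 = j by omega, show (2 * j + 1) / 2 = j by omega]; ring
    simp_rw [e]
    rw [sum_add_distrib, ← mul_sum, ← mul_sum, ih]
    ring

lemma sum_cnt_le (F : Finset ℕ) (n : ℕ) :
    ∑ k ∈ range (2 ^ n), cnt F n k ≤ 2 ^ n * F.card := by
  rw [sum_cnt]
  refine mul_le_mul_of_nonneg_left ?_ (by positivity)
  rw [← sum_filter, sum_const, nsmul_eq_mul, mul_one]
  norm_cast
  apply card_le_card
  intro m hm
  exact (mem_filter.mp hm).2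

/-- Constant for the upper estimate. -/
noncomputable def DD (r : ℝ) : ℝ := r / (r - 1) + 1

lemma DD_ge {r : ℝ} (hr : 1 < r) : 1 ≤ DD r := by
  unfold DD
  have : 0 < r - 1 := by linarith
  have : 0 < r / (r - 1) := by positivity
  linarith

lemma val_le_geo {r : ℝ} (hr : 1 < r) {c : ℕ → 𝕜} (hc : ∀ m, ‖c m‖ ≤ 1) (n k : ℕ) :
    ‖val (r : 𝕜) c n k‖ ≤ r / (r - 1) * r ^ n := by
  have h1 : 0 < r - 1 := by linarith
  have h2 : r / (r - 1) + 1 ≤ r / (r - 1) * r := by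
    have : r / (r - 1) * r - r / (r - 1) = r := by field_simp
    linarith
  induction n generalizing k with
  | zero =>
    rw [val, pow_zero, mul_one]
    refine (hc 0).trans ?_
    rw [one_le_div h1]; linarith
  | succ n ih =>
    rw [val]
    have hrn : 0 < r ^ n := by positivity
    have h3 : ‖(if k % 2 = 0 then (1:𝕜) else -1) * ((r:𝕜) ^ n * c (2 ^ n + k / 2))‖ ≤ r ^ n := by
      rw [norm_mul, norm_mul, norm_pow, RCLike.norm_ofReal, abs_of_pos (by linarith)]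
      have : ‖(if k % 2 = 0 then (1:𝕜) else -1)‖ = 1 := by split_ifs <;> simp
      rw [this, one_mul]
      exact mul_le_of_le_one_right hrn.le (hc _)
    calc _ ≤ ‖val (r : 𝕜) c n (k / 2)‖ +
          ‖(if k % 2 = 0 then (1:𝕜) else -1) * ((r:𝕜) ^ n * c (2 ^ n + k / 2))‖ := norm_add_le _ _
      _ ≤ r / (r - 1) * r ^ n + r ^ n := add_le_add (ih _) h3
      _ = (r / (r - 1) + 1) * r ^ n := by ring
      _ ≤ (r / (r - 1) * r) * r ^ n := mul_le_mul_of_nonneg_right h2 hrn.le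
      _ = _ := by rw [pow_succ]; ring

/-- The base `2^(1/p)`. -/
noncomputable def bs (p : ℝ) : ℝ := 2 ^ (1 / p)

lemma bs_gt {p : ℝ} (hp : 0 < p) : 1 < bs p := by
  unfold bs; exact Real.one_lt_rpow (by norm_num) (by positivity)

lemma bs_pos (p : ℝ) : 0 < bs p := by unfold bs; positivity

lemma bs_pow {p : ℝ} (n : ℕ) : bs p ^ n = ((2:ℝ) ^ n) ^ (1 / p) := by
  unfold bs
  rw [← Real.rpow_natCast, ← Real.rpow_mul (by norm_num), ← Real.rpow_natCast 2 n,
    ← Real.rpow_mul (by norm_num), mul_comm]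

lemma bs_mul {p q : ℝ} (hpq : p.HolderConjugate q) : bs p * bs q = 2 := by
  unfold bs
  rw [← Real.rpow_add (by norm_num), one_div, one_div, hpq.inv_add_inv_eq_one, Real.rpow_one]

lemma val_le_cnt {p : ℝ} (hp : 1 < p) {c : ℕ → 𝕜} {F : Finset ℕ}
    (hc : ∀ m, ‖c m‖ ≤ if m ∈ F then 1 else 0) (n k : ℕ) :
    ‖val (bs p : 𝕜) c n k‖ ≤ DD (bs p) * (cnt F n k) ^ (1 / p) := by
  have hp0 : 0 < p := by linarith
  have hr := bs_gt hp0
  have hD := DD_ge hr
  have hc1 : ∀ m, ‖c m‖ ≤ 1 := fun m => (hc m).trans (by split_ifs <;> norm_num)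
  induction n generalizing k with
  | zero =>
    rw [val, cnt]
    have h1 := hc 0
    split_ifs at h1 ⊢
    · rw [Real.one_rpow, mul_one]; exact h1.trans hD
    · rw [Real.zero_rpow (by positivity), mul_zero]; exact h1
  | succ n ih =>
    rw [val, cnt]
    have h1 := hc (2 ^ n + k / 2)
    by_cases hF : 2 ^ n + k / 2 ∈ F
    · rw [if_pos hF] at h1
      rw [if_pos hF, mul_one]
      have hrn : 0 < bs p ^ n := pow_pos (bs_pos p) n
      have h3 : ‖(if k % 2 = 0 then (1:𝕜) else -1) * ((bs p:𝕜) ^ n * c (2 ^ n + k / 2))‖ ≤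
          bs p ^ n := by
        rw [norm_mul, norm_mul, norm_pow, RCLike.norm_ofReal, abs_of_pos (bs_pos p)]
        have : ‖(if k % 2 = 0 then (1:𝕜) else -1)‖ = 1 := by split_ifs <;> simp
        rw [this, one_mul]
        exact mul_le_of_le_one_right hrn.le h1
      have h4 : bs p ^ n ≤ (cnt F n (k / 2) + 2 ^ n) ^ (1 / p) := by
        rw [bs_pow]
        exact Real.rpow_le_rpow (by positivity) (by linarith [cnt_nonneg F n (k / 2)])
          (by positivity)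
      calc _ ≤ ‖val (bs p : 𝕜) c n (k / 2)‖ +
            ‖(if k % 2 = 0 then (1:𝕜) else -1) * ((bs p:𝕜) ^ n * c (2 ^ n + k / 2))‖ :=
              norm_add_le _ _
        _ ≤ bs p / (bs p - 1) * bs p ^ n + bs p ^ n := add_le_add (val_le_geo hr hc1 _ _) h3
        _ = DD (bs p) * bs p ^ n := by unfold DD; ring
        _ ≤ _ := mul_le_mul_of_nonneg_left h4 (by linarith)
    · rw [if_neg hF] at h1
      have h2 : c (2 ^ n + k / 2) = 0 := norm_le_zero_iff.mp h1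
      rw [if_neg hF, h2, mul_zero, mul_zero, mul_zero, add_zero, add_zero]
      exact ih _

lemma upper {p : ℝ} (hp : 1 < p) {c : ℕ → 𝕜} {F : Finset ℕ}
    (hc : ∀ m, ‖c m‖ ≤ if m ∈ F then 1 else 0) (n : ℕ) :
    nm p n (fun k => val (bs p : 𝕜) c n k) ≤ DD (bs p) * (F.card : ℝ) ^ (1 / p) := by
  have hp0 : 0 < p := by linarith
  have hD : 0 < DD (bs p) := by linarith [DD_ge (bs_gt hp0)]
  refine nm_le_of hp0 (by positivity) ?_
  rw [Real.mul_rpow hD.le (by positivity), ← Real.rpow_mul (Nat.cast_nonneg _),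
    one_div_mul_cancel hp0.ne', Real.rpow_one]
  calc ∑ k ∈ range (2 ^ n), ‖val (bs p : 𝕜) c n k‖ ^ p ≤
      ∑ k ∈ range (2 ^ n), DD (bs p) ^ p * cnt F n k := sum_le_sum fun k _ => by
        refine (Real.rpow_le_rpow (norm_nonneg _) (val_le_cnt hp hc n k) hp0.le).trans
          (le_of_eq ?_)
        rw [Real.mul_rpow hD.le (Real.rpow_nonneg (cnt_nonneg _ _ _) _),
          ← Real.rpow_mul (cnt_nonneg _ _ _), one_div_mul_cancel hp0.ne', Real.rpow_one]
    _ = DD (bs p) ^ p * ∑ k ∈ range (2 ^ n), cnt F n k := by rw [mul_sum]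
    _ ≤ DD (bs p) ^ p * (2 ^ n * F.card) :=
        mul_le_mul_of_nonneg_left (sum_cnt_le F n) (by positivity)
    _ = _ := by ring

lemma exists_sg (z : 𝕜) : ∃ s : 𝕜, ‖s‖ ≤ 1 ∧ s * z = (‖z‖ : 𝕜) := by
  rcases eq_or_ne z 0 with rfl | hz
  · exact ⟨0, by simp, by simp⟩
  · have hz' : ‖z‖ ≠ 0 := norm_ne_zero_iff.mpr hz
    refine ⟨(‖z‖ : 𝕜) * z⁻¹, ?_, ?_⟩
    · rw [norm_mul, norm_inv, RCLike.norm_ofReal, abs_norm, mul_inv_cancel₀ hz']
    · field_simp

lemma pair_le {p q : ℝ} (hpq : p.HolderConjugate q) (n : ℕ) (a b : ℕ → 𝕜) :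
    ‖∑ m ∈ range (2 ^ n), a m * b m‖ ≤
      nm p n (fun k => val (bs p : 𝕜) a n k) * nm q n (fun k => val (bs q : 𝕜) b n k) := by
  have h1 : (bs p : 𝕜) * (bs q : 𝕜) = 2 := by
    rw [← RCLike.ofReal_mul, bs_mul hpq]; exact RCLike.ofReal_ofNat 2
  have h2 := pairing h1 a b n
  have h3 := holder hpq n (fun k => val (bs p : 𝕜) a n k) (fun k => val (bs q : 𝕜) b n k)
  rw [h2, norm_mul, norm_pow, RCLike.norm_ofNat] at h3
  exact le_of_mul_le_mul_left h3 (by positivity)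

/-- Democracy functions: `∑_{m ∈ F} |a_m| ≤ D |F|^{1/q} ‖∑ a_m h_m‖_p`. -/
lemma dem {p q : ℝ} (hpq : p.HolderConjugate q) (n : ℕ) {F : Finset ℕ} (hF : F ⊆ range (2 ^ n))
    (a : ℕ → 𝕜) :
    ∑ m ∈ F, ‖a m‖ ≤ DD (bs q) * (F.card : ℝ) ^ (1 / q) * nm p n (fun k => val (bs p : 𝕜) a n k) := by
  choose sg hsg1 hsg2 using (exists_sg (𝕜 := 𝕜))
  set c : ℕ → 𝕜 := fun m => if m ∈ F then sg (a m) else 0 with hc
  have hc1 : ∀ m, ‖c m‖ ≤ if m ∈ F then 1 else 0 := fun m => by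
    simp only [hc]; split_ifs
    · exact hsg1 _
    · simp
  have h1 := pair_le hpq n a c
  have h2 := upper hpq.symm.lt hc1 n
  have h3 : ∑ m ∈ range (2 ^ n), a m * c m = ((∑ m ∈ F, ‖a m‖ : ℝ) : 𝕜) := by
    rw [RCLike.ofReal_sum, ← sum_subset hF (fun m _ hm => by simp only [hc, if_neg hm, mul_zero])]
    refine sum_congr rfl fun m hm => ?_
    simp only [hc, if_pos hm]
    rw [mul_comm, hsg2]
  rw [h3, RCLike.norm_ofReal, abs_of_nonneg (sum_nonneg fun _ _ => norm_nonneg _)] at h1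
  refine h1.trans ?_
  rw [mul_comm]
  exact mul_le_mul_of_nonneg_right h2 (nm_nonneg _ _ _)

/-! ### Unconditionality -/

lemma re_val (r : ℝ) (c : ℕ → 𝕜) (n k : ℕ) :
    RCLike.re (val (r : 𝕜) c n k) = val r (fun m => RCLike.re (c m)) n k := by
  induction n generalizing k with
  | zero => rfl
  | succ n ih =>
    rw [val, val, map_add, ih, ← RCLike.ofReal_pow]
    split_ifs
    · rw [one_mul, one_mul, RCLike.re_ofReal_mul]
    · rw [neg_one_mul, neg_one_mul, map_neg, RCLike.re_ofReal_mul]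

lemma im_val (r : ℝ) (c : ℕ → 𝕜) (n k : ℕ) :
    RCLike.im (val (r : 𝕜) c n k) = val r (fun m => RCLike.im (c m)) n k := by
  induction n generalizing k with
  | zero => rfl
  | succ n ih =>
    rw [val, val, map_add, ih, ← RCLike.ofReal_pow]
    split_ifs
    · rw [one_mul, one_mul, RCLike.im_ofReal_mul]
    · rw [neg_one_mul, neg_one_mul, map_neg, RCLike.im_ofReal_mul]

/-- Real case, `p ≥ 2`. -/
lemma abs_pair_real' {p q : ℝ} (hpq : p.HolderConjugate q) (hp : 2 ≤ p) (n : ℕ) (a b : ℕ → ℝ) :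
    ∑ m ∈ range (2 ^ n), |a m| * |b m| ≤ KU p *
      (nm p n (fun k => val (bs p) a n k) * nm q n (fun k => val (bs q) b n k)) := by
  have hp0 := hpq.pos
  set θ : ℕ → ℝ := fun m => if 0 ≤ a m * b m then 1 else -1 with hθ
  have hθ1 : ∀ i, θ i = 1 ∨ θ i = -1 := fun i => by
    simp only [hθ]; split_ifs
    · exact Or.inl rfl
    · exact Or.inr rfl
  have h1 := pair_le (𝕜 := ℝ) hpq n (fun m => θ m * a m) b
  have h2 : ∑ m ∈ range (2 ^ n), θ m * a m * b m = ∑ m ∈ range (2 ^ n), |a m| * |b m| := by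
    refine sum_congr rfl fun m _ => ?_
    rw [← abs_mul, mul_assoc]
    simp only [hθ]; split_ifs with h
    · rw [one_mul, abs_of_nonneg h]
    · rw [abs_of_neg (not_le.mp h)]; ring
  rw [h2, Real.norm_of_nonneg (sum_nonneg fun _ _ => by positivity)] at h1
  refine h1.trans ?_
  have hKU := KU_ge p hp
  have h3 : nm p n (fun k => val (bs p) (fun m => θ m * a m) n k) ≤
      KU p * nm p n (fun k => val (bs p) a n k) := by
    refine nm_le_of hp0 (mul_nonneg (by linarith) (nm_nonneg _ _ _)) ?_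
    have h4 := uncond hp (bs p) a θ hθ1 n
    rw [Real.mul_rpow (by linarith) (nm_nonneg _ _ _), nm_pow hp0]
    simp only [Real.norm_eq_abs]
    have h5 : KU p ≤ KU p ^ p := by
      calc KU p = KU p ^ (1:ℝ) := (Real.rpow_one _).symm
        _ ≤ KU p ^ p := Real.rpow_le_rpow_of_exponent_le hKU (by linarith)
    have h6 : 0 ≤ ∑ k ∈ range (2 ^ n), |val (bs p) a n k| ^ p := sum_nonneg fun _ _ => by positivity
    calc _ ≤ KU p * ∑ k ∈ range (2 ^ n), |val (bs p) a n k| ^ p := h4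
      _ ≤ KU p ^ p * ∑ k ∈ range (2 ^ n), |val (bs p) a n k| ^ p := mul_le_mul_of_nonneg_right h5 h6
      _ = _ := by field_simp
  rw [← mul_assoc]
  exact mul_le_mul_of_nonneg_right h3 (nm_nonneg _ _ _)

/-- Constant. -/
noncomputable def KR (p q : ℝ) : ℝ := |KU p| + |KU q|

lemma abs_pair_real {p q : ℝ} (hpq : p.HolderConjugate q) (n : ℕ) (a b : ℕ → ℝ) :
    ∑ m ∈ range (2 ^ n), |a m| * |b m| ≤ KR p q *
      (nm p n (fun k => val (bs p) a n k) * nm q n (fun k => val (bs q) b n k)) := by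
  have h0 : 0 ≤ nm p n (fun k => val (bs p) a n k) * nm q n (fun k => val (bs q) b n k) :=
    mul_nonneg (nm_nonneg _ _ _) (nm_nonneg _ _ _)
  rcases le_total 2 p with h | h
  · refine (abs_pair_real' hpq h n a b).trans (mul_le_mul_of_nonneg_right ?_ h0)
    unfold KR; linarith [le_abs_self (KU p), abs_nonneg (KU q)]
  · have hq : 2 ≤ q := by
      have h1 := hpq.pos
      have h2 := hpq.symm.pos
      have h3 : p⁻¹ + q⁻¹ = 1 := hpq.inv_add_inv_eq_one
      have h4 : (2:ℝ)⁻¹ ≤ p⁻¹ := (inv_le_inv₀ (by norm_num) h1).mpr h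
      have h5 : q⁻¹ ≤ 2⁻¹ := by norm_num at h4 ⊢; linarith
      exact (inv_le_inv₀ h2 (by norm_num)).mp h5
    have h1 := abs_pair_real' hpq.symm hq n b a
    simp_rw [mul_comm (|b _|)] at h1
    refine h1.trans ?_
    rw [mul_comm (nm q n _)]
    refine mul_le_mul_of_nonneg_right ?_ h0
    unfold KR; linarith [le_abs_self (KU q), abs_nonneg (KU p)]

lemma norm_le_re_im (z : 𝕜) : ‖z‖ ≤ |RCLike.re z| + |RCLike.im z| := by
  conv_lhs => rw [← RCLike.re_add_im z]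
  refine (norm_add_le _ _).trans ?_
  rw [norm_mul, RCLike.norm_ofReal, RCLike.norm_ofReal]
  have : ‖(RCLike.I : 𝕜)‖ ≤ 1 := by rw [RCLike.norm_I]; split_ifs <;> norm_num
  have := mul_le_of_le_one_right (abs_nonneg (RCLike.im z)) this
  linarith

theorem abs_pair {p q : ℝ} (hpq : p.HolderConjugate q) (n : ℕ) (a b : ℕ → 𝕜) :
    ∑ m ∈ range (2 ^ n), ‖b m‖ * ‖a m‖ ≤ 4 * KR p q *
      (nm p n (fun k => val (bs p : 𝕜) a n k) * nm q n (fun k => val (bs q : 𝕜) b n k)) := by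
  have hp0 := hpq.pos
  have hq0 := hpq.symm.pos
  have hK : 0 ≤ KR p q := by unfold KR; positivity
  have e : ∀ m, ‖b m‖ * ‖a m‖ ≤ |RCLike.re (a m)| * |RCLike.re (b m)| +
      |RCLike.re (a m)| * |RCLike.im (b m)| + |RCLike.im (a m)| * |RCLike.re (b m)| +
      |RCLike.im (a m)| * |RCLike.im (b m)| := fun m => by
    have h1 := norm_le_re_im (a m)
    have h2 := norm_le_re_im (b m)
    calc ‖b m‖ * ‖a m‖ ≤ (|RCLike.re (b m)| + |RCLike.im (b m)|) *
          (|RCLike.re (a m)| + |RCLike.im (a m)|) :=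
          mul_le_mul h2 h1 (norm_nonneg _) (by positivity)
      _ = _ := by ring
  have r1 : nm p n (fun k => val (bs p) (fun m => RCLike.re (a m)) n k) ≤
      nm p n (fun k => val (bs p : 𝕜) a n k) := nm_mono hp0 fun k _ => by
    rw [← re_val, Real.norm_eq_abs]; exact RCLike.abs_re_le_norm _
  have r2 : nm p n (fun k => val (bs p) (fun m => RCLike.im (a m)) n k) ≤
      nm p n (fun k => val (bs p : 𝕜) a n k) := nm_mono hp0 fun k _ => by
    rw [← im_val, Real.norm_eq_abs]; exact RCLike.abs_im_le_norm _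
  have r3 : nm q n (fun k => val (bs q) (fun m => RCLike.re (b m)) n k) ≤
      nm q n (fun k => val (bs q : 𝕜) b n k) := nm_mono hq0 fun k _ => by
    rw [← re_val, Real.norm_eq_abs]; exact RCLike.abs_re_le_norm _
  have r4 : nm q n (fun k => val (bs q) (fun m => RCLike.im (b m)) n k) ≤
      nm q n (fun k => val (bs q : 𝕜) b n k) := nm_mono hq0 fun k _ => by
    rw [← im_val, Real.norm_eq_abs]; exact RCLike.abs_im_le_norm _
  set P := nm p n (fun k => val (bs p : 𝕜) a n k) with hP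
  set Q := nm q n (fun k => val (bs q : 𝕜) b n k) with hQ
  have hP0 : 0 ≤ P := nm_nonneg _ _ _
  have hQ0 : 0 ≤ Q := nm_nonneg _ _ _
  have key : ∀ x y : ℕ → ℝ, nm p n (fun k => val (bs p) x n k) ≤ P →
      nm q n (fun k => val (bs q) y n k) ≤ Q →
      ∑ m ∈ range (2 ^ n), |x m| * |y m| ≤ KR p q * (P * Q) := fun x y hx hy =>
    (abs_pair_real hpq n x y).trans (mul_le_mul_of_nonneg_left
      (mul_le_mul hx hy (nm_nonneg _ _ _) hP0) hK)
  have k1 := key _ _ r1 r3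
  have k2 := key _ _ r1 r4
  have k3 := key _ _ r2 r3
  have k4 := key _ _ r2 r4
  calc ∑ m ∈ range (2 ^ n), ‖b m‖ * ‖a m‖ ≤ _ := sum_le_sum fun m _ => e m
    _ ≤ 4 * KR p q * (P * Q) := by
      rw [sum_add_distrib, sum_add_distrib, sum_add_distrib]; linarith

/-- The dual family. -/
def GG (𝕜 : Type*) [RCLike 𝕜] (q : ℝ) : Set (ℕ → ℝ) :=
  {g | ∃ (n : ℕ) (b : ℕ → 𝕜), (∀ m, 2 ^ n ≤ m → b m = 0) ∧
    nm q n (fun k => val (bs q : 𝕜) b n k) ≤ 1 ∧ g = fun m => ‖b m‖}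

/-- Every `nm`-norm is attained by a member of the dual family. -/
theorem norming' {p q : ℝ} (hpq : p.HolderConjugate q) (n : ℕ) (a : ℕ → 𝕜) :
    ∃ g ∈ GG 𝕜 q, (∀ m, 2 ^ n ≤ m → g m = 0) ∧
      nm p n (fun k => val (bs p : 𝕜) a n k) ≤ ∑ m ∈ range (2 ^ n), g m * ‖a m‖ := by
  obtain ⟨B, hB1, hB2⟩ := norming hpq n (fun k => val (bs p : 𝕜) a n k)
  have hs : (bs q : 𝕜) ≠ 0 := by
    rw [Ne, RCLike.ofReal_eq_zero]; exact (bs_pos q).ne'
  obtain ⟨b, hb0, hb⟩ := surj hs n B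
  refine ⟨fun m => ‖b m‖, ⟨n, b, hb0, ?_, rfl⟩, fun m hm => by simp only [hb0 m hm, norm_zero], ?_⟩
  · refine le_trans (nm_mono hpq.symm.pos fun k hk => ?_) hB1
    rw [hb k hk]
  · have h1 : (bs p : 𝕜) * (bs q : 𝕜) = 2 := by
      rw [← RCLike.ofReal_mul, bs_mul hpq]; exact RCLike.ofReal_ofNat 2
    have h2 := pairing h1 a b n
    have h3 : ∑ k ∈ range (2 ^ n), val (bs p : 𝕜) a n k * val (bs q : 𝕜) b n k =
        ∑ k ∈ range (2 ^ n), val (bs p : 𝕜) a n k * B k :=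
      sum_congr rfl fun k hk => by rw [hb k (mem_range.mp hk)]
    rw [h3, hB2] at h2
    have h4 := congrArg norm h2
    rw [RCLike.norm_ofReal, norm_mul, norm_pow, RCLike.norm_ofNat,
      abs_of_nonneg (mul_nonneg (by positivity) (nm_nonneg _ _ _))] at h4
    have h5 : nm p n (fun k => val (bs p : 𝕜) a n k) = ‖∑ m ∈ range (2 ^ n), a m * b m‖ :=
      mul_left_cancel₀ (by positivity) h4
    rw [h5]
    refine (norm_sum_le _ _).trans (sum_le_sum fun m _ => ?_)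
    rw [norm_mul, mul_comm]

end Pool.Agent.H148R3.HR
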