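import Mathlib

/-!
The Haar system in `L_p[0,1]`, equivalent norms and the greedy property.
-/

set_option autoImplicit false

open MeasureTheory Filter Topology
open scoped ENNReal

namespace Pool.Agent.H148R3.OG

/-- Lebesgue measure on `[0,1]`. -/
noncomputable def leb : Measure ℝ := volume.restrict (Set.Icc 0 1)

instance : IsFiniteMeasure leb := ⟨by
  unfold leb; rw [Measure.restrict_apply_univ, Real.volume_Icc]; simp⟩

/-- The Haar function `h_I = |I|^{-1/p} (1_{I^-} - 1_{I^+})` of the dyadic interval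
`I = [k / 2^n, (k+1) / 2^n)`, where `I^-` and `I^+` are the left and right halves of `I`. -/
noncomputable def haarFn (p : ℝ) (n k : ℕ) (x : ℝ) : ℝ :=
  (((1 : ℝ) / 2) ^ n) ^ (-(1 / p)) *
    ((Set.Ico ((k : ℝ) / 2 ^ n) (((k : ℝ) + 1 / 2) / 2 ^ n)).indicator (fun _ => (1 : ℝ)) x -
      (Set.Ico (((k : ℝ) + 1 / 2) / 2 ^ n) (((k : ℝ) + 1) / 2 ^ n)).indicator (fun _ => (1 : ℝ)) x)

/-- The Haar system in its usual order (by length, then left to right): the constant function `1`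
has index `0`, and for `k < 2^n` the function of the interval `[k / 2^n, (k+1) / 2^n)` has index
`2^n + k`. -/
noncomputable def haarSeq (p : ℝ) (m : ℕ) (x : ℝ) : ℝ :=
  if m = 0 then 1 else haarFn p (Nat.log 2 m) (m - 2 ^ Nat.log 2 m) x

lemma haarSeq_measurable (p : ℝ) (m : ℕ) : Measurable (haarSeq p m) := by
  unfold haarSeq
  split_ifs
  · exact measurable_const
  · unfold haarFn
    exact ((measurable_const.indicator measurableSet_Ico).sub
      (measurable_const.indicator measurableSet_Ico)).const_mul _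

lemma haarSeq_bound (p : ℝ) (m : ℕ) : ∃ C : ℝ, ∀ x, |haarSeq p m x| ≤ C := by
  unfold haarSeq
  split_ifs
  · exact ⟨1, fun x => by simp⟩
  · refine ⟨|(((1 : ℝ) / 2) ^ Nat.log 2 m) ^ (-(1 / p))| * 2, fun x => ?_⟩
    unfold haarFn
    rw [abs_mul]
    refine mul_le_mul_of_nonneg_left ?_ (abs_nonneg _)
    have h : ∀ (s : Set ℝ), |s.indicator (fun _ => (1:ℝ)) x| ≤ 1 := fun s => by
      by_cases hx : x ∈ s
      · rw [Set.indicator_of_mem hx]; simp
      · rw [Set.indicator_of_notMem hx]; simp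
    exact (abs_sub _ _).trans ((add_le_add (h _) (h _)).trans (by norm_num))

lemma haarSeq_memLp (𝕜 : Type*) [RCLike 𝕜] (p : ℝ) (m : ℕ) (P : ℝ≥0∞) :
    MemLp (fun x => (haarSeq p m x : 𝕜)) P leb := by
  obtain ⟨C, hC⟩ := haarSeq_bound p m
  refine MemLp.of_bound
    ((RCLike.continuous_ofReal.measurable.comp (haarSeq_measurable p m)).aestronglyMeasurable) C
    (Eventually.of_forall fun x => ?_)
  rw [RCLike.norm_ofReal]; exact hC x

/-- The `m`-th element of the Haar system, normalised in `L_p`, as an element of `L_p[0,1]`. -/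
noncomputable def haar (𝕜 : Type*) [RCLike 𝕜] (p : ℝ≥0∞) (m : ℕ) : Lp 𝕜 p leb :=
  (haarSeq_memLp 𝕜 p.toReal m p).toLp _

/-! ### Greedy bases of normed spaces -/

section greedy

variable (𝕜 : Type*) [RCLike 𝕜] {X : Type*} [NormedAddCommGroup X] [NormedSpace 𝕜 X]

/-- `N` is a norm on the normed space `X` (over `𝕜`) equivalent to the given one. -/
structure IsEquivNorm (N : X → ℝ) : Prop where
  add_le : ∀ f g, N (f + g) ≤ N f + N g
  smul : ∀ (c : 𝕜) f, N (c • f) = ‖c‖ * N f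
  equiv : ∃ c C : ℝ, 0 < c ∧ 0 < C ∧ ∀ f, c * ‖f‖ ≤ N f ∧ N f ≤ C * ‖f‖

variable {𝕜}

/-- `f = ∑ a_m h_m`: the partial sums of the series with coefficients `a` converge to `f` in the
norm of `X`. -/
def IsExpansion (h : ℕ → X) (a : ℕ → 𝕜) (f : X) : Prop :=
  Tendsto (fun n => ∑ m ∈ Finset.range n, a m • h m) atTop (𝓝 f)

/-- `A` is a greedy set for the coefficient sequence `a`:
`min_{n ∈ A} |a_n| ≥ max_{n ∉ A} |a_n|`. -/
def IsGreedySet (a : ℕ → 𝕜) (A : Finset ℕ) : Prop := ∀ n ∈ A, ∀ k, k ∉ A → ‖a k‖ ≤ ‖a n‖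

variable (𝕜)

/-- The best `m`-term approximation error of `f` by the system `h` with respect to `N`. -/
noncomputable def sigma (h : ℕ → X) (N : X → ℝ) (m : ℕ) (f : X) : ℝ :=
  sInf {r | ∃ (B : Finset ℕ) (b : ℕ → 𝕜), B.card ≤ m ∧ r = N (f - ∑ n ∈ B, b n • h n)}

/-- The system `h` is a `K`-greedy basis of `X` with respect to `N`: every `f` is the sum of exactly
one series `∑ a_m h_m`, and `N (f - G_A f) ≤ K σ_m(f)` for all `f`, all `m` and all greedy sets
`A` of `f` with `m` elements, where `G_A f = ∑_{n ∈ A} a_n h_n`. -/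
structure IsGreedyBasis (h : ℕ → X) (N : X → ℝ) (K : ℝ) : Prop where
  expansion : ∀ f : X, ∃! a : ℕ → 𝕜, IsExpansion h a f
  greedy : ∀ (f : X) (a : ℕ → 𝕜), IsExpansion h a f → ∀ A : Finset ℕ, IsGreedySet a A →
    N (f - ∑ n ∈ A, a n • h n) ≤ K * sigma 𝕜 h N A.card f

end greedy

end Pool.Agent.H148R3.OG
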