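import Mathlib
import Pool.Agent.Helper415.HA2
import Pool.Agent.H148R3.HR2
import Pool.Agent.H148R3.OGDefs

set_option autoImplicit false

open MeasureTheory Filter Topology Finset
open scoped ENNReal

namespace Pool.Agent.H148R3.HR

open Pool.Agent.Helper415.HA Pool.Agent.H148R3.OG

lemma leb_eq : leb = μ1 := by
  unfold leb μ1
  exact (Measure.restrict_congr_set Ico_ae_eq_Icc).symm

lemma ae_leb {P : ℝ → Prop} (h : ∀ x ∈ Set.Ico (0:ℝ) 1, P x) : ∀ᵐ x ∂leb, P x := by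
  rw [leb_eq]; unfold μ1
  rw [ae_restrict_iff' measurableSet_Ico]
  exact Eventually.of_forall h

/-- Haar functions with base `r`. -/
noncomputable def hs (r : ℝ) (m : ℕ) (x : ℝ) : ℝ :=
  if m = 0 then ind 0 0 x else r ^ (Nat.log 2 m) *
    (ind (Nat.log 2 m + 1) (2 * (m - 2 ^ Nat.log 2 m)) x -
      ind (Nat.log 2 m + 1) (2 * (m - 2 ^ Nat.log 2 m) + 1) x)

lemma hs_zero (r : ℝ) (x : ℝ) : hs r 0 x = ind 0 0 x := if_pos rfl

lemma log_eq {n k : ℕ} (hk : k < 2 ^ n) : Nat.log 2 (2 ^ n + k) = n :=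
  Nat.log_eq_of_pow_le_of_lt_pow (by omega) (by rw [pow_succ]; omega)

lemma hs_eq (r : ℝ) {n k : ℕ} (hk : k < 2 ^ n) (x : ℝ) :
    hs r (2 ^ n + k) x = r ^ n * (ind (n + 1) (2 * k) x - ind (n + 1) (2 * k + 1) x) := by
  have h0 : 2 ^ n + k ≠ 0 := by have : 0 < 2 ^ n := by positivity
                                omega
  unfold hs
  rw [if_neg h0, log_eq hk, Nat.add_sub_cancel_left]

lemma exists_nk {m : ℕ} (hm : m ≠ 0) : ∃ n k, k < 2 ^ n ∧ m = 2 ^ n + k := by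
  refine ⟨Nat.log 2 m, m - 2 ^ Nat.log 2 m, ?_, ?_⟩
  · have := Nat.lt_pow_succ_log_self (b := 2) (by norm_num) m
    rw [pow_succ] at this; omega
  · have := Nat.pow_log_le_self 2 hm
    omega

lemma meas_hs (r : ℝ) (m : ℕ) : Measurable (hs r m) := by
  unfold hs
  split_ifs
  · exact meas_ind _ _
  · exact ((meas_ind _ _).sub (meas_ind _ _)).const_mul _

lemma abs_ind_le (n k : ℕ) (x : ℝ) : |ind n k x| ≤ 1 := by
  rw [abs_of_nonneg (ind_nonneg _ _ _)]; exact ind_le_one _ _ _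

lemma hs_bound (r : ℝ) (m : ℕ) : ∃ C : ℝ, ∀ x, |hs r m x| ≤ C := by
  unfold hs
  split_ifs
  · exact ⟨1, fun x => abs_ind_le _ _ x⟩
  · refine ⟨|r ^ (Nat.log 2 m)| * 2, fun x => ?_⟩
    rw [abs_mul]
    refine mul_le_mul_of_nonneg_left ?_ (abs_nonneg _)
    exact (abs_sub _ _).trans ((add_le_add (abs_ind_le _ _ x) (abs_ind_le _ _ x)).trans
      (by norm_num))

variable {𝕜 : Type*} [RCLike 𝕜]

lemma int_bdd {f : ℝ → 𝕜} (hf : Integrable f leb) {φ : ℝ → ℝ} (hφ : Measurable φ) {C : ℝ}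
    (hC : ∀ x, |φ x| ≤ C) : Integrable (fun x => (φ x : 𝕜) * f x) leb := by
  refine (hf.norm.const_mul C).mono'
    ((RCLike.continuous_ofReal.measurable.comp hφ).aestronglyMeasurable.mul hf.1)
    (ae_of_all _ fun x => ?_)
  rw [norm_mul, RCLike.norm_ofReal]
  exact mul_le_mul_of_nonneg_right (hC x) (norm_nonneg _)

/-- Integrals over cells. -/
noncomputable def II (n k : ℕ) (f : ℝ → 𝕜) : 𝕜 := ∫ x, (ind n k x : 𝕜) * f x ∂leb

lemma int_ind_f {f : ℝ → 𝕜} (hf : Integrable f leb) (n k : ℕ) :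
    Integrable (fun x => (ind n k x : 𝕜) * f x) leb :=
  int_bdd hf (meas_ind n k) (abs_ind_le n k)

lemma II_split {f : ℝ → 𝕜} (hf : Integrable f leb) (n k : ℕ) :
    II n k f = II (n + 1) (2 * k) f + II (n + 1) (2 * k + 1) f := by
  unfold II
  rw [← integral_add (int_ind_f hf _ _) (int_ind_f hf _ _)]
  congr 1
  funext x
  rw [ind_split n k x]; push_cast; ring

/-- Haar coefficients. -/
noncomputable def co (s : ℝ) (f : ℝ → 𝕜) (m : ℕ) : 𝕜 := ∫ x, (hs s m x : 𝕜) * f x ∂leb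

lemma co_zero (s : ℝ) (f : ℝ → 𝕜) : co s f 0 = II 0 0 f := by
  unfold co II
  simp_rw [hs_zero]

lemma co_succ (s : ℝ) {f : ℝ → 𝕜} (hf : Integrable f leb) {n k : ℕ} (hk : k < 2 ^ n) :
    co s f (2 ^ n + k) = (s:𝕜) ^ n * (II (n + 1) (2 * k) f - II (n + 1) (2 * k + 1) f) := by
  unfold co II
  rw [← integral_sub (int_ind_f hf _ _) (int_ind_f hf _ _), ← integral_const_mul]
  congr 1
  funext x
  rw [hs_eq s hk]; push_cast; ring

lemma J1 {r s : ℝ} (hrs : r * s = 2) {f : ℝ → 𝕜} (hf : Integrable f leb) (n : ℕ) :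
    ∀ k < 2 ^ n, val (r : 𝕜) (co s f) n k = 2 ^ n * II n k f := by
  induction n with
  | zero =>
    intro k hk
    have : k = 0 := by simpa using hk
    rw [val, co_zero, this]; simp
  | succ n ih =>
    intro k hk
    have hk2 : k / 2 < 2 ^ n := by rw [pow_succ] at hk; omega
    have hp : (r:𝕜) ^ n * (s:𝕜) ^ n = 2 ^ n := by
      rw [← mul_pow, ← RCLike.ofReal_mul, hrs, RCLike.ofReal_ofNat]
    rw [val, ih _ hk2, co_succ s hf hk2, II_split hf n (k / 2)]
    rcases Nat.mod_two_eq_zero_or_one k with h | h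
    · have e : 2 * (k / 2) = k := by omega
      rw [if_pos h, e]
      linear_combination (II (n + 1) k f - II (n + 1) (k + 1) f) * hp
    · have e : 2 * (k / 2) + 1 = k := by omega
      rw [if_neg (by omega), e]
      linear_combination (-(II (n + 1) (2 * (k / 2)) f - II (n + 1) k f)) * hp

lemma sum_ind {n : ℕ} {x : ℝ} (hx : x ∈ Set.Ico (0:ℝ) 1) (φ : ℕ → ℝ) :
    ∑ k ∈ range (2 ^ n), ind n k x * φ k = φ (cell n x) := by
  rw [sum_eq_single (cell n x)]
  · unfold ind; rw [if_pos rfl, one_mul]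
  · intro k _ hk
    unfold ind; rw [if_neg (Ne.symm hk), zero_mul]
  · intro h
    exact absurd (mem_range.mpr (cell_lt hx)) h

lemma int_ind_leb {n k : ℕ} (hk : k < 2 ^ n) : ∫ x, ind n k x ∂leb = (1 / 2 : ℝ) ^ n := by
  rw [leb_eq]; exact int_ind_eq hk

lemma integrable_ind_leb (n k : ℕ) : Integrable (ind n k) leb := by
  rw [leb_eq]; exact integrable_ind n k

section Lp
variable {P : ℝ≥0∞}

lemma cell_holder {p q : ℝ} (hpq : p.HolderConjugate q) {f : ℝ → 𝕜}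
    (hf : MemLp f (ENNReal.ofReal p) leb) {n k : ℕ} (hk : k < 2 ^ n) :
    2 ^ n * ‖II n k f‖ ≤ (2 ^ n * ∫ x, ind n k x * ‖f x‖ ^ p ∂leb) ^ (1 / p) := by
  have hp := hpq.pos
  have hq := hpq.symm.pos
  have h1p : 1 ≤ ENNReal.ofReal p := by
    rw [← ENNReal.ofReal_one]; exact ENNReal.ofReal_le_ofReal hpq.lt.le
  have hfi : Integrable f leb := hf.integrable h1p
  have h1 : ‖II n k f‖ ≤ ∫ x, (ind n k x * ‖f x‖) * ind n k x ∂leb := by
    unfold II
    refine (norm_integral_le_integral_norm _).trans (le_of_eq ?_)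
    congr 1
    funext x
    rw [norm_mul, RCLike.norm_ofReal, abs_of_nonneg (ind_nonneg _ _ _)]
    unfold ind; split_ifs <;> simp
  have hF : MemLp (fun x => ind n k x * ‖f x‖) (ENNReal.ofReal p) leb := by
    refine hf.mono ((meas_ind n k).aestronglyMeasurable.mul hf.1.norm) (ae_of_all _ fun x => ?_)
    rw [norm_mul, norm_norm, Real.norm_eq_abs]
    exact mul_le_of_le_one_left (norm_nonneg _) (abs_ind_le _ _ _)
  have hG : MemLp (ind n k) (ENNReal.ofReal q) leb :=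
    MemLp.of_bound (meas_ind n k).aestronglyMeasurable 1 (ae_of_all _ fun x => by
      rw [Real.norm_eq_abs]; exact abs_ind_le _ _ _)
  have h2 := integral_mul_le_Lp_mul_Lq_of_nonneg hpq
    (ae_of_all leb fun x => mul_nonneg (ind_nonneg n k x) (norm_nonneg (f x)))
    (ae_of_all leb fun x => ind_nonneg n k x) hF hG
  have e1 : ∀ x, (ind n k x * ‖f x‖) ^ p = ind n k x * ‖f x‖ ^ p := fun x => by
    unfold ind; split_ifs
    · rw [one_mul, one_mul]
    · rw [zero_mul, zero_mul, Real.zero_rpow hp.ne']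
  have e2 : ∀ x, (ind n k x) ^ q = ind n k x := fun x => by
    unfold ind; split_ifs
    · exact Real.one_rpow q
    · exact Real.zero_rpow hq.ne'
  simp_rw [e1, e2, int_ind_leb hk] at h2
  have hc : 0 ≤ ∫ x, ind n k x * ‖f x‖ ^ p ∂leb :=
    integral_nonneg fun x => mul_nonneg (ind_nonneg _ _ _) (by positivity)
  have e3 : (2:ℝ) ^ n * (((1:ℝ) / 2) ^ n) ^ (1 / q) = ((2:ℝ) ^ n) ^ (1 / p) := by
    have h3 : ((2:ℝ) ^ n) ^ (1 / p) * ((2:ℝ) ^ n) ^ (1 / q) = 2 ^ n := by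
      rw [← Real.rpow_add (by positivity), one_div, one_div, hpq.inv_add_inv_eq_one, Real.rpow_one]
    rw [one_div_pow, one_div (2 ^ n : ℝ), Real.inv_rpow (by positivity)]
    nth_rewrite 1 [← h3]
    have : ((2:ℝ) ^ n) ^ (1 / q) ≠ 0 := by positivity
    field_simp
  calc 2 ^ n * ‖II n k f‖ ≤ 2 ^ n * ((∫ x, ind n k x * ‖f x‖ ^ p ∂leb) ^ (1 / p) *
        (((1:ℝ) / 2) ^ n) ^ (1 / q)) := mul_le_mul_of_nonneg_left (h1.trans h2) (by positivity)
    _ = (2 ^ n * (((1:ℝ) / 2) ^ n) ^ (1 / q)) * (∫ x, ind n k x * ‖f x‖ ^ p ∂leb) ^ (1 / p) := by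
        ring
    _ = _ := by rw [e3, ← Real.mul_rpow (by positivity) hc]

lemma J2 {p q : ℝ} (hpq : p.HolderConjugate q) {f : ℝ → 𝕜}
    (hf : MemLp f (ENNReal.ofReal p) leb) (n : ℕ) :
    nm p n (fun k => val (bs p : 𝕜) (co (bs q) f) n k) ≤ (∫ x, ‖f x‖ ^ p ∂leb) ^ (1 / p) := by
  have hp := hpq.pos
  have h1p : 1 ≤ ENNReal.ofReal p := by
    rw [← ENNReal.ofReal_one]; exact ENNReal.ofReal_le_ofReal hpq.lt.le
  have hfi : Integrable f leb := hf.integrable h1p
  have hc : 0 ≤ ∫ x, ‖f x‖ ^ p ∂leb := integral_nonneg fun x => by positivity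
  have hfp : Integrable (fun x => ‖f x‖ ^ p) leb := by
    have := hf.integrable_norm_rpow (by simp [hp]) ENNReal.ofReal_ne_top
    rwa [ENNReal.toReal_ofReal hp.le] at this
  refine nm_le_of hp (by positivity) ?_
  rw [← Real.rpow_mul hc, one_div_mul_cancel hp.ne', Real.rpow_one]
  have h1 : ∀ k ∈ range (2 ^ n), ‖val (bs p : 𝕜) (co (bs q) f) n k‖ ^ p ≤
      2 ^ n * ∫ x, ind n k x * ‖f x‖ ^ p ∂leb := fun k hk => by
    have hk' := mem_range.mp hk
    have hc' : 0 ≤ ∫ x, ind n k x * ‖f x‖ ^ p ∂leb :=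
      integral_nonneg fun x => mul_nonneg (ind_nonneg _ _ _) (by positivity)
    rw [J1 (bs_mul hpq) hfi n k hk', norm_mul, norm_pow, RCLike.norm_ofNat]
    refine (Real.rpow_le_rpow (by positivity) (cell_holder hpq hf hk') hp.le).trans (le_of_eq ?_)
    rw [← Real.rpow_mul (by positivity), one_div_mul_cancel hp.ne', Real.rpow_one]
  have hint : ∀ k, Integrable (fun x => ind n k x * ‖f x‖ ^ p) leb := fun k => by
    have := int_bdd (𝕜 := ℝ) hfp (meas_ind n k) (abs_ind_le n k)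
    simpa using this
  refine (sum_le_sum h1).trans (le_of_eq ?_)
  rw [← mul_sum, ← integral_finsetSum _ fun k _ => hint k, mul_comm]
  congr 1
  refine integral_congr_ae (ae_leb fun x hx => ?_)
  exact sum_ind hx fun _ => ‖f x‖ ^ p

end Lp

end Pool.Agent.H148R3.HR
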