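import Mathlib
import Pool.Agent.H148R3.HR3

set_option autoImplicit false

open MeasureTheory Filter Topology Finset
open scoped ENNReal

namespace Pool.Agent.H148R3.HR

open Pool.Agent.Helper415.HA Pool.Agent.H148R3.OG

variable {𝕜 : Type*} [RCLike 𝕜]

lemma ind_eq_indicator {n k : ℕ} {x : ℝ} (hx : 0 ≤ x) :
    ind n k x = (Set.Ico ((k : ℝ) / 2 ^ n) (((k : ℝ) + 1) / 2 ^ n)).indicator (fun _ => (1:ℝ)) x := by
  have h2 : (0:ℝ) < 2 ^ n := by positivity
  have h : x ∈ Set.Ico ((k : ℝ) / 2 ^ n) (((k : ℝ) + 1) / 2 ^ n) ↔ cell n x = k := by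
    unfold cell
    rw [Nat.floor_eq_iff (mul_nonneg h2.le hx), Set.mem_Ico, div_le_iff₀ h2, lt_div_iff₀ h2,
      mul_comm x]
  unfold ind
  by_cases hc : cell n x = k
  · rw [if_pos hc, Set.indicator_of_mem (h.mpr hc)]
  · rw [if_neg hc, Set.indicator_of_notMem (fun h' => hc (h.mp h'))]

/-- Integral over a cell as an interval integral. -/
lemma II_eq {n k : ℕ} (hk : k < 2 ^ n) (f : ℝ → 𝕜) :
    II n k f = ∫ x in Set.Icc ((k : ℝ) / 2 ^ n) (((k : ℝ) + 1) / 2 ^ n),
      (Set.Ico (0:ℝ) 1).indicator f x := by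
  have h2 : (0:ℝ) < 2 ^ n := by positivity
  unfold II
  rw [leb_eq]; unfold μ1
  rw [integral_Icc_eq_integral_Ico]
  rw [← integral_indicator measurableSet_Ico, ← integral_indicator measurableSet_Ico]
  congr 1
  funext x
  have hsub : Set.Ico ((k : ℝ) / 2 ^ n) (((k : ℝ) + 1) / 2 ^ n) ⊆ Set.Ico 0 1 := by
    intro y hy
    have hk' : (k : ℝ) + 1 ≤ 2 ^ n := by exact_mod_cast hk
    refine ⟨le_trans (by positivity) hy.1, hy.2.trans_le ?_⟩
    rw [div_le_one h2]; exact hk'
  by_cases hx : x ∈ Set.Ico (0:ℝ) 1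
  · rw [Set.indicator_of_mem hx, ind_eq_indicator hx.1]
    by_cases hx2 : x ∈ Set.Ico ((k : ℝ) / 2 ^ n) (((k : ℝ) + 1) / 2 ^ n)
    · rw [Set.indicator_of_mem hx2, Set.indicator_of_mem hx2, Set.indicator_of_mem hx]; simp
    · rw [Set.indicator_of_notMem hx2, Set.indicator_of_notMem hx2]; simp
  · rw [Set.indicator_of_notMem hx, Set.indicator_of_notMem (fun h => hx (hsub h))]

/-- The step function with values `A k` on the cells of level `n`. -/
noncomputable def stp (n : ℕ) (A : ℕ → 𝕜) (x : ℝ) : 𝕜 := A (cell n x)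

lemma stp_aesm (n : ℕ) (A : ℕ → 𝕜) : AEStronglyMeasurable (stp n A) leb :=
  ((measurable_from_nat (f := A)).comp (meas_cell n)).aestronglyMeasurable

lemma stp_memLp (n : ℕ) (A : ℕ → 𝕜) (P : ℝ≥0∞) : MemLp (stp n A) P leb := by
  refine MemLp.of_bound (stp_aesm n A) (∑ k ∈ range (2 ^ n), ‖A k‖) (ae_leb fun x hx => ?_)
  exact single_le_sum (f := fun k => ‖A k‖) (fun _ _ => norm_nonneg _)
    (mem_range.mpr (cell_lt hx))

lemma stp_norm {p : ℝ} (hp : 0 < p) (n : ℕ) (A : ℕ → 𝕜) :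
    ∫ x, ‖stp n A x‖ ^ p ∂leb = (∑ k ∈ range (2 ^ n), ‖A k‖ ^ p) / 2 ^ n := by
  have h1 : ∫ x, ‖stp n A x‖ ^ p ∂leb = ∫ x, ∑ k ∈ range (2 ^ n), ind n k x * ‖A k‖ ^ p ∂leb :=
    integral_congr_ae (ae_leb fun x hx => (sum_ind hx fun k => ‖A k‖ ^ p).symm)
  rw [h1, integral_finsetSum _ fun k _ => (integrable_ind_leb n k).mul_const _, sum_div]
  refine sum_congr rfl fun k hk => ?_
  rw [integral_mul_const, int_ind_leb (mem_range.mp hk), one_div_pow]
  ring

lemma stp_eLpNorm {p : ℝ} (hp : 0 < p) (n : ℕ) (A : ℕ → 𝕜) :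
    eLpNorm (stp n A) (ENNReal.ofReal p) leb = ENNReal.ofReal (nm p n A) := by
  rw [MemLp.eLpNorm_eq_integral_rpow_norm (by simp [hp]) ENNReal.ofReal_ne_top
    (stp_memLp n A _), ENNReal.toReal_ofReal hp.le, stp_norm hp]
  unfold nm
  rw [one_div]

/-- Almost everywhere convergence of the dyadic averages. -/
lemma ae_conv {f : ℝ → 𝕜} (hf : Integrable f leb) :
    ∀ᵐ x ∂leb, Tendsto (fun n => 2 ^ n * II n (cell n x) f) atTop (𝓝 (f x)) := by
  have hfi : Integrable ((Set.Ico (0:ℝ) 1).indicator f) volume := by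
    rw [integrable_indicator_iff measurableSet_Ico]
    rw [leb_eq] at hf; exact hf
  have h1 := IsUnifLocDoublingMeasure.ae_tendsto_average (volume : Measure ℝ)
    hfi.locallyIntegrable 1
  rw [leb_eq]; unfold μ1
  rw [ae_restrict_iff' measurableSet_Ico]
  filter_upwards [h1] with x hx hx01
  have h2 : ∀ n : ℕ, (0:ℝ) < 2 ^ n := fun n => by positivity
  have hδ : Tendsto (fun n : ℕ => (1:ℝ) / 2 ^ (n + 1)) atTop (𝓝[>] 0) := by
    refine tendsto_nhdsWithin_iff.mpr ⟨?_, Eventually.of_forall fun n => ?_⟩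
    · have := tendsto_pow_atTop_nhds_zero_of_lt_one (r := (1:ℝ) / 2) (by norm_num) (by norm_num)
      have h3 := (tendsto_add_atTop_iff_nat 1).mpr this
      refine h3.congr fun n => ?_
      rw [one_div_pow]
    · simp only [Set.mem_Ioi]; positivity
  have hball : ∀ n : ℕ, Metric.closedBall (((cell n x : ℝ) + 1 / 2) / 2 ^ n) (1 / 2 ^ (n + 1)) =
      Set.Icc ((cell n x : ℝ) / 2 ^ n) (((cell n x : ℝ) + 1) / 2 ^ n) := fun n => by
    rw [Real.closedBall_eq_Icc]
    have := (h2 n).ne'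
    congr 1
    · rw [pow_succ]; field_simp; ring
    · rw [pow_succ]; field_simp; ring
  have hmem : ∀ n : ℕ, x ∈ Set.Icc ((cell n x : ℝ) / 2 ^ n) (((cell n x : ℝ) + 1) / 2 ^ n) := by
    intro n
    have h3 : 0 ≤ (2:ℝ) ^ n * x := mul_nonneg (h2 n).le hx01.1
    rw [Set.mem_Icc, div_le_iff₀ (h2 n), le_div_iff₀ (h2 n), mul_comm x]
    unfold cell
    exact ⟨Nat.floor_le h3, (Nat.lt_floor_add_one _).le⟩
  have h4 := hx (fun n : ℕ => ((cell n x : ℝ) + 1 / 2) / 2 ^ n) (fun n => 1 / 2 ^ (n + 1)) hδ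
    (Eventually.of_forall fun n => by rw [one_mul, hball n]; exact hmem n)
  rw [Set.indicator_of_mem hx01] at h4
  refine h4.congr fun n => ?_
  rw [hball n, setAverage_eq, ← II_eq (cell_lt hx01)]
  have h5 : (volume : Measure ℝ).real (Set.Icc ((cell n x : ℝ) / 2 ^ n)
      (((cell n x : ℝ) + 1) / 2 ^ n)) = 1 / 2 ^ n := by
    rw [Real.volume_real_Icc, max_eq_left]
    · ring
    · rw [← sub_div]; have := h2 n
      rw [add_sub_cancel_left]; positivity
  rw [h5, one_div, inv_inv, RCLike.real_smul_eq_coe_mul]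
  push_cast
  ring

/-- Lower estimate: the norm is the supremum of the norms of the dyadic averages. -/
lemma J3 {p q : ℝ} (hpq : p.HolderConjugate q) {f : ℝ → 𝕜}
    (hf : MemLp f (ENNReal.ofReal p) leb) {M : ℝ}
    (hM : ∀ n, nm p n (fun k => val (bs p : 𝕜) (co (bs q) f) n k) ≤ M) :
    eLpNorm f (ENNReal.ofReal p) leb ≤ ENNReal.ofReal M := by
  have hp := hpq.pos
  have h1p : 1 ≤ ENNReal.ofReal p := by
    rw [← ENNReal.ofReal_one]; exact ENNReal.ofReal_le_ofReal hpq.lt.le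
  have hfi : Integrable f leb := hf.integrable h1p
  have h1 := Lp.eLpNorm_lim_le_liminf_eLpNorm (p := ENNReal.ofReal p) (μ := leb)
    (f := fun n => stp n (fun k => val (bs p : 𝕜) (co (bs q) f) n k)) (fun n => stp_aesm n _) f (by
      filter_upwards [ae_conv hfi, ae_leb (P := fun x => x ∈ Set.Ico (0:ℝ) 1) fun x hx => hx]
        with x hx hx01
      refine hx.congr fun n => ?_
      exact (J1 (bs_mul hpq) hfi n _ (cell_lt hx01)).symm)
  refine h1.trans ?_
  calc liminf (fun n => eLpNorm (stp n (fun k => val (bs p : 𝕜) (co (bs q) f) n k))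
        (ENNReal.ofReal p) leb) atTop ≤ liminf (fun _ => ENNReal.ofReal M) atTop :=
        liminf_le_liminf (Eventually.of_forall fun n => by
          rw [stp_eLpNorm hp]; exact ENNReal.ofReal_le_ofReal (hM n))
    _ = ENNReal.ofReal M := by simp

/-- Unit vectors. -/
def dl (j : ℕ) (m : ℕ) : 𝕜 := if m = j then 1 else 0

lemma val_zero (r : 𝕜) (n k : ℕ) : val r (fun _ => (0:𝕜)) n k = 0 := by
  induction n generalizing k with
  | zero => rfl
  | succ n ih => rw [val, ih]; simp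

/-- Haar functions are step functions. -/
lemma hs_stp (r : ℝ) {j N : ℕ} (hj : j < 2 ^ N) {x : ℝ} (hx : x ∈ Set.Ico (0:ℝ) 1) :
    (hs r j x : 𝕜) = val (r : 𝕜) (dl j) N (cell N x) := by
  induction N generalizing j with
  | zero =>
    have h0 : j = 0 := by simpa using hj
    have hc : cell 0 x = 0 := by have := cell_lt (n := 0) hx; simpa using this
    rw [val, h0, hs_zero]
    unfold ind dl
    rw [if_pos hc]; simp
  | succ N ih =>
    have hcell : cell N x = cell (N + 1) x / 2 := by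
      have := cell_add N 1 x
      rwa [pow_one] at this
    by_cases hjN : j < 2 ^ N
    · rw [ih hjN, val, ← hcell]
      have : (dl j (2 ^ N + cell N x) : 𝕜) = 0 := by
        unfold dl; rw [if_neg (by omega)]
      rw [this]; simp
    · obtain ⟨k, rfl⟩ : ∃ k, j = 2 ^ N + k := ⟨j - 2 ^ N, by omega⟩
      have hk : k < 2 ^ N := by rw [pow_succ] at hj; omega
      rw [hs_eq r hk, val]
      have h1 : val (r:𝕜) (dl (2 ^ N + k)) N (cell (N + 1) x / 2) = 0 := by
        rw [← hcell, val_congr (r:𝕜) (c' := fun _ => (0:𝕜)) (fun m hm => by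
          unfold dl; rw [if_neg (by omega)]) _ (cell_lt hx), val_zero]
      rw [h1, zero_add]
      unfold ind dl
      set c := cell (N + 1) x with hc
      by_cases e1 : c = 2 * k
      · rw [if_pos e1, if_neg (by omega), if_pos (by omega), if_pos (by omega)]
        push_cast; ring
      · by_cases e2 : c = 2 * k + 1
        · rw [if_neg e1, if_pos e2, if_neg (by omega), if_pos (by omega)]
          push_cast; ring
        · rw [if_neg e1, if_neg e2, if_neg (by omega : ¬ (2 ^ N + c / 2 = 2 ^ N + k))]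
          push_cast; ring

/-- Injectivity of the transform. -/
lemma val_inj {r s : 𝕜} (hrs : r * s = 2) {a a' : ℕ → 𝕜} {N : ℕ}
    (h : ∀ k < 2 ^ N, val r a N k = val r a' N k) {i : ℕ} (hi : i < 2 ^ N) : a i = a' i := by
  have h1 := pairing hrs a (dl i) N
  have h2 := pairing hrs a' (dl i) N
  have h3 : ∑ k ∈ range (2 ^ N), val r a N k * val s (dl i) N k =
      ∑ k ∈ range (2 ^ N), val r a' N k * val s (dl i) N k :=
    sum_congr rfl fun k hk => by rw [h k (mem_range.mp hk)]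
  have h4 : ∀ b : ℕ → 𝕜, ∑ m ∈ range (2 ^ N), b m * dl i m = b i := fun b => by
    rw [sum_eq_single i]
    · unfold dl; rw [if_pos rfl, mul_one]
    · intro m _ hm; unfold dl; rw [if_neg hm, mul_zero]
    · intro h'; exact absurd (mem_range.mpr hi) h'
  rw [h1, h2, h4, h4] at h3
  exact mul_left_cancel₀ (pow_ne_zero _ two_ne_zero) h3

/-- Biorthogonality. -/
lemma co_hs {r s : ℝ} (hrs : r * s = 2) {f : ℝ → 𝕜} (j : ℕ) (hf : f =ᵐ[leb] fun x => (hs r j x : 𝕜))
    (i : ℕ) : co s f i = dl j i := by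
  obtain ⟨N, hN⟩ : ∃ N, i < 2 ^ N ∧ j < 2 ^ N := by
    refine ⟨i + j, ?_, ?_⟩
    · exact (Nat.lt_two_pow_self).trans_le (Nat.pow_le_pow_right (by norm_num) (by omega))
    · exact (Nat.lt_two_pow_self).trans_le (Nat.pow_le_pow_right (by norm_num) (by omega))
  have hrs' : (r : 𝕜) * (s : 𝕜) = 2 := by
    rw [← RCLike.ofReal_mul, hrs, RCLike.ofReal_ofNat]
  have hfi : Integrable f leb := by
    obtain ⟨C, hC⟩ := hs_bound r j
    refine (Integrable.congr ?_ hf.symm)
    refine (MemLp.of_bound (p := 1)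
      ((RCLike.continuous_ofReal.measurable.comp (meas_hs r j)).aestronglyMeasurable) C
      (Eventually.of_forall fun x => ?_)).integrable le_rfl
    rw [Function.comp, RCLike.norm_ofReal]; exact hC x
  refine val_inj hrs' (N := N) (fun k hk => ?_) hN.1
  rw [J1 hrs hfi N k hk]
  have h1 : II N k f = ∫ x, ((ind N k x : ℝ) : 𝕜) * val (r : 𝕜) (dl j) N k ∂leb := by
    unfold II
    refine integral_congr_ae ?_
    filter_upwards [hf, ae_leb (P := fun x => x ∈ Set.Ico (0:ℝ) 1) fun x hx => hx] with x hx hx01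
    rw [hx, hs_stp r hN.2 hx01]
    unfold ind
    split_ifs with h
    · rw [h]
    · simp
  rw [h1, integral_mul_const, integral_ofReal, int_ind_leb hk]
  push_cast
  rw [← mul_assoc, ← mul_pow]
  norm_num

end Pool.Agent.H148R3.HR
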