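import Mathlib
import Pool.Agent.H148R3.HR4
import Pool.Agent.H148R3.GR3

set_option autoImplicit false

open MeasureTheory Filter Topology Finset
open scoped ENNReal

namespace Pool.Agent.H148R3.HR

open Pool.Agent.Helper415.HA Pool.Agent.H148R3.OG Pool.Agent.H148R3.GR

variable {𝕜 : Type*} [RCLike 𝕜]

lemma haarSeq_ae (p : ℝ) (m : ℕ) : ∀ᵐ x ∂leb, haarSeq p m x = hs (bs p) m x := by
  refine ae_leb fun x hx => ?_
  rcases eq_or_ne m 0 with rfl | hm
  · unfold haarSeq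
    rw [if_pos rfl, hs_zero]
    have hc : cell 0 x = 0 := by have := cell_lt (n := 0) hx; simpa using this
    unfold ind; rw [if_pos hc]
  · obtain ⟨n, k, hk, rfl⟩ := exists_nk hm
    unfold haarSeq
    rw [if_neg hm, log_eq hk, Nat.add_sub_cancel_left, hs_eq _ hk, ind_eq_indicator hx.1,
      ind_eq_indicator hx.1]
    unfold haarFn
    have e1 : ((((1:ℝ) / 2) ^ n) ^ (-(1 / p))) = bs p ^ n := by
      rw [bs_pow, one_div_pow, one_div (2 ^ n : ℝ), Real.inv_rpow (by positivity),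
        Real.rpow_neg (by positivity), inv_inv]
    have h2 : (2:ℝ) ^ n ≠ 0 := by positivity
    have e2 : ((2 * k : ℕ) : ℝ) / 2 ^ (n + 1) = (k : ℝ) / 2 ^ n := by
      push_cast; rw [pow_succ]; field_simp
    have e3 : (((2 * k : ℕ) : ℝ) + 1) / 2 ^ (n + 1) = ((k : ℝ) + 1 / 2) / 2 ^ n := by
      push_cast; rw [pow_succ]; field_simp
    have e4 : ((2 * k + 1 : ℕ) : ℝ) / 2 ^ (n + 1) = ((k : ℝ) + 1 / 2) / 2 ^ n := by
      push_cast; rw [pow_succ]; field_simp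
    have e5 : (((2 * k + 1 : ℕ) : ℝ) + 1) / 2 ^ (n + 1) = ((k : ℝ) + 1) / 2 ^ n := by
      push_cast; rw [pow_succ]; field_simp; ring
    rw [e1, e2, e3, e4, e5]

variable {P : ℝ≥0∞} [hP1 : Fact (1 ≤ P)]

lemma Lp_int (f : Lp 𝕜 P leb) : Integrable f leb := (Lp.memLp f).integrable hP1.out

lemma int_hs_f (s : ℝ) (m : ℕ) {f : ℝ → 𝕜} (hf : Integrable f leb) :
    Integrable (fun x => (hs s m x : 𝕜) * f x) leb := by
  obtain ⟨C, hC⟩ := hs_bound s m
  exact int_bdd hf (meas_hs s m) hC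

/-- Coefficient functionals. -/
noncomputable def coefL (s : ℝ) (m : ℕ) : Lp 𝕜 P leb →ₗ[𝕜] 𝕜 where
  toFun f := co s f m
  map_add' f g := by
    unfold co
    rw [← integral_add (int_hs_f s m (Lp_int f)) (int_hs_f s m (Lp_int g))]
    refine integral_congr_ae ?_
    filter_upwards [Lp.coeFn_add f g] with x hx
    rw [hx, Pi.add_apply, mul_add]
  map_smul' c f := by
    unfold co
    rw [RingHom.id_apply, smul_eq_mul, ← integral_const_mul]
    refine integral_congr_ae ?_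
    filter_upwards [Lp.coeFn_smul c f] with x hx
    rw [hx, Pi.smul_apply, smul_eq_mul]; ring

lemma coefL_apply (s : ℝ) (m : ℕ) (f : Lp 𝕜 P leb) : coefL s m f = co s f m := rfl

lemma coefL_haar {s : ℝ} (hs' : bs P.toReal * s = 2) (i j : ℕ) :
    coefL s i (haar 𝕜 P j) = dl j i := by
  rw [coefL_apply]
  refine co_hs hs' j ?_ i
  unfold haar
  filter_upwards [(haarSeq_memLp 𝕜 P.toReal j P).coeFn_toLp, haarSeq_ae P.toReal j] with x hx h2
  rw [hx, h2]

/-- All the facts about the Haar system that are needed. -/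
structure Facts (𝕜 : Type*) [RCLike 𝕜] (P : ℝ≥0∞) [Fact (1 ≤ P)] (p q : ℝ) : Prop where
  hpq : p.HolderConjugate q
  hp : p = P.toReal
  J2 : ∀ (f : Lp 𝕜 P leb) (n : ℕ),
    nm p n (fun k => val (bs p : 𝕜) (fun m => coefL (bs q) m f) n k) ≤ ‖f‖
  J3 : ∀ (f : Lp 𝕜 P leb) (M : ℝ),
    (∀ n, nm p n (fun k => val (bs p : 𝕜) (fun m => coefL (bs q) m f) n k) ≤ M) → ‖f‖ ≤ M

lemma facts (hP : 1 < P) (hPt : P ≠ ∞) : ∃ q : ℝ, Facts 𝕜 P P.toReal q := by
  set p := P.toReal with hp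
  have hp1 : 1 < p := by
    have := (ENNReal.toReal_lt_toReal ENNReal.one_ne_top hPt).mpr hP
    rwa [ENNReal.toReal_one] at this
  have hofp : ENNReal.ofReal p = P := ENNReal.ofReal_toReal hPt
  have hpq := Real.HolderConjugate.conjExponent hp1
  set q := p.conjExponent with hq
  have hmem : ∀ f : Lp 𝕜 P leb, MemLp f (ENNReal.ofReal p) leb := fun f => by
    rw [hofp]; exact Lp.memLp f
  refine ⟨q, hpq, rfl, fun f n => ?_, fun f M hM => ?_⟩
  · have h1 := HR.J2 hpq (hmem f) n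
    refine h1.trans (le_of_eq ?_)
    have h2 := MemLp.eLpNorm_eq_integral_rpow_norm (by simp [hpq.pos]) ENNReal.ofReal_ne_top
      (hmem f)
    rw [hofp] at h2
    rw [Lp.norm_def, h2, ENNReal.toReal_ofReal (by positivity), one_div]
  · have hM0 : 0 ≤ M := (nm_nonneg _ _ _).trans (hM 0)
    have h1 := HR.J3 hpq (hmem f) (M := M) hM
    rw [hofp] at h1
    rw [Lp.norm_def]
    exact ENNReal.toReal_le_of_le_ofReal hM0 h1

section
variable {p q : ℝ} (F : Facts 𝕜 P p q)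
include F

lemma Facts.mulbs : bs P.toReal * bs q = 2 := by
  rw [← F.hp]; exact bs_mul F.hpq

lemma Facts.F4 (f : Lp 𝕜 P leb) (s : Finset ℕ) :
    ∑ i ∈ s, ‖coefL (bs q) i f‖ ≤ DD (bs q) * (s.card : ℝ) ^ (1 / q) * ‖f‖ := by
  obtain ⟨n, hn⟩ : ∃ n, s ⊆ range (2 ^ n) := by
    refine ⟨s.sup id + 1, fun i hi => mem_range.mpr ?_⟩
    have h1 : i ≤ s.sup id := le_sup (f := id) hi
    calc i < i + 1 := Nat.lt_succ_self i
      _ < 2 ^ (i + 1) := Nat.lt_two_pow_self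
      _ ≤ 2 ^ (s.sup id + 1) := Nat.pow_le_pow_right (by norm_num) (by omega)
  refine (dem F.hpq n hn _).trans ?_
  exact mul_le_mul_of_nonneg_left (F.J2 f n) (mul_nonneg
    (by linarith [DD_ge (bs_gt F.hpq.symm.pos)]) (by positivity))

lemma Facts.coef_bound (f : Lp 𝕜 P leb) (i : ℕ) : ‖coefL (bs q) i f‖ ≤ DD (bs q) * ‖f‖ := by
  have := F.F4 f {i}
  simpa using this

/-- Continuity of the coefficient functionals. -/
lemma Facts.coef_cont (i : ℕ) : Continuous (fun f : Lp 𝕜 P leb => coefL (bs q) i f) :=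
  ((coefL (bs q) i : Lp 𝕜 P leb →ₗ[𝕜] 𝕜).mkContinuous (DD (bs q))
    fun f => F.coef_bound f i).continuous

/-- The coefficients of an expansion are the Haar coefficients. -/
lemma Facts.unique {f : Lp 𝕜 P leb} {a : ℕ → 𝕜} (h : IsExpansion (haar 𝕜 P) a f) (i : ℕ) :
    coefL (bs q) i f = a i := by
  have h1 := (F.coef_cont i).continuousAt.tendsto.comp h
  refine tendsto_nhds_unique h1 ?_
  refine tendsto_const_nhds.congr' ?_
  filter_upwards [eventually_gt_atTop i] with n hn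
  simp only [Function.comp]
  rw [map_sum]
  simp_rw [map_smul, coefL_haar F.mulbs]
  rw [sum_eq_single i]
  · unfold dl; rw [if_pos rfl, smul_eq_mul, mul_one]
  · intro j _ hj; unfold dl; rw [if_neg (Ne.symm hj), smul_zero]
  · intro h'; exact absurd (mem_range.mpr hn) h'

end

/-- The main theorem in terms of coefficient functionals. -/
theorem main_aux {p q : ℝ} (F : Facts 𝕜 P p q) :
    ∃ N : Lp 𝕜 P leb → ℝ, IsEquivNorm 𝕜 N ∧
      (∀ f (A B : Finset ℕ), B.card ≤ A.card →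
        (∀ i ∈ A, ∀ j, j ∉ A → ‖coefL (bs q) j f‖ ≤ ‖coefL (bs q) i f‖) →
        ∀ b : ℕ → 𝕜, N (f - ∑ i ∈ A, coefL (bs q) i f • haar 𝕜 P i) ≤
          N (f - ∑ i ∈ B, b i • haar 𝕜 P i)) ∧
      (∀ f g, (∀ i, ‖coefL (bs q) i f‖ ≤ ‖coefL (bs q) i g‖) → N f ≤ N g) ∧
      (∀ f, ‖f‖ ≤ N f) := by
  have hpq := F.hpq
  have hK : 0 ≤ 4 * KR p q := by unfold KR; positivity
  have hDp : 0 ≤ DD (bs p) := by linarith [DD_ge (bs_gt hpq.pos)]
  have hDq : 0 ≤ DD (bs q) := by linarith [DD_ge (bs_gt hpq.symm.pos)]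
  have h1q : 1 - 1 / p = 1 / q := by
    have := hpq.inv_add_inv_eq_one
    rw [one_div, one_div]; linarith
  have F1 : ∀ (f : Lp 𝕜 P leb) (M : ℝ), (∀ g ∈ GG 𝕜 q, ∀ E : Finset ℕ, (∀ i, i ∉ E → g i = 0) →
      ∑ i ∈ E, g i * ‖coefL (bs q) i f‖ ≤ M) → ‖f‖ ≤ M := fun f M h => by
    refine F.J3 f M fun n => ?_
    obtain ⟨g, hg, hg0, hle⟩ := norming' hpq n (fun m => coefL (bs q) m f)
    exact hle.trans (h g hg (range (2 ^ n)) fun i hi => hg0 i (by simpa using hi))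
  have F2 : ∀ (f : Lp 𝕜 P leb), ∀ g ∈ GG 𝕜 q, ∀ E : Finset ℕ, (∀ i, i ∉ E → g i = 0) →
      ∑ i ∈ E, g i * ‖coefL (bs q) i f‖ ≤ 4 * KR p q * ‖f‖ := by
    rintro f g ⟨n, b, hb0, hb, rfl⟩ E hE
    have e1 : ∑ i ∈ E, ‖b i‖ * ‖coefL (bs q) i f‖ =
        ∑ i ∈ range (2 ^ n), ‖b i‖ * ‖coefL (bs q) i f‖ := by
      rw [sum_subset (subset_union_left (s₁ := E) (s₂ := range (2 ^ n))) fun i _ hi => by
        have := hE i hi
        simp only at this
        rw [this, zero_mul]]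
      rw [← sum_subset (subset_union_right (s₁ := E) (s₂ := range (2 ^ n))) fun i _ hi => by
        rw [hb0 i (by simpa using hi), norm_zero, zero_mul]]
    rw [e1]
    refine (abs_pair hpq n (fun m => coefL (bs q) m f) b).trans ?_
    refine mul_le_mul_of_nonneg_left ?_ hK
    calc _ ≤ ‖f‖ * 1 := mul_le_mul (F.J2 f n) hb (nm_nonneg _ _ _) (norm_nonneg _)
      _ = ‖f‖ := mul_one _
  have F3 : ∀ g ∈ GG 𝕜 q, ∀ s : Finset ℕ, ∑ i ∈ s, g i ≤ DD (bs p) * (s.card : ℝ) ^ (1 / p) := by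
    rintro g ⟨n, b, hb0, hb, rfl⟩ s
    have e1 : ∑ i ∈ s, ‖b i‖ = ∑ i ∈ s ∩ range (2 ^ n), ‖b i‖ :=
      (sum_subset inter_subset_left fun i hi hi' => by
        have : i ∉ range (2 ^ n) := fun h => hi' (mem_inter.mpr ⟨hi, h⟩)
        rw [hb0 i (by simpa using this), norm_zero]).symm
    simp only
    rw [e1]
    refine (dem hpq.symm n inter_subset_right b).trans ?_
    have h1 : ((s ∩ range (2 ^ n)).card : ℝ) ^ (1 / p) ≤ (s.card : ℝ) ^ (1 / p) :=
      Real.rpow_le_rpow (by positivity) (by exact_mod_cast card_le_card inter_subset_left)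
        (by have := hpq.pos; positivity)
    calc _ ≤ DD (bs p) * (s.card : ℝ) ^ (1 / p) * 1 :=
          mul_le_mul (mul_le_mul_of_nonneg_left h1 hDp) hb (nm_nonneg _ _ _) (by positivity)
      _ = _ := mul_one _
  have main := abstract_main (haar 𝕜 P) (fun i => coefL (bs q) i) (GG 𝕜 q)
    (fun i => by rw [coefL_haar F.mulbs]; unfold dl; rw [if_pos rfl])
    (fun i j hij => by rw [coefL_haar F.mulbs]; unfold dl; rw [if_neg hij])
    (by rintro g ⟨n, b, _, _, rfl⟩ i; exact norm_nonneg _)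
    (K := 4 * KR p q) (C2 := DD (bs p)) (C3 := DD (bs q)) (θ := 1 / p)
    (by have := hpq.pos; positivity)
    (by rw [div_lt_one hpq.pos]; exact hpq.lt) hK hDp hDq F1 F2 F3
    (fun f s => by rw [h1q]; exact F.F4 f s)
  obtain ⟨m1, m2, m3, m4, m5⟩ := main
  refine ⟨NN (fun i => coefL (bs q) i) (GG 𝕜 q), ⟨m1, m2, 1, 4 * KR p q + 16 * DD (bs p) * DD (bs q) + 1,
    one_pos, by positivity, fun f => ⟨by rw [one_mul]; exact m3 f, ?_⟩⟩, m5, fun f g hfg => ?_, m3⟩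
  · refine (m4 f).trans (mul_le_mul_of_nonneg_right (by linarith) (norm_nonneg _))
  · have hbd : BddAbove (Vals (fun i => coefL (bs q) i) (GG 𝕜 q) g) := by
      by_contra hcon
      have h1 : NN (fun i => coefL (bs q) i) (GG 𝕜 q) g = 0 := Real.sSup_of_not_bddAbove hcon
      have h2 : ‖g‖ = 0 := le_antisymm ((m3 g).trans h1.le) (norm_nonneg _)
      have h3 : g = 0 := norm_eq_zero.mp h2
      apply hcon
      refine ⟨0, ?_⟩
      rintro r ⟨E, w, v, u, _, _, rfl⟩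
      rw [h3]
      simp
    refine Real.sSup_le ?_ ((norm_nonneg g).trans (m3 g))
    rintro r ⟨E, w, v, u, hw, hA, rfl⟩
    refine le_trans (sum_le_sum fun i _ => mul_le_mul_of_nonneg_left (hfg i)
      (add_nonneg (hA.v0 i) (hA.u0 i))) (le_csSup hbd ⟨E, w, v, u, hw, hA, rfl⟩)

/-- The Haar system is `1`-greedy for an equivalent norm of `L_p[0,1]`. -/
theorem main_norm {p q : ℝ} (F : Facts 𝕜 P p q) :
    ∃ N : Lp 𝕜 P leb → ℝ, IsEquivNorm 𝕜 N ∧
      (∀ (f : Lp 𝕜 P leb) (a : ℕ → 𝕜), IsExpansion (haar 𝕜 P) a f → ∀ A : Finset ℕ, IsGreedySet a A →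
        ∀ (B : Finset ℕ) (b : ℕ → 𝕜), B.card ≤ A.card →
        N (f - ∑ n ∈ A, a n • haar 𝕜 P n) ≤ N (f - ∑ n ∈ B, b n • haar 𝕜 P n)) := by
  obtain ⟨N, hN, hgr, _, _⟩ := main_aux F
  refine ⟨N, hN, fun f a ha A hA B b hB => ?_⟩
  have hco := F.unique ha
  have h1 := hgr f A B hB (fun i hi j hj => by rw [hco i, hco j]; exact hA i hi j hj) b
  simp_rw [hco] at h1
  exact h1

end Pool.Agent.H148R3.HR
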