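import Mathlib
import Pool.Agent.H148R3.HR5

set_option autoImplicit false

open MeasureTheory Filter Topology Finset
open scoped ENNReal

namespace Pool.Agent.H148R3.HR

open Pool.Agent.Helper415.HA Pool.Agent.H148R3.OG Pool.Agent.H148R3.GR

lemma val_sum {K : Type*} [CommRing K] (r : K) (s : Finset ℕ) (c : ℕ → K) (φ : ℕ → ℕ → K)
    (n k : ℕ) :
    val r (fun i => ∑ m ∈ s, c m * φ m i) n k = ∑ m ∈ s, c m * val r (φ m) n k := by
  induction n generalizing k with
  | zero => rfl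
  | succ n ih =>
    rw [val, ih]
    simp_rw [val, mul_add, sum_add_distrib]
    congr 1
    rw [mul_sum, mul_sum]
    exact sum_congr rfl fun m _ => by ring

variable {𝕜 : Type*} [RCLike 𝕜] {P : ℝ≥0∞} [hP1 : Fact (1 ≤ P)]

lemma sum_ae (s : Finset ℕ) (c : ℕ → 𝕜) :
    ∀ᵐ x ∂leb, (∑ m ∈ s, c m • haar 𝕜 P m : Lp 𝕜 P leb) x =
      ∑ m ∈ s, c m * (hs (bs P.toReal) m x : 𝕜) := by
  classical
  induction s using Finset.induction_on with
  | empty =>
    simp only [sum_empty]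
    filter_upwards [Lp.coeFn_zero 𝕜 P leb] with x hx
    rw [hx]; rfl
  | insert a s ha ih =>
    rw [sum_insert ha]
    have hh : ∀ᵐ x ∂leb, haar 𝕜 P a x = (hs (bs P.toReal) a x : 𝕜) := by
      unfold haar
      filter_upwards [(haarSeq_memLp 𝕜 P.toReal a P).coeFn_toLp, haarSeq_ae P.toReal a]
        with x hx h2
      rw [hx, h2]
    filter_upwards [ih, Lp.coeFn_add (c a • haar 𝕜 P a) (∑ m ∈ s, c m • haar 𝕜 P m),
      Lp.coeFn_smul (c a) (haar 𝕜 P a), hh] with x h1 h2 h3 h4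
    rw [h2, Pi.add_apply, h3, Pi.smul_apply, h4, h1, sum_insert ha, smul_eq_mul]

lemma psum_ae (c : ℕ → 𝕜) (n : ℕ) :
    ∀ᵐ x ∂leb, (∑ m ∈ range (2 ^ n), c m • haar 𝕜 P m : Lp 𝕜 P leb) x =
      stp n (fun k => val (bs P.toReal : 𝕜) c n k) x := by
  filter_upwards [sum_ae (P := P) (range (2 ^ n)) c,
    ae_leb (P := fun x => x ∈ Set.Ico (0:ℝ) 1) fun x hx => hx] with x hx hx01
  rw [hx]
  unfold stp
  have h1 : ∀ m ∈ range (2 ^ n), c m * (hs (bs P.toReal) m x : 𝕜) =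
      c m * val (bs P.toReal : 𝕜) (dl m) n (cell n x) := fun m hm => by
    rw [hs_stp _ (mem_range.mp hm) hx01]
  rw [sum_congr rfl h1, ← val_sum]
  refine val_congr _ (fun i hi => ?_) _ (cell_lt hx01)
  rw [sum_eq_single i]
  · unfold dl; rw [if_pos rfl, mul_one]
  · intro m _ hm; unfold dl; rw [if_neg (Ne.symm hm), mul_zero]
  · intro h'; exact absurd (mem_range.mpr hi) h'

lemma Lp_norm_eq {p : ℝ} (hp : p = P.toReal) (hp0 : 0 < p) (hPt : P ≠ ∞) (f : Lp 𝕜 P leb) :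
    ‖f‖ = (∫ x, ‖f x‖ ^ p ∂leb) ^ (1 / p) := by
  have h2 := MemLp.eLpNorm_eq_integral_rpow_norm (p := P)
    (by rintro rfl; simp [hp] at hp0) hPt (Lp.memLp f)
  rw [Lp.norm_def, h2, ← hp, ENNReal.toReal_ofReal (by positivity), one_div]

section
variable {p q : ℝ} (F : Facts 𝕜 P p q)
include F

/-- Partial sums. -/
lemma Facts.psum_coef (f : Lp 𝕜 P leb) (n i : ℕ) :
    coefL (bs q) i (∑ m ∈ range n, coefL (bs q) m f • haar 𝕜 P m) =
      if i < n then coefL (bs q) i f else 0 := by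
  rw [map_sum]
  simp_rw [map_smul, coefL_haar F.mulbs]
  split_ifs with h
  · rw [sum_eq_single i]
    · unfold dl; rw [if_pos rfl, smul_eq_mul, mul_one]
    · intro j _ hj; unfold dl; rw [if_neg (Ne.symm hj), smul_zero]
    · intro h'; exact absurd (mem_range.mpr h) h'
  · refine sum_eq_zero fun j hj => ?_
    have hj' := mem_range.mp hj
    unfold dl; rw [if_neg (by omega), smul_zero]

lemma Facts.psum_bound : ∃ C : ℝ, 0 < C ∧ ∀ (f : Lp 𝕜 P leb) (n : ℕ),
    ‖∑ m ∈ range n, coefL (bs q) m f • haar 𝕜 P m‖ ≤ C * ‖f‖ := by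
  obtain ⟨N, hN, _, hmono, hlow⟩ := main_aux F
  obtain ⟨c, C, hc, hC, h⟩ := hN.equiv
  refine ⟨C, hC, fun f n => (hlow _).trans ((hmono _ f fun i => ?_).trans (h f).2)⟩
  rw [F.psum_coef]
  split_ifs
  · exact le_rfl
  · rw [norm_zero]; exact norm_nonneg _

/-- The set of functions represented by their Haar series. -/
def DS (𝕜 : Type*) [RCLike 𝕜] (P : ℝ≥0∞) [Fact (1 ≤ P)] (q : ℝ) : Set (Lp 𝕜 P leb) :=
  {f | IsExpansion (haar 𝕜 P) (fun m => coefL (bs q) m f) f}

lemma Facts.DS_closed : IsClosed (DS 𝕜 P q) := by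
  obtain ⟨C, hC, hb⟩ := F.psum_bound
  rw [← closure_subset_iff_isClosed]
  intro f hf
  change Tendsto (fun n => ∑ m ∈ range n, coefL (bs q) m f • haar 𝕜 P m) atTop (𝓝 f)
  rw [Metric.tendsto_atTop]
  intro ε hε
  obtain ⟨g, hg, hfg⟩ := Metric.mem_closure_iff.mp hf (ε / (2 * (C + 1))) (by positivity)
  have hg' : Tendsto (fun n => ∑ m ∈ range n, coefL (bs q) m g • haar 𝕜 P m) atTop (𝓝 g) := hg
  obtain ⟨n0, hn0⟩ := (Metric.tendsto_atTop.mp hg') (ε / 2) (by positivity)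
  refine ⟨n0, fun n hn => ?_⟩
  have h1 := hn0 n hn
  have h2 : ∑ m ∈ range n, coefL (bs q) m f • haar 𝕜 P m - f =
      (∑ m ∈ range n, coefL (bs q) m (f - g) • haar 𝕜 P m) +
      (∑ m ∈ range n, coefL (bs q) m g • haar 𝕜 P m - g) + (g - f) := by
    simp_rw [map_sub, sub_smul]
    rw [sum_sub_distrib]; abel
  rw [dist_eq_norm] at h1 hfg ⊢
  rw [h2]
  have h3 := hb (f - g) n
  have h4 : ‖g - f‖ = ‖f - g‖ := norm_sub_rev _ _
  have h5 : (C + 1) * ‖f - g‖ < ε / 2 := by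
    have : (C + 1) * (ε / (2 * (C + 1))) = ε / 2 := by field_simp
    rw [← this]
    exact mul_lt_mul_of_pos_left hfg (by positivity)
  calc _ ≤ ‖∑ m ∈ range n, coefL (bs q) m (f - g) • haar 𝕜 P m‖ +
        ‖∑ m ∈ range n, coefL (bs q) m g • haar 𝕜 P m - g‖ + ‖g - f‖ := norm_add₃_le
    _ < ε := by rw [h4]; linarith

lemma Facts.psum_mem (f : Lp 𝕜 P leb) (n : ℕ) :
    (∑ m ∈ range n, coefL (bs q) m f • haar 𝕜 P m) ∈ DS 𝕜 P q := by
  change Tendsto (fun N => ∑ m ∈ range N, coefL (bs q) m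
    (∑ m ∈ range n, coefL (bs q) m f • haar 𝕜 P m) • haar 𝕜 P m) atTop _
  refine tendsto_const_nhds.congr' ?_
  filter_upwards [eventually_ge_atTop n] with N hN
  simp_rw [F.psum_coef]
  have e1 : ∑ m ∈ range n, coefL (bs q) m f • haar 𝕜 P m =
      ∑ m ∈ range n, (if m < n then coefL (bs q) m f else 0) • haar 𝕜 P m :=
    sum_congr rfl fun i hi => by rw [if_pos (mem_range.mp hi)]
  rw [e1]
  exact sum_subset (range_subset_range.mpr hN) fun i _ hi => by
    rw [if_neg (by simpa using hi), zero_smul]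

/-- Bounded functions are represented by their Haar series. -/
lemma Facts.bdd_mem (hPt : P ≠ ∞) (f : Lp 𝕜 P leb) {C : ℝ} (hC : ∀ᵐ x ∂leb, ‖f x‖ ≤ C) :
    f ∈ DS 𝕜 P q := by
  have hp0 : 0 < p := F.hpq.pos
  have hfi := Lp_int f
  have hC0 : 0 ≤ C := by
    have hne : (leb : Measure ℝ) ≠ 0 := by
      intro h0
      have : (leb : Measure ℝ) Set.univ = 0 := by rw [h0]; simp
      unfold leb at this
      rw [Measure.restrict_apply_univ, Real.volume_Icc] at this
      simp at this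
    haveI : NeZero (leb : Measure ℝ) := ⟨hne⟩
    obtain ⟨x, hx⟩ := hC.exists
    exact (norm_nonneg _).trans hx
  have hII : ∀ n k, k < 2 ^ n → ‖2 ^ n * II n k f‖ ≤ C := fun n k hk => by
    rw [norm_mul, norm_pow, RCLike.norm_ofNat]
    have h1 : ‖II n k f‖ ≤ ∫ x, ind n k x * C ∂leb := by
      unfold II
      refine (norm_integral_le_integral_norm _).trans ?_
      refine integral_mono_ae (int_ind_f hfi n k).norm ((integrable_ind_leb n k).mul_const C) ?_
      filter_upwards [hC] with x hx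
      rw [norm_mul, RCLike.norm_ofReal, abs_of_nonneg (ind_nonneg _ _ _)]
      exact mul_le_mul_of_nonneg_left hx (ind_nonneg _ _ _)
    rw [integral_mul_const, int_ind_leb hk] at h1
    calc (2:ℝ) ^ n * ‖II n k f‖ ≤ 2 ^ n * ((1 / 2) ^ n * C) :=
          mul_le_mul_of_nonneg_left h1 (by positivity)
      _ = C := by rw [← mul_assoc, ← mul_pow]; norm_num
  refine F.DS_closed.mem_of_tendsto (b := atTop)
    (f := fun n : ℕ => ∑ m ∈ range (2 ^ n), coefL (bs q) m f • haar 𝕜 P m) ?_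
    (Eventually.of_forall fun n => F.psum_mem f (2 ^ n))
  rw [tendsto_iff_norm_sub_tendsto_zero]
  -- integrals tend to zero
  set T : ℕ → Lp 𝕜 P leb := fun n => ∑ m ∈ range (2 ^ n), coefL (bs q) m f • haar 𝕜 P m with hT
  have hTae : ∀ n, ∀ᵐ x ∂leb, (T n - f) x = 2 ^ n * II n (cell n x) f - f x := fun n => by
    filter_upwards [psum_ae (P := P) (fun m => coefL (bs q) m f) n, Lp.coeFn_sub (T n) f,
      ae_leb (P := fun x => x ∈ Set.Ico (0:ℝ) 1) fun x hx => hx] with x h1 h2 h3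
    rw [h2, Pi.sub_apply, h1]
    unfold stp
    have := J1 (𝕜 := 𝕜) F.mulbs hfi n (cell n x) (cell_lt h3)
    simp only [coefL_apply]
    rw [← this]
  have hlim : Tendsto (fun n => ∫ x, ‖(T n - f) x‖ ^ p ∂leb) atTop (𝓝 (∫ x, (0:ℝ) ∂leb)) := by
    refine tendsto_integral_of_dominated_convergence (fun _ => (2 * C) ^ p) (fun n => ?_)
      (integrable_const _) (fun n => ?_) ?_
    · exact ((Lp.aestronglyMeasurable (T n - f)).norm.aemeasurable.pow_const p).aestronglyMeasurable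
    · filter_upwards [hTae n, hC, ae_leb (P := fun x => x ∈ Set.Ico (0:ℝ) 1) fun x hx => hx]
        with x h1 h2 h3
      rw [h1, Real.norm_of_nonneg (by positivity)]
      refine Real.rpow_le_rpow (norm_nonneg _) ?_ hp0.le
      refine (norm_sub_le _ _).trans ?_
      have := hII n (cell n x) (cell_lt h3)
      linarith
    · have hall := ae_all_iff.mpr hTae
      filter_upwards [hall, ae_conv hfi] with x h1 h2
      have h3 : Tendsto (fun n => ‖2 ^ n * II n (cell n x) f - f x‖) atTop (𝓝 0) :=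
        tendsto_iff_norm_sub_tendsto_zero.mp h2
      have h4 := h3.rpow_const (p := p) (Or.inr hp0.le)
      rw [Real.zero_rpow hp0.ne'] at h4
      refine h4.congr fun n => ?_
      rw [h1 n]
  rw [integral_zero] at hlim
  have h5 := hlim.rpow_const (p := 1 / p) (Or.inr (by positivity))
  rw [Real.zero_rpow (by positivity)] at h5
  refine h5.congr fun n => ?_
  rw [Lp_norm_eq F.hp hp0 hPt]

/-- Every `f ∈ L_p` is the sum of its Haar series. -/
theorem Facts.expansion (hPt : P ≠ ∞) (f : Lp 𝕜 P leb) :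
    IsExpansion (haar 𝕜 P) (fun m => coefL (bs q) m f) f := by
  haveI : (leb : Measure ℝ).WeaklyRegular := by unfold leb; infer_instance
  have hd := BoundedContinuousFunction.toLp_denseRange 𝕜 (leb : Measure ℝ) (p := P) 𝕜 hPt
  have h1 : f ∈ closure (Set.range (BoundedContinuousFunction.toLp P leb 𝕜)) := hd f
  have h2 : Set.range (BoundedContinuousFunction.toLp P (leb : Measure ℝ) 𝕜) ⊆ DS 𝕜 P q := by
    rintro _ ⟨g, rfl⟩
    refine F.bdd_mem hPt _ (C := ‖g‖) ?_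
    filter_upwards [BoundedContinuousFunction.coeFn_toLp P (leb : Measure ℝ) 𝕜 g] with x hx
    rw [hx]; exact g.norm_coe_le_norm x
  exact (closure_minimal h2 F.DS_closed) h1

end

/-- The Haar system is a Schauder basis of `L_p[0,1]`. -/
theorem basis (hP : 1 < P) (hPt : P ≠ ∞) (f : Lp 𝕜 P leb) : ∃! a : ℕ → 𝕜, IsExpansion (haar 𝕜 P) a f := by
  obtain ⟨q, F⟩ := facts (𝕜 := 𝕜) hP hPt
  refine ⟨_, F.expansion hPt f, fun a ha => ?_⟩
  funext i
  exact (F.unique ha i).symm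

/-- The Haar system is a `1`-greedy basis of `L_p[0,1]` for some equivalent norm. -/
theorem main (hP : 1 < P) (hPt : P ≠ ∞) :
    ∃ N : Lp 𝕜 P leb → ℝ, IsEquivNorm 𝕜 N ∧ IsGreedyBasis 𝕜 (haar 𝕜 P) N 1 := by
  obtain ⟨q, F⟩ := facts (𝕜 := 𝕜) hP hPt
  obtain ⟨N, hN, hgr⟩ := main_norm F
  refine ⟨N, hN, fun f => basis hP hPt f, fun f a ha A hA => ?_⟩
  rw [one_mul]
  unfold sigma
  refine le_csInf ⟨N f, ∅, 0, by simp, by simp⟩ ?_
  rintro r ⟨B, b, hB, rfl⟩
  exact hgr f a ha A hA B b hB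

end Pool.Agent.H148R3.HR
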