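import Mathlib
import Pool.Agent.H148R3.Glue

/-! The key lemma: a surjective homomorphism from `B(X)`, `X` separable, onto `B(Y)` cannot kill the
finite blocks of a `c₀`-type decomposition without killing some infinite block. -/

set_option autoImplicit false

open Filter Topology Set

namespace Pool.Agent.H148R3

variable {𝕜 : Type*} [RCLike 𝕜]
variable {X : Type*} [NormedAddCommGroup X] [NormedSpace 𝕜 X] [CompleteSpace X]
  [TopologicalSpace.SeparableSpace X]
variable {Y : Type*} [NormedAddCommGroup Y] [NormedSpace 𝕜 Y] [CompleteSpace Y] [Nontrivial Y]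

omit [CompleteSpace X] in
/-- For separable `X` the bounded operators inject into `Set ℕ`. -/
lemma ops_inj : ∃ G : (X →L[𝕜] X) → Set (ℕ × ℕ × ℕ), Function.Injective G := by
  classical
  set d := TopologicalSpace.denseSeq X with hd
  have hdd : DenseRange d := TopologicalSpace.denseRange_denseSeq X
  refine ⟨fun T => {q | ‖T (d q.1) - d q.2.1‖ < 1 / ((q.2.2 : ℝ) + 1)}, fun T S hTS => ?_⟩
  have h1 : ∀ n, T (d n) = S (d n) := by
    intro n
    by_contra hne
    have hpos : 0 < ‖T (d n) - S (d n)‖ := norm_pos_iff.2 (sub_ne_zero.2 hne)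
    obtain ⟨q, hq⟩ := exists_nat_one_div_lt (show 0 < ‖T (d n) - S (d n)‖ / 2 by positivity)
    obtain ⟨m, hm⟩ := hdd.exists_dist_lt (T (d n)) (show (0 : ℝ) < 1 / ((q : ℝ) + 1) by positivity)
    rw [dist_eq_norm] at hm
    have h3 : ‖S (d n) - d m‖ < 1 / ((q : ℝ) + 1) := (Set.ext_iff.1 hTS (n, m, q)).1 hm
    have h4 : ‖T (d n) - S (d n)‖ ≤ ‖T (d n) - d m‖ + ‖S (d n) - d m‖ := by
      have : T (d n) - S (d n) = (T (d n) - d m) - (S (d n) - d m) := by abel
      rw [this]
      exact norm_sub_le _ _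
    linarith
  ext x
  have h2 : (T : X → X) ∘ d = (S : X → X) ∘ d := funext h1
  exact congrFun (hdd.equalizer T.continuous S.continuous h2) x

/-- **Key lemma.** -/
theorem key (ψ : (X →L[𝕜] X) →ₐ[𝕜] (Y →L[𝕜] Y)) (hψ : Function.Surjective ψ)
    (P : Set ℕ → (X →L[𝕜] X)) (c : ℝ) (h : C0Sys P c)
    (h0 : ∀ n, ψ (P {n}) = 0) (h1 : ∀ A : Set ℕ, A.Infinite → ψ (P A) ≠ 0) : False := by
  classical
  have hXnt : Nontrivial X := by
    by_contra hX
    rw [not_nontrivial_iff_subsingleton] at hX
    have h2 : P univ = 0 := by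
      ext x
      exact Subsingleton.elim _ _
    exact h1 univ infinite_univ (by rw [h2, map_zero])
  obtain ⟨Cψ, hCψ0, hCψ⟩ := auto_cont ψ hψ
  obtain ⟨Cl, hCl0, hCl⟩ := lift_bound ψ hψ
  have hc := h.c_nonneg
  -- finite blocks are killed
  have hfin : ∀ F : Set ℕ, F.Finite → ψ (P F) = 0 := by
    intro F hF
    induction F, hF using Set.Finite.induction_on with
    | empty => rw [h.empty, map_zero]
    | @insert a s has _ ih =>
      have h2 : insert a s = {a} ∪ s := rfl
      rw [h2, h.add _ _ (by simpa using has), map_add, h0, ih, add_zero]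
  set B : ℕ → Set ℕ := fun n => {k | (Nat.unpair k).1 = n} with hBdef
  have hBinf : ∀ n, (B n).Infinite := by
    intro n
    apply infinite_of_injective_forall_mem (f := fun j => Nat.pair n j)
    · intro i j hij
      exact (Nat.pair_eq_pair.1 hij).2
    · intro j
      simp [hBdef]
  have hBd : ∀ i j, i ≠ j → Disjoint (B i) (B j) := by
    intro i j hij
    rw [Set.disjoint_left]
    intro k hk hk'
    exact hij (hk.symm.trans hk')
  set p : ℕ → (Y →L[𝕜] Y) := fun n => ψ (P (B n)) with hp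
  have hpp : ∀ n, p n * p n = p n := by
    intro n
    simp only [hp]
    rw [← map_mul, h.mul, inter_self]
  have hpnorm : ∀ n v, ‖p n v‖ ≤ (Cψ * c) * ‖v‖ := by
    intro n v
    refine (ContinuousLinearMap.le_opNorm _ _).trans ?_
    gcongr
    refine (hCψ _).trans ?_
    gcongr
    exact ContinuousLinearMap.opNorm_le_bound _ hc (h.norm_le _)
  have hy : ∀ n, ∃ y : Y, p n y = y ∧ ‖y‖ = 1 := by
    intro n
    obtain ⟨v, hv⟩ : ∃ v, p n v ≠ 0 := by
      by_contra hcon
      push Not at hcon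
      exact h1 (B n) (hBinf n) (ContinuousLinearMap.ext fun v => by simpa using hcon v)
    have hv' : ‖p n v‖ ≠ 0 := norm_ne_zero_iff.2 hv
    refine ⟨((‖p n v‖⁻¹ : ℝ) : 𝕜) • p n v, ?_, ?_⟩
    · rw [map_smul]
      congr 1
      change (p n * p n) v = p n v
      rw [hpp]
    · rw [norm_smul, RCLike.norm_ofReal, abs_of_nonneg (inv_nonneg.2 (norm_nonneg _)),
        inv_mul_cancel₀ hv']
  choose y hpy hy1 using hy
  have hz : ∀ n, ∃ z : StrongDual 𝕜 Y, ‖z‖ = 1 ∧ z (y n) = 1 := by
    intro n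
    obtain ⟨g, hg1, hg2⟩ := exists_dual_vector 𝕜 (y n) (by rw [hy1]; exact one_ne_zero)
    refine ⟨g, hg1, ?_⟩
    rw [hg2, hy1]
    simp
  choose z hz1 hz2 using hz
  obtain ⟨y0, hy0⟩ := exists_ne (0 : Y)
  obtain ⟨f0', -, hf0'⟩ := exists_dual_vector 𝕜 y0 (norm_ne_zero_iff.2 hy0)
  have hn0 : ((‖y0‖ : ℝ) : 𝕜) ≠ 0 := by simpa using hy0
  set f0 : StrongDual 𝕜 Y := ((‖y0‖ : ℝ) : 𝕜)⁻¹ • f0' with hf0def
  have hf0 : f0 y0 = 1 := by
    rw [hf0def, smul_apply, hf0', smul_eq_mul, inv_mul_cancel₀ hn0]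
  -- the gluing
  have hglue : ∀ S : Set ℕ, ∃ yS : Y, ∀ n, z n (p n yS) = if n ∈ S then 1 else 0 := by
    intro S
    set R : ℕ → (Y →L[𝕜] Y) := fun n => if n ∈ S then rk f0 (y n) else 0 with hR
    have hRn : ∀ n, ‖R n‖ ≤ ‖f0‖ := by
      intro n
      by_cases hn : n ∈ S
      · simp only [hR, hn, if_true]
        rw [ContinuousLinearMap.norm_smulRight_apply, hy1, mul_one]
      · simp only [hR, hn, if_false, norm_zero]
        exact norm_nonneg _
    have hpR : ∀ n, p n * R n = R n := by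
      intro n
      by_cases hn : n ∈ S
      · simp only [hR, hn, if_true]
        ext v
        change p n (f0 v • y n) = f0 v • y n
        rw [map_smul, hpy]
      · simp only [hR, hn, if_false, mul_zero]
    choose T hTψ hTn using fun n => hCl (R n)
    obtain ⟨m, U, hU⟩ := h.glue_ops T (Cl * ‖f0‖) (by positivity)
      (fun n => (hTn n).trans (by gcongr; exact hRn n)) B hBd
    refine ⟨ψ U y0, fun n => ?_⟩
    have h2 : p n * ψ U = R n := by
      have h3 : ψ (P (B n ∩ Ici (m n))) = p n := by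
        have h4 : P (B n) = P (B n ∩ Ici (m n)) + P (B n ∩ Iio (m n)) := by
          rw [← h.add]
          · congr 1
            rw [← inter_union_distrib_left, Ici_union_Iio, inter_univ]
          · rw [Set.disjoint_left]
            rintro k ⟨_, hk⟩ ⟨_, hk'⟩
            exact absurd (mem_Iio.1 hk') (not_lt.2 hk)
        simp only [hp]
        rw [h4, map_add, hfin _ ((finite_Iio (m n)).subset inter_subset_right), add_zero]
      simp only [hp]
      rw [← map_mul, hU, map_mul, hTψ, h3, hpR]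
    have h5 : p n (ψ U y0) = R n y0 := by
      rw [← h2]
      rfl
    rw [h5]
    by_cases hn : n ∈ S
    · simp only [hR, hn, if_true]
      change z n (f0 y0 • y n) = 1
      rw [hf0, one_smul, hz2]
    · simp only [hR, hn, if_false]
      simp
  choose yS hyS using hglue
  -- functionals attached to ultrafilters
  set r : ℝ := Cψ * c with hr
  have hr0 : 0 ≤ r := by positivity
  set w : ℕ → StrongDual 𝕜 Y := fun n => (z n).comp (p n) with hw
  have hwn : ∀ n, ‖w n‖ ≤ r := by
    intro n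
    refine ContinuousLinearMap.opNorm_le_bound _ hr0 fun v => ?_
    change ‖z n (p n v)‖ ≤ _
    refine (ContinuousLinearMap.le_opNorm _ _).trans ?_
    rw [hz1, one_mul]
    exact hpnorm n v
  have hΦ : ∀ u : Ultrafilter ℕ, ∃ φ : StrongDual 𝕜 Y,
      ∀ v : Y, Tendsto (fun n => w n v) u (𝓝 (φ v)) := by
    intro u
    have hcomp := WeakDual.isCompact_closedBall (𝕜 := 𝕜) (E := Y) 0 r
    set W : ℕ → WeakDual 𝕜 Y := fun n => StrongDual.toWeakDual (w n) with hW
    have hmem : ∀ n, W n ∈ WeakDual.toStrongDual ⁻¹' Metric.closedBall (0 : StrongDual 𝕜 Y) r := by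
      intro n
      rw [mem_preimage, mem_closedBall_zero_iff]
      exact hwn n
    obtain ⟨φ, -, hφ⟩ := hcomp.ultrafilter_le_nhds (u.map W) (by
      rw [le_principal_iff]
      exact Filter.mem_map.2 (univ_mem' hmem))
    refine ⟨WeakDual.toStrongDual φ, fun v => ?_⟩
    have h3 : Tendsto W u (𝓝 φ) := hφ
    exact ((WeakDual.eval_continuous v).tendsto φ).comp h3
  choose φ hφ using hΦ
  -- the injection
  have hinj : Function.Injective (fun E : Set (Set ℕ) => rk (φ (uE E)) y0) := by
    intro E E' hEE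
    have h2 : φ (uE E) = φ (uE E') := by
      ext v
      have h3 := congrArg (fun T : Y →L[𝕜] Y => f0 (T v)) hEE
      simp only [ContinuousLinearMap.smulRight_apply, map_smul, hf0, smul_eq_mul, mul_one] at h3
      exact h3
    apply uE_inj
    by_contra hne
    obtain ⟨S, hS, hS'⟩ : ∃ S, S ∈ uE E ∧ S ∉ uE E' := by
      by_contra hcon
      push Not at hcon
      apply hne
      have h4 : ((uE E' : Ultrafilter ℕ) : Filter ℕ) ≤ (uE E : Filter ℕ) := fun S hS => hcon S hS
      exact (Ultrafilter.coe_le_coe.1 h4).symm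
    have h5 : Tendsto (fun n => w n (yS S)) (uE E) (𝓝 1) := by
      refine tendsto_const_nhds.congr' ?_
      filter_upwards [hS] with n hn
      change 1 = z n (p n (yS S))
      rw [hyS, if_pos hn]
    have h6 : Tendsto (fun n => w n (yS S)) (uE E') (𝓝 0) := by
      refine tendsto_const_nhds.congr' ?_
      filter_upwards [Ultrafilter.compl_mem_iff_notMem.2 hS'] with n hn
      change 0 = z n (p n (yS S))
      rw [hyS, if_neg hn]
    have h7 := tendsto_nhds_unique h5 (hφ (uE E) (yS S))
    have h8 := tendsto_nhds_unique h6 (hφ (uE E') (yS S))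
    rw [h2, ← h8] at h7
    exact one_ne_zero h7
  obtain ⟨G, hG⟩ := ops_inj (𝕜 := 𝕜) (X := X)
  choose pre hpre using fun S : Y →L[𝕜] Y => hψ S
  have hpre_inj : Function.Injective pre := by
    intro S S' hSS
    rw [← hpre S, hSS, hpre]
  obtain ⟨e⟩ : Nonempty (ℕ × ℕ × ℕ ≃ ℕ) := by
    exact ⟨(Equiv.prodCongr (Equiv.refl ℕ) Nat.pairEquiv).trans Nat.pairEquiv⟩
  have hfinal : Function.Injective (fun E : Set (Set ℕ) =>
      e '' (G (pre (rk (φ (uE E)) y0)))) := by
    intro E E' hEE
    have h9 : G (pre (rk (φ (uE E)) y0)) = G (pre (rk (φ (uE E')) y0)) :=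
      (Set.image_eq_image e.injective).1 hEE
    exact hinj (hpre_inj (hG h9))
  exact Function.cantor_injective _ hfinal

end Pool.Agent.H148R3
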