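import Mathlib

set_option autoImplicit false

namespace Pool.Agent.H148R3.NI

open Complex

/-- The pairing of the matrix `[[a, b], [c, d]]` with the state of parameter `(y, ω)`. -/
noncomputable def Z (δ : ℝ) (a b c d : ℂ) (y : ℝ) (ω : ℂ) : ℂ :=
  (1 / (2 * Real.cosh y) : ℝ) * ((Real.exp y : ℝ) * a + (Real.exp (2 * δ * y) : ℝ) * ω * b +
    (Real.exp (-(2 * δ * y)) : ℝ) * (starRingEnd ℂ ω) * c + (Real.exp (-y) : ℝ) * d)

lemma Z_sub (δ : ℝ) (a b c d : ℂ) (y : ℝ) (ω : ℂ) :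
    Z δ a b c d y ω - Z δ a b c d (-y) (-ω) =
      (Real.sinh y / Real.cosh y : ℝ) * (a - d) +
        (Real.cosh (2 * δ * y) / Real.cosh y : ℝ) * (ω * b + (starRingEnd ℂ ω) * c) := by
  have hc : Real.cosh y ≠ 0 := (Real.cosh_pos y).ne'
  have hcc : ((Real.cosh y : ℝ) : ℂ) ≠ 0 := by exact_mod_cast hc
  have e1 : Real.sinh y = (Real.exp y - Real.exp (-y)) / 2 := Real.sinh_eq y
  have e2 : Real.cosh (2 * δ * y) = (Real.exp (2 * δ * y) + Real.exp (-(2 * δ * y))) / 2 :=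
    Real.cosh_eq _
  unfold Z
  rw [Real.cosh_neg, neg_neg, e1, e2, show 2 * δ * -y = -(2 * δ * y) by ring, neg_neg, map_neg]
  push_cast
  field_simp
  ring

lemma Z_add (δ : ℝ) (a b c d : ℂ) (y : ℝ) (ω : ℂ) :
    Z δ a b c d y ω + Z δ a b c d (-y) (-ω) =
      (a + d) + (Real.sinh (2 * δ * y) / Real.cosh y : ℝ) * (ω * b - (starRingEnd ℂ ω) * c) := by
  have hc : Real.cosh y ≠ 0 := (Real.cosh_pos y).ne'
  have hcc : ((Real.cosh y : ℝ) : ℂ) ≠ 0 := by exact_mod_cast hc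
  have e1 : ((Real.cosh y : ℝ) : ℂ) = ((Real.exp y : ℝ) + (Real.exp (-y) : ℝ)) / 2 := by
    rw [Real.cosh_eq y]; push_cast; ring
  have e2 : Real.sinh (2 * δ * y) = (Real.exp (2 * δ * y) - Real.exp (-(2 * δ * y))) / 2 :=
    Real.sinh_eq _
  unfold Z
  rw [Real.cosh_neg, neg_neg, e2, show 2 * δ * -y = -(2 * δ * y) by ring, neg_neg, map_neg]
  have e3 : ((1 / (2 * Real.cosh y) : ℝ) : ℂ) = 1 / (2 * ((Real.cosh y : ℝ) : ℂ)) := by push_cast; ring
  have e4 : (((Real.exp (2 * δ * y) - Real.exp (-(2 * δ * y))) / 2 / Real.cosh y : ℝ) : ℂ) =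
      (((Real.exp (2 * δ * y) : ℝ) : ℂ) - ((Real.exp (-(2 * δ * y)) : ℝ) : ℂ)) / 2 /
        ((Real.cosh y : ℝ) : ℂ) := by push_cast; ring
  rw [e3, e4]
  field_simp
  rw [e1]
  ring

/-- Hypothesis: all states are bounded by `ν`. -/
structure StB (δ ν : ℝ) (a b c d : ℂ) : Prop where
  z : ∀ (y : ℝ) (ω : ℂ), ‖ω‖ = 1 → ‖Z δ a b c d y ω‖ ≤ ν
  a : ‖a‖ ≤ ν
  d : ‖d‖ ≤ ν

variable {δ ν : ℝ} {a b c d : ℂ}

lemma StB.nn (h : StB δ ν a b c d) : 0 ≤ ν := (norm_nonneg _).trans h.a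

lemma aux_e {n : ℝ} (hpos : 0 < 1 - n ^ 2) :
    √(1 + (n / √(1 - n ^ 2)) ^ 2) = 1 / √(1 - n ^ 2) := by
  have hsq : 0 < √(1 - n ^ 2) := Real.sqrt_pos.mpr hpos
  have e : 1 + (n / √(1 - n ^ 2)) ^ 2 = (1 / √(1 - n ^ 2)) ^ 2 := by
    rw [div_pow n, div_pow 1, Real.sq_sqrt hpos.le]; field_simp; ring
  rw [e, Real.sqrt_sq (by positivity)]

/-- Choosing the parameter `y`. -/
lemma exists_y {m R : ℝ} (hm : |m| < R) : ∃ y : ℝ, Real.sinh y / Real.cosh y = m / R ∧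
    1 / Real.cosh y = √(R ^ 2 - m ^ 2) / R := by
  have hR : 0 < R := (abs_nonneg m).trans_lt hm
  rw [abs_lt] at hm
  obtain ⟨n, hn⟩ : ∃ n, n = m / R := ⟨_, rfl⟩
  have h1 : -1 < n := by rw [hn, lt_div_iff₀ hR]; linarith
  have h2 : n < 1 := by rw [hn, div_lt_iff₀ hR]; linarith
  have hpos : 0 < 1 - n ^ 2 := by nlinarith
  have hsq : 0 < √(1 - n ^ 2) := Real.sqrt_pos.mpr hpos
  rw [← hn]
  refine ⟨Real.arsinh (n / √(1 - n ^ 2)), ?_, ?_⟩
  · rw [Real.sinh_arsinh, Real.cosh_arsinh, aux_e hpos]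
    field_simp
  · rw [Real.cosh_arsinh, aux_e hpos]
    have e2 : R ^ 2 - m ^ 2 = R ^ 2 * (1 - n ^ 2) := by rw [hn]; field_simp
    rw [e2, Real.sqrt_mul (by positivity), Real.sqrt_sq hR.le]
    field_simp

/-- The general Hermitian estimate, `β ≠ 0`. -/
lemma herm_aux (h : StB δ ν a b c d) {α γ : ℝ} {β : ℂ} (hβ : β ≠ 0) {R : ℝ}
    (hR : R = √((α - γ) ^ 2 + 4 * ‖β‖ ^ 2)) (ht : |α + γ| ≤ R) :
    ∃ y : ℝ, ∃ ω : ℂ, ‖ω‖ = 1 ∧
      ‖(α * a + β * b + (starRingEnd ℂ β) * c + γ * d) + (((α + γ) / 2 *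
        (Real.sinh (2 * δ * y) / Real.cosh (2 * δ * y) / Real.cosh y) : ℝ) : ℂ) *
          (ω * b - (starRingEnd ℂ ω) * c)‖ ≤ ν * R := by
  have hβ' : 0 < ‖β‖ := norm_pos_iff.mpr hβ
  have hR2 : R ^ 2 = (α - γ) ^ 2 + 4 * ‖β‖ ^ 2 := by rw [hR, Real.sq_sqrt (by positivity)]
  have hR0 : 0 < R := by rw [hR]; exact Real.sqrt_pos.mpr (by positivity)
  have hm : |α - γ| < R := by
    apply abs_lt_of_sq_lt_sq _ hR0.le
    rw [hR2]; have : 0 < ‖β‖ ^ 2 := by positivity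
    linarith
  obtain ⟨y, hy1, hy2⟩ := exists_y hm
  have hcy : 0 < Real.cosh y := Real.cosh_pos y
  have hsq : √(R ^ 2 - (α - γ) ^ 2) = 2 * ‖β‖ := by
    rw [hR2, show (α - γ) ^ 2 + 4 * ‖β‖ ^ 2 - (α - γ) ^ 2 = (2 * ‖β‖) ^ 2 by ring,
      Real.sqrt_sq (by positivity)]
  rw [hsq] at hy2
  set ω : ℂ := (‖β‖ : ℂ)⁻¹ * β with hω
  have hβc : (‖β‖ : ℂ) ≠ 0 := by exact_mod_cast hβ'.ne'
  have hω1 : ‖ω‖ = 1 := by
    rw [hω, norm_mul, norm_inv, Complex.norm_real, norm_norm, inv_mul_cancel₀ hβ'.ne']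
  have hωβ : β = (‖β‖ : ℂ) * ω := by rw [hω, ← mul_assoc, mul_inv_cancel₀ hβc, one_mul]
  have hωn : ‖-ω‖ = 1 := by rw [norm_neg, hω1]
  refine ⟨y, ω, hω1, ?_⟩
  set C := Real.cosh (2 * δ * y) with hC
  have hC1 : 1 ≤ C := Real.one_le_cosh _
  have hC0 : 0 < C := by linarith
  set S := Real.sinh (2 * δ * y) with hS
  -- the four values
  have z1 := h.z y ω hω1
  have z2 := h.z (-y) (-ω) hωn
  have z3 := h.z y (-ω) hωn
  have z4 := h.z (-y) ω hω1
  have s1 := Z_sub δ a b c d y ω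
  have s2 := Z_add δ a b c d y ω
  have s3 := Z_sub δ a b c d y (-ω)
  have s4 := Z_add δ a b c d y (-ω)
  rw [neg_neg] at s3 s4
  rw [map_neg] at s3 s4
  set Z1 := Z δ a b c d y ω
  set Z2 := Z δ a b c d (-y) (-ω)
  set Z3 := Z δ a b c d y (-ω)
  set Z4 := Z δ a b c d (-y) ω
  have ht' := abs_le.mp ht
  set t := α + γ with htdef
  -- the two combinations
  set V1 : ℂ := (((R + t) / 2 : ℝ) : ℂ) * Z1 - (((R - t) / 2 : ℝ) : ℂ) * Z2 with hV1
  set V2 : ℂ := (((R + t) / 2 : ℝ) : ℂ) * Z3 - (((R - t) / 2 : ℝ) : ℂ) * Z4 with hV2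
  have bV : ∀ W1 W2 : ℂ, ‖W1‖ ≤ ν → ‖W2‖ ≤ ν →
      ‖(((R + t) / 2 : ℝ) : ℂ) * W1 - (((R - t) / 2 : ℝ) : ℂ) * W2‖ ≤ ν * R := by
    intro W1 W2 h1 h2
    refine (norm_sub_le _ _).trans ?_
    rw [norm_mul, norm_mul, Complex.norm_real, Complex.norm_real,
      Real.norm_of_nonneg (by linarith), Real.norm_of_nonneg (by linarith)]
    have h3 := mul_le_mul_of_nonneg_left h1 (show 0 ≤ (R + t) / 2 by linarith)
    have h4 := mul_le_mul_of_nonneg_left h2 (show 0 ≤ (R - t) / 2 by linarith)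
    nlinarith
  have bV1 : ‖V1‖ ≤ ν * R := bV _ _ z1 z2
  have bV2 : ‖V2‖ ≤ ν * R := bV _ _ z3 z4
  set θ1 := (1 + 1 / C) / 2 with hθ1
  set θ2 := (1 - 1 / C) / 2 with hθ2
  have h1C : 1 / C ≤ 1 := by rw [div_le_one hC0]; exact hC1
  have h1C0 : 0 < 1 / C := by positivity
  have hθ10 : 0 ≤ θ1 := by rw [hθ1]; linarith
  have hθ20 : 0 ≤ θ2 := by rw [hθ2]; linarith
  have key : (α * a + β * b + (starRingEnd ℂ β) * c + γ * d) + (((α + γ) / 2 *
        (S / C / Real.cosh y) : ℝ) : ℂ) * (ω * b - (starRingEnd ℂ ω) * c) =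
      (θ1 : ℂ) * V1 + (θ2 : ℂ) * V2 := by
    have hCc : (C : ℂ) ≠ 0 := by exact_mod_cast hC0.ne'
    have hcyc : ((Real.cosh y : ℝ) : ℂ) ≠ 0 := by exact_mod_cast hcy.ne'
    have hRc : (R : ℂ) ≠ 0 := by exact_mod_cast hR0.ne'
    have eV1 : V1 = (R / 2 : ℂ) * (Z1 - Z2) + (t / 2 : ℂ) * (Z1 + Z2) := by
      rw [hV1]; push_cast; ring
    have eV2 : V2 = (R / 2 : ℂ) * (Z3 - Z4) + (t / 2 : ℂ) * (Z3 + Z4) := by
      rw [hV2]; push_cast; ring
    rw [eV1, eV2, s1, s2, s3, s4]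
    have q1 : (((Real.sinh y / Real.cosh y : ℝ)) : ℂ) = ((α - γ : ℝ) : ℂ) / R := by
      rw [hy1]; push_cast; ring
    have q2 : ((C / Real.cosh y : ℝ) : ℂ) = C * (2 * ‖β‖ / R) := by
      have : C / Real.cosh y = C * (2 * ‖β‖ / R) := by rw [← hy2]; ring
      rw [this]; push_cast; ring
    have q3 : ((S / Real.cosh y : ℝ) : ℂ) = (S : ℂ) / ((Real.cosh y : ℝ) : ℂ) := by push_cast; ring
    have q4 : (((α + γ) / 2 * (S / C / Real.cosh y) : ℝ) : ℂ) =
        ((α + γ : ℝ) : ℂ) / 2 * ((S : ℂ) / C / ((Real.cosh y : ℝ) : ℂ)) := by push_cast; ring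
    have q5 : (θ1 : ℂ) = (1 + 1 / C) / 2 := by rw [hθ1]; push_cast; ring
    have q6 : (θ2 : ℂ) = (1 - 1 / C) / 2 := by rw [hθ2]; push_cast; ring
    have q7 : (starRingEnd ℂ) β = (‖β‖ : ℂ) * (starRingEnd ℂ) ω := by
      conv_lhs => rw [hωβ]
      rw [map_mul, Complex.conj_ofReal]
    have q8 : (t : ℂ) = α + γ := by rw [htdef]; push_cast; ring
    rw [q1, q2, q3, q4, q5, q6, q7, q8]
    conv_lhs => rw [show β * b = (‖β‖ : ℂ) * ω * b from by rw [← hωβ]]
    push_cast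
    field_simp
    ring
  rw [key]
  refine (norm_add_le _ _).trans ?_
  rw [norm_mul, norm_mul, Complex.norm_real, Complex.norm_real, Real.norm_of_nonneg hθ10,
    Real.norm_of_nonneg hθ20]
  have h5 := mul_le_mul_of_nonneg_left bV1 hθ10
  have h6 := mul_le_mul_of_nonneg_left bV2 hθ20
  have h7 : θ1 + θ2 = 1 := by rw [hθ1, hθ2]; ring
  calc θ1 * ‖V1‖ + θ2 * ‖V2‖ ≤ θ1 * (ν * R) + θ2 * (ν * R) := add_le_add h5 h6
    _ = (θ1 + θ2) * (ν * R) := by ring
    _ = ν * R := by rw [h7, one_mul]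

/-- The skew part. -/
lemma skew_bound (h : StB δ ν a b c d) (ω : ℂ) (hω : ‖ω‖ = 1) :
    ‖ω * b - (starRingEnd ℂ ω) * c‖ ≤ 2 * ν := by
  have hne : (I * ω) ≠ 0 := by
    intro h0
    have : ‖I * ω‖ = 0 := by rw [h0, norm_zero]
    rw [norm_mul, Complex.norm_I, hω] at this
    norm_num at this
  have hn : ‖I * ω‖ = 1 := by rw [norm_mul, Complex.norm_I, hω, one_mul]
  obtain ⟨y, ω', hω', hle⟩ := herm_aux h (α := 0) (γ := 0) hne (R := 2) (by
    rw [hn]; rw [show ((0:ℝ) - 0) ^ 2 + 4 * 1 ^ 2 = 2 ^ 2 by norm_num]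
    exact (Real.sqrt_sq (by norm_num)).symm) (by norm_num)
  have e : ((0:ℝ):ℂ) * a + I * ω * b + (starRingEnd ℂ (I * ω)) * c + ((0:ℝ):ℂ) * d +
      ((((0:ℝ) + 0) / 2 * (Real.sinh (2 * δ * y) / Real.cosh (2 * δ * y) / Real.cosh y) : ℝ) : ℂ) *
        (ω' * b - (starRingEnd ℂ ω') * c) = I * (ω * b - (starRingEnd ℂ ω) * c) := by
    rw [map_mul, Complex.conj_I]
    push_cast
    ring
  rw [e, norm_mul, Complex.norm_I, one_mul] at hle
  linarith

/-- Hermitian estimate. -/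
lemma herm (hδ : 0 ≤ δ) (h : StB δ ν a b c d) {α γ : ℝ} {β : ℂ} {R : ℝ}
    (hR : R = √((α - γ) ^ 2 + 4 * ‖β‖ ^ 2)) (ht : |α + γ| ≤ R) :
    ‖α * a + β * b + (starRingEnd ℂ β) * c + γ * d‖ ≤ ν * (R + 2 * δ * |α + γ|) := by
  have hν := h.nn
  by_cases hβ : β = 0
  · rw [hβ, norm_zero] at hR
    have hR' : R = |α - γ| := by rw [hR, ← Real.sqrt_sq_eq_abs]; congr 1; ring
    rw [hβ, map_zero, zero_mul, zero_mul, add_zero, add_zero]
    have h1 : ‖(α : ℂ) * a + γ * d‖ ≤ ν * (|α| + |γ|) := by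
      refine (norm_add_le _ _).trans ?_
      rw [norm_mul, norm_mul, Complex.norm_real, Complex.norm_real, Real.norm_eq_abs,
        Real.norm_eq_abs]
      have h2 := mul_le_mul_of_nonneg_left h.a (abs_nonneg α)
      have h3 := mul_le_mul_of_nonneg_left h.d (abs_nonneg γ)
      linarith
    have h2 : |α| + |γ| ≤ R := by
      rw [hR'] at ht ⊢
      rcases abs_cases α with ⟨e1, _⟩ | ⟨e1, _⟩ <;> rcases abs_cases γ with ⟨e2, _⟩ | ⟨e2, _⟩ <;>
        rw [e1, e2]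
      · exact (le_abs_self _).trans ht
      · have := le_abs_self (α - γ); linarith
      · have := neg_abs_le (α - γ); linarith
      · have := neg_abs_le (α + γ); linarith
    have h3 : 0 ≤ 2 * δ * |α + γ| := by positivity
    calc _ ≤ _ := h1
      _ ≤ ν * (R + 2 * δ * |α + γ|) := mul_le_mul_of_nonneg_left (by linarith) hν
  · obtain ⟨y, ω, hω, hle⟩ := herm_aux h hβ hR ht
    have hsk := skew_bound h ω hω
    set E : ℝ := (α + γ) / 2 * (Real.sinh (2 * δ * y) / Real.cosh (2 * δ * y) / Real.cosh y) with hE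
    have hEb : |E| ≤ δ * |α + γ| := by
      have hc1 : 0 < Real.cosh y := Real.cosh_pos y
      have hc2 : 0 < Real.cosh (2 * δ * y) := Real.cosh_pos _
      have h1 : |Real.sinh (2 * δ * y) / Real.cosh (2 * δ * y)| ≤ |2 * δ * y| := by
        rw [← Real.tanh_eq_sinh_div_cosh]
        have key : ∀ u : ℝ, 0 ≤ u → |Real.tanh u| ≤ u := fun u hu => by
          have h2 : Real.sinh u ≤ u * Real.cosh u := by
            have hmono : ∀ v : ℝ, 0 ≤ v → 0 ≤ v * Real.cosh v - Real.sinh v := by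
              intro v hv
              have hd : ∀ x : ℝ, HasDerivAt (fun x => x * Real.cosh x - Real.sinh x)
                  (x * Real.sinh x) x := fun x => by
                have := ((hasDerivAt_id x).mul (Real.hasDerivAt_cosh x)).sub
                  (Real.hasDerivAt_sinh x)
                refine this.congr_deriv ?_
                simp only [id_eq]
                ring
              have hm : MonotoneOn (fun x => x * Real.cosh x - Real.sinh x) (Set.Ici 0) := by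
                apply monotoneOn_of_deriv_nonneg (convex_Ici 0)
                · exact fun x _ => (hd x).continuousAt.continuousWithinAt
                · exact fun x _ => (hd x).differentiableAt.differentiableWithinAt
                · intro x hx
                  rw [interior_Ici] at hx
                  rw [(hd x).deriv]
                  exact mul_nonneg hx.le (Real.sinh_nonneg_iff.mpr hx.le)
              have := hm (Set.mem_Ici.mpr le_rfl) (Set.mem_Ici.mpr hv) hv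
              simpa using this
            linarith [hmono u hu]
          rw [Real.tanh_eq_sinh_div_cosh, abs_div, abs_of_pos (Real.cosh_pos u),
            abs_of_nonneg (Real.sinh_nonneg_iff.mpr hu), div_le_iff₀ (Real.cosh_pos u)]
          exact h2
        rcases le_total 0 (2 * δ * y) with h3 | h3
        · rw [abs_of_nonneg h3]; exact key _ h3
        · have := key (-(2 * δ * y)) (by linarith)
          rw [Real.tanh_neg, abs_neg] at this
          rw [abs_of_nonpos h3]; exact this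
      have h2 : |y| ≤ Real.cosh y := by
        rw [← Real.cosh_abs y]
        have h3 := Real.one_le_cosh |y|
        have h4 : |y| ≤ Real.sinh |y| := Real.self_le_sinh_iff.mpr (abs_nonneg y)
        have h5 := Real.sinh_lt_cosh |y|
        linarith
      rw [hE, abs_mul, abs_div, abs_div _ (Real.cosh y), abs_of_pos hc1, abs_two]
      have h6 : |Real.sinh (2 * δ * y) / Real.cosh (2 * δ * y)| / Real.cosh y ≤ 2 * δ := by
        rw [div_le_iff₀ hc1]
        refine h1.trans ?_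
        rw [abs_mul, abs_of_nonneg (by positivity : 0 ≤ 2 * δ)]
        exact mul_le_mul_of_nonneg_left h2 (by positivity)
      calc |α + γ| / 2 * (|Real.sinh (2 * δ * y) / Real.cosh (2 * δ * y)| / Real.cosh y) ≤
          |α + γ| / 2 * (2 * δ) := mul_le_mul_of_nonneg_left h6 (by positivity)
        _ = δ * |α + γ| := by ring
    have h8 : ‖(E : ℂ) * (ω * b - (starRingEnd ℂ ω) * c)‖ ≤ δ * |α + γ| * (2 * ν) := by
      rw [norm_mul, Complex.norm_real, Real.norm_eq_abs]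
      exact mul_le_mul hEb hsk (norm_nonneg _) (by positivity)
    have h9 : α * a + β * b + (starRingEnd ℂ β) * c + γ * d =
        ((α * a + β * b + (starRingEnd ℂ β) * c + γ * d) + (E : ℂ) *
          (ω * b - (starRingEnd ℂ ω) * c)) - (E : ℂ) * (ω * b - (starRingEnd ℂ ω) * c) := by ring
    rw [h9]
    refine (norm_sub_le _ _).trans ?_
    linarith

end Pool.Agent.H148R3.NI
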