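import Pool.Agent.H148R3.NI1

set_option autoImplicit false

namespace Pool.Agent.H148R3.NI

open Complex

variable {δ ν : ℝ} {a b c d : ℂ}

/-- The pairing bound when the trace is real and nonnegative. -/
lemma pair_bound_aux (hδ : 0 ≤ δ) (h : StB δ ν a b c d) (x1 x2 w1 w2 : ℂ) (t : ℝ) (ht : 0 ≤ t)
    (htr : w1 * x1 + w2 * x2 = (t : ℂ)) :
    ‖a * (w1 * x1) + b * (w1 * x2) + c * (w2 * x1) + d * (w2 * x2)‖ ≤
      ν * (√((‖w1‖ ^ 2 + ‖w2‖ ^ 2) * (‖x1‖ ^ 2 + ‖x2‖ ^ 2)) +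
        √((‖w1‖ ^ 2 + ‖w2‖ ^ 2) * (‖x1‖ ^ 2 + ‖x2‖ ^ 2) - t ^ 2) + 2 * δ * t) := by
  have hν := h.nn
  have hre : (w1 * x1).re + (w2 * x2).re = t := by
    have := congrArg Complex.re htr
    simpa using this
  have him : (w1 * x1).im + (w2 * x2).im = 0 := by
    have := congrArg Complex.im htr
    simpa using this
  set α : ℝ := (w1 * x1).re with hα
  set γ : ℝ := (w2 * x2).re with hγ
  set s : ℝ := (w1 * x1).im with hs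
  have hs2 : (w2 * x2).im = -s := by linarith
  set β : ℂ := (w1 * x2 + (starRingEnd ℂ) (w2 * x1)) / 2 with hβ
  set β' : ℂ := (w1 * x2 - (starRingEnd ℂ) (w2 * x1)) / 2 * (-I) with hβ'
  -- norms
  have n1 : ‖w1‖ ^ 2 * ‖x1‖ ^ 2 = α ^ 2 + s ^ 2 := by
    rw [← mul_pow, ← norm_mul, Complex.sq_norm, Complex.normSq_apply, ← hα, ← hs]; ring
  have n2 : ‖w2‖ ^ 2 * ‖x2‖ ^ 2 = γ ^ 2 + s ^ 2 := by
    rw [← mul_pow, ← norm_mul, Complex.sq_norm, Complex.normSq_apply, ← hγ, hs2]; ring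
  have hprod : (w1 * x2) * (w2 * x1) = (w1 * x1) * (w2 * x2) := by ring
  have hprodre : ((w1 * x2) * (w2 * x1)).re = α * γ + s ^ 2 := by
    rw [hprod, Complex.mul_re, ← hα, ← hγ, ← hs, hs2]; ring
  have nβ : 4 * ‖β‖ ^ 2 = ‖w1‖ ^ 2 * ‖x2‖ ^ 2 + ‖w2‖ ^ 2 * ‖x1‖ ^ 2 + 2 * (α * γ + s ^ 2) := by
    rw [hβ, norm_div, div_pow, Complex.sq_norm, Complex.normSq_add, Complex.normSq_conj,
      Complex.conj_conj, hprodre, ← Complex.sq_norm, ← Complex.sq_norm, norm_mul, norm_mul,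
      Complex.norm_ofNat]
    ring
  have nβ' : 4 * ‖β'‖ ^ 2 = ‖w1‖ ^ 2 * ‖x2‖ ^ 2 + ‖w2‖ ^ 2 * ‖x1‖ ^ 2 - 2 * (α * γ + s ^ 2) := by
    rw [hβ', norm_mul, norm_neg, Complex.norm_I, mul_one, norm_div, div_pow, Complex.sq_norm,
      Complex.normSq_sub, Complex.normSq_conj,
      Complex.conj_conj, hprodre, ← Complex.sq_norm, ← Complex.sq_norm, norm_mul, norm_mul,
      Complex.norm_ofNat]
    ring
  have hH : (‖w1‖ ^ 2 + ‖w2‖ ^ 2) * (‖x1‖ ^ 2 + ‖x2‖ ^ 2) = (α - γ) ^ 2 + 4 * ‖β‖ ^ 2 := by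
    rw [nβ]; linear_combination n1 + n2
  have hA : (‖w1‖ ^ 2 + ‖w2‖ ^ 2) * (‖x1‖ ^ 2 + ‖x2‖ ^ 2) - t ^ 2 =
      (s - (-s)) ^ 2 + 4 * ‖β'‖ ^ 2 := by
    rw [nβ', ← hre]; linear_combination n1 + n2
  have hge : t ^ 2 ≤ (‖w1‖ ^ 2 + ‖w2‖ ^ 2) * (‖x1‖ ^ 2 + ‖x2‖ ^ 2) := by
    have : 0 ≤ (s - (-s)) ^ 2 + 4 * ‖β'‖ ^ 2 := by positivity
    linarith
  have k1 := herm (α := α) (γ := γ) (β := β) hδ h rfl (by
    rw [hre, abs_of_nonneg ht, ← hH]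
    exact Real.le_sqrt_of_sq_le hge)
  have k2 := herm (α := s) (γ := -s) (β := β') hδ h rfl (by
    rw [add_neg_cancel, abs_zero]; exact Real.sqrt_nonneg _)
  rw [← hH, hre, abs_of_nonneg ht] at k1
  rw [← hA, add_neg_cancel, abs_zero, mul_zero, add_zero] at k2
  have e1 : w1 * x1 = (α : ℂ) + s * I := by
    rw [hα, hs]; exact (Complex.re_add_im _).symm
  have e2 : w2 * x2 = (γ : ℂ) - s * I := by
    have := (Complex.re_add_im (w2 * x2)).symm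
    rw [hs2] at this
    rw [this, hγ]; push_cast; ring
  have e3 : w1 * x2 = β + I * β' := by
    rw [hβ, hβ']
    linear_combination ((w1 * x2 - (starRingEnd ℂ) (w2 * x1)) / 2) * Complex.I_mul_I
  have e4 : w2 * x1 = (starRingEnd ℂ) β + I * (starRingEnd ℂ) β' := by
    rw [hβ, hβ']
    simp only [map_div₀, map_add, map_sub, map_mul, map_neg, Complex.conj_conj, Complex.conj_I]
    have : (starRingEnd ℂ) (2:ℂ) = 2 := by
      have := Complex.conj_ofReal 2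
      simpa using this
    rw [this]
    linear_combination (-((starRingEnd ℂ) w1 * (starRingEnd ℂ) x2 - w2 * x1) / 2) * Complex.I_mul_I
  have key : a * (w1 * x1) + b * (w1 * x2) + c * (w2 * x1) + d * (w2 * x2) =
      (α * a + β * b + (starRingEnd ℂ) β * c + γ * d) +
      I * ((s : ℂ) * a + β' * b + (starRingEnd ℂ) β' * c + ((-s : ℝ) : ℂ) * d) := by
    rw [e1, e2, e3, e4]; push_cast; ring
  rw [key]
  refine (norm_add_le _ _).trans ?_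
  rw [norm_mul, Complex.norm_I, one_mul]
  calc _ ≤ _ := add_le_add k1 k2
    _ = _ := by ring

/-- The pairing bound. -/
lemma pair_bound (hδ : 0 ≤ δ) (h : StB δ ν a b c d) (x1 x2 w1 w2 : ℂ) :
    ‖a * (w1 * x1) + b * (w1 * x2) + c * (w2 * x1) + d * (w2 * x2)‖ ≤
      ν * (√((‖w1‖ ^ 2 + ‖w2‖ ^ 2) * (‖x1‖ ^ 2 + ‖x2‖ ^ 2)) +
        √((‖w1‖ ^ 2 + ‖w2‖ ^ 2) * (‖x1‖ ^ 2 + ‖x2‖ ^ 2) - ‖w1 * x1 + w2 * x2‖ ^ 2) +
          2 * δ * ‖w1 * x1 + w2 * x2‖) := by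
  obtain ⟨u, hu, hut⟩ : ∃ u : ℂ, ‖u‖ = 1 ∧ u * (w1 * x1 + w2 * x2) =
      ((‖w1 * x1 + w2 * x2‖ : ℝ) : ℂ) := by
    by_cases h0 : w1 * x1 + w2 * x2 = 0
    · exact ⟨1, norm_one, by rw [h0]; simp⟩
    · have hn : ((‖w1 * x1 + w2 * x2‖ : ℝ) : ℂ) ≠ 0 := by
        exact_mod_cast (norm_pos_iff.mpr h0).ne'
      refine ⟨((‖w1 * x1 + w2 * x2‖ : ℝ) : ℂ) / (w1 * x1 + w2 * x2), ?_, ?_⟩
      · rw [norm_div, Complex.norm_real, norm_norm, div_self (norm_pos_iff.mpr h0).ne']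
      · field_simp
  have := pair_bound_aux hδ h x1 x2 (u * w1) (u * w2) ‖w1 * x1 + w2 * x2‖ (norm_nonneg _) (by
    rw [← hut]; ring)
  rw [norm_mul, norm_mul, hu, one_mul, one_mul] at this
  rw [show a * (u * w1 * x1) + b * (u * w1 * x2) + c * (u * w2 * x1) + d * (u * w2 * x2) =
    u * (a * (w1 * x1) + b * (w1 * x2) + c * (w2 * x1) + d * (w2 * x2)) by ring, norm_mul, hu,
    one_mul] at this
  exact this

lemma trace_sq_le (x1 x2 w1 w2 : ℂ) : ‖w1 * x1 + w2 * x2‖ ^ 2 ≤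
    (‖w1‖ ^ 2 + ‖w2‖ ^ 2) * (‖x1‖ ^ 2 + ‖x2‖ ^ 2) := by
  have h1 : ‖w1 * x1 + w2 * x2‖ ≤ ‖w1‖ * ‖x1‖ + ‖w2‖ * ‖x2‖ := by
    refine (norm_add_le _ _).trans ?_
    rw [norm_mul, norm_mul]
  have h2 := pow_le_pow_left₀ (norm_nonneg _) h1 2
  refine h2.trans ?_
  nlinarith [sq_nonneg (‖w1‖ * ‖x2‖ - ‖w2‖ * ‖x1‖)]

end Pool.Agent.H148R3.NI
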