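import Mathlib

set_option autoImplicit false

namespace Pool.Agent.H148R3.NI

open Filter Topology

lemma exp_le_of_nonneg {u : ℝ} (hu : 0 ≤ u) : Real.exp u ≤ 1 + u + u ^ 2 * Real.exp u := by
  have h1 : 1 - u ≤ Real.exp (-u) := by have := Real.add_one_le_exp (-u); linarith
  have h2 : 0 < Real.exp u := Real.exp_pos u
  have h3 : Real.exp (-u) * Real.exp u = 1 := by rw [← Real.exp_add]; simp
  have h4 : (1 - u) * Real.exp u ≤ 1 := by
    have := mul_le_mul_of_nonneg_right h1 h2.le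
    linarith
  -- exp u - 1 ≤ u exp u
  nlinarith [mul_le_mul_of_nonneg_left h4 hu]

lemma exp_le_of_nonpos {u : ℝ} (hu : u ≤ 0) : Real.exp u ≤ 1 + u + u ^ 2 := by
  have h1 : 1 - u ≤ Real.exp (-u) := by have := Real.add_one_le_exp (-u); linarith
  have h2 : 0 < Real.exp u := Real.exp_pos u
  have h3 : Real.exp (-u) * Real.exp u = 1 := by rw [← Real.exp_add]; simp
  have h4 : (1 - u) * Real.exp u ≤ 1 := by
    have := mul_le_mul_of_nonneg_right h1 h2.le
    linarith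
  have h5 : Real.exp u ≤ 1 / (1 - u) := by
    rw [le_div_iff₀ (by linarith)]; linarith
  refine h5.trans ?_
  rw [div_le_iff₀ (by linarith)]
  nlinarith [mul_nonneg (neg_nonneg.mpr hu) (sq_nonneg u)]

lemma pow_lo {δ a : ℝ} (hδ : 0 ≤ δ) (hδ' : δ ≤ 1 / 4) (ha : 0 ≤ a) (ha' : a ≤ 1) :
    a ^ (1 - 2 * δ) ≤ a + 2 * δ * Real.negMulLog a + 64 * δ ^ 2 := by
  rcases ha.eq_or_lt with rfl | ha
  · rw [Real.zero_rpow (by linarith), Real.negMulLog_zero]
    nlinarith
  · have hl : Real.log a ≤ 0 := Real.log_nonpos ha.le ha'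
    have e1 : a ^ (1 - 2 * δ) = a * Real.exp (-(2 * δ * Real.log a)) := by
      rw [Real.rpow_sub ha, Real.rpow_one, div_eq_mul_inv, Real.rpow_def_of_pos ha, ← Real.exp_neg]
      congr 2; ring
    have hu : 0 ≤ -(2 * δ * Real.log a) := by nlinarith
    have h1 := exp_le_of_nonneg hu
    have h2 : |Real.log a * a ^ (1 / 2 - δ)| < 1 / (1 / 2 - δ) :=
      Real.abs_log_mul_self_rpow_lt a _ ha ha' (by linarith)
    have h3 : 1 / (1 / 2 - δ) ≤ 4 := by
      rw [div_le_iff₀ (by linarith)]; linarith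
    have h4 : (Real.log a) ^ 2 * a ^ (1 - 2 * δ) ≤ 16 := by
      have e2 : (Real.log a) ^ 2 * a ^ (1 - 2 * δ) = |Real.log a * a ^ (1 / 2 - δ)| ^ 2 := by
        rw [sq_abs, mul_pow, ← Real.rpow_natCast (a ^ (1 / 2 - δ)) 2, ← Real.rpow_mul ha.le]
        congr 2; push_cast; ring
      rw [e2]
      have h5 : |Real.log a * a ^ (1 / 2 - δ)| ≤ 4 := h2.le.trans h3
      nlinarith [abs_nonneg (Real.log a * a ^ (1 / 2 - δ))]
    calc a ^ (1 - 2 * δ) = a * Real.exp (-(2 * δ * Real.log a)) := e1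
      _ ≤ a * (1 + -(2 * δ * Real.log a) + (-(2 * δ * Real.log a)) ^ 2 *
          Real.exp (-(2 * δ * Real.log a))) := mul_le_mul_of_nonneg_left h1 ha.le
      _ = a + 2 * δ * Real.negMulLog a + 4 * δ ^ 2 * ((Real.log a) ^ 2 *
          (a * Real.exp (-(2 * δ * Real.log a)))) := by rw [Real.negMulLog]; ring
      _ = a + 2 * δ * Real.negMulLog a + 4 * δ ^ 2 * ((Real.log a) ^ 2 * a ^ (1 - 2 * δ)) := by
          rw [← e1]
      _ ≤ a + 2 * δ * Real.negMulLog a + 64 * δ ^ 2 := by nlinarith [sq_nonneg δ]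

lemma pow_hi {δ a : ℝ} (hδ : 0 ≤ δ) (ha : 0 ≤ a) (ha' : a ≤ 1) :
    a ^ (1 + 2 * δ) ≤ a - 2 * δ * Real.negMulLog a + 16 * δ ^ 2 := by
  rcases ha.eq_or_lt with rfl | ha
  · rw [Real.zero_rpow (by linarith), Real.negMulLog_zero]
    nlinarith
  · have hl : Real.log a ≤ 0 := Real.log_nonpos ha.le ha'
    have e1 : a ^ (1 + 2 * δ) = a * Real.exp (2 * δ * Real.log a) := by
      rw [Real.rpow_add ha, Real.rpow_one, Real.rpow_def_of_pos ha]
      congr 2; ring
    have hu : 2 * δ * Real.log a ≤ 0 := by nlinarith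
    have h1 := exp_le_of_nonpos hu
    have h2 : |Real.log a * a ^ (1 / 2 : ℝ)| < 1 / (1 / 2) :=
      Real.abs_log_mul_self_rpow_lt a _ ha ha' (by norm_num)
    have h4 : (Real.log a) ^ 2 * a ≤ 4 := by
      have e2 : (Real.log a) ^ 2 * a = |Real.log a * a ^ (1 / 2 : ℝ)| ^ 2 := by
        rw [sq_abs, mul_pow, ← Real.rpow_natCast (a ^ (1 / 2 : ℝ)) 2, ← Real.rpow_mul ha.le]
        norm_num
      rw [e2]
      nlinarith [abs_nonneg (Real.log a * a ^ (1 / 2 : ℝ))]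
    calc a ^ (1 + 2 * δ) = a * Real.exp (2 * δ * Real.log a) := e1
      _ ≤ a * (1 + 2 * δ * Real.log a + (2 * δ * Real.log a) ^ 2) :=
          mul_le_mul_of_nonneg_left h1 ha.le
      _ = a - 2 * δ * Real.negMulLog a + 4 * δ ^ 2 * ((Real.log a) ^ 2 * a) := by
          rw [Real.negMulLog]; ring
      _ ≤ a - 2 * δ * Real.negMulLog a + 16 * δ ^ 2 := by nlinarith [sq_nonneg δ]

/-! ### N2 -/

/-- `A(δ, a)`. -/
noncomputable def fA (δ a : ℝ) : ℝ := a ^ (1 - 2 * δ) + (1 - a) ^ (1 - 2 * δ)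

/-- `B(δ, b)`. -/
noncomputable def fB (δ b : ℝ) : ℝ := b ^ (1 + 2 * δ) + (1 - b) ^ (1 + 2 * δ)

/-- entropy -/
noncomputable def ent (a : ℝ) : ℝ := Real.negMulLog a + Real.negMulLog (1 - a)

lemma ent_cont : Continuous ent := by
  unfold ent
  exact Real.continuous_negMulLog.add (Real.continuous_negMulLog.comp (continuous_const.sub
    continuous_id))

lemma ent_nonneg {a : ℝ} (ha : 0 ≤ a) (ha' : a ≤ 1) : 0 ≤ ent a :=
  add_nonneg (Real.negMulLog_nonneg ha ha') (Real.negMulLog_nonneg (by linarith) (by linarith))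

lemma negMulLog_le {a : ℝ} (ha : 0 ≤ a) (ha' : a ≤ 1) : Real.negMulLog a ≤ 1 / 2 := by
  rcases ha.eq_or_lt with rfl | ha
  · rw [Real.negMulLog_zero]; norm_num
  · have h1 : Real.log (1 / (2 * a)) ≤ 1 / (2 * a) - 1 :=
      Real.log_le_sub_one_of_pos (by positivity)
    rw [Real.log_div (by norm_num) (by positivity), Real.log_one, Real.log_mul (by norm_num) ha.ne']
      at h1
    have h2 : 0 < Real.log 2 := Real.log_pos (by norm_num)
    have h3 : Real.log 2 ≤ 1 := by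
      have := Real.log_le_sub_one_of_pos (show (0:ℝ) < 2 by norm_num); linarith
    have h4 : a * (1 / (2 * a) - 1) = 1 / 2 - a := by field_simp
    have h5 := mul_le_mul_of_nonneg_left h1 ha.le
    rw [Real.negMulLog]
    nlinarith

lemma ent_le {a : ℝ} (ha : 0 ≤ a) (ha' : a ≤ 1) : ent a ≤ 1 := by
  have h1 := negMulLog_le ha ha'
  have h2 := negMulLog_le (a := 1 - a) (by linarith) (by linarith)
  unfold ent; linarith

lemma fAB_le {δ a b : ℝ} (hδ : 0 ≤ δ) (hδ' : δ ≤ 1 / 4) (ha : 0 ≤ a) (ha' : a ≤ 1)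
    (hb : 0 ≤ b) (hb' : b ≤ 1) :
    fA δ a * fB δ b ≤ 1 + 2 * δ * (ent a - ent b) + 500 * δ ^ 2 := by
  have hA0 : 0 ≤ fA δ a := by
    unfold fA; exact add_nonneg (Real.rpow_nonneg ha _) (Real.rpow_nonneg (by linarith) _)
  have hB0 : 0 ≤ fB δ b := by
    unfold fB; exact add_nonneg (Real.rpow_nonneg hb _) (Real.rpow_nonneg (by linarith) _)
  have hA : fA δ a ≤ 1 + 2 * δ * ent a + 128 * δ ^ 2 := by
    have h1 := pow_lo hδ hδ' ha ha'
    have h2 := pow_lo (a := 1 - a) hδ hδ' (by linarith) (by linarith)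
    unfold fA ent; linarith
  have hB : fB δ b ≤ 1 - 2 * δ * ent b + 32 * δ ^ 2 := by
    have h1 := pow_hi hδ hb hb'
    have h2 := pow_hi (a := 1 - b) hδ (by linarith) (by linarith)
    unfold fB ent; linarith
  have e1 := ent_nonneg ha ha'
  have e2 := ent_le ha ha'
  have e3 := ent_nonneg hb hb'
  have e4 := ent_le hb hb'
  calc fA δ a * fB δ b ≤ (1 + 2 * δ * ent a + 128 * δ ^ 2) * (1 - 2 * δ * ent b + 32 * δ ^ 2) :=
        mul_le_mul hA hB hB0 (hA0.trans hA)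
    _ = 1 + 2 * δ * (ent a - ent b) + δ ^ 2 * (160 - 4 * (ent a * ent b) + 64 * δ * ent a -
          256 * δ * ent b + 4096 * δ ^ 2) := by ring
    _ ≤ 1 + 2 * δ * (ent a - ent b) + δ ^ 2 * 500 := by
        have h1 : 0 ≤ ent a * ent b := mul_nonneg e1 e3
        have h2 : δ * ent a ≤ 1 / 4 := by nlinarith
        have h3 : 0 ≤ δ * ent b := mul_nonneg hδ e3
        have h4 : δ ^ 2 ≤ 1 / 16 := by nlinarith
        have h5 : 160 - 4 * (ent a * ent b) + 64 * δ * ent a - 256 * δ * ent b + 4096 * δ ^ 2 ≤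
            500 := by nlinarith
        have := mul_le_mul_of_nonneg_left h5 (sq_nonneg δ)
        linarith
    _ = _ := by ring

/-- The uniform estimate behind the lower bound. -/
theorem N2 (c : ℝ) (hc : 0 < c) : ∀ᶠ δ : ℝ in 𝓝 0, 0 < δ → ∀ a b t : ℝ, 0 ≤ a → a ≤ 1 → 0 ≤ b →
    b ≤ 1 → 0 ≤ t → t ≤ 2 →
    |a ^ (1 / 2 - δ) * b ^ (1 / 2 + δ) - (1 - a) ^ (1 / 2 - δ) * (1 - b) ^ (1 / 2 + δ)| ≤ t →
    √(fA δ a * fB δ b) + √(fA δ a * fB δ b - t ^ 2) + 2 * δ * t ≤ 2 + c * δ := by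
  have hK : IsCompact (Set.Icc (0:ℝ) 1 ×ˢ (Set.Icc (0:ℝ) 1 ×ˢ Set.Icc (0:ℝ) 2)) :=
    isCompact_Icc.prod (isCompact_Icc.prod isCompact_Icc)
  have key := IsCompact.eventually_forall_of_forall_eventually (x₀ := (0:ℝ)) hK
    (P := fun δ y => 0 < δ → (0 ≤ y.1 ∧ y.1 ≤ 1 ∧ 0 ≤ y.2.1 ∧ y.2.1 ≤ 1 ∧ 0 ≤ y.2.2) →
      |y.1 ^ (1 / 2 - δ) * y.2.1 ^ (1 / 2 + δ) - (1 - y.1) ^ (1 / 2 - δ) *
        (1 - y.2.1) ^ (1 / 2 + δ)| ≤ y.2.2 →
      √(fA δ y.1 * fB δ y.2.1) + √(fA δ y.1 * fB δ y.2.1 - y.2.2 ^ 2) + 2 * δ * y.2.2 ≤ 2 + c * δ) ?_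
  · filter_upwards [key] with δ hδ h0 a b t ha ha' hb hb' ht ht' hle
    exact hδ (a, b, t) ⟨⟨ha, ha'⟩, ⟨hb, hb'⟩, ⟨ht, ht'⟩⟩ h0 ⟨ha, ha', hb, hb', ht⟩ hle
  · rintro ⟨a0, b0, t0⟩ ⟨ha0, hb0, ht0⟩
    simp only [Set.mem_Icc] at ha0 hb0 ht0
    -- continuity facts
    have c1 : ContinuousAt (fun z : ℝ × ℝ × ℝ × ℝ => fA z.1 z.2.1) (0, a0, b0, t0) := by
      unfold fA
      refine ContinuousAt.add (ContinuousAt.rpow ?_ ?_ ?_) (ContinuousAt.rpow ?_ ?_ ?_)
      all_goals first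
        | fun_prop
        | (right; norm_num)
    have c2 : ContinuousAt (fun z : ℝ × ℝ × ℝ × ℝ => fB z.1 z.2.2.1) (0, a0, b0, t0) := by
      unfold fB
      refine ContinuousAt.add (ContinuousAt.rpow ?_ ?_ ?_) (ContinuousAt.rpow ?_ ?_ ?_)
      all_goals first
        | fun_prop
        | (right; norm_num)
    have c3 : ContinuousAt (fun z : ℝ × ℝ × ℝ × ℝ => |z.2.1 ^ (1 / 2 - z.1) *
        z.2.2.1 ^ (1 / 2 + z.1) - (1 - z.2.1) ^ (1 / 2 - z.1) * (1 - z.2.2.1) ^ (1 / 2 + z.1)|)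
        (0, a0, b0, t0) := by
      refine ContinuousAt.abs (ContinuousAt.sub (ContinuousAt.mul (ContinuousAt.rpow ?_ ?_ ?_)
        (ContinuousAt.rpow ?_ ?_ ?_)) (ContinuousAt.mul (ContinuousAt.rpow ?_ ?_ ?_)
        (ContinuousAt.rpow ?_ ?_ ?_)))
      all_goals first
        | fun_prop
        | (right; norm_num)
    have f0 : fA 0 a0 * fB 0 b0 = 1 := by
      unfold fA fB; norm_num
    rcases eq_or_ne t0 0 with rfl | ht
    · by_cases hab : a0 + b0 = 1
      · -- the critical case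
        have c4 : ContinuousAt (fun z : ℝ × ℝ × ℝ × ℝ => 2 * (ent z.2.1 - ent z.2.2.1) +
            500 * z.1 + 2 * z.2.2.2) (0, a0, b0, 0) := by
          have := ent_cont
          fun_prop
        have v4 : (2 * (ent a0 - ent b0) + 500 * 0 + 2 * 0 : ℝ) < c := by
          have : ent a0 = ent b0 := by
            have : b0 = 1 - a0 := by linarith
            rw [this]; unfold ent
            rw [show 1 - (1 - a0) = a0 by ring]; ring
          rw [this]; linarith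
        have c5 : ContinuousAt (fun z : ℝ × ℝ × ℝ × ℝ => z.1) (0, a0, b0, 0) := by fun_prop
        filter_upwards [c4.eventually_lt_const v4, c5.eventually_lt_const
          (show (0:ℝ) < 1 / 4 by norm_num)] with z hz hz4 hz0 hz1 _
        obtain ⟨g1, g2, g3, g4, g5⟩ := hz1
        have h1 := fAB_le hz0.le hz4.le g1 g2 g3 g4
        set H2 := fA z.1 z.2.1 * fB z.1 z.2.2.1 with hH2
        have h2 : √(H2 - z.2.2.2 ^ 2) ≤ √H2 := Real.sqrt_le_sqrt (by nlinarith)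
        set e := 2 * z.1 * (ent z.2.1 - ent z.2.2.1) + 500 * z.1 ^ 2 with he
        have h3 : √H2 ≤ 1 + e / 2 := by
          by_cases hp : 0 ≤ H2
          · have h5 := Real.sq_sqrt hp
            have h6 := Real.sqrt_nonneg H2
            nlinarith [sq_nonneg (√H2 - 1)]
          · exfalso
            apply hp
            rw [hH2]
            unfold fA fB
            exact mul_nonneg (add_nonneg (Real.rpow_nonneg g1 _) (Real.rpow_nonneg (by linarith) _))
              (add_nonneg (Real.rpow_nonneg g3 _) (Real.rpow_nonneg (by linarith) _))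
        have h4 : z.1 * (2 * (ent z.2.1 - ent z.2.2.1) + 500 * z.1 + 2 * z.2.2.2) ≤ z.1 * c :=
          mul_le_mul_of_nonneg_left hz.le hz0.le
        nlinarith
      · -- the constraint fails
        have hne : 0 < |a0 ^ (1 / 2 - (0:ℝ)) * b0 ^ (1 / 2 + (0:ℝ)) - (1 - a0) ^ (1 / 2 - (0:ℝ)) *
            (1 - b0) ^ (1 / 2 + (0:ℝ))| := by
          rw [abs_pos, sub_ne_zero]
          intro heq
          apply hab
          rw [sub_zero, add_zero, ← Real.mul_rpow ha0.1 hb0.1,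
            ← Real.mul_rpow (by linarith) (by linarith), ← Real.sqrt_eq_rpow,
            ← Real.sqrt_eq_rpow, Real.sqrt_inj (mul_nonneg ha0.1 hb0.1)
              (mul_nonneg (by linarith) (by linarith))] at heq
          linarith
        have c6 : ContinuousAt (fun z : ℝ × ℝ × ℝ × ℝ => z.2.2.2 - |z.2.1 ^ (1 / 2 - z.1) *
            z.2.2.1 ^ (1 / 2 + z.1) - (1 - z.2.1) ^ (1 / 2 - z.1) *
              (1 - z.2.2.1) ^ (1 / 2 + z.1)|) (0, a0, b0, 0) :=
          ContinuousAt.sub (by fun_prop) c3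
        filter_upwards [c6.eventually_lt_const (show _ < (0:ℝ) by
          show (0:ℝ) - _ < 0
          linarith)] with z hz _ _ hle
        exfalso
        linarith
    · have htpos : 0 < t0 := lt_of_le_of_ne ht0.1 (Ne.symm ht)
      have c7 : ContinuousAt (fun z : ℝ × ℝ × ℝ × ℝ => √(fA z.1 z.2.1 * fB z.1 z.2.2.1) +
          √(fA z.1 z.2.1 * fB z.1 z.2.2.1 - z.2.2.2 ^ 2) + 2 * z.1 * z.2.2.2) (0, a0, b0, t0) := by
        refine ContinuousAt.add (ContinuousAt.add (ContinuousAt.sqrt (c1.mul c2))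
          (ContinuousAt.sqrt (ContinuousAt.sub (c1.mul c2) (by fun_prop)))) (by fun_prop)
      have v7 : √(fA 0 a0 * fB 0 b0) + √(fA 0 a0 * fB 0 b0 - t0 ^ 2) + 2 * 0 * t0 < 2 := by
        rw [f0, Real.sqrt_one, mul_zero, zero_mul, add_zero]
        have : √(1 - t0 ^ 2) < 1 := by
          rw [Real.sqrt_lt' one_pos]
          nlinarith
        linarith
      filter_upwards [c7.eventually_lt_const v7] with z hz hz0 _ _
      have : 0 < c * z.1 := mul_pos hc hz0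
      linarith

end Pool.Agent.H148R3.NI
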