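import Pool.Agent.H148R3.NI3

set_option autoImplicit false

namespace Pool.Agent.H148R3.NI

open Filter Topology

/-- `X(δ, ρ, k)²`. -/
noncomputable def gX (δ r0 r1 k : ℝ) : ℝ :=
  r0 ^ (1 + 2 * δ) + r1 ^ (1 + 2 * δ) - 2 * ((r0 * r1) ^ (1 / 2 + δ) * k)

/-- `P(δ, ρ, k)²`. -/
noncomputable def gP (δ r0 r1 k : ℝ) : ℝ :=
  r0 ^ (1 - 2 * δ) + r1 ^ (1 - 2 * δ) + 2 * ((r0 * r1) ^ (1 / 2 - δ) * k)

lemma quad_nonneg {u v k : ℝ} (hu : 0 ≤ u) (hv : 0 ≤ v) (hk : |k| ≤ 1) :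
    0 ≤ u ^ 2 + v ^ 2 - 2 * (u * v * k) := by
  have hk' := abs_le.mp hk
  have huv := mul_nonneg hu hv
  nlinarith [sq_nonneg (u - v), mul_nonneg huv (show 0 ≤ 1 - k by linarith)]

lemma gX_nonneg {δ r0 r1 k : ℝ} (h0 : 0 ≤ r0) (h1 : 0 ≤ r1) (hk : |k| ≤ 1) :
    0 ≤ gX δ r0 r1 k := by
  have e0 : r0 ^ (1 + 2 * δ) = (r0 ^ (1 / 2 + δ)) ^ 2 := by
    rw [← Real.rpow_natCast (r0 ^ (1 / 2 + δ)) 2, ← Real.rpow_mul h0]
    congr 1; push_cast; ring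
  have e1 : r1 ^ (1 + 2 * δ) = (r1 ^ (1 / 2 + δ)) ^ 2 := by
    rw [← Real.rpow_natCast (r1 ^ (1 / 2 + δ)) 2, ← Real.rpow_mul h1]
    congr 1; push_cast; ring
  unfold gX
  rw [e0, e1, Real.mul_rpow h0 h1]
  exact quad_nonneg (Real.rpow_nonneg h0 _) (Real.rpow_nonneg h1 _) hk

lemma gP_nonneg {δ r0 r1 k : ℝ} (h0 : 0 ≤ r0) (h1 : 0 ≤ r1) (hk : |k| ≤ 1) :
    0 ≤ gP δ r0 r1 k := by
  have e0 : r0 ^ (1 - 2 * δ) = (r0 ^ (1 / 2 - δ)) ^ 2 := by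
    rw [← Real.rpow_natCast (r0 ^ (1 / 2 - δ)) 2, ← Real.rpow_mul h0]
    congr 1; push_cast; ring
  have e1 : r1 ^ (1 - 2 * δ) = (r1 ^ (1 / 2 - δ)) ^ 2 := by
    rw [← Real.rpow_natCast (r1 ^ (1 / 2 - δ)) 2, ← Real.rpow_mul h1]
    congr 1; push_cast; ring
  unfold gP
  rw [e0, e1, Real.mul_rpow h0 h1]
  have := quad_nonneg (k := -k) (Real.rpow_nonneg h0 (1 / 2 - δ)) (Real.rpow_nonneg h1 (1 / 2 - δ))
    (by rw [abs_neg]; exact hk)
  linarith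

/-- the function to be bounded -/
noncomputable def gG (δ r0 r1 r2 k : ℝ) : ℝ :=
  √(gX δ r0 r1 k) * (√(gP δ r0 r1 k) / 2 + r2 ^ (1 / 2 - δ) / √2) / √2

/-- the quadratic identity -/
lemma quad_id (X P Q : ℝ) : X * (P / 2 + Q / √2) / √2 =
    ((X ^ 2 + P ^ 2) / 2 + Q ^ 2) / 2 - ((X / √2 - P) ^ 2 + (X / √2 - √2 * Q) ^ 2) / 4 := by
  have h2 : √2 ^ 2 = (2:ℝ) := Real.sq_sqrt (by norm_num)
  have h0 : √2 ≠ (0:ℝ) := by positivity
  have e : 1 / √2 = √2 / 2 := by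
    rw [div_eq_div_iff h0 (by norm_num)]; nlinarith
  have e1 : ∀ z : ℝ, z / √2 = z * (√2 / 2) := fun z => by rw [← e]; ring
  rw [e1, e1, e1]
  ring_nf
  rw [h2]
  ring

lemma gQ_sq {δ r2 : ℝ} (h2 : 0 ≤ r2) : (r2 ^ (1 / 2 - δ)) ^ 2 = r2 ^ (1 - 2 * δ) := by
  rw [← Real.rpow_natCast (r2 ^ (1 / 2 - δ)) 2, ← Real.rpow_mul h2]
  congr 1; push_cast; ring

lemma gG_le_half {δ r0 r1 r2 k : ℝ} (h0 : 0 ≤ r0) (h1 : 0 ≤ r1) (h2 : 0 ≤ r2) (hk : |k| ≤ 1) :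
    gG δ r0 r1 r2 k ≤ ((gX δ r0 r1 k + gP δ r0 r1 k) / 2 + r2 ^ (1 - 2 * δ)) / 2 := by
  unfold gG
  rw [quad_id, Real.sq_sqrt (gX_nonneg h0 h1 hk), Real.sq_sqrt (gP_nonneg h0 h1 hk), gQ_sq h2]
  nlinarith [sq_nonneg (√(gX δ r0 r1 k) / √2 - √(gP δ r0 r1 k)),
    sq_nonneg (√(gX δ r0 r1 k) / √2 - √2 * r2 ^ (1 / 2 - δ))]

/-- bracket -/
noncomputable def gE (r0 r1 r2 k : ℝ) : ℝ :=
  2 * (√(r0 * r1) * (-Real.log (r0 * r1)) * k) + 2 * Real.negMulLog r2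

lemma sinh_le_of_nonpos {u : ℝ} (hu : u ≤ 0) : Real.sinh u ≤ u := Real.sinh_le_self_iff.mpr hu

/-- near the critical points: `k ≤ 0`. -/
lemma gSum_le {δ r0 r1 r2 k : ℝ} (hδ : 0 ≤ δ) (hδ' : δ ≤ 1 / 4) (h0 : 0 < r0) (h0' : r0 ≤ 1)
    (h1 : 0 < r1) (h1' : r1 ≤ 1) (h2 : 0 ≤ r2) (h2' : r2 ≤ 1) (hk : k ≤ 0) :
    (gX δ r0 r1 k + gP δ r0 r1 k) / 2 + r2 ^ (1 - 2 * δ) ≤
      r0 + r1 + r2 + δ * gE r0 r1 r2 k + 144 * δ ^ 2 := by
  have a0 := pow_lo hδ hδ' h0.le h0'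
  have b0 := pow_hi hδ h0.le h0'
  have a1 := pow_lo hδ hδ' h1.le h1'
  have b1 := pow_hi hδ h1.le h1'
  have a2 := pow_lo hδ hδ' h2 h2'
  have hr : 0 < r0 * r1 := mul_pos h0 h1
  have hr1 : r0 * r1 ≤ 1 := by nlinarith
  have hl : Real.log (r0 * r1) ≤ 0 := Real.log_nonpos hr.le hr1
  set L := Real.log (r0 * r1) with hL
  have e1 : (r0 * r1) ^ (1 / 2 + δ) = √(r0 * r1) * Real.exp (δ * L) := by
    rw [Real.rpow_add hr, ← Real.sqrt_eq_rpow, Real.rpow_def_of_pos hr δ]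
    congr 2; rw [hL]; ring
  have e2 : (r0 * r1) ^ (1 / 2 - δ) = √(r0 * r1) * Real.exp (-(δ * L)) := by
    rw [sub_eq_add_neg, Real.rpow_add hr, ← Real.sqrt_eq_rpow, Real.rpow_def_of_pos hr (-δ)]
    congr 2; rw [hL]; ring
  have e3 : Real.exp (δ * L) - Real.exp (-(δ * L)) = 2 * Real.sinh (δ * L) := by
    rw [Real.sinh_eq]; ring
  have h4 : Real.sinh (δ * L) ≤ δ * L := sinh_le_of_nonpos (mul_nonpos_of_nonneg_of_nonpos hδ hl)
  have hs : 0 ≤ √(r0 * r1) := Real.sqrt_nonneg _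
  have h5 : -(√(r0 * r1) * k) * Real.sinh (δ * L) ≤ -(√(r0 * r1) * k) * (δ * L) :=
    mul_le_mul_of_nonneg_left h4 (by nlinarith)
  unfold gX gP gE
  rw [e1, e2]
  have h6 : -(√(r0 * r1) * Real.exp (δ * L) * k) + √(r0 * r1) * Real.exp (-(δ * L)) * k =
      2 * (-(√(r0 * r1) * k) * Real.sinh (δ * L)) := by
    linear_combination (-(√(r0 * r1) * k)) * e3
  rw [← hL]
  nlinarith

/-- Critical points at `δ = 0`. -/
lemma critical {r0 r1 r2 k : ℝ} (h0 : 0 ≤ r0) (h1 : 0 ≤ r1) (h2 : 0 ≤ r2)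
    (hs : r0 + r1 + r2 ≤ 1) (hk : |k| ≤ 1) (hG : 1 / 2 ≤ gG 0 r0 r1 r2 k) :
    √(r0 * r1) * k = -1 / 8 ∧ r0 + r1 = 3 / 4 ∧ r2 = 1 / 4 := by
  have eX : gX 0 r0 r1 k = r0 + r1 - 2 * (√(r0 * r1) * k) := by
    unfold gX; rw [Real.sqrt_eq_rpow]; norm_num
  have eP : gP 0 r0 r1 k = r0 + r1 + 2 * (√(r0 * r1) * k) := by
    unfold gP; rw [Real.sqrt_eq_rpow]; norm_num
  have hX0 := gX_nonneg (δ := 0) h0 h1 hk
  have hP0 := gP_nonneg (δ := 0) h0 h1 hk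
  unfold gG at hG
  rw [quad_id, Real.sq_sqrt hX0, Real.sq_sqrt hP0, gQ_sq h2] at hG
  rw [show (1 - 2 * (0:ℝ)) = 1 by norm_num, Real.rpow_one] at hG
  have hX2 := Real.sq_sqrt hX0
  have hP2 := Real.sq_sqrt hP0
  have hQ2 := gQ_sq (δ := 0) h2
  rw [show (1 - 2 * (0:ℝ)) = 1 by norm_num, Real.rpow_one] at hQ2
  set X := √(gX 0 r0 r1 k) with hX
  set P := √(gP 0 r0 r1 k) with hP
  set Q := r2 ^ (1 / 2 - (0:ℝ)) with hQ
  have hsum : (gX 0 r0 r1 k + gP 0 r0 r1 k) / 2 + r2 = r0 + r1 + r2 := by rw [eX, eP]; ring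
  have s1 : 0 ≤ (X / √2 - P) ^ 2 := sq_nonneg _
  have s2 : 0 ≤ (X / √2 - √2 * Q) ^ 2 := sq_nonneg _
  have hsum1 : r0 + r1 + r2 = 1 := by linarith
  have z1 : (X / √2 - P) ^ 2 = 0 := by linarith
  have z2 : (X / √2 - √2 * Q) ^ 2 = 0 := by linarith
  have w1 : X / √2 = P := by have := pow_eq_zero_iff (two_ne_zero) |>.mp z1; linarith
  have w2 : X / √2 = √2 * Q := by have := pow_eq_zero_iff (two_ne_zero) |>.mp z2; linarith
  have h22 : √2 ^ 2 = (2:ℝ) := Real.sq_sqrt (by norm_num)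
  have u1 : X ^ 2 / 2 = P ^ 2 := by rw [← w1, div_pow, h22]
  have u2 : X ^ 2 / 2 = 2 * Q ^ 2 := by
    have : (X / √2) ^ 2 = (√2 * Q) ^ 2 := by rw [w2]
    rw [div_pow, mul_pow, h22] at this; exact this
  rw [hX2, hP2, eX, eP] at u1
  rw [hX2, hQ2, eX] at u2
  refine ⟨?_, ?_, ?_⟩ <;> linarith

lemma log_bound {r : ℝ} (hr : 0 < r) (hr' : r ≤ 9 / 64) : Real.log r ≤ Real.log (9 / 64) :=
  Real.log_le_log hr hr'

lemma E_num : Real.log (9 / 64) / 4 + Real.log 4 / 2 < 0.23 := by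
  have h1 : Real.log (3 / 4) ≤ 3 / 4 - 1 := Real.log_le_sub_one_of_pos (by norm_num)
  have h2 := Real.log_two_lt_d9
  have e1 : Real.log (9 / 64) = 2 * Real.log (3 / 4) - 2 * Real.log 2 := by
    rw [show (9 / 64 : ℝ) = (3 / 4) ^ 2 / 2 ^ 2 by norm_num, Real.log_div (by norm_num)
      (by norm_num), Real.log_pow, Real.log_pow]
    push_cast; ring
  have e2 : Real.log 4 = 2 * Real.log 2 := by
    rw [show (4 : ℝ) = 2 ^ 2 by norm_num, Real.log_pow]; push_cast; ring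
  rw [e1, e2]
  linarith

/-- The uniform estimate behind the upper bound. -/
theorem N3 : ∀ᶠ δ : ℝ in 𝓝 0, 0 < δ → ∀ r0 r1 r2 k : ℝ, 0 ≤ r0 → 0 ≤ r1 → 0 ≤ r2 →
    r0 + r1 + r2 ≤ 1 → |k| ≤ 1 → gG δ r0 r1 r2 k ≤ (1 + δ / 4) / 2 := by
  have hK : IsCompact (Set.Icc (0:ℝ) 1 ×ˢ (Set.Icc (0:ℝ) 1 ×ˢ (Set.Icc (0:ℝ) 1 ×ˢ
      Set.Icc (-1:ℝ) 1))) :=
    isCompact_Icc.prod (isCompact_Icc.prod (isCompact_Icc.prod isCompact_Icc))
  have key := IsCompact.eventually_forall_of_forall_eventually (x₀ := (0:ℝ)) hK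
    (P := fun δ y => 0 < δ → (0 ≤ y.1 ∧ 0 ≤ y.2.1 ∧ 0 ≤ y.2.2.1 ∧ y.1 + y.2.1 + y.2.2.1 ≤ 1 ∧
      |y.2.2.2| ≤ 1) → gG δ y.1 y.2.1 y.2.2.1 y.2.2.2 ≤ (1 + δ / 4) / 2) ?_
  · filter_upwards [key] with δ hδ h0 r0 r1 r2 k h00 h01 h02 hs hk
    exact hδ (r0, r1, r2, k) ⟨⟨h00, by linarith⟩, ⟨h01, by linarith⟩, ⟨h02, by linarith⟩,
      abs_le.mp hk⟩ h0 ⟨h00, h01, h02, hs, hk⟩
  · rintro ⟨s0, s1, s2, k0⟩ ⟨hs0, hs1, hs2, hk0⟩
    simp only [Set.mem_Icc] at hs0 hs1 hs2 hk0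
    have cX : ContinuousAt (fun z : ℝ × ℝ × ℝ × ℝ × ℝ => gX z.1 z.2.1 z.2.2.1 z.2.2.2.2)
        (0, s0, s1, s2, k0) := by
      unfold gX
      refine ContinuousAt.sub (ContinuousAt.add (ContinuousAt.rpow ?_ ?_ ?_)
        (ContinuousAt.rpow ?_ ?_ ?_)) (ContinuousAt.mul ?_ (ContinuousAt.mul
          (ContinuousAt.rpow ?_ ?_ ?_) ?_))
      all_goals first
        | fun_prop
        | (right; norm_num)
    have cP : ContinuousAt (fun z : ℝ × ℝ × ℝ × ℝ × ℝ => gP z.1 z.2.1 z.2.2.1 z.2.2.2.2)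
        (0, s0, s1, s2, k0) := by
      unfold gP
      refine ContinuousAt.add (ContinuousAt.add (ContinuousAt.rpow ?_ ?_ ?_)
        (ContinuousAt.rpow ?_ ?_ ?_)) (ContinuousAt.mul ?_ (ContinuousAt.mul
          (ContinuousAt.rpow ?_ ?_ ?_) ?_))
      all_goals first
        | fun_prop
        | (right; norm_num)
    have cQ : ContinuousAt (fun z : ℝ × ℝ × ℝ × ℝ × ℝ => z.2.2.2.1 ^ (1 / 2 - z.1))
        (0, s0, s1, s2, k0) := by
      refine ContinuousAt.rpow ?_ ?_ ?_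
      all_goals first
        | fun_prop
        | (right; norm_num)
    have cG : ContinuousAt (fun z : ℝ × ℝ × ℝ × ℝ × ℝ => gG z.1 z.2.1 z.2.2.1 z.2.2.2.1 z.2.2.2.2)
        (0, s0, s1, s2, k0) := by
      unfold gG
      exact ((cX.sqrt).mul ((cP.sqrt.div_const 2).add (cQ.div_const _))).div_const _
    have cS : ContinuousAt (fun z : ℝ × ℝ × ℝ × ℝ × ℝ => z.2.1 + z.2.2.1 + z.2.2.2.1)
        (0, s0, s1, s2, k0) := by fun_prop
    by_cases hsum : s0 + s1 + s2 ≤ 1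
    · by_cases hlt : gG 0 s0 s1 s2 k0 < 1 / 2
      · filter_upwards [cG.eventually_lt_const hlt] with z hz h0 _
        linarith
      · rw [not_lt] at hlt
        obtain ⟨q1, q2, q3⟩ := critical hs0.1 hs1.1 hs2.1 hsum (abs_le.mpr hk0) hlt
        have hs0p : 0 < s0 := by
          rcases hs0.1.eq_or_lt with h | h
          · exfalso; rw [← h, zero_mul, Real.sqrt_zero, zero_mul] at q1; norm_num at q1
          · exact h
        have hs1p : 0 < s1 := by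
          rcases hs1.1.eq_or_lt with h | h
          · exfalso; rw [← h, mul_zero, Real.sqrt_zero, zero_mul] at q1; norm_num at q1
          · exact h
        have hk0n : k0 < 0 := by
          by_contra hcon
          rw [not_lt] at hcon
          have := mul_nonneg (Real.sqrt_nonneg (s0 * s1)) hcon
          linarith
        have hr : 0 < s0 * s1 := mul_pos hs0p hs1p
        have hEv : gE s0 s1 s2 k0 < 0.23 := by
          unfold gE
          have e1 : √(s0 * s1) * (-Real.log (s0 * s1)) * k0 =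
              (√(s0 * s1) * k0) * (-Real.log (s0 * s1)) := by ring
          rw [e1, q1, q3, Real.negMulLog]
          have e2 : Real.log (1 / 4) = - Real.log 4 := by
            rw [one_div, Real.log_inv]
          rw [e2]
          have h3 := log_bound hr (by nlinarith [sq_nonneg (s0 - s1)])
          have h4 := E_num
          linarith
        have cE : ContinuousAt (fun z : ℝ × ℝ × ℝ × ℝ × ℝ => gE z.2.1 z.2.2.1 z.2.2.2.1 z.2.2.2.2)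
            (0, s0, s1, s2, k0) := by
          unfold gE
          have hneg := Real.continuous_negMulLog
          have hlog : ContinuousAt (fun z : ℝ × ℝ × ℝ × ℝ × ℝ => Real.log (z.2.1 * z.2.2.1))
              (0, s0, s1, s2, k0) := by
            refine ContinuousAt.log (by fun_prop) hr.ne'
          refine ContinuousAt.add (ContinuousAt.mul continuousAt_const (ContinuousAt.mul
            (ContinuousAt.mul (by fun_prop) hlog.neg) (by fun_prop))) (by fun_prop)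
        have c1 : ContinuousAt (fun z : ℝ × ℝ × ℝ × ℝ × ℝ => z.1) (0, s0, s1, s2, k0) := by fun_prop
        have c2 : ContinuousAt (fun z : ℝ × ℝ × ℝ × ℝ × ℝ => z.2.1) (0, s0, s1, s2, k0) := by
          fun_prop
        have c3 : ContinuousAt (fun z : ℝ × ℝ × ℝ × ℝ × ℝ => z.2.2.1) (0, s0, s1, s2, k0) := by
          fun_prop
        have c4 : ContinuousAt (fun z : ℝ × ℝ × ℝ × ℝ × ℝ => z.2.2.2.2) (0, s0, s1, s2, k0) := by
          fun_prop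
        filter_upwards [cE.eventually_lt_const hEv, c1.eventually_lt_const
          (show (0:ℝ) < 1 / 7200 by norm_num), c2.eventually_const_lt hs0p,
          c3.eventually_const_lt hs1p, c4.eventually_lt_const hk0n] with z z1 z2 z3 z4 z5 h0 hz
        obtain ⟨g1, g2, g3, g4, g5⟩ := hz
        have h1 := gG_le_half (δ := z.1) g1 g2 g3 g5
        have h2 := gSum_le (δ := z.1) h0.le (by linarith) z3 (by linarith) z4 (by linarith) g3
          (by linarith) z5.le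
        have h3 : z.1 * gE z.2.1 z.2.2.1 z.2.2.2.1 z.2.2.2.2 ≤ z.1 * 0.23 :=
          mul_le_mul_of_nonneg_left z1.le h0.le
        have h4 : 144 * z.1 ^ 2 ≤ 0.02 * z.1 := by nlinarith
        linarith
    · rw [not_le] at hsum
      filter_upwards [cS.eventually_const_lt hsum] with z hz _ hz1
      exfalso
      linarith [hz1.2.2.2.1]

end Pool.Agent.H148R3.NI
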