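import Mathlib

set_option autoImplicit false

namespace Pool.Agent.H148R3.NI

open scoped ENNReal

variable {ι : Type*} [DecidableEq ι] {P : ℝ≥0∞}

lemma norm_add_single (hP : 0 < P.toReal) (x : lp (fun _ : ι => ℂ) P) (i : ι) (c : ℂ) :
    ‖x + lp.single P i c‖ ^ P.toReal =
      ‖x‖ ^ P.toReal - ‖x i‖ ^ P.toReal + ‖x i + c‖ ^ P.toReal := by
  have h1 := lp.norm_compl_sum_single hP x {i}
  have h2 := lp.norm_compl_sum_single hP (x + lp.single P i c) {i}
  rw [Finset.sum_singleton, Finset.sum_singleton] at h1 h2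
  have e : (x + lp.single P i c : lp (fun _ : ι => ℂ) P) i = x i + c := by
    rw [lp.coeFn_add, Pi.add_apply, lp.single_apply_self]
  rw [e] at h2
  have e2 : x + lp.single P i c - lp.single P i (x i + c) = x - lp.single P i (x i) := by
    rw [lp.single_add]; abel
  rw [e2] at h2
  linarith

/-- A norm-one functional norming a unit vector of `ℓ_p` is determined on the unit vectors. -/
lemma state_coord [Fact (1 ≤ P)] {p : ℝ} (hp : 1 < p) (hPp : P.toReal = p)
    (x : lp (fun _ : ι => ℂ) P) (hx : ‖x‖ = 1) (f : lp (fun _ : ι => ℂ) P →L[ℂ] ℂ) (hf : ‖f‖ ≤ 1)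
    (hfx : f x = 1) (i : ι) :
    f (lp.single P i 1) = ((‖x i‖ ^ (p - 2) : ℝ) : ℂ) * (starRingEnd ℂ) (x i) := by
  have hp0 : 0 < P.toReal := by rw [hPp]; linarith
  have main : ∀ h : ℂ, (f (lp.single P i h)).re = ‖x i‖ ^ (p - 2) *
      ((starRingEnd ℂ) (x i) * h).re := by
    intro h
    set g : ℝ → ℝ := fun ε => (1 - ‖x i‖ ^ p + ‖x i + (ε : ℂ) * h‖ ^ p) ^ (1 / p) - 1 -
      ε * (f (lp.single P i h)).re with hg
    have hg0 : g 0 = 0 := by
      simp only [hg, Complex.ofReal_zero, zero_mul, add_zero, sub_add_cancel, Real.one_rpow]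
      ring
    have hgn : ∀ ε : ℝ, 0 ≤ g ε := by
      intro ε
      have h1 := norm_add_single hp0 x i ((ε : ℂ) * h)
      rw [hx, Real.one_rpow, hPp] at h1
      have h2 : ‖x + lp.single P i ((ε : ℂ) * h)‖ =
          (1 - ‖x i‖ ^ p + ‖x i + (ε : ℂ) * h‖ ^ p) ^ (1 / p) := by
        rw [← h1, ← Real.rpow_mul (norm_nonneg _), mul_one_div_cancel (by linarith), Real.rpow_one]
      have h3 : ‖f (x + lp.single P i ((ε : ℂ) * h))‖ ≤ ‖x + lp.single P i ((ε : ℂ) * h)‖ := by
        refine (f.le_opNorm _).trans ?_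
        exact mul_le_of_le_one_left (norm_nonneg _) hf
      have h4 : f (x + lp.single P i ((ε : ℂ) * h)) = 1 + (ε : ℂ) * f (lp.single P i h) := by
        rw [map_add, hfx, ← smul_eq_mul, lp.single_smul, map_smul, smul_eq_mul]
      have h5 : 1 + ε * (f (lp.single P i h)).re ≤ ‖f (x + lp.single P i ((ε : ℂ) * h))‖ := by
        refine le_trans (le_of_eq ?_) (Complex.re_le_norm _)
        rw [h4, Complex.add_re, Complex.one_re, Complex.re_ofReal_mul]
      simp only [hg]
      rw [← h2]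
      linarith
    have hmin : IsLocalMin g 0 := by
      refine Filter.Eventually.of_forall fun ε => ?_
      rw [hg0]; exact hgn ε
    have hd1 : HasDerivAt (fun ε : ℝ => ‖x i + (ε : ℂ) * h‖ ^ p)
        (p * ‖x i‖ ^ (p - 2) * ((starRingEnd ℂ) (x i) * h).re) 0 := by
      have hF := hasFDerivAt_norm_rpow (E := ℂ) (x i + ((0:ℝ) : ℂ) * h) hp
      have hG : HasDerivAt (fun ε : ℝ => x i + (ε : ℂ) * h) h 0 := by
        have := (Complex.ofRealCLM.hasDerivAt (x := (0:ℝ))).mul_const h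
        simpa using this.const_add (x i)
      have := hF.comp_hasDerivAt (0:ℝ) hG
      refine this.congr_deriv ?_
      rw [Complex.ofReal_zero, zero_mul, add_zero]
      rw [_root_.smul_apply, innerSL_apply_apply, Complex.inner, smul_eq_mul, mul_comm h]
    have hbase : (1 - ‖x i‖ ^ p + ‖x i + ((0:ℝ) : ℂ) * h‖ ^ p) = 1 := by
      rw [Complex.ofReal_zero, zero_mul, add_zero]; ring
    have hd2 : HasDerivAt g (p * ‖x i‖ ^ (p - 2) * ((starRingEnd ℂ) (x i) * h).re * (1 / p) -
        (f (lp.single P i h)).re) 0 := by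
      have h6 : HasDerivAt (fun ε : ℝ => 1 - ‖x i‖ ^ p + ‖x i + (ε : ℂ) * h‖ ^ p)
          (p * ‖x i‖ ^ (p - 2) * ((starRingEnd ℂ) (x i) * h).re) 0 := hd1.const_add _
      have h7 := h6.rpow_const (p := 1 / p) (Or.inl (by rw [hbase]; exact one_ne_zero))
      rw [hbase, Real.one_rpow, mul_one] at h7
      have h8 := (h7.sub_const 1).sub ((hasDerivAt_id (0:ℝ)).mul_const (f (lp.single P i h)).re)
      refine h8.congr_deriv ?_
      rw [one_mul]
    have hz := hmin.hasDerivAt_eq_zero hd2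
    have hpp : p ≠ 0 := by linarith
    have : p * ‖x i‖ ^ (p - 2) * ((starRingEnd ℂ) (x i) * h).re * (1 / p) =
        ‖x i‖ ^ (p - 2) * ((starRingEnd ℂ) (x i) * h).re := by field_simp
    rw [this] at hz
    linarith
  -- conclude
  set D : ℂ := f (lp.single P i 1) - ((‖x i‖ ^ (p - 2) : ℝ) : ℂ) * (starRingEnd ℂ) (x i) with hD
  have hlin : ∀ h : ℂ, f (lp.single P i h) = h * f (lp.single P i 1) := by
    intro h
    rw [← smul_eq_mul, ← map_smul, ← lp.single_smul, smul_eq_mul, mul_one]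
  have hDz : ∀ h : ℂ, (h * D).re = 0 := by
    intro h
    have h1 := main h
    rw [hlin h] at h1
    rw [hD, mul_sub, Complex.sub_re, h1]
    have : h * (((‖x i‖ ^ (p - 2) : ℝ) : ℂ) * (starRingEnd ℂ) (x i)) =
        ((‖x i‖ ^ (p - 2) : ℝ) : ℂ) * ((starRingEnd ℂ) (x i) * h) := by ring
    rw [this, Complex.re_ofReal_mul]
    ring
  have hDD := hDz ((starRingEnd ℂ) D)
  rw [mul_comm, Complex.mul_conj, Complex.ofReal_re] at hDD
  have : D = 0 := Complex.normSq_eq_zero.mp hDD
  rw [hD, sub_eq_zero] at this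
  exact this

end Pool.Agent.H148R3.NI
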