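import Pool.Agent.H148R3.NIDefs
import Pool.Agent.H148R3.NI2
import Pool.Agent.H148R3.NI3
import Pool.Agent.H148R3.NI5

set_option autoImplicit false

namespace Pool.Agent.H148R3.NI

open scoped ENNReal

variable {P : ℝ≥0∞} [Fact (1 ≤ P)]

/-- The matrix entries of an operator on `ℓ_p^2`. -/
noncomputable def ent' (T : lp (fun _ : Fin 2 => ℂ) P →L[ℂ] lp (fun _ : Fin 2 => ℂ) P)
    (i j : Fin 2) : ℂ := T (lp.single P j 1) i

omit [Fact (1 ≤ P)] in
lemma expand2 (x : lp (fun _ : Fin 2 => ℂ) P) :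
    x = x 0 • lp.single P 0 1 + x 1 • lp.single P 1 1 := by
  apply lp.ext
  funext i
  rw [lp.coeFn_add, lp.coeFn_smul, lp.coeFn_smul]
  fin_cases i <;> simp

lemma T_coord (T : lp (fun _ : Fin 2 => ℂ) P →L[ℂ] lp (fun _ : Fin 2 => ℂ) P)
    (x : lp (fun _ : Fin 2 => ℂ) P) (i : Fin 2) :
    T x i = ent' T i 0 * x 0 + ent' T i 1 * x 1 := by
  conv_lhs => rw [expand2 x]
  rw [map_add, map_smul, map_smul, lp.coeFn_add, lp.coeFn_smul, lp.coeFn_smul]
  simp only [Pi.add_apply, Pi.smul_apply, smul_eq_mul]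
  unfold ent'
  ring

lemma f_coord (f : lp (fun _ : Fin 2 => ℂ) P →L[ℂ] ℂ)
    (x : lp (fun _ : Fin 2 => ℂ) P) :
    f x = f (lp.single P 0 1) * x 0 + f (lp.single P 1 1) * x 1 := by
  conv_lhs => rw [expand2 x]
  rw [map_add, map_smul, map_smul]
  simp only [smul_eq_mul]
  ring

/-- The weight of the duality map. -/
noncomputable def J (p : ℝ) (z : ℂ) : ℂ := ((‖z‖ ^ (p - 2) : ℝ) : ℂ) * (starRingEnd ℂ) z

lemma exists_state {p : ℝ} (hp : 1 < p) (hPp : P.toReal = p)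
    (x : lp (fun _ : Fin 2 => ℂ) P) (hx : ‖x‖ = 1) : ∃ f : lp (fun _ : Fin 2 => ℂ) P →L[ℂ] ℂ,
    ‖f‖ = 1 ∧ f x = 1 ∧ f (lp.single P 0 1) = J p (x 0) ∧ f (lp.single P 1 1) = J p (x 1) := by
  obtain ⟨f, hf, hfx⟩ := exists_dual_vector ℂ x (by rw [hx]; exact one_ne_zero)
  have hfx' : f x = 1 := by rw [hfx, hx]; simp
  exact ⟨f, hf, hfx', state_coord hp hPp x hx f hf.le hfx' 0,
    state_coord hp hPp x hx f hf.le hfx' 1⟩

omit [Fact (1 ≤ P)] in
lemma norm2 {p : ℝ} (hp : 0 < p) (hPp : P.toReal = p) (x : lp (fun _ : Fin 2 => ℂ) P) :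
    ‖x‖ ^ p = ‖x 0‖ ^ p + ‖x 1‖ ^ p := by
  have := lp.norm_rpow_eq_tsum (by rw [hPp]; exact hp) x
  rw [hPp, tsum_fintype, Fin.sum_univ_two] at this
  exact this

lemma state2 {p : ℝ} (hp : 1 < p) (hPp : P.toReal = p)
    (T : lp (fun _ : Fin 2 => ℂ) P →L[ℂ] lp (fun _ : Fin 2 => ℂ) P)
    (u v : ℂ) (h : ‖u‖ ^ p + ‖v‖ ^ p = 1) :
    ‖ent' T 0 0 * (J p u * u) + ent' T 0 1 * (J p u * v) + ent' T 1 0 * (J p v * u) +
      ent' T 1 1 * (J p v * v)‖ ≤ numRadius T := by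
  set x : lp (fun _ : Fin 2 => ℂ) P := u • lp.single P 0 1 + v • lp.single P 1 1 with hxdef
  have hx0 : x 0 = u := by
    rw [hxdef, lp.coeFn_add, lp.coeFn_smul, lp.coeFn_smul]; simp
  have hx1 : x 1 = v := by
    rw [hxdef, lp.coeFn_add, lp.coeFn_smul, lp.coeFn_smul]; simp
  have hx : ‖x‖ = 1 := by
    have h1 := norm2 (by linarith) hPp x
    rw [hx0, hx1, h] at h1
    have h2 : (‖x‖ ^ p) ^ (1 / p) = 1 := by rw [h1, Real.one_rpow]
    rwa [← Real.rpow_mul (norm_nonneg _), mul_one_div_cancel (by linarith), Real.rpow_one] at h2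
  obtain ⟨f, hf, hfx, hf0, hf1⟩ := exists_state hp hPp x hx
  have h3 := le_numRadius T hx hf hfx
  rw [f_coord f (T x), T_coord, T_coord, hf0, hf1, hx0, hx1] at h3
  refine le_of_eq_of_le ?_ h3
  congr 1
  ring

lemma norm_J {p : ℝ} (hp : 2 < p) (z : ℂ) : ‖J p z‖ = ‖z‖ ^ (p - 1) := by
  unfold J
  rw [norm_mul, Complex.norm_real, RCLike.norm_conj, Real.norm_of_nonneg (by positivity)]
  rcases (norm_nonneg z).eq_or_lt with h | h
  · rw [← h, mul_zero, Real.zero_rpow (by linarith)]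
  · conv_lhs => rw [← Real.rpow_one ‖z‖]
    rw [Real.rpow_one, ← Real.rpow_add_one h.ne']
    congr 1; ring

lemma J_mul {p : ℝ} (hp : 2 < p) (z : ℂ) : J p z * z = ((‖z‖ ^ p : ℝ) : ℂ) := by
  unfold J
  rw [mul_assoc, mul_comm ((starRingEnd ℂ) z), Complex.mul_conj, Complex.normSq_eq_norm_sq,
    ← Complex.ofReal_mul]
  congr 1
  rcases (norm_nonneg z).eq_or_lt with h | h
  · rw [← h, Real.zero_rpow (show p ≠ 0 by linarith)]; simp
  · rw [← Real.rpow_natCast ‖z‖ 2, ← Real.rpow_add h]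
    congr 1; push_cast; ring

lemma stB {p δ : ℝ} (hp : 2 < p) (hδ : 1 / p = 1 / 2 - δ) (hPp : P.toReal = p)
    (T : lp (fun _ : Fin 2 => ℂ) P →L[ℂ] lp (fun _ : Fin 2 => ℂ) P) :
    StB δ (numRadius T) (ent' T 0 0) (ent' T 0 1) (ent' T 1 0) (ent' T 1 1) := by
  have hp0 : 0 < p := by linarith
  refine ⟨?_, ?_, ?_⟩
  · intro y ω hω
    have hc : 0 < 2 * Real.cosh y := by have := Real.cosh_pos y; linarith
    set r0 : ℝ := Real.exp y / (2 * Real.cosh y) with hr0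
    set r1 : ℝ := Real.exp (-y) / (2 * Real.cosh y) with hr1
    have r0p : 0 < r0 := by positivity
    have r1p : 0 < r1 := by positivity
    have hsum : r0 + r1 = 1 := by
      rw [hr0, hr1, ← add_div, div_eq_one_iff_eq hc.ne', Real.cosh_eq]; ring
    set u : ℂ := ((r0 ^ (1 / p) : ℝ) : ℂ) with hu
    set v : ℂ := ((r1 ^ (1 / p) : ℝ) : ℂ) * ω with hv
    have nu : ‖u‖ = r0 ^ (1 / p) := by
      rw [hu, Complex.norm_real, Real.norm_of_nonneg (by positivity)]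
    have nv : ‖v‖ = r1 ^ (1 / p) := by
      rw [hv, norm_mul, hω, mul_one, Complex.norm_real, Real.norm_of_nonneg (by positivity)]
    have nup : ‖u‖ ^ p = r0 := by
      rw [nu, ← Real.rpow_mul r0p.le, one_div_mul_cancel hp0.ne', Real.rpow_one]
    have nvp : ‖v‖ ^ p = r1 := by
      rw [nv, ← Real.rpow_mul r1p.le, one_div_mul_cancel hp0.ne', Real.rpow_one]
    have hst := state2 (by linarith) hPp T u v (by rw [nup, nvp, hsum])
    rw [J_mul hp, J_mul hp, nup, nvp] at hst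
    -- the off-diagonal weights
    have q1 : ∀ r : ℝ, 0 < r → (r ^ (1 / p)) ^ (p - 2) * r ^ (1 / p) = r ^ (1 / 2 + δ) := by
      intro r hr
      rw [← Real.rpow_mul hr.le, ← Real.rpow_add hr]
      congr 1
      have : 1 / p * (p - 2) = 1 - 2 * (1 / p) := by field_simp
      rw [this, hδ]; ring
    have q2 : r0 ^ (1 / 2 + δ) * r1 ^ (1 / p) = Real.exp (2 * δ * y) / (2 * Real.cosh y) := by
      rw [hδ, hr0, hr1, Real.div_rpow (Real.exp_pos _).le hc.le,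
        Real.div_rpow (Real.exp_pos _).le hc.le, ← Real.exp_mul, ← Real.exp_mul, div_mul_div_comm,
        ← Real.exp_add, ← Real.rpow_add hc]
      rw [show 1 / 2 + δ + (1 / 2 - δ) = 1 by ring, Real.rpow_one]
      congr 2; ring
    have q3 : r1 ^ (1 / 2 + δ) * r0 ^ (1 / p) = Real.exp (-(2 * δ * y)) / (2 * Real.cosh y) := by
      rw [hδ, hr0, hr1, Real.div_rpow (Real.exp_pos _).le hc.le,
        Real.div_rpow (Real.exp_pos _).le hc.le, ← Real.exp_mul, ← Real.exp_mul, div_mul_div_comm,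
        ← Real.exp_add, ← Real.rpow_add hc]
      rw [show 1 / 2 + δ + (1 / 2 - δ) = 1 by ring, Real.rpow_one]
      congr 2; ring
    have w1 : J p u * v = ((Real.exp (2 * δ * y) / (2 * Real.cosh y) : ℝ) : ℂ) * ω := by
      rw [← q2, ← q1 r0 r0p]
      unfold J
      rw [nu, hu, hv, Complex.conj_ofReal]
      push_cast; ring
    have w2 : J p v * u = ((Real.exp (-(2 * δ * y)) / (2 * Real.cosh y) : ℝ) : ℂ) *
        (starRingEnd ℂ) ω := by
      rw [← q3, ← q1 r1 r1p]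
      unfold J
      rw [nv, hu, hv, map_mul, Complex.conj_ofReal]
      push_cast; ring
    rw [w1, w2, hr0, hr1] at hst
    refine le_of_eq_of_le ?_ hst
    congr 1
    unfold Z
    push_cast
    ring
  · have := state2 (by linarith) hPp T 1 0 (by
      rw [norm_one, norm_zero, Real.one_rpow, Real.zero_rpow hp0.ne', add_zero])
    simpa [J] using this
  · have := state2 (by linarith) hPp T 0 1 (by
      rw [norm_one, norm_zero, Real.one_rpow, Real.zero_rpow hp0.ne', zero_add])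
    simpa [J] using this

/-- The main estimate on `ℓ_p^2`. -/
lemma op_bound {p δ c : ℝ} (hp : 2 < p) (hδ : 1 / p = 1 / 2 - δ) (hδ0 : 0 < δ)
    (hPp : P.toReal = p)
    (hN : ∀ a b t : ℝ, 0 ≤ a → a ≤ 1 → 0 ≤ b → b ≤ 1 → 0 ≤ t → t ≤ 2 →
      |a ^ (1 / 2 - δ) * b ^ (1 / 2 + δ) - (1 - a) ^ (1 / 2 - δ) * (1 - b) ^ (1 / 2 + δ)| ≤ t →
      √(fA δ a * fB δ b) + √(fA δ a * fB δ b - t ^ 2) + 2 * δ * t ≤ 2 + c * δ)
    (T : lp (fun _ : Fin 2 => ℂ) P →L[ℂ] lp (fun _ : Fin 2 => ℂ) P)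
    (u : lp (fun _ : Fin 2 => ℂ) P) (hu : ‖u‖ = 1) :
    ‖T u‖ ≤ (2 + c * δ) * numRadius T := by
  have hp0 : 0 < p := by linarith
  have hν := numRadius_nonneg T
  have hc0 : 0 ≤ 2 + c * δ := by
    have := hN 0 1 0 le_rfl zero_le_one zero_le_one le_rfl le_rfl (by norm_num) (by
      rw [Real.zero_rpow (by rw [← hδ]; positivity), sub_self,
        Real.zero_rpow (by positivity)]; simp)
    refine le_trans ?_ this
    have := Real.sqrt_nonneg (fA δ 0 * fB δ 1)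
    have := Real.sqrt_nonneg (fA δ 0 * fB δ 1 - 0 ^ 2)
    positivity
  by_cases hz : T u = 0
  · rw [hz, norm_zero]; exact mul_nonneg hc0 hν
  have hzn : 0 < ‖T u‖ := norm_pos_iff.mpr hz
  have hznc : ((‖T u‖ : ℝ) : ℂ) ≠ 0 := by exact_mod_cast hzn.ne'
  set v : lp (fun _ : Fin 2 => ℂ) P := ((‖T u‖ : ℝ) : ℂ)⁻¹ • T u with hv
  have hv1 : ‖v‖ = 1 := by
    rw [hv, norm_smul, norm_inv, Complex.norm_real, norm_norm, inv_mul_cancel₀ hzn.ne']
  have hTv : ∀ i, T u i = ((‖T u‖ : ℝ) : ℂ) * v i := by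
    intro i
    rw [hv, lp.coeFn_smul, Pi.smul_apply, smul_eq_mul, ← mul_assoc, mul_inv_cancel₀ hznc, one_mul]
  have hun := norm2 hp0 hPp u
  have hvn := norm2 hp0 hPp v
  rw [hu, Real.one_rpow] at hun
  rw [hv1, Real.one_rpow] at hvn
  set a : ℝ := ‖u 0‖ ^ p with ha
  set b : ℝ := ‖v 0‖ ^ p with hb
  have ha' : ‖u 1‖ ^ p = 1 - a := by linarith
  have hb' : ‖v 1‖ ^ p = 1 - b := by linarith
  have ha0 : 0 ≤ a := by positivity
  have hb0 : 0 ≤ b := by positivity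
  have ha1 : a ≤ 1 := by have : 0 ≤ ‖u 1‖ ^ p := by positivity
                         linarith
  have hb1 : b ≤ 1 := by have : 0 ≤ ‖v 1‖ ^ p := by positivity
                         linarith
  -- the pairing
  have hpair : ((‖T u‖ : ℝ) : ℂ) = ent' T 0 0 * (J p (v 0) * u 0) + ent' T 0 1 *
      (J p (v 0) * u 1) + ent' T 1 0 * (J p (v 1) * u 0) + ent' T 1 1 * (J p (v 1) * u 1) := by
    have e1 : ((‖T u‖ : ℝ) : ℂ) = J p (v 0) * T u 0 + J p (v 1) * T u 1 := by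
      rw [hTv 0, hTv 1]
      have e2 : J p (v 0) * (((‖T u‖ : ℝ) : ℂ) * v 0) + J p (v 1) * (((‖T u‖ : ℝ) : ℂ) * v 1) =
          ((‖T u‖ : ℝ) : ℂ) * (J p (v 0) * v 0 + J p (v 1) * v 1) := by ring
      rw [e2, J_mul hp, J_mul hp, ← Complex.ofReal_add, ← hvn, Complex.ofReal_one, mul_one]
    rw [e1, T_coord, T_coord]
    ring
  have hb2 := pair_bound hδ0.le (stB hp hδ hPp T) (u 0) (u 1) (J p (v 0)) (J p (v 1))
  rw [← hpair, Complex.norm_real, norm_norm] at hb2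
  -- identify
  have r1 : ∀ z : ℂ, ‖z‖ = (‖z‖ ^ p) ^ (1 / 2 - δ) := by
    intro z
    rw [← hδ, ← Real.rpow_mul (norm_nonneg _), mul_one_div_cancel hp0.ne', Real.rpow_one]
  have r2 : ∀ z : ℂ, ‖J p z‖ = (‖z‖ ^ p) ^ (1 / 2 + δ) := by
    intro z
    rw [norm_J hp, ← Real.rpow_mul (norm_nonneg _)]
    congr 1
    have : 1 / 2 + δ = 1 - 1 / p := by rw [hδ]; ring
    rw [this]; field_simp
  have r3 : ∀ z : ℂ, ‖z‖ ^ 2 = (‖z‖ ^ p) ^ (1 - 2 * δ) := by
    intro z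
    conv_lhs => rw [r1 z]
    rw [← Real.rpow_natCast _ 2, ← Real.rpow_mul (by positivity)]
    congr 1; push_cast; ring
  have r4 : ∀ z : ℂ, ‖J p z‖ ^ 2 = (‖z‖ ^ p) ^ (1 + 2 * δ) := by
    intro z
    rw [r2 z, ← Real.rpow_natCast _ 2, ← Real.rpow_mul (by positivity)]
    congr 1; push_cast; ring
  have hA : ‖u 0‖ ^ 2 + ‖u 1‖ ^ 2 = fA δ a := by
    rw [r3, r3, ha', ← ha]; rfl
  have hB : ‖J p (v 0)‖ ^ 2 + ‖J p (v 1)‖ ^ 2 = fB δ b := by
    rw [r4, r4, hb', ← hb]; rfl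
  rw [hA, hB, mul_comm (fB δ b)] at hb2
  set t : ℝ := ‖J p (v 0) * u 0 + J p (v 1) * u 1‖ with ht
  have ht2 : t ≤ 2 := by
    have s1 : ‖J p (v 0)‖ ≤ 1 := by
      rw [r2, ← hb]; exact Real.rpow_le_one hb0 hb1 (by positivity)
    have s2 : ‖J p (v 1)‖ ≤ 1 := by
      rw [r2, hb']; exact Real.rpow_le_one (by linarith) (by linarith) (by positivity)
    have s3 : ‖u 0‖ ≤ 1 := by
      rw [r1 (u 0), ← ha]
      exact Real.rpow_le_one ha0 ha1 (by rw [← hδ]; positivity)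
    have s4 : ‖u 1‖ ≤ 1 := by
      rw [r1 (u 1), ha']
      exact Real.rpow_le_one (by linarith) (by linarith) (by rw [← hδ]; positivity)
    refine (norm_add_le _ _).trans ?_
    rw [norm_mul, norm_mul]
    nlinarith [norm_nonneg (u 0), norm_nonneg (u 1), norm_nonneg (J p (v 0)),
      norm_nonneg (J p (v 1)), mul_le_one₀ s1 (norm_nonneg _) s3,
      mul_le_one₀ s2 (norm_nonneg _) s4]
  have ht1 : |a ^ (1 / 2 - δ) * b ^ (1 / 2 + δ) - (1 - a) ^ (1 / 2 - δ) * (1 - b) ^ (1 / 2 + δ)|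
      ≤ t := by
    have h1 := abs_norm_sub_norm_le (J p (v 0) * u 0) (-(J p (v 1) * u 1))
    rw [sub_neg_eq_add, norm_neg, norm_mul, norm_mul, r2, r2, r1 (u 0), r1 (u 1), ha', hb',
      ← ha, ← hb] at h1
    rw [mul_comm (a ^ (1 / 2 - δ)), mul_comm ((1 - a) ^ (1 / 2 - δ))]
    exact h1
  have h5 := hN a b t ha0 ha1 hb0 hb1 (norm_nonneg _) ht2 ht1
  calc ‖T u‖ ≤ _ := hb2
    _ ≤ numRadius T * (2 + c * δ) := mul_le_mul_of_nonneg_left h5 hν
    _ = _ := mul_comm _ _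

/-- Lower bound for `n(ℓ_p^2)`. -/
theorem lower {p δ c : ℝ} (hp : 2 < p) (hδ : 1 / p = 1 / 2 - δ) (hδ0 : 0 < δ) (hc : 0 < c)
    (hPp : P.toReal = p)
    (hN : ∀ a b t : ℝ, 0 ≤ a → a ≤ 1 → 0 ≤ b → b ≤ 1 → 0 ≤ t → t ≤ 2 →
      |a ^ (1 / 2 - δ) * b ^ (1 / 2 + δ) - (1 - a) ^ (1 / 2 - δ) * (1 - b) ^ (1 / 2 + δ)| ≤ t →
      √(fA δ a * fB δ b) + √(fA δ a * fB δ b - t ^ 2) + 2 * δ * t ≤ 2 + c * δ) :
    1 / (2 + c * δ) ≤ numIndex (lp (fun _ : Fin 2 => ℂ) P) := by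
  have : Nontrivial (lp (fun _ : Fin 2 => ℂ) P) := by
    refine ⟨lp.single P 0 1, 0, fun h => ?_⟩
    have := congrArg (fun z : lp (fun _ : Fin 2 => ℂ) P => z 0) h
    simp at this
  refine le_numIndex fun T hT => ?_
  have hpos : 0 < 2 + c * δ := by positivity
  rw [div_le_iff₀ hpos, ← hT, mul_comm]
  refine T.opNorm_le_bound (mul_nonneg hpos.le (numRadius_nonneg T)) fun x => ?_
  by_cases hx : x = 0
  · rw [hx, map_zero, norm_zero, mul_zero]
  · have hxn : 0 < ‖x‖ := norm_pos_iff.mpr hx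
    have h1 := op_bound hp hδ hδ0 hPp hN T (((‖x‖ : ℝ) : ℂ)⁻¹ • x) (by
      rw [norm_smul, norm_inv, Complex.norm_real, norm_norm, inv_mul_cancel₀ hxn.ne'])
    rw [map_smul, norm_smul, norm_inv, Complex.norm_real, norm_norm, inv_mul_le_iff₀ hxn] at h1
    linarith

end Pool.Agent.H148R3.NI
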