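import Pool.Agent.H148R3.NIDefs
import Pool.Agent.H148R3.NI4
import Pool.Agent.H148R3.NI5

set_option autoImplicit false

namespace Pool.Agent.H148R3.NI

open scoped ENNReal

lemma num_aux1 {ℓ δ L : ℝ} (hℓ0 : 0.693 < ℓ) (hℓ1 : ℓ < 0.694) (hδ0 : 0 < δ) (hδ1 : δ ≤ 1 / 100)
    (hlog : L ≤ ℓ - (δ * ℓ - 2 * δ ^ 2 * ℓ ^ 2)) :
    0.3 * δ + (-(ℓ / 2) + L * (1 / 2 - δ)) ≤ -(δ * ℓ) := by
  have h7 : L * (1 / 2 - δ) ≤ (ℓ - (δ * ℓ - 2 * δ ^ 2 * ℓ ^ 2)) *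
      (1 / 2 - δ) := mul_le_mul_of_nonneg_right hlog (by linarith)
  have h9 : 0.339 ≤ ℓ * (1 / 2 - δ) := by
    have : 0.693 * 0.49 ≤ ℓ * (1 / 2 - δ) :=
      mul_le_mul hℓ0.le (by linarith) (by norm_num) (by linarith)
    linarith
  have h10 : 0.98 ≤ 1 - 2 * δ * ℓ := by
    have : δ * ℓ ≤ 1 / 100 * 0.694 := mul_le_mul hδ1 hℓ1.le (by linarith) (by norm_num)
    linarith
  have h8 : 0.3 ≤ ℓ * (1 / 2 - δ) * (1 - 2 * δ * ℓ) := by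
    have : 0.339 * 0.98 ≤ ℓ * (1 / 2 - δ) * (1 - 2 * δ * ℓ) :=
      mul_le_mul h9 h10 (by norm_num) (by linarith)
    linarith
  have h11 := mul_le_mul_of_nonneg_left h8 hδ0.le
  have h12 : (ℓ - (δ * ℓ - 2 * δ ^ 2 * ℓ ^ 2)) * (1 / 2 - δ) =
      ℓ / 2 - δ * ℓ - δ * (ℓ * (1 / 2 - δ) * (1 - 2 * δ * ℓ)) := by ring
  linarith

lemma num_aux2 {ℓ δ w : ℝ} (hℓ : ℓ = Real.log 2) (hw0 : 0 < w)
    (hw1 : w ≤ 1 + (-(2 * δ * ℓ)) + (-(2 * δ * ℓ)) ^ 2) :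
    Real.log (1 + w) ≤ ℓ - (δ * ℓ - 2 * δ ^ 2 * ℓ ^ 2) := by
  have h4 : Real.log ((1 + w) / 2) ≤ (1 + w) / 2 - 1 := Real.log_le_sub_one_of_pos (by positivity)
  rw [Real.log_div (by positivity) (by norm_num), ← hℓ] at h4
  have h5 : (-(2 * δ * ℓ)) ^ 2 = 4 * (δ ^ 2 * ℓ ^ 2) := by ring
  rw [h5] at hw1
  linarith

lemma num_aux3 {p δ : ℝ} (hp : 2 < p) (hδ : 1 / p = 1 / 2 - δ) (hδ0 : 0 < δ) :
    1 + 2 * δ ≤ p / 2 := by
  have hp0 : 0 < p := by linarith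
  have h1 : p * (1 / 2 - δ) = 1 := by rw [← hδ]; field_simp
  nlinarith

/-- The numerical inequality behind the lower bound for `‖T‖`. -/
lemma num_T {p δ : ℝ} (hp : 2 < p) (hδ : 1 / p = 1 / 2 - δ) (hδ0 : 0 < δ) (hδ1 : δ ≤ 1 / 100) :
    (1 + 0.3 * δ) * ((1 / 2) ^ p + (1 / 2) ^ p + (1 / √2) ^ p) ^ (1 / p) ≤
      ((1 / √2) ^ p + (1 / √2) ^ p) ^ (1 / p) := by
  have hp0 : 0 < p := by linarith
  have h2 : (0:ℝ) < √2 := by positivity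
  obtain ⟨ℓ, hℓ⟩ : ∃ ℓ, ℓ = Real.log 2 := ⟨_, rfl⟩
  have hℓ0 : 0.693 < ℓ := by have := Real.log_two_gt_d9; linarith
  have hℓ1 : ℓ < 0.694 := by have := Real.log_two_lt_d9; linarith
  have es : (1 / √2 : ℝ) ^ p = Real.exp (-(p / 2) * ℓ) := by
    rw [Real.rpow_def_of_pos (by positivity), one_div, Real.log_inv, Real.log_sqrt (by norm_num)]
    congr 1; rw [hℓ]; ring
  have eh : (1 / 2 : ℝ) ^ p = Real.exp (-p * ℓ) := by
    rw [Real.rpow_def_of_pos (by positivity), one_div, Real.log_inv]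
    congr 1; rw [hℓ]; ring
  have e2 : ∀ z : ℝ, 2 * Real.exp z = Real.exp (ℓ + z) := fun z => by
    rw [Real.exp_add, hℓ, Real.exp_log (by norm_num)]
  have eY : (1 / √2 : ℝ) ^ p + (1 / √2) ^ p = Real.exp (ℓ - p / 2 * ℓ) := by
    rw [es, ← two_mul, e2]
    congr 1; ring
  have eX : (1 / 2 : ℝ) ^ p + (1 / 2) ^ p + (1 / √2) ^ p =
      Real.exp (-(p / 2) * ℓ) * (1 + Real.exp (ℓ - p / 2 * ℓ)) := by
    rw [es, eh, ← two_mul, e2, mul_add, mul_one, ← Real.exp_add]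
    rw [add_comm]
    congr 2; ring
  obtain ⟨w, hw⟩ : ∃ w, w = Real.exp (ℓ - p / 2 * ℓ) := ⟨_, rfl⟩
  rw [← hw] at eX
  have hw0 : 0 < w := by rw [hw]; exact Real.exp_pos _
  have hp2 := num_aux3 hp hδ hδ0
  have hw1 : w ≤ 1 + (-(2 * δ * ℓ)) + (-(2 * δ * ℓ)) ^ 2 := by
    have h3 : w ≤ Real.exp (-(2 * δ * ℓ)) := by
      rw [hw]; apply Real.exp_le_exp.mpr
      have := mul_le_mul_of_nonneg_right hp2 (by linarith : 0 ≤ ℓ)
      linarith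
    have h4 : 0 ≤ 2 * δ * ℓ := by
      have : 0 ≤ δ * ℓ := mul_nonneg hδ0.le (by linarith)
      linarith
    exact h3.trans (exp_le_of_nonpos (by linarith))
  have hlog := num_aux2 hℓ hw0 hw1
  have hone : 1 + 0.3 * δ ≤ Real.exp (0.3 * δ) := by
    have := Real.add_one_le_exp (0.3 * δ); linarith
  have eX' : ((1 / 2 : ℝ) ^ p + (1 / 2) ^ p + (1 / √2) ^ p) ^ (1 / p) =
      Real.exp ((-(p / 2) * ℓ + Real.log (1 + w)) * (1 / p)) := by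
    have h5 : Real.exp (-(p / 2) * ℓ) * (1 + w) =
        Real.exp (-(p / 2) * ℓ + Real.log (1 + w)) := by
      rw [Real.exp_add, Real.exp_log (by positivity)]
    rw [eX, h5, ← Real.exp_mul]
  have eY' : ((1 / √2 : ℝ) ^ p + (1 / √2) ^ p) ^ (1 / p) =
      Real.exp ((ℓ - p / 2 * ℓ) * (1 / p)) := by
    rw [eY, ← Real.exp_mul]
  rw [eX', eY']
  have e5 : (-(p / 2) * ℓ + Real.log (1 + w)) * (1 / p) =
      -(ℓ / 2) + Real.log (1 + w) * (1 / 2 - δ) := by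
    rw [← hδ]; field_simp
  have e6 : (ℓ - p / 2 * ℓ) * (1 / p) = -(δ * ℓ) := by
    have : (ℓ - p / 2 * ℓ) * (1 / p) = ℓ * (1 / p) - ℓ / 2 := by field_simp
    rw [this, hδ]; ring
  rw [e5, e6]
  calc (1 + 0.3 * δ) * Real.exp (-(ℓ / 2) + Real.log (1 + w) * (1 / 2 - δ))
      ≤ Real.exp (0.3 * δ) * Real.exp (-(ℓ / 2) + Real.log (1 + w) * (1 / 2 - δ)) :=
        mul_le_mul_of_nonneg_right hone (Real.exp_pos _).le
    _ = Real.exp (0.3 * δ + (-(ℓ / 2) + Real.log (1 + w) * (1 / 2 - δ))) := by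
        rw [← Real.exp_add]
    _ ≤ Real.exp (-(δ * ℓ)) := Real.exp_le_exp.mpr (num_aux1 hℓ0 hℓ1 hδ0 hδ1 hlog)

variable {P : ℝ≥0∞} [Fact (1 ≤ P)]

/-- The functional `φ(x) = (x₀ + x₁)/2 + x₂/√2`. -/
noncomputable def phi (P : ℝ≥0∞) [Fact (1 ≤ P)] : lp (fun _ : ℕ => ℂ) P →L[ℂ] ℂ :=
  (1 / 2 : ℂ) • (lp.evalCLM ℂ (fun _ : ℕ => ℂ) P 0 + lp.evalCLM ℂ (fun _ : ℕ => ℂ) P 1) +
    ((1 / √2 : ℝ) : ℂ) • lp.evalCLM ℂ (fun _ : ℕ => ℂ) P 2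

lemma phi_apply (x : lp (fun _ : ℕ => ℂ) P) :
    phi P x = (1 / 2 : ℂ) * (x 0 + x 1) + ((1 / √2 : ℝ) : ℂ) * x 2 := rfl

/-- The vector `y = (e₀ - e₁)/√2`. -/
noncomputable def vy (P : ℝ≥0∞) [Fact (1 ≤ P)] : lp (fun _ : ℕ => ℂ) P :=
  lp.single P 0 ((1 / √2 : ℝ) : ℂ) + lp.single P 1 (-((1 / √2 : ℝ) : ℂ))

/-- The test vector. -/
noncomputable def vx (P : ℝ≥0∞) [Fact (1 ≤ P)] : lp (fun _ : ℕ => ℂ) P :=
  lp.single P 0 (1 / 2 : ℂ) + lp.single P 1 (1 / 2 : ℂ) + lp.single P 2 ((1 / √2 : ℝ) : ℂ)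

/-- The operator. -/
noncomputable def opT (P : ℝ≥0∞) [Fact (1 ≤ P)] :
    lp (fun _ : ℕ => ℂ) P →L[ℂ] lp (fun _ : ℕ => ℂ) P := (phi P).smulRight (vy P)

lemma opT_apply (x : lp (fun _ : ℕ => ℂ) P) : opT P x = phi P x • vy P := rfl

lemma hs : ‖((1 / √2 : ℝ) : ℂ)‖ = 1 / √2 := by
  rw [Complex.norm_real, Real.norm_of_nonneg (by positivity)]

lemma norm_vy {p : ℝ} (hp : 0 < p) (hPp : P.toReal = p) :
    ‖vy P‖ ^ p = (1 / √2) ^ p + (1 / √2) ^ p := by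
  have hP0 : 0 < P.toReal := by rw [hPp]; exact hp
  have hP1 : 0 < P := by
    rcases eq_or_ne P 0 with h | h
    · rw [h] at hP0; simp at hP0
    · exact pos_iff_ne_zero.mpr h
  have h1 := norm_add_single hP0 (lp.single P 0 ((1 / √2 : ℝ) : ℂ)) 1 (-((1 / √2 : ℝ) : ℂ))
  rw [lp.norm_single hP1, lp.single_apply_ne _ _ _ (by norm_num : (1:ℕ) ≠ 0), norm_zero, zero_add,
    norm_neg, hs, hPp, Real.zero_rpow hp.ne', sub_zero] at h1
  exact h1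

lemma norm_vx {p : ℝ} (hp : 0 < p) (hPp : P.toReal = p) :
    ‖vx P‖ ^ p = (1 / 2) ^ p + (1 / 2) ^ p + (1 / √2) ^ p := by
  have hP0 : 0 < P.toReal := by rw [hPp]; exact hp
  have hP1 : 0 < P := by
    rcases eq_or_ne P 0 with h | h
    · rw [h] at hP0; simp at hP0
    · exact pos_iff_ne_zero.mpr h
  have h12 : ‖(1 / 2 : ℂ)‖ = 1 / 2 := by norm_num
  have h1 := norm_add_single hP0 (lp.single P 0 (1 / 2 : ℂ)) 1 (1 / 2 : ℂ)
  rw [lp.norm_single hP1, lp.single_apply_ne _ _ _ (by norm_num : (1:ℕ) ≠ 0), norm_zero, zero_add,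
    h12, hPp, Real.zero_rpow hp.ne', sub_zero] at h1
  have h2 := norm_add_single hP0 (lp.single P 0 (1 / 2 : ℂ) + lp.single P 1 (1 / 2 : ℂ)) 2
    ((1 / √2 : ℝ) : ℂ)
  have h3 : (lp.single P 0 (1 / 2 : ℂ) + lp.single P 1 (1 / 2 : ℂ) : lp (fun _ : ℕ => ℂ) P) 2 = 0 := by
    rw [lp.coeFn_add, Pi.add_apply, lp.single_apply_ne _ _ _ (by norm_num : (2:ℕ) ≠ 0),
      lp.single_apply_ne _ _ _ (by norm_num : (2:ℕ) ≠ 1), add_zero]
  rw [h3, norm_zero, zero_add, hs, hPp, h1, Real.zero_rpow hp.ne', sub_zero] at h2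
  exact h2

lemma phi_vx : phi P (vx P) = 1 := by
  have x0 : vx P 0 = 1 / 2 := by
    unfold vx
    rw [lp.coeFn_add, lp.coeFn_add, Pi.add_apply, Pi.add_apply, lp.single_apply_self,
      lp.single_apply_ne _ _ _ (by norm_num : (0:ℕ) ≠ 1),
      lp.single_apply_ne _ _ _ (by norm_num : (0:ℕ) ≠ 2), add_zero, add_zero]
  have x1 : vx P 1 = 1 / 2 := by
    unfold vx
    rw [lp.coeFn_add, lp.coeFn_add, Pi.add_apply, Pi.add_apply, lp.single_apply_self,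
      lp.single_apply_ne _ _ _ (by norm_num : (1:ℕ) ≠ 0),
      lp.single_apply_ne _ _ _ (by norm_num : (1:ℕ) ≠ 2), zero_add, add_zero]
  have x2 : vx P 2 = ((1 / √2 : ℝ) : ℂ) := by
    unfold vx
    rw [lp.coeFn_add, lp.coeFn_add, Pi.add_apply, Pi.add_apply, lp.single_apply_self,
      lp.single_apply_ne _ _ _ (by norm_num : (2:ℕ) ≠ 0),
      lp.single_apply_ne _ _ _ (by norm_num : (2:ℕ) ≠ 1), zero_add, zero_add]
  rw [phi_apply, x0, x1, x2, ← Complex.ofReal_mul]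
  have : (1 / √2 : ℝ) * (1 / √2) = 1 / 2 := by
    rw [div_mul_div_comm, Real.mul_self_sqrt (by norm_num), one_mul]
  rw [this]
  push_cast
  norm_num

lemma norm_opT {p δ : ℝ} (hp : 2 < p) (hδ : 1 / p = 1 / 2 - δ) (hδ0 : 0 < δ) (hδ1 : δ ≤ 1 / 100)
    (hPp : P.toReal = p) : 1 + 0.3 * δ ≤ ‖opT P‖ := by
  have hp0 : 0 < p := by linarith
  have h1 := (opT P).le_opNorm (vx P)
  rw [opT_apply, phi_vx, one_smul] at h1
  have hy : ‖vy P‖ = ((1 / √2) ^ p + (1 / √2) ^ p) ^ (1 / p) := by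
    rw [← norm_vy hp0 hPp, ← Real.rpow_mul (norm_nonneg _), mul_one_div_cancel hp0.ne',
      Real.rpow_one]
  have hx : ‖vx P‖ = ((1 / 2) ^ p + (1 / 2) ^ p + (1 / √2) ^ p) ^ (1 / p) := by
    rw [← norm_vx hp0 hPp, ← Real.rpow_mul (norm_nonneg _), mul_one_div_cancel hp0.ne',
      Real.rpow_one]
  have h2 := num_T hp hδ hδ0 hδ1
  rw [← hy, ← hx] at h2
  have hxp : 0 < ‖vx P‖ := by rw [hx]; positivity
  exact le_of_mul_le_mul_right (h2.trans h1) hxp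

/-- The numerical radius of the operator. -/
lemma state_bound {p δ : ℝ} (hp : 2 < p) (hδ : 1 / p = 1 / 2 - δ) (hδ0 : 0 < δ)
    (hPp : P.toReal = p)
    (hN : ∀ r0 r1 r2 k : ℝ, 0 ≤ r0 → 0 ≤ r1 → 0 ≤ r2 →
      r0 + r1 + r2 ≤ 1 → |k| ≤ 1 → gG δ r0 r1 r2 k ≤ (1 + δ / 4) / 2)
    (x : lp (fun _ : ℕ => ℂ) P) (f : lp (fun _ : ℕ => ℂ) P →L[ℂ] ℂ) (hx : ‖x‖ = 1) (hf : ‖f‖ = 1)
    (hfx : f x = 1) : ‖f (opT P x)‖ ≤ (1 + δ / 4) / 2 := by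
  have hp0 : 0 < p := by linarith
  have hP0 : 0 < P.toReal := by rw [hPp]; exact hp0
  have hsum := lp.sum_rpow_le_norm_rpow hP0 x {0, 1, 2}
  rw [hx, Real.one_rpow, hPp, Finset.sum_insert (by simp), Finset.sum_insert (by simp),
    Finset.sum_singleton, ← add_assoc] at hsum
  set r0 : ℝ := ‖x 0‖ ^ p with hr0
  set r1 : ℝ := ‖x 1‖ ^ p with hr1
  set r2 : ℝ := ‖x 2‖ ^ p with hr2
  have r00 : 0 ≤ r0 := by positivity
  have r10 : 0 ≤ r1 := by positivity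
  have r20 : 0 ≤ r2 := by positivity
  set k : ℝ := (x 0 * (starRingEnd ℂ) (x 1)).re / (‖x 0‖ * ‖x 1‖) with hk
  have hre : |(x 0 * (starRingEnd ℂ) (x 1)).re| ≤ ‖x 0‖ * ‖x 1‖ := by
    refine (Complex.abs_re_le_norm _).trans ?_
    rw [norm_mul, RCLike.norm_conj]
  have hk1 : |k| ≤ 1 := by
    rw [hk, abs_div, abs_of_nonneg (by positivity : 0 ≤ ‖x 0‖ * ‖x 1‖)]
    exact div_le_one_of_le₀ hre (by positivity)
  have hkm : (x 0 * (starRingEnd ℂ) (x 1)).re = ‖x 0‖ * ‖x 1‖ * k := by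
    rcases eq_or_ne (‖x 0‖ * ‖x 1‖) 0 with h0 | h0
    · rw [h0, zero_mul]
      rw [h0] at hre
      exact abs_nonpos_iff.mp hre
    · rw [hk, mul_comm (‖x 0‖ * ‖x 1‖), div_mul_cancel₀ _ h0]
  have q1 : ∀ z : ℂ, ‖z‖ = (‖z‖ ^ p) ^ (1 / 2 - δ) := by
    intro z
    rw [← hδ, ← Real.rpow_mul (norm_nonneg _), mul_one_div_cancel hp0.ne', Real.rpow_one]
  have q2 : ∀ z : ℂ, ‖z‖ ^ (p - 1) = (‖z‖ ^ p) ^ (1 / 2 + δ) := by
    intro z
    rw [← Real.rpow_mul (norm_nonneg _)]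
    congr 1
    have : 1 / 2 + δ = 1 - 1 / p := by rw [hδ]; ring
    rw [this]; field_simp
  have q3 : ∀ z : ℂ, ‖z‖ ^ 2 = (‖z‖ ^ p) ^ (1 - 2 * δ) := by
    intro z
    conv_lhs => rw [q1 z]
    rw [← Real.rpow_natCast _ 2, ← Real.rpow_mul (by positivity)]
    congr 1; push_cast; ring
  have q4 : ∀ z : ℂ, (‖z‖ ^ (p - 1)) ^ 2 = (‖z‖ ^ p) ^ (1 + 2 * δ) := by
    intro z
    rw [q2 z, ← Real.rpow_natCast _ 2, ← Real.rpow_mul (by positivity)]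
    congr 1; push_cast; ring
  -- sizes
  have n1 : ‖x 0 + x 1‖ = √(gP δ r0 r1 k) := by
    have h1 : ‖x 0 + x 1‖ ^ 2 = gP δ r0 r1 k := by
      rw [Complex.sq_norm, Complex.normSq_add, hkm, ← Complex.sq_norm, ← Complex.sq_norm]
      unfold gP
      rw [q3, q3, hr0, hr1, Real.mul_rpow (by positivity) (by positivity), ← q1, ← q1]
    rw [← h1, Real.sqrt_sq (norm_nonneg _)]
  set f0 := f (lp.single P 0 1) with hf0
  set f1 := f (lp.single P 1 1) with hf1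
  have e0 : f0 = ((‖x 0‖ ^ (p - 2) : ℝ) : ℂ) * (starRingEnd ℂ) (x 0) :=
    state_coord (by linarith) hPp x hx f hf.le hfx 0
  have e1 : f1 = ((‖x 1‖ ^ (p - 2) : ℝ) : ℂ) * (starRingEnd ℂ) (x 1) :=
    state_coord (by linarith) hPp x hx f hf.le hfx 1
  have nf : ∀ z : ℂ, ‖((‖z‖ ^ (p - 2) : ℝ) : ℂ) * (starRingEnd ℂ) z‖ = ‖z‖ ^ (p - 1) := by
    intro z
    rw [norm_mul, Complex.norm_real, RCLike.norm_conj, Real.norm_of_nonneg (by positivity)]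
    rcases (norm_nonneg z).eq_or_lt with h | h
    · rw [← h, mul_zero, Real.zero_rpow (by linarith)]
    · rw [← Real.rpow_add_one h.ne']
      congr 1; ring
  have n2 : ‖f0 - f1‖ = √(gX δ r0 r1 k) := by
    have h1 : ‖f0 - f1‖ ^ 2 = gX δ r0 r1 k := by
      rw [Complex.sq_norm, Complex.normSq_sub, ← Complex.sq_norm, ← Complex.sq_norm]
      have h2 : (f0 * (starRingEnd ℂ) f1).re = (‖x 0‖ ^ (p - 1) * ‖x 1‖ ^ (p - 1)) * k := by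
        rw [e0, e1, map_mul, Complex.conj_conj, Complex.conj_ofReal]
        have h3 : ((‖x 0‖ ^ (p - 2) : ℝ) : ℂ) * (starRingEnd ℂ) (x 0) *
            (((‖x 1‖ ^ (p - 2) : ℝ) : ℂ) * x 1) =
            ((‖x 0‖ ^ (p - 2) * ‖x 1‖ ^ (p - 2) : ℝ) : ℂ) *
              (starRingEnd ℂ) (x 0 * (starRingEnd ℂ) (x 1)) := by
          rw [map_mul, Complex.conj_conj]; push_cast; ring
        rw [h3, Complex.re_ofReal_mul, Complex.conj_re, hkm]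
        have h4 : ∀ s : ℝ, 0 ≤ s → s ^ (p - 2) * s = s ^ (p - 1) := by
          intro s hs
          rcases hs.eq_or_lt with h | h
          · rw [← h, mul_zero, Real.zero_rpow (by linarith)]
          · rw [← Real.rpow_add_one h.ne']
            congr 1; ring
        rw [← h4 _ (norm_nonneg (x 0)), ← h4 _ (norm_nonneg (x 1))]
        ring
      rw [h2, e0, e1, nf, nf]
      unfold gX
      rw [q4, q4, hr0, hr1, Real.mul_rpow (by positivity) (by positivity), ← q2, ← q2]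
    rw [← h1, Real.sqrt_sq (norm_nonneg _)]
  have n3 : ‖x 2‖ = r2 ^ (1 / 2 - δ) := by
    rw [hr2]; exact q1 _
  -- value of the functional
  have hfy : f (vy P) = ((1 / √2 : ℝ) : ℂ) * (f0 - f1) := by
    have h1 : ∀ (i : ℕ) (c : ℂ), f (lp.single P i c) = c * f (lp.single P i 1) := by
      intro i c
      rw [← smul_eq_mul, ← map_smul, ← lp.single_smul, smul_eq_mul, mul_one]
    unfold vy
    rw [map_add, h1 0, h1 1, ← hf0, ← hf1]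
    ring
  have hval : ‖f (opT P x)‖ ≤ gG δ r0 r1 r2 k := by
    rw [opT_apply, map_smul, smul_eq_mul, norm_mul, hfy, norm_mul, hs, n2]
    have h5 : ‖phi P x‖ ≤ √(gP δ r0 r1 k) / 2 + r2 ^ (1 / 2 - δ) / √2 := by
      rw [phi_apply]
      refine (norm_add_le _ _).trans ?_
      rw [norm_mul, norm_mul, hs, n1, n3]
      have : ‖(1 / 2 : ℂ)‖ = 1 / 2 := by norm_num
      rw [this]
      apply le_of_eq; ring
    unfold gG
    calc ‖phi P x‖ * (1 / √2 * √(gX δ r0 r1 k)) ≤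
        (√(gP δ r0 r1 k) / 2 + r2 ^ (1 / 2 - δ) / √2) * (1 / √2 * √(gX δ r0 r1 k)) :=
          mul_le_mul_of_nonneg_right h5 (by positivity)
      _ = _ := by ring
  exact hval.trans (hN r0 r1 r2 k r00 r10 r20 hsum hk1)

/-- Upper bound for `n(ℓ_p)`. -/
theorem upper {p δ : ℝ} (hp : 2 < p) (hδ : 1 / p = 1 / 2 - δ) (hδ0 : 0 < δ) (hδ1 : δ ≤ 1 / 100)
    (hPp : P.toReal = p)
    (hN : ∀ r0 r1 r2 k : ℝ, 0 ≤ r0 → 0 ≤ r1 → 0 ≤ r2 →
      r0 + r1 + r2 ≤ 1 → |k| ≤ 1 → gG δ r0 r1 r2 k ≤ (1 + δ / 4) / 2) :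
    numIndex (lp (fun _ : ℕ => ℂ) P) ≤ (1 + δ / 4) / 2 / (1 + 0.3 * δ) := by
  have h1 := norm_opT hp hδ hδ0 hδ1 hPp
  have h0 : 0 < 1 + 0.3 * δ := by positivity
  have hT : 0 < ‖opT P‖ := h0.trans_le h1
  have hn : ‖((‖opT P‖ : ℝ) : ℂ)⁻¹ • opT P‖ = 1 := by
    rw [norm_smul, norm_inv, Complex.norm_real, norm_norm, inv_mul_cancel₀ hT.ne']
  refine (numIndex_le _ hn).trans (numRadius_le _ (by positivity) ?_)
  intro x f hx hf hfx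
  have h2 := state_bound hp hδ hδ0 hPp hN x f hx hf hfx
  rw [_root_.smul_apply, map_smul, norm_smul, norm_inv, Complex.norm_real, norm_norm,
    inv_mul_eq_div]
  exact div_le_div₀ (by positivity) h2 h0 h1

end Pool.Agent.H148R3.NI
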