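import Pool.Agent.H148R3.NI6
import Pool.Agent.H148R3.NI7

set_option autoImplicit false

namespace Pool.Agent.H148R3.NI

open Filter Topology
open scoped ENNReal

theorem main_real : ∃ ε : ℝ, 0 < ε ∧ ∀ (P : ℝ≥0∞) [Fact (1 ≤ P)], 2 < P.toReal →
    P.toReal < 2 + ε →
    numIndex (lp (fun _ : ℕ => ℂ) P) < numIndex (lp (fun _ : Fin 2 => ℂ) P) := by
  have h1 := N2 0.02 (by norm_num)
  have h2 := N3
  have h3 := h1.and h2
  rw [Metric.eventually_nhds_iff] at h3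
  obtain ⟨e, he, h4⟩ := h3
  refine ⟨min e (1 / 100), lt_min he (by norm_num), fun P _ hp hpe => ?_⟩
  obtain ⟨p, hPp⟩ : ∃ p, P.toReal = p := ⟨_, rfl⟩
  rw [hPp] at hp hpe
  have hp0 : 0 < p := by linarith
  have hpe1 : p < 2 + e := hpe.trans_le (by have := min_le_left e (1 / 100); linarith)
  have hpe2 : p < 2 + 1 / 100 := hpe.trans_le (by have := min_le_right e (1 / 100); linarith)
  set δ : ℝ := 1 / 2 - 1 / p with hδdef
  have hδ : 1 / p = 1 / 2 - δ := by rw [hδdef]; ring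
  have hδ' : δ = (p - 2) / (2 * p) := by rw [hδdef]; field_simp
  have hδ0 : 0 < δ := by rw [hδ']; exact div_pos (by linarith) (by linarith)
  have hδle : δ ≤ p - 2 := by
    rw [hδ']; exact div_le_self (by linarith) (by linarith)
  obtain ⟨hA, hB⟩ := h4 (y := δ) (by
    rw [Real.dist_eq, sub_zero, abs_of_pos hδ0]; linarith)
  have hlow := lower (P := P) (c := 0.02) hp hδ hδ0 (by norm_num) hPp (hA hδ0)
  have hup := upper (P := P) hp hδ hδ0 (by linarith) hPp (hB hδ0)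
  refine (hup.trans_lt ?_).trans_le hlow
  rw [div_div, div_lt_div_iff₀ (by positivity) (by positivity)]
  nlinarith

theorem main : ∃ ε : ℝ≥0∞, 0 < ε ∧ ∀ (p : ℝ≥0∞) [Fact (1 ≤ p)], 2 < p → p < 2 + ε →
    numIndex (lp (fun _ : ℕ => ℂ) p) < numIndex (lp (fun _ : Fin 2 => ℂ) p) := by
  obtain ⟨ε, hε, h⟩ := main_real
  refine ⟨ENNReal.ofReal ε, ENNReal.ofReal_pos.mpr hε, fun p _ hp hpe => ?_⟩
  have hpt : p ≠ ∞ := (hpe.trans_le le_top).ne
  have e2 : (2 : ℝ≥0∞) = ENNReal.ofReal 2 := by simp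
  refine h p ?_ ?_
  · rw [e2] at hp
    exact (ENNReal.ofReal_lt_iff_lt_toReal (by norm_num) hpt).mp hp
  · rw [e2, ← ENNReal.ofReal_add (by norm_num) hε.le] at hpe
    exact (ENNReal.lt_ofReal_iff_toReal_lt hpt).mp hpe

end Pool.Agent.H148R3.NI
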