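import Mathlib

set_option autoImplicit false

namespace Pool.Agent.H148R3.NI

/-- The numerical radius `v(T) = sup {|f(T x)| : ‖x‖ = ‖f‖ = f(x) = 1}` of an operator `T` on a
complex normed space. -/
noncomputable def numRadius {X : Type*} [NormedAddCommGroup X] [NormedSpace ℂ X]
    (T : X →L[ℂ] X) : ℝ :=
  sSup {r : ℝ | ∃ (x : X) (f : X →L[ℂ] ℂ), ‖x‖ = 1 ∧ ‖f‖ = 1 ∧ f x = 1 ∧ r = ‖f (T x)‖}

/-- The numerical index `n(X) = inf {v(T) : ‖T‖ = 1}` of a complex normed space. -/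
noncomputable def numIndex (X : Type*) [NormedAddCommGroup X] [NormedSpace ℂ X] : ℝ :=
  sInf {r : ℝ | ∃ T : X →L[ℂ] X, ‖T‖ = 1 ∧ r = numRadius T}

variable {X : Type*} [NormedAddCommGroup X] [NormedSpace ℂ X]

lemma le_numRadius (T : X →L[ℂ] X) {x : X} {f : X →L[ℂ] ℂ} (hx : ‖x‖ = 1) (hf : ‖f‖ = 1)
    (hfx : f x = 1) : ‖f (T x)‖ ≤ numRadius T := by
  refine le_csSup ⟨‖T‖, ?_⟩ ⟨x, f, hx, hf, hfx, rfl⟩
  rintro r ⟨x, f, hx, hf, _, rfl⟩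
  refine (f.le_opNorm _).trans ?_
  rw [hf, one_mul]
  have := T.le_opNorm x
  rwa [hx, mul_one] at this

lemma numRadius_nonneg (T : X →L[ℂ] X) : 0 ≤ numRadius T := by
  refine Real.sSup_nonneg ?_
  rintro r ⟨x, f, _, _, _, rfl⟩
  exact norm_nonneg _

lemma numRadius_le (T : X →L[ℂ] X) {C : ℝ} (hC : 0 ≤ C)
    (h : ∀ (x : X) (f : X →L[ℂ] ℂ), ‖x‖ = 1 → ‖f‖ = 1 → f x = 1 → ‖f (T x)‖ ≤ C) :
    numRadius T ≤ C := by
  refine Real.sSup_le ?_ hC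
  rintro r ⟨x, f, hx, hf, hfx, rfl⟩
  exact h x f hx hf hfx

lemma numIndex_le (T : X →L[ℂ] X) (hT : ‖T‖ = 1) : numIndex X ≤ numRadius T := by
  refine csInf_le ⟨0, ?_⟩ ⟨T, hT, rfl⟩
  rintro r ⟨T, _, rfl⟩
  exact numRadius_nonneg T

lemma le_numIndex [Nontrivial X] {c : ℝ} (h : ∀ T : X →L[ℂ] X, ‖T‖ = 1 → c ≤ numRadius T) :
    c ≤ numIndex X := by
  refine le_csInf ⟨_, ContinuousLinearMap.id ℂ X, ContinuousLinearMap.norm_id, rfl⟩ ?_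
  rintro r ⟨T, hT, rfl⟩
  exact h T hT

end Pool.Agent.H148R3.NI
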