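import Pool.Agent.H148R3.NIDefs
import Pool.Agent.H148R3.NI5

set_option autoImplicit false

namespace Pool.Agent.H148R3.NJ

open scoped ENNReal
open Pool.Agent.H148R3.NI

/-- A refined weighted arithmetic-geometric mean inequality. -/
lemma refined_aux {w₁ w₂ a b : ℝ} (hw : w₁ + w₂ = 1) (h21 : w₂ ≤ w₁) (hw2 : 0 ≤ w₂)
    (ha : 0 ≤ a) (hb : 0 ≤ b) :
    a ^ w₁ * b ^ w₂ + w₂ * (√a - √b) ^ 2 ≤ w₁ * a + w₂ * b := by
  have h1 := Real.geom_mean_le_arith_mean2_weighted (w₁ := w₁ - w₂) (w₂ := 2 * w₂) (p₁ := a)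
    (p₂ := √(a * b)) (by linarith) (by linarith) ha (Real.sqrt_nonneg _) (by linarith)
  have h2 : √(a * b) ^ (2 * w₂) = a ^ w₂ * b ^ w₂ := by
    rw [Real.sqrt_eq_rpow, ← Real.rpow_mul (mul_nonneg ha hb), ← Real.mul_rpow ha hb]
    congr 1; ring
  have h3 : a ^ (w₁ - w₂) * (a ^ w₂ * b ^ w₂) = a ^ w₁ * b ^ w₂ := by
    rw [← mul_assoc, ← Real.rpow_add_of_nonneg ha (by linarith) hw2]
    congr 2; ring
  rw [h2, h3, Real.sqrt_mul ha] at h1
  have h4 := Real.sq_sqrt ha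
  have h5 := Real.sq_sqrt hb
  nlinarith

lemma sqrt_diff {a b M : ℝ} (ha : 0 ≤ a) (hb : 0 ≤ b) (haM : a ≤ M) (hbM : b ≤ M) :
    (a - b) ^ 2 ≤ 4 * M * (√a - √b) ^ 2 := by
  have h4 := Real.sq_sqrt ha
  have h5 := Real.sq_sqrt hb
  have h6 : a - b = (√a - √b) * (√a + √b) := by
    linear_combination (-1 : ℝ) * h4 + h5
  have h7 : (√a + √b) ^ 2 ≤ 4 * M := by nlinarith [sq_nonneg (√a - √b)]
  rw [h6, mul_pow]
  nlinarith [mul_le_mul_of_nonneg_left h7 (sq_nonneg (√a - √b))]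

/-- The bound for the states: the numerical radius of the perturbed operator. -/
lemma radius_bound {p q : ℝ} (hp : 1 < p) (hq : 1 < q) (hpq : 1 / p + 1 / q = 1) :
    ∃ C : ℝ, 0 < C ∧ ∀ s ρ₀ ρ₁ : ℝ, 0 ≤ s → 0 ≤ ρ₀ → 0 ≤ ρ₁ → ρ₀ + ρ₁ ≤ 1 →
      ρ₀ ^ (1 / q) * ρ₁ ^ (1 / p) + s * |q * ρ₀ - p * ρ₁| ≤
        1 / (p ^ (1 / p) * q ^ (1 / q)) + C * s ^ 2 := by
  have hp0 : 0 < p := by linarith
  have hq0 : 0 < q := by linarith
  set κ := 1 / (p ^ (1 / p) * q ^ (1 / q)) with hκ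
  have hκ0 : 0 < κ := by positivity
  set M := max p q with hM
  have hM0 : 0 < M := lt_max_of_lt_left hp0
  set r := min (1 / p) (1 / q) with hr
  have hr0 : 0 < r := lt_min (by positivity) (by positivity)
  set c := r / (4 * M) with hc
  have hc0 : 0 < c := by positivity
  refine ⟨1 / (4 * c * κ), by positivity, fun s ρ₀ ρ₁ hs h0 h1 hle => ?_⟩
  set a := q * ρ₀ with ha
  set b := p * ρ₁ with hb
  have ha0 : 0 ≤ a := by positivity
  have hb0 : 0 ≤ b := by positivity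
  have haM : a ≤ M := by
    have : a ≤ q * 1 := mul_le_mul_of_nonneg_left (by linarith) hq0.le
    have h2 := le_max_right p q
    linarith
  have hbM : b ≤ M := by
    have : b ≤ p * 1 := mul_le_mul_of_nonneg_left (by linarith) hp0.le
    have h2 := le_max_left p q
    linarith
  have e1 : ρ₀ ^ (1 / q) * ρ₁ ^ (1 / p) = κ * (a ^ (1 / q) * b ^ (1 / p)) := by
    rw [ha, hb, Real.mul_rpow hq0.le h0, Real.mul_rpow hp0.le h1, hκ]
    have h3 : 0 < p ^ (1 / p) := by positivity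
    have h4 : 0 < q ^ (1 / q) := by positivity
    field_simp
  have e2 : a ^ (1 / q) * b ^ (1 / p) + r * (√a - √b) ^ 2 ≤ 1 := by
    have hsum : 1 / q * a + 1 / p * b ≤ 1 := by
      have : 1 / q * a + 1 / p * b = ρ₀ + ρ₁ := by rw [ha, hb]; field_simp
      rw [this]; exact hle
    rcases le_total (1 / p) (1 / q) with h | h
    · have := refined_aux (w₁ := 1 / q) (w₂ := 1 / p) (by linarith) h (by positivity) ha0 hb0
      have hr' : r = 1 / p := min_eq_left h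
      rw [hr']; linarith
    · have := refined_aux (w₁ := 1 / p) (w₂ := 1 / q) (by linarith) h (by positivity) hb0 ha0
      have hr' : r = 1 / q := min_eq_right h
      rw [hr']
      have h5 : (√b - √a) ^ 2 = (√a - √b) ^ 2 := by ring
      rw [h5] at this
      have h6 : b ^ (1 / p) * a ^ (1 / q) = a ^ (1 / q) * b ^ (1 / p) := mul_comm _ _
      linarith
  have e3 : c * (a - b) ^ 2 ≤ r * (√a - √b) ^ 2 := by
    have h7 := sqrt_diff ha0 hb0 haM hbM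
    have h8 := mul_le_mul_of_nonneg_left h7 hc0.le
    have h9 : c * (4 * M * (√a - √b) ^ 2) = r * (√a - √b) ^ 2 := by rw [hc]; field_simp
    linarith
  have e4 : a ^ (1 / q) * b ^ (1 / p) ≤ 1 - c * |a - b| ^ 2 := by
    rw [sq_abs]; linarith
  rw [e1]
  have e5 := mul_le_mul_of_nonneg_left e4 hκ0.le
  set u := |a - b| with hu
  have e6 : κ * c * u ^ 2 - s * u + 1 / (4 * c * κ) * s ^ 2 =
      κ * c * (u - s / (2 * c * κ)) ^ 2 := by field_simp; ring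
  have e7 : 0 ≤ κ * c * (u - s / (2 * c * κ)) ^ 2 := by positivity
  nlinarith

variable {ι : Type*} {P : ℝ≥0∞} [Fact (1 ≤ P)] [DecidableEq ι]

/-- The operator `α e₀ ⊗ e₀* + e₀ ⊗ e₁* + β e₁ ⊗ e₁*`. -/
noncomputable def op (P : ℝ≥0∞) [Fact (1 ≤ P)] (i₀ i₁ : ι) (α β : ℝ) :
    lp (fun _ : ι => ℂ) P →L[ℂ] lp (fun _ : ι => ℂ) P :=
  ((α : ℂ) • lp.evalCLM ℂ (fun _ : ι => ℂ) P i₀ + lp.evalCLM ℂ (fun _ : ι => ℂ) P i₁).smulRight
      (lp.single P i₀ 1) +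
    ((β : ℂ) • lp.evalCLM ℂ (fun _ : ι => ℂ) P i₁).smulRight (lp.single P i₁ 1)

lemma op_apply (i₀ i₁ : ι) (α β : ℝ) (x : lp (fun _ : ι => ℂ) P) :
    op P i₀ i₁ α β x = ((α : ℂ) * x i₀ + x i₁) • lp.single P i₀ (1:ℂ) +
      ((β : ℂ) * x i₁) • lp.single P i₁ (1:ℂ) := rfl

lemma norm_two {p : ℝ} (hp : 0 < p) (hPp : P.toReal = p) {i₀ i₁ : ι} (hi : i₀ ≠ i₁) (a b : ℂ) :
    ‖(a • lp.single P i₀ (1:ℂ) + b • lp.single P i₁ (1:ℂ) : lp (fun _ : ι => ℂ) P)‖ ^ p =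
      ‖a‖ ^ p + ‖b‖ ^ p := by
  have hP0 : 0 < P.toReal := by rw [hPp]; exact hp
  have hP1 : 0 < P := by
    rcases eq_or_ne P 0 with h | h
    · rw [h] at hP0; simp at hP0
    · exact pos_iff_ne_zero.mpr h
  rw [← lp.single_smul, ← lp.single_smul, smul_eq_mul, smul_eq_mul, mul_one, mul_one]
  have h1 := norm_add_single hP0 (lp.single P i₀ a) i₁ b
  rw [lp.norm_single hP1, lp.single_apply_ne _ _ _ hi.symm, norm_zero, zero_add, hPp,
    Real.zero_rpow hp.ne', sub_zero] at h1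
  exact h1

lemma state_val {p q s : ℝ} (hp : 1 < p) (hpq : 1 / p + 1 / q = 1) (hPp : P.toReal = p)
    (hs : 0 ≤ s) {i₀ i₁ : ι} (hi : i₀ ≠ i₁)
    (x : lp (fun _ : ι => ℂ) P) (f : lp (fun _ : ι => ℂ) P →L[ℂ] ℂ) (hx : ‖x‖ = 1) (hf : ‖f‖ = 1)
    (hfx : f x = 1) : ∃ ρ₀ ρ₁ : ℝ, 0 ≤ ρ₀ ∧ 0 ≤ ρ₁ ∧ ρ₀ + ρ₁ ≤ 1 ∧
      ‖f (op P i₀ i₁ (s * q) (-(s * p)) x)‖ ≤
        ρ₀ ^ (1 / q) * ρ₁ ^ (1 / p) + s * |q * ρ₀ - p * ρ₁| := by
  have hp0 : 0 < p := by linarith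
  have hP0 : 0 < P.toReal := by rw [hPp]; exact hp0
  have hsum := lp.sum_rpow_le_norm_rpow hP0 x {i₀, i₁}
  rw [hx, Real.one_rpow, hPp, Finset.sum_pair hi] at hsum
  refine ⟨‖x i₀‖ ^ p, ‖x i₁‖ ^ p, by positivity, by positivity, hsum, ?_⟩
  have e0 := state_coord hp hPp x hx f hf.le hfx i₀
  have e1 := state_coord hp hPp x hx f hf.le hfx i₁
  have key : ∀ z : ℂ, ((‖z‖ ^ (p - 2) : ℝ) : ℂ) * (starRingEnd ℂ) z * z = ((‖z‖ ^ p : ℝ) : ℂ) := by
    intro z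
    rw [mul_assoc, mul_comm ((starRingEnd ℂ) z), Complex.mul_conj, Complex.normSq_eq_norm_sq,
      ← Complex.ofReal_mul]
    congr 1
    rcases (norm_nonneg z).eq_or_lt with h | h
    · rw [← h, Real.zero_rpow (show p ≠ 0 by linarith)]; simp
    · rw [← Real.rpow_natCast ‖z‖ 2, ← Real.rpow_add h]
      congr 1; push_cast; ring
  have hval : f (op P i₀ i₁ (s * q) (-(s * p)) x) =
      ((s * (q * ‖x i₀‖ ^ p - p * ‖x i₁‖ ^ p) : ℝ) : ℂ) +
        ((‖x i₀‖ ^ (p - 2) : ℝ) : ℂ) * (starRingEnd ℂ) (x i₀) * x i₁ := by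
    rw [op_apply, map_add, map_smul, map_smul, smul_eq_mul, smul_eq_mul, e0, e1]
    have k0 := key (x i₀)
    have k1 := key (x i₁)
    push_cast at k0 k1 ⊢
    linear_combination ((s : ℂ) * q) * k0 - ((s : ℂ) * p) * k1
  rw [hval]
  refine (norm_add_le _ _).trans ?_
  have ha : ‖((s * (q * ‖x i₀‖ ^ p - p * ‖x i₁‖ ^ p) : ℝ) : ℂ)‖ =
      s * |q * ‖x i₀‖ ^ p - p * ‖x i₁‖ ^ p| := by
    rw [Complex.norm_real, Real.norm_eq_abs, abs_mul, abs_of_nonneg hs]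
  have hb : ‖((‖x i₀‖ ^ (p - 2) : ℝ) : ℂ) * (starRingEnd ℂ) (x i₀) * x i₁‖ =
      ‖x i₀‖ ^ (p - 2) * ‖x i₀‖ * ‖x i₁‖ := by
    rw [norm_mul, norm_mul, Complex.norm_real, RCLike.norm_conj,
      Real.norm_of_nonneg (by positivity : 0 ≤ ‖x i₀‖ ^ (p - 2))]
  rw [ha, hb, add_comm]
  refine add_le_add (le_of_eq ?_) le_rfl
  have h1 : ‖x i₀‖ ^ (p - 2) * ‖x i₀‖ = (‖x i₀‖ ^ p) ^ (1 / q) := by
    rw [← Real.rpow_mul (norm_nonneg _)]
    have h2 : p * (1 / q) = p - 1 := by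
      have : 1 / q = 1 - 1 / p := by linarith
      rw [this]; field_simp
    rw [h2]
    rcases (norm_nonneg (x i₀)).eq_or_lt with h | h
    · rw [← h, mul_zero, Real.zero_rpow (by linarith)]
    · rw [← Real.rpow_add_one h.ne']
      congr 1; ring
  have h3 : ‖x i₁‖ = (‖x i₁‖ ^ p) ^ (1 / p) := by
    rw [← Real.rpow_mul (norm_nonneg _), mul_one_div_cancel hp0.ne', Real.rpow_one]
  rw [h1, ← h3]

/-- Lower bound for the norm, `p < 2`. -/
lemma norm_lo1 {p q s : ℝ} (hp : 1 < p) (hPp : P.toReal = p) (hs : 0 ≤ s)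
    {i₀ i₁ : ι} (hi : i₀ ≠ i₁) : 1 + s ^ p ≤ ‖op P i₀ i₁ (s * q) (-(s * p))‖ ^ p := by
  have hp0 : 0 < p := by linarith
  have hP0 : 0 < P.toReal := by rw [hPp]; exact hp0
  have hP1 : 0 < P := by
    rcases eq_or_ne P 0 with h | h
    · rw [h] at hP0; simp at hP0
    · exact pos_iff_ne_zero.mpr h
  have h1 := (op P i₀ i₁ (s * q) (-(s * p))).le_opNorm (lp.single P i₁ (1:ℂ))
  rw [lp.norm_single hP1, norm_one, mul_one, op_apply, lp.single_apply_self,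
    lp.single_apply_ne _ _ _ hi, mul_zero, zero_add, mul_one] at h1
  have h2 := Real.rpow_le_rpow (norm_nonneg _) h1 hp0.le
  rw [norm_two hp0 hPp hi] at h2
  refine le_trans ?_ h2
  rw [norm_one, Real.one_rpow, Complex.norm_real, Real.norm_eq_abs, abs_neg,
    abs_of_nonneg (by positivity)]
  have h3 : s ^ p ≤ (s * p) ^ p := Real.rpow_le_rpow hs (by nlinarith) hp0.le
  linarith

/-- Lower bound for the norm, `p > 2`. -/
lemma norm_lo2 {p q s : ℝ} (hp : 1 < p) (hq : 1 < q) (hpq : 1 / p + 1 / q = 1)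
    (hPp : P.toReal = p) (hs : 0 < s) (hs1 : s ≤ 1)
    {i₀ i₁ : ι} (hi : i₀ ≠ i₁) : 1 + s ^ q ≤ ‖op P i₀ i₁ (s * q) (-(s * p))‖ ^ p := by
  have hp0 : 0 < p := by linarith
  have hq0 : 0 < q := by linarith
  have hpq' : p * q = p + q := by field_simp at hpq; linarith
  set ξ := s ^ (q - 1) with hξ
  have hξ0 : 0 ≤ ξ := by positivity
  have hξp : ξ ^ p = s ^ q := by
    rw [hξ, ← Real.rpow_mul hs.le]; congr 1; linarith
  have hsξ : s * ξ = s ^ q := by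
    have : s * ξ = s ^ (1:ℝ) * s ^ (q - 1) := by rw [Real.rpow_one]
    rw [this, ← Real.rpow_add hs]; congr 1; ring
  set x : lp (fun _ : ι => ℂ) P := ((ξ : ℝ) : ℂ) • lp.single P i₀ (1:ℂ) +
    (1:ℂ) • lp.single P i₁ (1:ℂ) with hx
  have hx0 : x i₀ = ξ := by
    rw [hx, lp.coeFn_add, lp.coeFn_smul, lp.coeFn_smul, Pi.add_apply, Pi.smul_apply, Pi.smul_apply,
      lp.single_apply_self, lp.single_apply_ne _ _ _ hi]; simp
  have hx1 : x i₁ = 1 := by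
    rw [hx, lp.coeFn_add, lp.coeFn_smul, lp.coeFn_smul, Pi.add_apply, Pi.smul_apply, Pi.smul_apply,
      lp.single_apply_self, lp.single_apply_ne _ _ _ hi.symm]; simp
  have h1 := (op P i₀ i₁ (s * q) (-(s * p))).le_opNorm x
  rw [op_apply, hx0, hx1] at h1
  have h2 := Real.rpow_le_rpow (norm_nonneg _) h1 hp0.le
  rw [norm_two hp0 hPp hi, Real.mul_rpow (norm_nonneg _) (norm_nonneg _), hx,
    norm_two hp0 hPp hi, norm_one, Real.one_rpow, Complex.norm_real, Real.norm_eq_abs,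
    abs_of_nonneg hξ0, hξp] at h2
  have h3 : (1 + p * q * s ^ q) ≤ ‖((s * q : ℝ) : ℂ) * (ξ : ℂ) + 1‖ ^ p := by
    have e : ((s * q : ℝ) : ℂ) * (ξ : ℂ) + 1 = ((1 + q * s ^ q : ℝ) : ℂ) := by
      rw [← hsξ]; push_cast; ring
    rw [e, Complex.norm_real, Real.norm_of_nonneg (by positivity)]
    have h4 := one_add_mul_self_le_rpow_one_add (s := q * s ^ q)
      (by have : 0 ≤ q * s ^ q := by positivity
          linarith) hp.le
    linarith
  set N := ‖op P i₀ i₁ (s * q) (-(s * p))‖ ^ p with hN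
  have h5 : 0 ≤ ‖((-(s * p) : ℝ) : ℂ) * 1‖ ^ p := by positivity
  have h6 : 1 + p * q * s ^ q ≤ N * (s ^ q + 1) := by linarith
  have hsq : 0 < s ^ q := by positivity
  have hsq1 : s ^ q ≤ 1 := Real.rpow_le_one hs.le hs1 hq0.le
  have hpq4 : 4 ≤ p * q := by
    rw [hpq']; nlinarith [sq_nonneg (p - q)]
  by_contra hcon
  rw [not_le] at hcon
  have h7 : N * (s ^ q + 1) < (1 + s ^ q) * (s ^ q + 1) :=
    mul_lt_mul_of_pos_right hcon (by positivity)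
  nlinarith

/-- The numerical index is below `κ_p`. -/
theorem index_lt {p q : ℝ} (hp : 1 < p) (hq : 1 < q) (hpq : 1 / p + 1 / q = 1) (hp2 : p ≠ 2)
    (hPp : P.toReal = p) {i₀ i₁ : ι} (hi : i₀ ≠ i₁) :
    numIndex (lp (fun _ : ι => ℂ) P) < 1 / (p ^ (1 / p) * q ^ (1 / q)) := by
  have hp0 : 0 < p := by linarith
  have hq0 : 0 < q := by linarith
  have hpq' : p * q = p + q := by field_simp at hpq; linarith
  obtain ⟨C, hC, hrad⟩ := radius_bound hp hq hpq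
  set κ := 1 / (p ^ (1 / p) * q ^ (1 / q)) with hκ
  have hκ0 : 0 < κ := by positivity
  -- the exponent
  obtain ⟨r, hr1, hr2, hnorm⟩ : ∃ r : ℝ, 1 < r ∧ r < 2 ∧ ∀ s : ℝ, 0 < s → s ≤ 1 →
      1 + s ^ r ≤ ‖op P i₀ i₁ (s * q) (-(s * p))‖ ^ p := by
    rcases lt_or_gt_of_ne hp2 with h | h
    · exact ⟨p, hp, h, fun s hs _ => norm_lo1 hp hPp hs.le hi⟩
    · refine ⟨q, hq, ?_, fun s hs hs1 => norm_lo2 hp hq hpq hPp hs hs1 hi⟩
      by_contra hcon
      rw [not_lt] at hcon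
      nlinarith
  set t := κ / (4 * p * C) with ht
  have ht0 : 0 < t := by positivity
  set s := min 1 (t ^ (1 / (2 - r))) with hs
  have hs0 : 0 < s := lt_min one_pos (by positivity)
  have hs1 : s ≤ 1 := min_le_left _ _
  have hst : s ^ (2 - r) ≤ t := by
    have h1 : s ^ (2 - r) ≤ (t ^ (1 / (2 - r))) ^ (2 - r) :=
      Real.rpow_le_rpow hs0.le (min_le_right _ _) (by linarith)
    rwa [← Real.rpow_mul ht0.le, one_div_mul_cancel (by linarith), Real.rpow_one] at h1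
  have hs2 : s ^ 2 ≤ t * s ^ r := by
    have h1 : s ^ 2 = s ^ (2 - r) * s ^ r := by
      rw [← Real.rpow_natCast s 2, ← Real.rpow_add hs0]; congr 1; push_cast; ring
    rw [h1]
    exact mul_le_mul_of_nonneg_right hst (by positivity)
  set y := s ^ r with hy
  have hy0 : 0 < y := by positivity
  have hy1 : y ≤ 1 := Real.rpow_le_one hs0.le hs1 (by linarith)
  set T := op P i₀ i₁ (s * q) (-(s * p)) with hT
  have hTp := hnorm s hs0 hs1
  rw [← hT, ← hy] at hTp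
  -- ‖T‖ ≥ 1 + y / (2 p)
  have hTn : 1 + y / (2 * p) ≤ ‖T‖ := by
    by_contra hcon
    rw [not_le] at hcon
    have h1 : ‖T‖ ^ p < (1 + y / (2 * p)) ^ p := Real.rpow_lt_rpow (norm_nonneg _) hcon hp0
    have h2 : (1 + y / (2 * p)) ^ p ≤ Real.exp (y / 2) := by
      have h3 : 1 + y / (2 * p) ≤ Real.exp (y / (2 * p)) := by
        have := Real.add_one_le_exp (y / (2 * p)); linarith
      have h4 := Real.rpow_le_rpow (by positivity) h3 hp0.le
      rw [← Real.exp_mul] at h4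
      have h5 : y / (2 * p) * p = y / 2 := by field_simp
      rwa [h5] at h4
    have h6 : Real.exp (y / 2) ≤ 1 + y := by
      have h7 : Real.exp (y / 2) * Real.exp (-(y / 2)) = 1 := by rw [← Real.exp_add]; simp
      have h8 : 1 - y / 2 ≤ Real.exp (-(y / 2)) := by
        have := Real.add_one_le_exp (-(y / 2)); linarith
      have h9 := Real.exp_pos (y / 2)
      have h10 : Real.exp (y / 2) * (1 - y / 2) ≤ 1 := by
        have := mul_le_mul_of_nonneg_left h8 h9.le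
        linarith
      nlinarith
    linarith
  have hT0 : 0 < ‖T‖ := lt_of_lt_of_le (by positivity) hTn
  have hn : ‖((‖T‖ : ℝ) : ℂ)⁻¹ • T‖ = 1 := by
    rw [norm_smul, norm_inv, Complex.norm_real, norm_norm, inv_mul_cancel₀ hT0.ne']
  have hrad2 : numRadius (((‖T‖ : ℝ) : ℂ)⁻¹ • T) ≤ (κ + C * s ^ 2) / ‖T‖ := by
    refine numRadius_le _ (by positivity) ?_
    intro x f hx hf hfx
    obtain ⟨ρ₀, ρ₁, h0, h1, h2, h3⟩ := state_val (s := s) hp hpq hPp hs0.le hi x f hx hf hfx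
    have h4 := hrad s ρ₀ ρ₁ hs0.le h0 h1 h2
    rw [_root_.smul_apply, map_smul, norm_smul, norm_inv, Complex.norm_real, norm_norm,
      inv_mul_eq_div]
    exact div_le_div_of_nonneg_right (h3.trans h4) hT0.le
  refine ((numIndex_le _ hn).trans hrad2).trans_lt ?_
  rw [div_lt_iff₀ hT0]
  have h11 : C * s ^ 2 ≤ C * (t * y) := mul_le_mul_of_nonneg_left hs2 hC.le
  have h12 : C * (t * y) = κ * (y / (4 * p)) := by rw [ht]; field_simp
  have h13 : κ * (1 + y / (2 * p)) ≤ κ * ‖T‖ := mul_le_mul_of_nonneg_left hTn hκ0.le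
  have h14 : κ * (y / (4 * p)) < κ * (y / (2 * p)) := by
    apply mul_lt_mul_of_pos_left _ hκ0
    apply div_lt_div_of_pos_left hy0 (by positivity) (by linarith)
  nlinarith

end Pool.Agent.H148R3.NJ
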