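import Pool.Agent.H148R3.NJ1
import Pool.Agent.H148R3.NI7

set_option autoImplicit false

namespace Pool.Agent.H148R3.NJ

open Filter Topology
open scoped ENNReal
open Pool.Agent.H148R3.NI

/-- The number `κ_p = 1 / (p^{1/p} q^{1/q})`, where `q = p / (p - 1)` is the conjugate exponent of
`p` (so that `1 / q = (p - 1) / p`). -/
noncomputable def kappa (p : ℝ) : ℝ :=
  1 / (p ^ (1 / p) * (p / (p - 1)) ^ ((p - 1) / p))

theorem below_kappa {ι : Type*} [Nontrivial ι] (P : ℝ≥0∞) [Fact (1 ≤ P)] (h1 : 1 < P)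
    (htop : P ≠ ∞) (h2 : P ≠ 2) : numIndex (lp (fun _ : ι => ℂ) P) < kappa P.toReal := by
  classical
  obtain ⟨i₀, i₁, hi⟩ := exists_pair_ne ι
  have hp : 1 < P.toReal := by
    rw [← ENNReal.toReal_one]
    exact (ENNReal.toReal_lt_toReal ENNReal.one_ne_top htop).mpr h1
  have hp2 : P.toReal ≠ 2 := by
    intro h
    apply h2
    rw [← ENNReal.ofReal_toReal htop, h]
    simp
  obtain ⟨p, hPp⟩ : ∃ p, P.toReal = p := ⟨_, rfl⟩
  rw [hPp] at hp hp2 ⊢
  have hp1 : 0 < p - 1 := by linarith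
  have hq : 1 < p / (p - 1) := by rw [lt_div_iff₀ hp1]; linarith
  have hq1 : 1 / (p / (p - 1)) = (p - 1) / p := by rw [one_div_div]
  have hpq : 1 / p + 1 / (p / (p - 1)) = 1 := by
    rw [hq1, ← add_div]
    have : 1 + (p - 1) = p := by ring
    rw [this, div_self (by linarith)]
  have h := index_lt (ι := ι) (P := P) hp hq hpq hp2 hPp hi
  rwa [hq1] at h

theorem near_two : ∃ ε : ℝ, 0 < ε ∧ ∀ (P : ℝ≥0∞) [Fact (1 ≤ P)], 2 < P.toReal →
    P.toReal < 2 + ε →
    numIndex (lp (fun _ : ℕ => ℂ) P) ≤ 1 / 2 - (P.toReal - 2) / 200 := by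
  have h3 := N3
  rw [Metric.eventually_nhds_iff] at h3
  obtain ⟨e, he, h4⟩ := h3
  refine ⟨min e (1 / 100), lt_min he (by norm_num), fun P _ hp hpe => ?_⟩
  obtain ⟨p, hPp⟩ : ∃ p, P.toReal = p := ⟨_, rfl⟩
  rw [hPp] at hp hpe ⊢
  have hp0 : 0 < p := by linarith
  have hpe1 : p < 2 + e := hpe.trans_le (by have := min_le_left e (1 / 100); linarith)
  have hpe2 : p < 2 + 1 / 100 := hpe.trans_le (by have := min_le_right e (1 / 100); linarith)
  set δ : ℝ := 1 / 2 - 1 / p with hδdef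
  have hδ : 1 / p = 1 / 2 - δ := by rw [hδdef]; ring
  have hδ' : δ = (p - 2) / (2 * p) := by rw [hδdef]; field_simp
  have hδ0 : 0 < δ := by rw [hδ']; exact div_pos (by linarith) (by linarith)
  have hδle : δ ≤ p - 2 := by
    rw [hδ']; exact div_le_self (by linarith) (by linarith)
  have hδge : (p - 2) / 4.02 ≤ δ := by
    rw [hδ']; apply div_le_div_of_nonneg_left (by linarith) (by linarith) (by linarith)
  have hB := h4 (y := δ) (by
    rw [Real.dist_eq, sub_zero, abs_of_pos hδ0]; linarith)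
  have hup := upper (P := P) hp hδ hδ0 (by linarith) hPp (hB hδ0)
  refine hup.trans ?_
  rw [div_div, div_le_iff₀ (by positivity)]
  rw [div_le_iff₀ (by norm_num)] at hδge
  nlinarith [mul_nonneg hδ0.le (sub_nonneg.mpr hp.le)]

end Pool.Agent.H148R3.NJ
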