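import Mathlib

set_option autoImplicit false

namespace Pool.Agent.H148R3.NK

lemma bern1 {k r : ℝ} (hk : 1 ≤ k) (hr : 0 < r) (hr1 : r ≤ 1) :
    k * r ^ k * (1 - r) ≤ r * (1 - r ^ k) := by
  have h0 : 0 ≤ 1 / r - 1 := by rw [sub_nonneg, le_div_iff₀ hr]; linarith
  have h := one_add_mul_self_le_rpow_one_add (s := 1 / r - 1) (by linarith) hk
  have e : 1 + (1 / r - 1) = r⁻¹ := by rw [one_div]; ring
  rw [e, Real.inv_rpow hr.le] at h
  have hρ : 0 < r ^ k := Real.rpow_pos_of_pos hr k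
  have h2 := mul_le_mul_of_nonneg_right h (mul_nonneg hr.le hρ.le)
  have e2 : (r ^ k)⁻¹ * (r * r ^ k) = r := by field_simp
  have e3 : (1 + k * (1 / r - 1)) * (r * r ^ k) = r * r ^ k + k * r ^ k * (1 - r) := by
    field_simp
  rw [e2, e3] at h2
  linarith

lemma bern2 {k a : ℝ} (hk : 1 ≤ k) (ha : 0 < a) (ha1 : a ≤ 1) :
    a ^ 2 - a ^ k ≤ (k - 1) * a * (1 - a) := by
  rcases le_total k 2 with h | h
  · have h1 : a ^ (2:ℝ) ≤ a ^ k := Real.rpow_le_rpow_of_exponent_ge ha ha1 h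
    rw [Real.rpow_two] at h1
    have h3 : 0 ≤ (k - 1) * a * (1 - a) :=
      mul_nonneg (mul_nonneg (by linarith) ha.le) (by linarith)
    linarith
  · have h1 := one_add_mul_self_le_rpow_one_add (s := a - 1) (by linarith)
      (show 1 ≤ k - 1 by linarith)
    have e : 1 + (a - 1) = a := by ring
    rw [e] at h1
    have h2 : a ^ k = a * a ^ (k - 1) := by
      rw [Real.rpow_sub_one ha.ne']; field_simp
    rw [h2]
    nlinarith [mul_le_mul_of_nonneg_left h1 ha.le]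

lemma abs_sub_le_one_sub {A B : ℝ} (hA : 0 ≤ A) (hA1 : A ≤ 1) (hB : 0 ≤ B) (hB1 : B ≤ 1) :
    |A - B| ≤ 1 - A * B := by
  rw [abs_le]
  constructor
  · nlinarith [mul_nonneg (sub_nonneg.mpr hB1) (add_nonneg zero_le_one hA)]
  · nlinarith [mul_nonneg (sub_nonneg.mpr hA1) (add_nonneg zero_le_one hB)]

lemma L1 {A B r ρ : ℝ} (hA : 0 ≤ A) (hA1 : A ≤ 1) (hB : 0 ≤ B) (hB1 : B ≤ 1)
    (hr : 0 ≤ r) (hr1 : r ≤ 1) (hρ : 0 ≤ ρ) (hρ1 : ρ ≤ 1) :
    (r * A + ρ * B) * (1 - (A * B) ^ 2) + (A * B + r * ρ) * (|A - B| * (A + B)) ≤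
      (1 + r * ρ) * (A + B) * (1 - (A * B) ^ 2) := by
  have he := abs_sub_le_one_sub hA hA1 hB hB1
  have h1 : (A * B + r * ρ) * (|A - B| * (A + B)) ≤
      (A * B + r * ρ) * ((1 - A * B) * (A + B)) := by
    apply mul_le_mul_of_nonneg_left _ (by positivity)
    exact mul_le_mul_of_nonneg_right he (by positivity)
  have hτ : A * B ≤ 1 := mul_le_one₀ hA1 hB hB1
  have h2 : 0 ≤ (1 - A * B) * ((1 - r) * (A * (1 - B * B * ρ)) + (1 - ρ) * (B * (1 - A * A * r))) := by
    have i1 : B * B * ρ ≤ 1 := mul_le_one₀ (mul_le_one₀ hB1 hB hB1) hρ hρ1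
    have i2 : A * A * r ≤ 1 := mul_le_one₀ (mul_le_one₀ hA1 hA hA1) hr hr1
    apply mul_nonneg (by linarith)
    apply add_nonneg
    · exact mul_nonneg (by linarith) (mul_nonneg hA (by linarith))
    · exact mul_nonneg (by linarith) (mul_nonneg hB (by linarith))
  have h3 : (1 + r * ρ) * (A + B) * (1 - (A * B) ^ 2) - (r * A + ρ * B) * (1 - (A * B) ^ 2) -
      (A * B + r * ρ) * ((1 - A * B) * (A + B)) =
      (1 - A * B) * ((1 - r) * (A * (1 - B * B * ρ)) + (1 - ρ) * (B * (1 - A * A * r))) := by ring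
  linarith

lemma L2 {a b k r ρ : ℝ} (hk : 1 ≤ k) (ha : 0 < a) (ha1 : a ≤ 1) (hb : b = a ^ k)
    (hr : 0 < r) (hr1 : r ≤ 1) (hρ : ρ = r ^ k) :
    (r * b + ρ * a) * (1 - (a * b) ^ 2) + (1 + a * b * (r * ρ)) * ((a - b) * (a + b)) ≤
      (1 + r * ρ) * (a + b) * (1 - (a * b) ^ 2) := by
  have hb0 : 0 < b := by rw [hb]; positivity
  have hb1 : b ≤ 1 := by rw [hb]; exact Real.rpow_le_one ha.le ha1 (by linarith)
  have hρ0 : 0 < ρ := by rw [hρ]; positivity
  have hρ1 : ρ ≤ 1 := by rw [hρ]; exact Real.rpow_le_one hr.le hr1 (by linarith)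
  have B1 := bern1 hk hr hr1
  have B2 := bern2 hk ha ha1
  rw [← hρ] at B1
  rw [← hb] at B2
  have hab : a * b ≤ 1 := mul_le_one₀ ha1 hb0.le hb1
  have h00 : 0 ≤ (a + b) * ((1 - a) + b * (1 - a ^ 2 * b)) := by
    have : a ^ 2 * b ≤ 1 := mul_le_one₀ (pow_le_one₀ ha.le ha1) hb0.le hb1
    apply mul_nonneg (by positivity)
    apply add_nonneg (by linarith)
    exact mul_nonneg hb0.le (by linarith)
  have h10 : a * (1 - a) ≤ a * (1 - a) + b ^ 2 * (1 - a ^ 3) := by
    have : a ^ 3 ≤ 1 := pow_le_one₀ ha.le ha1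
    have := mul_nonneg (sq_nonneg b) (sub_nonneg.mpr this)
    linarith
  have h11 : a * (1 - a) ≤ (a + b) * (1 + a * b) * (1 - a) * (1 + b) := by
    have e : (a + b) * (1 + a * b) * (1 - a) * (1 + b) =
        ((a + b) * ((1 + a * b) * (1 + b))) * (1 - a) := by ring
    rw [e]
    apply mul_le_mul_of_nonneg_right _ (by linarith)
    have i1 : 1 ≤ (1 + a * b) * (1 + b) := by
      have : 0 ≤ a * b := by positivity
      nlinarith [mul_nonneg this hb0.le]
    nlinarith [mul_le_mul_of_nonneg_left i1 (by positivity : 0 ≤ a + b)]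
  have h01 : -((k - 1) * a * (1 - a)) ≤ b - a ^ 2 * b ^ 3 - a ^ 2 + b ^ 2 := by
    have i1 : a ^ 2 * b ^ 3 ≤ b ^ 2 := by
      have : a ^ 2 * b ≤ 1 := mul_le_one₀ (pow_le_one₀ ha.le ha1) hb0.le hb1
      have := mul_le_mul_of_nonneg_right this (sq_nonneg b)
      nlinarith
    linarith
  have key : (1 + r * ρ) * (a + b) * (1 - (a * b) ^ 2) - (r * b + ρ * a) * (1 - (a * b) ^ 2) -
      (1 + a * b * (r * ρ)) * ((a - b) * (a + b)) =
      (1 - ρ) * (1 - r) * ((a + b) * ((1 - a) + b * (1 - a ^ 2 * b))) +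
      (1 - ρ) * r * (a * (1 - a) + b ^ 2 * (1 - a ^ 3)) +
      ρ * (1 - r) * (b - a ^ 2 * b ^ 3 - a ^ 2 + b ^ 2) +
      ρ * r * ((a + b) * (1 + a * b) * (1 - a) * (1 + b)) := by ring
  have m00 : 0 ≤ (1 - ρ) * (1 - r) * ((a + b) * ((1 - a) + b * (1 - a ^ 2 * b))) :=
    mul_nonneg (mul_nonneg (by linarith) (by linarith)) h00
  have m10 := mul_le_mul_of_nonneg_left h10 (mul_nonneg (sub_nonneg.mpr hρ1) hr.le)
  have m01 := mul_le_mul_of_nonneg_left h01 (mul_nonneg hρ0.le (sub_nonneg.mpr hr1))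
  have m11 := mul_le_mul_of_nonneg_left h11 (mul_nonneg hρ0.le hr.le)
  have fin : 0 ≤ a * (1 - a) * (r - ρ * (1 - r) * (k - 1)) := by
    apply mul_nonneg (mul_nonneg ha.le (by linarith))
    have : 0 ≤ ρ * (1 - r) := mul_nonneg hρ0.le (by linarith)
    have : 0 ≤ r * ρ := by positivity
    nlinarith
  nlinarith

/-- The linked inequality for all `p > 1`. -/
lemma L2' {p t r : ℝ} (hp : 1 < p) (ht : 0 < t) (ht1 : t ≤ 1) (hr : 0 < r) (hr1 : r ≤ 1) :
    (r * t ^ (p - 1) + r ^ (p - 1) * t) * (1 - (t * t ^ (p - 1)) ^ 2) +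
      (1 + t * t ^ (p - 1) * (r * r ^ (p - 1))) * (|t - t ^ (p - 1)| * (t + t ^ (p - 1))) ≤
      (1 + r * r ^ (p - 1)) * (t + t ^ (p - 1)) * (1 - (t * t ^ (p - 1)) ^ 2) := by
  rcases le_total 2 p with h | h
  · have h1 : t ^ (p - 1) ≤ t := by
      have := Real.rpow_le_rpow_of_exponent_ge ht ht1 (show (1:ℝ) ≤ p - 1 by linarith)
      rwa [Real.rpow_one] at this
    rw [abs_of_nonneg (by linarith)]
    exact L2 (k := p - 1) (by linarith) ht ht1 rfl hr hr1 rfl
  · have h1 : t ≤ t ^ (p - 1) := by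
      have := Real.rpow_le_rpow_of_exponent_ge ht ht1 (show p - 1 ≤ (1:ℝ) by linarith)
      rwa [Real.rpow_one] at this
    rw [abs_of_nonpos (by linarith)]
    have hk : (1:ℝ) ≤ 1 / (p - 1) := by
      rw [le_div_iff₀ (by linarith)]; linarith
    have e : ∀ x : ℝ, 0 < x → x = (x ^ (p - 1)) ^ (1 / (p - 1)) := by
      intro x hx
      rw [← Real.rpow_mul hx.le, mul_one_div_cancel (by linarith), Real.rpow_one]
    have := L2 (a := t ^ (p - 1)) (b := t) (k := 1 / (p - 1)) (r := r ^ (p - 1)) (ρ := r) hk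
      (by positivity) (Real.rpow_le_one ht.le ht1 (by linarith)) (e t ht) (by positivity)
      (Real.rpow_le_one hr.le hr1 (by linarith)) (e r hr)
    have e1 : (r * t ^ (p - 1) + r ^ (p - 1) * t) * (1 - (t * t ^ (p - 1)) ^ 2) +
      (1 + t * t ^ (p - 1) * (r * r ^ (p - 1))) * (-(t - t ^ (p - 1)) * (t + t ^ (p - 1))) =
      (r ^ (p - 1) * t + r * t ^ (p - 1)) * (1 - (t ^ (p - 1) * t) ^ 2) +
      (1 + t ^ (p - 1) * t * (r ^ (p - 1) * r)) * ((t ^ (p - 1) - t) * (t ^ (p - 1) + t)) := by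
      ring
    have e2 : (1 + r * r ^ (p - 1)) * (t + t ^ (p - 1)) * (1 - (t * t ^ (p - 1)) ^ 2) =
      (1 + r ^ (p - 1) * r) * (t ^ (p - 1) + t) * (1 - (t ^ (p - 1) * t) ^ 2) := by ring
    rw [e1, e2]
    exact this

/-- The two mixed inequalities. -/
lemma mixed {p t s : ℝ} (hp : 1 < p) (ht : 0 < t) (ht1 : t ≤ 1) (hs : 0 < s) :
    (s * t + s ^ (p - 1) * t ^ (p - 1)) * (1 - (t * t ^ (p - 1)) ^ 2) +
      (t * t ^ (p - 1) + s * s ^ (p - 1)) * (|t - t ^ (p - 1)| * (t + t ^ (p - 1))) ≤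
      (1 + s * s ^ (p - 1)) * (t + t ^ (p - 1)) * (1 - (t * t ^ (p - 1)) ^ 2) ∧
    (s * t ^ (p - 1) + s ^ (p - 1) * t) * (1 - (t * t ^ (p - 1)) ^ 2) +
      (1 + t * t ^ (p - 1) * (s * s ^ (p - 1))) * (|t - t ^ (p - 1)| * (t + t ^ (p - 1))) ≤
      (1 + s * s ^ (p - 1)) * (t + t ^ (p - 1)) * (1 - (t * t ^ (p - 1)) ^ 2) := by
  have hB0 : 0 < t ^ (p - 1) := by positivity
  have hB1 : t ^ (p - 1) ≤ 1 := Real.rpow_le_one ht.le ht1 (by linarith)
  rcases le_total s 1 with h | h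
  · refine ⟨?_, L2' hp ht ht1 hs h⟩
    exact L1 ht.le ht1 hB0.le hB1 hs.le h (by positivity)
      (Real.rpow_le_one hs.le h (by linarith))
  · have hr : 0 < s⁻¹ := by positivity
    have hr1 : s⁻¹ ≤ 1 := inv_le_one_of_one_le₀ h
    have hρ : s⁻¹ ^ (p - 1) = (s ^ (p - 1))⁻¹ := Real.inv_rpow hs.le _
    have hs1 : 0 < s ^ (p - 1) := by positivity
    have hss : 0 ≤ s * s ^ (p - 1) := by positivity
    have h1 := mul_le_mul_of_nonneg_left (L2' hp ht ht1 hr hr1) hss
    have h2 := mul_le_mul_of_nonneg_left (L1 (A := t) (B := t ^ (p - 1)) (r := s⁻¹)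
      (ρ := s⁻¹ ^ (p - 1)) ht.le ht1 hB0.le hB1 hr.le hr1 (by positivity)
      (Real.rpow_le_one hr.le hr1 (by linarith))) hss
    rw [hρ] at h1 h2
    generalize t ^ (p - 1) = B at *
    generalize s ^ (p - 1) = σ at *
    have hsi : s * s⁻¹ = 1 := mul_inv_cancel₀ hs.ne'
    have hσi : σ * σ⁻¹ = 1 := mul_inv_cancel₀ hs1.ne'
    generalize s⁻¹ = r at *
    generalize σ⁻¹ = ρ at *
    have g1 : s * σ * (r * B + ρ * t) = σ * B + s * t := by
      linear_combination (σ * B) * hsi + (s * t) * hσi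
    have g2 : s * σ * (1 + t * B * (r * ρ)) = s * σ + t * B := by
      linear_combination (t * B * σ * ρ) * hsi + (t * B) * hσi
    have g3 : s * σ * (1 + r * ρ) = s * σ + 1 := by
      linear_combination (σ * ρ) * hsi + hσi
    have g4 : s * σ * (r * t + ρ * B) = σ * t + s * B := by
      linear_combination (σ * t) * hsi + (s * B) * hσi
    have g5 : s * σ * (t * B + r * ρ) = t * B * (s * σ) + 1 := by
      linear_combination (σ * ρ) * hsi + hσi
    generalize |t - B| * (t + B) = E at *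
    generalize 1 - (t * B) ^ 2 = D at *
    constructor
    · calc (s * t + σ * B) * D + (t * B + s * σ) * E
          = (s * σ * (r * B + ρ * t)) * D + (s * σ * (1 + t * B * (r * ρ))) * E := by
            rw [g1, g2]; ring
        _ = s * σ * ((r * B + ρ * t) * D + (1 + t * B * (r * ρ)) * E) := by ring
        _ ≤ s * σ * ((1 + r * ρ) * (t + B) * D) := h1
        _ = (s * σ * (1 + r * ρ)) * (t + B) * D := by ring
        _ = (1 + s * σ) * (t + B) * D := by rw [g3]; ring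
    · calc (s * B + σ * t) * D + (1 + t * B * (s * σ)) * E
          = (s * σ * (r * t + ρ * B)) * D + (s * σ * (t * B + r * ρ)) * E := by
            rw [g4, g5]; ring
        _ = s * σ * ((r * t + ρ * B) * D + (t * B + r * ρ) * E) := by ring
        _ ≤ s * σ * ((1 + r * ρ) * (t + B) * D) := h2
        _ = (s * σ * (1 + r * ρ)) * (t + B) * D := by ring
        _ = (1 + s * σ) * (t + B) * D := by rw [g3]; ring

/-- Two-term maximum bound. -/
lemma two_term {P Q P' Q' x1 y1 x2 y2 V K : ℝ} (hP : 0 ≤ P) (hQ : 0 ≤ Q) (hP' : 0 ≤ P')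
    (hQ' : 0 ≤ Q') (h1 : Q + P ≤ V) (h2 : Q' + P' ≤ V) (hx1 : 0 ≤ x1) (hy1 : 0 ≤ y1)
    (hx2 : 0 ≤ x2) (hy2 : 0 ≤ y2)
    (i : x1 + x2 ≤ K) (ii : y1 + y2 ≤ K) (iii : x1 + y2 ≤ K) (iv : x2 + y1 ≤ K) :
    P * x1 + Q * y1 + (P' * x2 + Q' * y2) ≤ V * K := by
  have hV : 0 ≤ V := by linarith
  have a1 : P * x1 + Q * y1 ≤ V * max x1 y1 := by
    have m1 := mul_le_mul_of_nonneg_left (le_max_left x1 y1) hP
    have m2 := mul_le_mul_of_nonneg_left (le_max_right x1 y1) hQ
    have m3 := mul_le_mul_of_nonneg_right h1 (hx1.trans (le_max_left x1 y1))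
    linarith
  have a2 : P' * x2 + Q' * y2 ≤ V * max x2 y2 := by
    have m1 := mul_le_mul_of_nonneg_left (le_max_left x2 y2) hP'
    have m2 := mul_le_mul_of_nonneg_left (le_max_right x2 y2) hQ'
    have m3 := mul_le_mul_of_nonneg_right h2 (hx2.trans (le_max_left x2 y2))
    linarith
  have a3 : max x1 y1 + max x2 y2 ≤ K := by
    rcases max_choice x1 y1 with h | h <;> rcases max_choice x2 y2 with h' | h' <;>
      rw [h, h'] <;> linarith
  have := mul_le_mul_of_nonneg_left a3 hV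
  linarith

/-- The two-dimensional estimate, normalised. -/
lemma stepD {p t s v a b c d : ℝ} (hp : 1 < p) (ht : 0 < t) (ht1 : t < 1)
    (hne : t ≠ t ^ (p - 1)) (hs : 0 < s)
    (h1 : |c + t ^ p * d| + |t * a + t ^ (p - 1) * b| ≤ v * (1 + t ^ p))
    (h2 : |t ^ p * c + d| + |t ^ (p - 1) * a + t * b| ≤ v * (1 + t ^ p)) :
    (c + s * a - s ^ (p - 1) * b - s ^ p * d) * |t - t ^ (p - 1)| ≤
      v * (1 + t ^ p) * (1 + s ^ p) := by
  obtain ⟨M1, M2⟩ := mixed hp ht ht1.le hs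
  have etp : t ^ p = t * t ^ (p - 1) := by rw [Real.rpow_sub_one ht.ne']; field_simp
  have esp : s ^ p = s * s ^ (p - 1) := by rw [Real.rpow_sub_one hs.ne']; field_simp
  have hB0 : 0 < t ^ (p - 1) := by positivity
  have hB1 : t ^ (p - 1) < 1 := Real.rpow_lt_one ht.le ht1 (by linarith)
  have hσ0 : 0 < s ^ (p - 1) := by positivity
  have hσs : s + s ^ (p - 1) ≤ 1 + s * s ^ (p - 1) := by
    rcases le_total s 1 with h | h
    · have := Real.rpow_le_one hs.le h (show 0 ≤ p - 1 by linarith)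
      nlinarith [mul_nonneg (sub_nonneg.mpr h) (sub_nonneg.mpr this)]
    · have := Real.one_le_rpow h (show 0 ≤ p - 1 by linarith)
      nlinarith [mul_nonneg (sub_nonneg.mpr h) (sub_nonneg.mpr this)]
  rw [etp] at h1 h2 ⊢
  rw [esp]
  generalize t ^ (p - 1) = B at *
  generalize s ^ (p - 1) = σ at *
  have he1 := abs_sub_le_one_sub ht.le ht1.le hB0.le hB1.le
  have he0 : 0 < |t - B| := abs_pos.mpr (sub_ne_zero.mpr hne)
  have hτ1 : t * B < 1 := by nlinarith
  have hτ0 : 0 < t * B := by positivity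
  have hD : 0 < 1 - (t * B) ^ 2 := by nlinarith
  have hW : 0 < t + B := by positivity
  have hss : 0 < s * σ := by positivity
  have q1 : (|t - B| * (t + B)) * (s * a - σ * b) ≤
      |t * a + B * b| * (s * t + σ * B) + |B * a + t * b| * (s * B + σ * t) := by
    have e1 : (t ^ 2 - B ^ 2) * (s * a - σ * b) =
        (t * a + B * b) * (s * t + σ * B) - (B * a + t * b) * (s * B + σ * t) := by ring
    have e2 : |t - B| * (t + B) = |t ^ 2 - B ^ 2| := by
      have : t ^ 2 - B ^ 2 = (t - B) * (t + B) := by ring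
      rw [this, abs_mul, abs_of_pos hW]
    rw [e2]
    calc |t ^ 2 - B ^ 2| * (s * a - σ * b) ≤ |t ^ 2 - B ^ 2| * |s * a - σ * b| :=
          mul_le_mul_of_nonneg_left (le_abs_self _) (abs_nonneg _)
      _ = |(t * a + B * b) * (s * t + σ * B) - (B * a + t * b) * (s * B + σ * t)| := by
          rw [← abs_mul, e1]
      _ ≤ |(t * a + B * b) * (s * t + σ * B)| + |(B * a + t * b) * (s * B + σ * t)| :=
          abs_sub _ _
      _ = _ := by
          rw [abs_mul, abs_mul, abs_of_pos (by positivity : 0 < s * t + σ * B),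
            abs_of_pos (by positivity : 0 < s * B + σ * t)]
  have q2 : (1 - (t * B) ^ 2) * (c - s * σ * d) ≤
      |c + t * B * d| * (1 + t * B * (s * σ)) + |t * B * c + d| * (t * B + s * σ) := by
    have e1 : (1 - (t * B) ^ 2) * (c - s * σ * d) =
        (c + t * B * d) * (1 + t * B * (s * σ)) - (t * B * c + d) * (t * B + s * σ) := by ring
    rw [e1]
    have f1 := mul_le_mul_of_nonneg_right (le_abs_self (c + t * B * d))
      (by positivity : 0 ≤ 1 + t * B * (s * σ))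
    have f2 := mul_le_mul_of_nonneg_right (neg_le_abs (t * B * c + d))
      (by positivity : 0 ≤ t * B + s * σ)
    linarith
  have T := two_term (P := |t * a + B * b|) (Q := |c + t * B * d|) (P' := |B * a + t * b|)
    (Q' := |t * B * c + d|) (x1 := (1 - (t * B) ^ 2) * (s * t + σ * B))
    (y1 := (|t - B| * (t + B)) * (1 + t * B * (s * σ)))
    (x2 := (1 - (t * B) ^ 2) * (s * B + σ * t))
    (y2 := (|t - B| * (t + B)) * (t * B + s * σ))
    (V := v * (1 + t * B)) (K := (1 + s * σ) * (t + B) * (1 - (t * B) ^ 2))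
    (abs_nonneg _) (abs_nonneg _) (abs_nonneg _) (abs_nonneg _) h1 h2
    (by positivity) (by positivity) (by positivity) (by positivity)
    (by
      have := mul_le_mul_of_nonneg_left hσs (mul_nonneg hD.le hW.le)
      nlinarith)
    (by
      have : |t - B| * ((t + B) * ((1 + t * B) * (1 + s * σ))) ≤
          (1 - t * B) * ((t + B) * ((1 + t * B) * (1 + s * σ))) :=
        mul_le_mul_of_nonneg_right he1 (by positivity)
      nlinarith)
    (by linarith) (by linarith)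
  have hWD : 0 < (t + B) * (1 - (t * B) ^ 2) := by positivity
  refine le_of_mul_le_mul_left ?_ hWD
  have r1 := mul_le_mul_of_nonneg_left q1 hD.le
  have r2 := mul_le_mul_of_nonneg_left q2 (by positivity : 0 ≤ |t - B| * (t + B))
  calc (t + B) * (1 - (t * B) ^ 2) * ((c + s * a - σ * b - s * σ * d) * |t - B|)
      = (1 - (t * B) ^ 2) * ((|t - B| * (t + B)) * (s * a - σ * b)) +
        (|t - B| * (t + B)) * ((1 - (t * B) ^ 2) * (c - s * σ * d)) := by ring
    _ ≤ (1 - (t * B) ^ 2) * (|t * a + B * b| * (s * t + σ * B) +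
          |B * a + t * b| * (s * B + σ * t)) +
        (|t - B| * (t + B)) * (|c + t * B * d| * (1 + t * B * (s * σ)) +
          |t * B * c + d| * (t * B + s * σ)) := add_le_add r1 r2
    _ = |t * a + B * b| * ((1 - (t * B) ^ 2) * (s * t + σ * B)) +
        |c + t * B * d| * ((|t - B| * (t + B)) * (1 + t * B * (s * σ))) +
        (|B * a + t * b| * ((1 - (t * B) ^ 2) * (s * B + σ * t)) +
        |t * B * c + d| * ((|t - B| * (t + B)) * (t * B + s * σ))) := by ring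
    _ ≤ v * (1 + t * B) * ((1 + s * σ) * (t + B) * (1 - (t * B) ^ 2)) := T
    _ = (t + B) * (1 - (t * B) ^ 2) * (v * (1 + t * B) * (1 + s * σ)) := by ring

end Pool.Agent.H148R3.NK
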