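import Pool.Agent.H148R3.NK1

set_option autoImplicit false

namespace Pool.Agent.H148R3.NK

lemma stepC_pos {p t v a b c d α β : ℝ} (hp : 1 < p) (ht : 0 < t) (ht1 : t < 1)
    (hne : t ≠ t ^ (p - 1)) (hα : 0 < α) (hβ : 0 < β)
    (h : ∀ l : ℝ, 0 < l → |c + l ^ p * d| + |l * a + l ^ (p - 1) * b| ≤ v * (α + l ^ p * β)) :
    (c + a - b - d) * |t - t ^ (p - 1)| ≤ v * (1 + t ^ p) * (α + β) := by
  have hp0 : 0 < p := by linarith
  set s := (β / α) ^ (1 / p) with hs
  have hs0 : 0 < s := by positivity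
  have hsp : s ^ p = β / α := by
    rw [hs, ← Real.rpow_mul (by positivity), one_div_mul_cancel hp0.ne', Real.rpow_one]
  have hsp0 : 0 < s ^ p := by positivity
  have hsq0 : 0 < s ^ (p - 1) := by positivity
  have hβe : β = s ^ p * α := by rw [hsp]; field_simp
  have hc : c = α * (c / α) := by field_simp
  have ha : a = α * (s * (a / (s * α))) := by field_simp
  have hb : b = α * (s ^ (p - 1) * (b / (s ^ (p - 1) * α))) := by field_simp
  have hd : d = α * (s ^ p * (d / (s ^ p * α))) := by field_simp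
  generalize c / α = c' at hc
  generalize a / (s * α) = a' at ha
  generalize b / (s ^ (p - 1) * α) = b' at hb
  generalize d / (s ^ p * α) = d' at hd
  subst hc ha hb hd
  rw [hβe] at h ⊢
  have k1 : (t / s) ^ p * s ^ p = t ^ p := by
    rw [← Real.mul_rpow (by positivity) hs0.le, div_mul_cancel₀ _ hs0.ne']
  have k2 : (t / s) ^ (p - 1) * s ^ (p - 1) = t ^ (p - 1) := by
    rw [← Real.mul_rpow (by positivity) hs0.le, div_mul_cancel₀ _ hs0.ne']
  have k3 : t / s * s = t := div_mul_cancel₀ _ hs0.ne'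
  have m1 : (1 / (t * s)) ^ p * s ^ p = 1 / t ^ p := by
    rw [← Real.mul_rpow (by positivity) hs0.le]
    have : 1 / (t * s) * s = 1 / t := by field_simp
    rw [this, Real.div_rpow zero_le_one ht.le, Real.one_rpow]
  have m2 : (1 / (t * s)) ^ (p - 1) * s ^ (p - 1) = 1 / t ^ (p - 1) := by
    rw [← Real.mul_rpow (by positivity) hs0.le]
    have : 1 / (t * s) * s = 1 / t := by field_simp
    rw [this, Real.div_rpow zero_le_one ht.le, Real.one_rpow]
  have m3 : 1 / (t * s) * s = 1 / t := by field_simp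
  have etp : t ^ p = t * t ^ (p - 1) := by rw [Real.rpow_sub_one ht.ne']; field_simp
  have htp0 : 0 < t ^ p := by positivity
  have htq0 : 0 < t ^ (p - 1) := by positivity
  have H1 := h (t / s) (by positivity)
  have H2 := h (1 / (t * s)) (by positivity)
  have e1 : α * c' + (t / s) ^ p * (α * (s ^ p * d')) = α * (c' + t ^ p * d') := by
    rw [← k1]; ring
  have e2 : t / s * (α * (s * a')) + (t / s) ^ (p - 1) * (α * (s ^ (p - 1) * b')) =
      α * (t * a' + t ^ (p - 1) * b') := by
    linear_combination (α * a') * k3 + (α * b') * k2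
  have e3 : v * (α + (t / s) ^ p * (s ^ p * α)) = α * (v * (1 + t ^ p)) := by
    linear_combination (v * α) * k1
  have f1 : α * c' + (1 / (t * s)) ^ p * (α * (s ^ p * d')) = α / t ^ p * (t ^ p * c' + d') := by
    have : α * c' + (1 / (t * s)) ^ p * (α * (s ^ p * d')) = α * c' + α * d' * (1 / t ^ p) := by
      rw [← m1]; ring
    rw [this]; field_simp
  have f2 : 1 / (t * s) * (α * (s * a')) + (1 / (t * s)) ^ (p - 1) * (α * (s ^ (p - 1) * b')) =
      α / t ^ p * (t ^ (p - 1) * a' + t * b') := by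
    have : 1 / (t * s) * (α * (s * a')) + (1 / (t * s)) ^ (p - 1) * (α * (s ^ (p - 1) * b')) =
        α * a' * (1 / t) + α * b' * (1 / t ^ (p - 1)) := by
      linear_combination (α * a') * m3 + (α * b') * m2
    rw [this, etp]; field_simp
  have f3 : v * (α + (1 / (t * s)) ^ p * (s ^ p * α)) = α / t ^ p * (v * (1 + t ^ p)) := by
    have : v * (α + (1 / (t * s)) ^ p * (s ^ p * α)) = v * α + v * α * (1 / t ^ p) := by
      linear_combination (v * α) * m1
    rw [this]; field_simp; ring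
  rw [e1, e2, e3, abs_mul, abs_mul, abs_of_pos hα, ← mul_add] at H1
  rw [f1, f2, f3, abs_mul, abs_mul, abs_of_pos (by positivity : 0 < α / t ^ p), ← mul_add] at H2
  have H1' := le_of_mul_le_mul_left H1 hα
  have H2' := le_of_mul_le_mul_left H2 (by positivity)
  have := stepD hp ht ht1 hne hs0 H1' H2'
  have := mul_le_mul_of_nonneg_left this hα.le
  nlinarith

lemma stepC {p t v a b c d α β : ℝ} (hp : 1 < p) (ht : 0 < t) (ht1 : t < 1)
    (hne : t ≠ t ^ (p - 1)) (hα : 0 ≤ α) (hβ : 0 ≤ β) (hv : 0 ≤ v)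
    (h : ∀ l : ℝ, 0 < l → |c + l ^ p * d| + |l * a + l ^ (p - 1) * b| ≤ v * (α + l ^ p * β)) :
    (c + a - b - d) * |t - t ^ (p - 1)| ≤ v * (1 + t ^ p) * (α + β) := by
  refine le_of_forall_pos_le_add fun ε hε => ?_
  set K := v * (1 + t ^ p) with hK
  have hK0 : 0 ≤ K := by positivity
  set η := ε / (2 * (K + 1)) with hη
  have hη0 : 0 < η := by positivity
  have := stepC_pos (α := α + η) (β := β + η) hp ht ht1 hne (by linarith) (by linarith)
    (fun l hl => (h l hl).trans (by
      apply mul_le_mul_of_nonneg_left _ hv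
      have : 0 ≤ l ^ p * η := by positivity
      nlinarith))
  rw [← hK] at this
  have h2 : 2 * (K + 1) * η = ε := by rw [hη]; field_simp
  nlinarith

/-- `|x|^{p-2} x`. -/
noncomputable def J (p x : ℝ) : ℝ := |x| ^ (p - 2) * x

lemma J_mul (p x y : ℝ) : J p (x * y) = J p x * J p y := by
  unfold J
  rw [abs_mul, Real.mul_rpow (abs_nonneg _) (abs_nonneg _)]; ring

lemma J_pos {p l : ℝ} (hl : 0 < l) : J p l = l ^ (p - 1) := by
  unfold J
  rw [abs_of_pos hl, ← Real.rpow_add_one hl.ne']; congr 1; ring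

lemma J_neg (p l : ℝ) : J p (-l) = -J p l := by
  unfold J; rw [abs_neg]; ring

lemma abs_J {p : ℝ} (hp : 1 < p) (x : ℝ) : |J p x| = |x| ^ (p - 1) := by
  rcases eq_or_ne x 0 with h | h
  · rw [h]; unfold J
    rw [mul_zero, abs_zero, Real.zero_rpow (by linarith)]
  · have := abs_pos.mpr h
    unfold J
    rw [abs_mul, abs_of_nonneg (by positivity : 0 ≤ |x| ^ (p - 2)),
      ← Real.rpow_add_one this.ne']; congr 1; ring

lemma J_self {p : ℝ} (hp : 1 < p) (x : ℝ) : J p x * x = |x| ^ p := by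
  rcases eq_or_ne x 0 with h | h
  · rw [h, mul_zero, abs_zero, Real.zero_rpow (by linarith)]
  · have := abs_pos.mpr h
    unfold J
    rw [mul_assoc, ← pow_two, ← sq_abs, ← Real.rpow_natCast |x| 2, ← Real.rpow_add this]
    congr 1; push_cast; ring

lemma abs_add_abs_le {X Y K : ℝ} (h1 : |X + Y| ≤ K) (h2 : |X - Y| ≤ K) : |X| + |Y| ≤ K := by
  rw [abs_le] at h1 h2
  rcases abs_cases X with h | h <;> rcases abs_cases Y with h' | h' <;> linarith

variable {ι : Type*}

/-- Step B: from the numerical radius to the absolute numerical radius. -/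
theorem stepB {p t v : ℝ} (hp : 1 < p) (ht : 0 < t) (ht1 : t < 1) (hne : t ≠ t ^ (p - 1))
    (hv : 0 ≤ v) (F : Finset ι) (A : ι → ι → ℝ)
    (HA : ∀ x : ι → ℝ, |∑ i ∈ F, J p (x i) * ∑ j ∈ F, A i j * x j| ≤ v * ∑ i ∈ F, |x i| ^ p)
    (x : ι → ℝ) :
    (∑ i ∈ F, |x i| ^ (p - 1) * |∑ j ∈ F, A i j * x j|) * |t - t ^ (p - 1)| ≤
      v * (1 + t ^ p) * ∑ i ∈ F, |x i| ^ p := by
  classical
  set L : ι → ℝ := fun i => ∑ j ∈ F, A i j * x j with hL
  set S := F.filter (fun i => 0 ≤ x i * L i) with hS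
  set S' := F.filter (fun i => ¬ 0 ≤ x i * L i) with hS'
  have hsplit : ∀ f : ι → ℝ, ∑ i ∈ F, f i = ∑ i ∈ S, f i + ∑ i ∈ S', f i := fun f =>
    (Finset.sum_filter_add_sum_filter_not F _ f).symm
  set c := ∑ i ∈ S, J p (x i) * ∑ j ∈ S, A i j * x j with hc
  set a := ∑ i ∈ S, J p (x i) * ∑ j ∈ S', A i j * x j with ha
  set b := ∑ i ∈ S', J p (x i) * ∑ j ∈ S, A i j * x j with hb
  set d := ∑ i ∈ S', J p (x i) * ∑ j ∈ S', A i j * x j with hd
  have main : ∀ μ : ℝ, |c + μ * a + J p μ * b + J p μ * μ * d| ≤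
      v * (∑ i ∈ S, |x i| ^ p + |μ| ^ p * ∑ i ∈ S', |x i| ^ p) := by
    intro μ
    have h := HA (fun i => if 0 ≤ x i * L i then x i else μ * x i)
    have inS : ∀ i ∈ S, (if 0 ≤ x i * L i then x i else μ * x i) = x i := fun i hi =>
      if_pos (Finset.mem_filter.mp hi).2
    have inS' : ∀ i ∈ S', (if 0 ≤ x i * L i then x i else μ * x i) = μ * x i := fun i hi =>
      if_neg (Finset.mem_filter.mp hi).2
    have inner : ∀ i, ∑ j ∈ F, A i j * (if 0 ≤ x j * L j then x j else μ * x j) =
        ∑ j ∈ S, A i j * x j + μ * ∑ j ∈ S', A i j * x j := by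
      intro i
      rw [hsplit, Finset.mul_sum]
      congr 1
      · exact Finset.sum_congr rfl fun j hj => by rw [inS j hj]
      · exact Finset.sum_congr rfl fun j hj => by rw [inS' j hj]; ring
    have e1 : ∑ i ∈ F, J p (if 0 ≤ x i * L i then x i else μ * x i) *
        ∑ j ∈ F, A i j * (if 0 ≤ x j * L j then x j else μ * x j) =
        c + μ * a + J p μ * b + J p μ * μ * d := by
      simp only [inner]
      rw [hsplit]
      have g1 : ∑ i ∈ S, J p (if 0 ≤ x i * L i then x i else μ * x i) *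
          (∑ j ∈ S, A i j * x j + μ * ∑ j ∈ S', A i j * x j) = c + μ * a := by
        rw [hc, ha, Finset.mul_sum, ← Finset.sum_add_distrib]
        exact Finset.sum_congr rfl fun i hi => by rw [inS i hi]; ring
      have g2 : ∑ i ∈ S', J p (if 0 ≤ x i * L i then x i else μ * x i) *
          (∑ j ∈ S, A i j * x j + μ * ∑ j ∈ S', A i j * x j) = J p μ * b + J p μ * μ * d := by
        rw [hb, hd, Finset.mul_sum, Finset.mul_sum, ← Finset.sum_add_distrib]
        exact Finset.sum_congr rfl fun i hi => by rw [inS' i hi, J_mul]; ring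
      rw [g1, g2]; ring
    have e2 : ∑ i ∈ F, |if 0 ≤ x i * L i then x i else μ * x i| ^ p =
        ∑ i ∈ S, |x i| ^ p + |μ| ^ p * ∑ i ∈ S', |x i| ^ p := by
      rw [hsplit, Finset.mul_sum]
      congr 1
      · exact Finset.sum_congr rfl fun i hi => by rw [inS i hi]
      · exact Finset.sum_congr rfl fun i hi => by
          rw [inS' i hi, abs_mul, Real.mul_rpow (abs_nonneg _) (abs_nonneg _)]
    rw [e1, e2] at h
    exact h
  have hα : 0 ≤ ∑ i ∈ S, |x i| ^ p := Finset.sum_nonneg fun i _ => by positivity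
  have hβ : 0 ≤ ∑ i ∈ S', |x i| ^ p := Finset.sum_nonneg fun i _ => by positivity
  have hC := stepC (a := a) (b := b) (c := c) (d := d) hp ht ht1 hne hα hβ hv (by
    intro l hl
    have h1 := main l
    have h2 := main (-l)
    have hll : l ^ (p - 1) * l = l ^ p := by
      rw [← Real.rpow_add_one hl.ne']; congr 1; ring
    rw [J_neg, J_pos hl, abs_neg, abs_of_pos hl] at h2
    rw [J_pos hl, abs_of_pos hl] at h1
    apply abs_add_abs_le
    · convert h1 using 2
      rw [← hll]; ring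
    · convert h2 using 2
      rw [← hll]; ring)
  have hval : ∑ i ∈ F, |x i| ^ (p - 1) * |L i| = c + a - b - d := by
    rw [hsplit]
    have g1 : ∑ i ∈ S, |x i| ^ (p - 1) * |L i| = c + a := by
      rw [hc, ha, ← Finset.sum_add_distrib]
      refine Finset.sum_congr rfl fun i hi => ?_
      rw [← mul_add, ← hsplit (fun j => A i j * x j), ← abs_J hp, ← abs_mul]
      have h0 : 0 ≤ x i * L i := (Finset.mem_filter.mp hi).2
      have : J p (x i) * L i = |x i| ^ (p - 2) * (x i * L i) := by unfold J; ring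
      rw [show (∑ j ∈ F, A i j * x j) = L i from rfl, abs_of_nonneg]
      rw [this]; positivity
    have g2 : ∑ i ∈ S', |x i| ^ (p - 1) * |L i| = -b - d := by
      rw [hb, hd, ← Finset.sum_neg_distrib, ← Finset.sum_sub_distrib]
      refine Finset.sum_congr rfl fun i hi => ?_
      have h0 : x i * L i ≤ 0 := (not_le.mp (Finset.mem_filter.mp hi).2).le
      have : J p (x i) * L i = |x i| ^ (p - 2) * (x i * L i) := by unfold J; ring
      have e : L i = ∑ j ∈ S, A i j * x j + ∑ j ∈ S', A i j * x j := hsplit _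
      rw [← abs_J hp, ← abs_mul, abs_of_nonpos, e]
      · ring
      · rw [this]; exact mul_nonpos_of_nonneg_of_nonpos (by positivity) h0
    rw [g1, g2]; ring
  rw [hval, hsplit (fun i => |x i| ^ p)]
  exact hC

end Pool.Agent.H148R3.NK
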