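import Pool.Agent.H148R3.NK2

set_option autoImplicit false

namespace Pool.Agent.H148R3.NK

variable {ι : Type*}

/-- A convex function on a box is maximal at a point all of whose coordinates are extreme. -/
lemma extreme [DecidableEq ι] (F : Finset ι) (A : ι → ι → ℝ) (w m : ι → ℝ) (hw : ∀ i, 0 ≤ w i)
    (x : ι → ℝ) (hx : ∀ i ∈ F, |x i| ≤ m i) (G : Finset ι) (hG : G ⊆ F) :
    ∃ z : ι → ℝ, (∀ i ∈ G, |z i| = m i) ∧ (∀ i, i ∉ G → z i = x i) ∧
      ∑ i ∈ F, w i * |∑ j ∈ F, A i j * x j| ≤ ∑ i ∈ F, w i * |∑ j ∈ F, A i j * z j| := by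
  induction G using Finset.induction_on with
  | empty => exact ⟨x, by simp, fun _ _ => rfl, le_rfl⟩
  | @insert g G hg ih =>
    obtain ⟨z, h1, h2, h3⟩ := ih ((Finset.subset_insert g G).trans hG)
    have hgF : g ∈ F := hG (Finset.mem_insert_self g G)
    have hzg : z g = x g := h2 g hg
    have hm : |z g| ≤ m g := by rw [hzg]; exact hx g hgF
    have hm0 : 0 ≤ m g := (abs_nonneg _).trans hm
    obtain ⟨θ, hθ0, hθ1, hθ⟩ : ∃ θ : ℝ, 0 ≤ θ ∧ θ ≤ 1 ∧ z g = θ * m g + (1 - θ) * (-(m g)) := by
      rcases hm0.eq_or_lt with h | h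
      · refine ⟨0, le_rfl, zero_le_one, ?_⟩
        rw [← h] at hm
        have : z g = 0 := abs_nonpos_iff.mp hm
        rw [this, ← h]; ring
      · refine ⟨(1 + z g / m g) / 2, ?_, ?_, by field_simp; ring⟩
        · have : -1 ≤ z g / m g := by rw [le_div_iff₀ h]; linarith [(abs_le.mp hm).1]
          linarith
        · have : z g / m g ≤ 1 := by rw [div_le_one h]; exact (abs_le.mp hm).2
          linarith
    have hz : ∀ j, z j = θ * Function.update z g (m g) j +
        (1 - θ) * Function.update z g (-(m g)) j := by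
      intro j
      by_cases hj : j = g
      · rw [hj, Function.update_self, Function.update_self]; exact hθ
      · rw [Function.update_of_ne hj, Function.update_of_ne hj]; ring
    have hconv : ∑ i ∈ F, w i * |∑ j ∈ F, A i j * z j| ≤
        θ * ∑ i ∈ F, w i * |∑ j ∈ F, A i j * Function.update z g (m g) j| +
        (1 - θ) * ∑ i ∈ F, w i * |∑ j ∈ F, A i j * Function.update z g (-(m g)) j| := by
      rw [Finset.mul_sum, Finset.mul_sum, ← Finset.sum_add_distrib]
      refine Finset.sum_le_sum fun i _ => ?_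
      have e : ∑ j ∈ F, A i j * z j = θ * ∑ j ∈ F, A i j * Function.update z g (m g) j +
          (1 - θ) * ∑ j ∈ F, A i j * Function.update z g (-(m g)) j := by
        rw [Finset.mul_sum, Finset.mul_sum, ← Finset.sum_add_distrib]
        exact Finset.sum_congr rfl fun j _ => by rw [hz j]; simp only [← hz j]; rw [hz j]; ring
      rw [e]
      have h4 := abs_add_le (θ * ∑ j ∈ F, A i j * Function.update z g (m g) j)
        ((1 - θ) * ∑ j ∈ F, A i j * Function.update z g (-(m g)) j)
      rw [abs_mul, abs_mul, abs_of_nonneg hθ0, abs_of_nonneg (sub_nonneg.mpr hθ1)] at h4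
      have := mul_le_mul_of_nonneg_left h4 (hw i)
      linarith
    have hmax : (∑ i ∈ F, w i * |∑ j ∈ F, A i j * z j| ≤
        ∑ i ∈ F, w i * |∑ j ∈ F, A i j * Function.update z g (m g) j|) ∨
        (∑ i ∈ F, w i * |∑ j ∈ F, A i j * z j| ≤
        ∑ i ∈ F, w i * |∑ j ∈ F, A i j * Function.update z g (-(m g)) j|) := by
      by_contra hcon
      push Not at hcon
      obtain ⟨c1, c2⟩ := hcon
      rcases hθ0.eq_or_lt with h | h
      · rw [← h] at hconv
        linarith
      · have := mul_lt_mul_of_pos_left c1 h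
        have := mul_le_mul_of_nonneg_left c2.le (sub_nonneg.mpr hθ1)
        linarith
    have hne : ∀ i, i ∉ insert g G → i ≠ g ∧ i ∉ G := fun i hi =>
      ⟨fun h => hi (h ▸ Finset.mem_insert_self g G), fun h => hi (Finset.mem_insert_of_mem h)⟩
    rcases hmax with h | h
    · refine ⟨Function.update z g (m g), ?_, ?_, h3.trans h⟩
      · intro i hi
        rcases Finset.mem_insert.mp hi with rfl | hi'
        · rw [Function.update_self, abs_of_nonneg hm0]
        · have : i ≠ g := fun h => hg (h ▸ hi')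
          rw [Function.update_of_ne this]; exact h1 i hi'
      · intro i hi
        rw [Function.update_of_ne (hne i hi).1]; exact h2 i (hne i hi).2
    · refine ⟨Function.update z g (-(m g)), ?_, ?_, h3.trans h⟩
      · intro i hi
        rcases Finset.mem_insert.mp hi with rfl | hi'
        · rw [Function.update_self, abs_neg, abs_of_nonneg hm0]
        · have : i ≠ g := fun h => hg (h ▸ hi')
          rw [Function.update_of_ne this]; exact h1 i hi'
      · intro i hi
        rw [Function.update_of_ne (hne i hi).1]; exact h2 i (hne i hi).2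

/-- Step E: from the absolute numerical radius to the norm. -/
theorem stepE {p V τ : ℝ} (hp : 1 < p) (hτ : 0 < τ) (hV : 0 ≤ V) (F : Finset ι) (A : ι → ι → ℝ)
    (HB : ∀ z : ι → ℝ, ∑ i ∈ F, |z i| ^ (p - 1) * |∑ j ∈ F, A i j * z j| ≤
      V * ∑ i ∈ F, |z i| ^ p) (x : ι → ℝ) :
    τ ^ (p - 1) * (∑ i ∈ F, |∑ j ∈ F, A i j * x j| ^ p) ^ (1 / p) ≤
      V * (1 + τ ^ p) * (∑ i ∈ F, |x i| ^ p) ^ (1 / p) := by
  classical
  have hp0 : 0 < p := by linarith
  set y : ι → ℝ := fun i => ∑ j ∈ F, A i j * x j with hy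
  set N := (∑ i ∈ F, |y i| ^ p) ^ (1 / p) with hN
  set n := (∑ i ∈ F, |x i| ^ p) ^ (1 / p) with hn
  have s1 : 0 ≤ ∑ i ∈ F, |y i| ^ p := Finset.sum_nonneg fun i _ => by positivity
  have s2 : 0 ≤ ∑ i ∈ F, |x i| ^ p := Finset.sum_nonneg fun i _ => by positivity
  have hNp : N ^ p = ∑ i ∈ F, |y i| ^ p := by
    rw [hN, ← Real.rpow_mul s1, one_div_mul_cancel hp0.ne', Real.rpow_one]
  have hnp : n ^ p = ∑ i ∈ F, |x i| ^ p := by
    rw [hn, ← Real.rpow_mul s2, one_div_mul_cancel hp0.ne', Real.rpow_one]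
  have hN0 : 0 ≤ N := by positivity
  have hn0 : 0 ≤ n := by positivity
  change τ ^ (p - 1) * N ≤ V * (1 + τ ^ p) * n
  rcases hN0.eq_or_lt with h | hNpos
  · rw [← h, mul_zero]; positivity
  have hnpos : 0 < n := by
    rcases hn0.eq_or_lt with h | h
    · exfalso
      rw [← h, Real.zero_rpow hp0.ne'] at hnp
      have hx0 : ∀ i ∈ F, x i = 0 := by
        intro i hi
        have := (Finset.sum_eq_zero_iff_of_nonneg (fun i _ => by positivity)).mp hnp.symm i hi
        have h2 := (Real.rpow_eq_zero (abs_nonneg _) hp0.ne').mp this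
        exact abs_eq_zero.mp h2
      have hy0 : ∀ i, y i = 0 := fun i =>
        Finset.sum_eq_zero fun j hj => by rw [hx0 j hj, mul_zero]
      have : N ^ p = 0 := by
        rw [hNp]
        exact Finset.sum_eq_zero fun i _ => by rw [hy0 i, abs_zero, Real.zero_rpow hp0.ne']
      have := Real.rpow_pos_of_pos hNpos p
      linarith
    · exact h
  set l := τ * n / N with hl
  have hl0 : 0 < l := by positivity
  obtain ⟨z, z1, -, z3⟩ := extreme F A (fun i => max |x i| (l * |y i|) ^ (p - 1))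
    (fun i => max |x i| (l * |y i|)) (fun i => by positivity) x (fun i _ => le_max_left _ _) F
    (Finset.Subset.refl F)
  have k1 : ∑ i ∈ F, max |x i| (l * |y i|) ^ (p - 1) * |∑ j ∈ F, A i j * z j| ≤
      V * ∑ i ∈ F, max |x i| (l * |y i|) ^ p := by
    have := HB z
    rw [Finset.sum_congr rfl fun i hi => by rw [z1 i hi]] at this
    rw [Finset.sum_congr (s₁ := F) (f := fun i => |z i| ^ p) rfl fun i hi => by rw [z1 i hi]] at this
    exact this
  have k2 : ∑ i ∈ F, max |x i| (l * |y i|) ^ p ≤ n ^ p + l ^ p * N ^ p := by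
    rw [hnp, hNp, Finset.mul_sum, ← Finset.sum_add_distrib]
    refine Finset.sum_le_sum fun i _ => ?_
    rw [← Real.mul_rpow hl0.le (abs_nonneg _)]
    have a1 : 0 ≤ |x i| ^ p := by positivity
    have a2 : 0 ≤ (l * |y i|) ^ p := by positivity
    rcases max_choice |x i| (l * |y i|) with h | h <;> rw [h] <;> linarith
  have k3 : l ^ (p - 1) * N ^ p ≤
      ∑ i ∈ F, max |x i| (l * |y i|) ^ (p - 1) * |∑ j ∈ F, A i j * x j| := by
    rw [hNp, Finset.mul_sum]
    refine Finset.sum_le_sum fun i _ => ?_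
    have b1 : (l * |y i|) ^ (p - 1) ≤ max |x i| (l * |y i|) ^ (p - 1) :=
      Real.rpow_le_rpow (by positivity) (le_max_right _ _) (by linarith)
    have b2 := mul_le_mul_of_nonneg_right b1 (abs_nonneg (y i))
    refine le_trans (le_of_eq ?_) b2
    rw [Real.mul_rpow hl0.le (abs_nonneg _), mul_assoc]
    congr 1
    rcases (abs_nonneg (y i)).eq_or_lt with h | h
    · rw [← h, mul_zero, Real.zero_rpow hp0.ne']
    · rw [← Real.rpow_add_one h.ne']; congr 1; ring
  have hlp : l ^ p * N ^ p = τ ^ p * n ^ p := by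
    rw [← Real.mul_rpow hl0.le hN0, ← Real.mul_rpow hτ.le hn0, hl, div_mul_cancel₀ _ hNpos.ne']
  have hlq : l ^ (p - 1) * N ^ p = τ ^ (p - 1) * n ^ (p - 1) * N := by
    have : N ^ p = N ^ (p - 1) * N := by
      rw [← Real.rpow_add_one hNpos.ne']; congr 1; ring
    rw [this, ← mul_assoc, ← Real.mul_rpow hl0.le hN0, ← Real.mul_rpow hτ.le hn0, hl,
      div_mul_cancel₀ _ hNpos.ne']
  have hnq : n ^ p = n ^ (p - 1) * n := by
    rw [← Real.rpow_add_one hnpos.ne']; congr 1; ring
  have k4 : τ ^ (p - 1) * n ^ (p - 1) * N ≤ V * (n ^ p + τ ^ p * n ^ p) := by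
    rw [← hlq]
    refine k3.trans (z3.trans (k1.trans ?_))
    rw [← hlp]
    exact mul_le_mul_of_nonneg_left k2 hV
  rw [hnq] at k4
  have hnq0 : 0 < n ^ (p - 1) := by positivity
  refine le_of_mul_le_mul_left ?_ hnq0
  linarith

end Pool.Agent.H148R3.NK
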