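import Mathlib

set_option autoImplicit false

namespace Pool.Agent.H148R3.NK

/-- The numerical radius `v(T) = sup {|f(T x)| : ‖x‖ = ‖f‖ = f(x) = 1}` of an operator `T` on a
real normed space. -/
noncomputable def numRadius {X : Type*} [NormedAddCommGroup X] [NormedSpace ℝ X]
    (T : X →L[ℝ] X) : ℝ :=
  sSup {r : ℝ | ∃ (x : X) (f : X →L[ℝ] ℝ), ‖x‖ = 1 ∧ ‖f‖ = 1 ∧ f x = 1 ∧ r = |f (T x)|}

/-- The numerical index `n(X) = inf {v(T) : ‖T‖ = 1}` of a real normed space. -/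
noncomputable def numIndex (X : Type*) [NormedAddCommGroup X] [NormedSpace ℝ X] : ℝ :=
  sInf {r : ℝ | ∃ T : X →L[ℝ] X, ‖T‖ = 1 ∧ r = numRadius T}

/-- The number `κ_p = 1 / (p^{1/p} q^{1/q})`, where `q = p / (p - 1)` is the conjugate exponent of
`p` (so that `1 / q = (p - 1) / p`). -/
noncomputable def kappa (p : ℝ) : ℝ :=
  1 / (p ^ (1 / p) * (p / (p - 1)) ^ ((p - 1) / p))

/-- The number `M_p = sup_{t ∈ [0,1]} |t^{p-1} - t| / (1 + t^p)`. -/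
noncomputable def bigM (p : ℝ) : ℝ :=
  sSup ((fun t : ℝ => |t ^ (p - 1) - t| / (1 + t ^ p)) '' Set.Icc 0 1)

variable {X : Type*} [NormedAddCommGroup X] [NormedSpace ℝ X]

lemma le_numRadius (T : X →L[ℝ] X) {x : X} {f : X →L[ℝ] ℝ} (hx : ‖x‖ = 1) (hf : ‖f‖ = 1)
    (hfx : f x = 1) : |f (T x)| ≤ numRadius T := by
  refine le_csSup ⟨‖T‖, ?_⟩ ⟨x, f, hx, hf, hfx, rfl⟩
  rintro r ⟨x, f, hx, hf, _, rfl⟩
  rw [← Real.norm_eq_abs]
  refine (f.le_opNorm _).trans ?_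
  rw [hf, one_mul]
  have := T.le_opNorm x
  rwa [hx, mul_one] at this

lemma numRadius_nonneg (T : X →L[ℝ] X) : 0 ≤ numRadius T := by
  refine Real.sSup_nonneg ?_
  rintro r ⟨x, f, _, _, _, rfl⟩
  exact abs_nonneg _

lemma le_numIndex [Nontrivial X] {c : ℝ} (h : ∀ T : X →L[ℝ] X, ‖T‖ = 1 → c ≤ numRadius T) :
    c ≤ numIndex X := by
  refine le_csInf ⟨_, ContinuousLinearMap.id ℝ X, ContinuousLinearMap.norm_id, rfl⟩ ?_
  rintro r ⟨T, hT, rfl⟩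
  exact h T hT

end Pool.Agent.H148R3.NK
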