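import Pool.Agent.H148R3.NK3
import Pool.Agent.H148R3.NKDefs

set_option autoImplicit false

namespace Pool.Agent.H148R3.NK

open Filter Topology
open scoped ENNReal

variable {ι : Type*} [DecidableEq ι] {P : ℝ≥0∞} [Fact (1 ≤ P)]

lemma single_eq (j : ι) (c : ℝ) :
    (lp.single P j c : lp (fun _ : ι => ℝ) P) = c • lp.single P j (1:ℝ) := by
  rw [← lp.single_smul, smul_eq_mul, mul_one]

lemma T_sum (T : lp (fun _ : ι => ℝ) P →L[ℝ] lp (fun _ : ι => ℝ) P) (F : Finset ι) (x : ι → ℝ)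
    (i : ι) : (T (∑ j ∈ F, lp.single P j (x j))) i = ∑ j ∈ F, (T (lp.single P j 1)) i * x j := by
  have : (T (∑ j ∈ F, lp.single P j (x j))) i =
    (lp.evalCLM ℝ (fun _ : ι => ℝ) P i) (T (∑ j ∈ F, lp.single P j (x j))) := rfl
  rw [this, map_sum, map_sum]
  refine Finset.sum_congr rfl fun j _ => ?_
  rw [single_eq, map_smul, map_smul, smul_eq_mul, mul_comm]
  rfl

lemma sum_apply (F : Finset ι) (x : ι → ℝ) {i : ι} (hi : i ∈ F) :
    (∑ j ∈ F, lp.single P j (x j) : lp (fun _ : ι => ℝ) P) i = x i := by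
  have := T_sum (ContinuousLinearMap.id ℝ (lp (fun _ : ι => ℝ) P)) F x i
  rw [ContinuousLinearMap.id_apply] at this
  rw [this, Finset.sum_eq_single_of_mem i hi]
  · rw [ContinuousLinearMap.id_apply, lp.single_apply_self, one_mul]
  · intro j _ hji
    rw [ContinuousLinearMap.id_apply, lp.single_apply_ne _ _ _ hji.symm, zero_mul]

lemma HA {p : ℝ} (hp : 1 < p) (hPp : P.toReal = p)
    (T : lp (fun _ : ι => ℝ) P →L[ℝ] lp (fun _ : ι => ℝ) P) (F : Finset ι) (x : ι → ℝ) :
    |∑ i ∈ F, J p (x i) * ∑ j ∈ F, (T (lp.single P j 1)) i * x j| ≤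
      numRadius T * ∑ i ∈ F, |x i| ^ p := by
  have hp0 : 0 < p := by linarith
  have hP0 : 0 < P.toReal := by rw [hPp]; exact hp0
  set z : lp (fun _ : ι => ℝ) P := ∑ j ∈ F, lp.single P j (x j) with hz
  have hzn : ‖z‖ ^ p = ∑ i ∈ F, |x i| ^ p := by
    have := lp.norm_sum_single (E := fun _ : ι => ℝ) hP0 x F
    rw [hPp] at this
    rw [hz, this]
    exact Finset.sum_congr rfl fun i _ => by rw [Real.norm_eq_abs]
  set φ : lp (fun _ : ι => ℝ) P →L[ℝ] ℝ :=
    ∑ i ∈ F, J p (x i) • lp.evalCLM ℝ (fun _ : ι => ℝ) P i with hφ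
  have φ_apply : ∀ y : lp (fun _ : ι => ℝ) P, φ y = ∑ i ∈ F, J p (x i) * y i := by
    intro y
    rw [hφ, ContinuousLinearMap.sum_apply]
    rfl
  have hval : ∑ i ∈ F, J p (x i) * ∑ j ∈ F, (T (lp.single P j 1)) i * x j = φ (T z) := by
    rw [φ_apply]
    exact Finset.sum_congr rfl fun i _ => by rw [T_sum]
  rw [hval, ← hzn]
  rcases (norm_nonneg z).eq_or_lt with h | hn
  · have hx0 : ∀ i ∈ F, x i = 0 := by
      intro i hi
      rw [← h, Real.zero_rpow hp0.ne'] at hzn
      have := (Finset.sum_eq_zero_iff_of_nonneg (fun i _ => by positivity)).mp hzn.symm i hi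
      exact abs_eq_zero.mp ((Real.rpow_eq_zero (abs_nonneg _) hp0.ne').mp this)
    have : φ (T z) = 0 := by
      rw [φ_apply]
      exact Finset.sum_eq_zero fun i hi => by rw [hx0 i hi]; unfold J; ring
    rw [this, abs_zero]
    exact mul_nonneg (numRadius_nonneg T) (by positivity)
  · have hφn : ∀ y : lp (fun _ : ι => ℝ) P, |φ y| ≤ ‖z‖ ^ (p - 1) * ‖y‖ := by
      intro y
      have hc : (p.conjExponent).HolderConjugate p := (Real.HolderConjugate.conjExponent hp).symm
      have h1 := Real.inner_le_Lp_mul_Lq F (fun i => |J p (x i)|) (fun i => |y i|) hc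
      have h2 : |φ y| ≤ ∑ i ∈ F, |J p (x i)| * |y i| := by
        rw [φ_apply]
        refine (Finset.abs_sum_le_sum_abs _ _).trans (le_of_eq ?_)
        exact Finset.sum_congr rfl fun i _ => abs_mul _ _
      refine h2.trans (h1.trans ?_)
      have hq : (p - 1) * p.conjExponent = p := by
        unfold Real.conjExponent
        have : p - 1 ≠ 0 := by linarith
        field_simp
      have hq0 : 0 < p.conjExponent := hc.pos
      have e1 : ∑ i ∈ F, |(|J p (x i)|)| ^ p.conjExponent = ‖z‖ ^ p := by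
        rw [hzn]
        refine Finset.sum_congr rfl fun i _ => ?_
        rw [abs_abs, abs_J hp, ← Real.rpow_mul (abs_nonneg _), hq]
      have e2 : (‖z‖ ^ p) ^ (1 / p.conjExponent) = ‖z‖ ^ (p - 1) := by
        rw [← Real.rpow_mul (norm_nonneg _)]
        congr 1
        have : p * (1 / p.conjExponent) = p / p.conjExponent := by ring
        rw [this, div_eq_iff hq0.ne', hq]
      have e3 : (∑ i ∈ F, |(|y i|)| ^ p) ^ (1 / p) ≤ ‖y‖ := by
        have h4 := lp.sum_rpow_le_norm_rpow hP0 y F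
        rw [hPp] at h4
        have h5 : (∑ i ∈ F, |(|y i|)| ^ p) ^ (1 / p) ≤ (‖y‖ ^ p) ^ (1 / p) := by
          apply Real.rpow_le_rpow (Finset.sum_nonneg fun i _ => by positivity) _ (by positivity)
          refine le_trans (le_of_eq ?_) h4
          exact Finset.sum_congr rfl fun i _ => by rw [abs_abs, Real.norm_eq_abs]
        rwa [← Real.rpow_mul (norm_nonneg _), mul_one_div_cancel hp0.ne', Real.rpow_one] at h5
      rw [e1, e2]
      exact mul_le_mul_of_nonneg_left e3 (by positivity)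
    set a := (‖z‖ ^ (p - 1))⁻¹ with ha
    have hq0 : 0 < ‖z‖ ^ (p - 1) := by positivity
    have ha0 : 0 < a := by positivity
    have hpq : ‖z‖ ^ p = ‖z‖ ^ (p - 1) * ‖z‖ := by
      rw [← Real.rpow_add_one hn.ne']; congr 1; ring
    have hφz : φ z = ‖z‖ ^ p := by
      rw [φ_apply, hzn]
      refine Finset.sum_congr rfl fun i hi => ?_
      rw [hz, sum_apply F x hi, J_self hp]
    have hx1 : ‖(‖z‖⁻¹ • z)‖ = 1 := by
      rw [norm_smul, norm_inv, norm_norm, inv_mul_cancel₀ hn.ne']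
    have hfx : (a • φ) (‖z‖⁻¹ • z) = 1 := by
      rw [_root_.smul_apply, map_smul, hφz, smul_eq_mul, smul_eq_mul, hpq, ha]
      field_simp
    have hf1 : ‖a • φ‖ ≤ 1 := by
      refine ContinuousLinearMap.opNorm_le_bound _ zero_le_one fun y => ?_
      rw [_root_.smul_apply, smul_eq_mul, Real.norm_eq_abs, abs_mul, abs_of_pos ha0, one_mul]
      have := mul_le_mul_of_nonneg_left (hφn y) ha0.le
      rwa [← mul_assoc, ha, inv_mul_cancel₀ hq0.ne', one_mul] at this
    have hf2 : 1 ≤ ‖a • φ‖ := by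
      have := (a • φ).le_opNorm (‖z‖⁻¹ • z)
      rwa [hfx, hx1, norm_one, mul_one] at this
    have main := le_numRadius T hx1 (le_antisymm hf1 hf2) hfx
    rw [map_smul, map_smul, _root_.smul_apply, smul_eq_mul, smul_eq_mul, abs_mul, abs_mul,
      abs_of_pos ha0, abs_of_pos (inv_pos.mpr hn)] at main
    have hnp : 0 < ‖z‖ ^ p := by positivity
    have : ‖z‖⁻¹ * (a * |φ (T z)|) = |φ (T z)| / ‖z‖ ^ p := by
      rw [hpq, ha]; field_simp
    rw [this, div_le_iff₀ hnp] at main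
    exact main

lemma norm_le_of_matrix {p C : ℝ} (hp : 1 < p) (hPp : P.toReal = p) (hPt : P ≠ ∞) (hC : 0 ≤ C)
    (T : lp (fun _ : ι => ℝ) P →L[ℝ] lp (fun _ : ι => ℝ) P)
    (h : ∀ (F : Finset ι) (x : ι → ℝ), ∑ i ∈ F, |∑ j ∈ F, (T (lp.single P j 1)) i * x j| ^ p ≤
      C ^ p * ∑ i ∈ F, |x i| ^ p) : ‖T‖ ≤ C := by
  have hp0 : 0 < p := by linarith
  have hP0 : 0 < P.toReal := by rw [hPp]; exact hp0
  refine ContinuousLinearMap.opNorm_le_bound _ hC fun x => ?_
  refine lp.norm_le_of_forall_sum_le hP0 (by positivity) fun G => ?_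
  rw [hPp]
  have hsum : Tendsto (fun F : Finset ι => ∑ j ∈ F, lp.single P j (x j)) atTop (𝓝 x) :=
    lp.hasSum_single hPt x
  have hcont : Continuous (fun y : lp (fun _ : ι => ℝ) P => ∑ i ∈ G, ‖(T y) i‖ ^ p) := by
    refine continuous_finset_sum _ fun i _ => ?_
    refine Continuous.rpow_const ?_ (fun _ => Or.inr hp0.le)
    exact ((lp.evalCLM ℝ (fun _ : ι => ℝ) P i).continuous.comp T.continuous).norm
  have hlim := (hcont.tendsto x).comp hsum
  refine le_of_tendsto hlim ?_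
  filter_upwards [eventually_ge_atTop G] with F hF
  change ∑ i ∈ G, ‖(T (∑ j ∈ F, lp.single P j (x j))) i‖ ^ p ≤ _
  calc ∑ i ∈ G, ‖(T (∑ j ∈ F, lp.single P j (x j))) i‖ ^ p ≤
        ∑ i ∈ F, ‖(T (∑ j ∈ F, lp.single P j (x j))) i‖ ^ p :=
        Finset.sum_le_sum_of_subset_of_nonneg hF fun i _ _ => by positivity
    _ = ∑ i ∈ F, |∑ j ∈ F, (T (lp.single P j 1)) i * x j| ^ p :=
        Finset.sum_congr rfl fun i _ => by rw [T_sum T F (fun j => x j), Real.norm_eq_abs]
    _ ≤ C ^ p * ∑ i ∈ F, |x i| ^ p := h F (fun j => x j)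
    _ ≤ C ^ p * ‖x‖ ^ p := by
        apply mul_le_mul_of_nonneg_left _ (by positivity)
        have := lp.sum_rpow_le_norm_rpow hP0 x F
        rw [hPp] at this
        exact this
    _ = (C * ‖x‖) ^ p := (Real.mul_rpow hC (norm_nonneg _)).symm

/-- The main lower bound for the numerical radius. -/
theorem lower {p t τ : ℝ} (hp : 1 < p) (hPp : P.toReal = p) (hPt : P ≠ ∞) (ht : 0 < t)
    (ht1 : t < 1) (hne : t ≠ t ^ (p - 1)) (hτ : 0 < τ)
    (T : lp (fun _ : ι => ℝ) P →L[ℝ] lp (fun _ : ι => ℝ) P) :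
    ‖T‖ * ((τ ^ (p - 1) / (1 + τ ^ p)) * (|t - t ^ (p - 1)| / (1 + t ^ p))) ≤ numRadius T := by
  have hp0 : 0 < p := by linarith
  have hv := numRadius_nonneg T
  have he : 0 < |t - t ^ (p - 1)| := abs_pos.mpr (sub_ne_zero.mpr hne)
  set V := numRadius T * (1 + t ^ p) / |t - t ^ (p - 1)| with hV
  have hV0 : 0 ≤ V := by positivity
  set C := V * (1 + τ ^ p) / τ ^ (p - 1) with hC
  have hC0 : 0 ≤ C := by positivity
  have hT : ‖T‖ ≤ C := by
    refine norm_le_of_matrix hp hPp hPt hC0 T fun F x => ?_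
    have HB : ∀ z : ι → ℝ, ∑ i ∈ F, |z i| ^ (p - 1) *
        |∑ j ∈ F, (T (lp.single P j 1)) i * z j| ≤ V * ∑ i ∈ F, |z i| ^ p := by
      intro z
      have h1 := stepB hp ht ht1 hne hv F (fun i j => (T (lp.single P j 1)) i)
        (fun x => HA hp hPp T F x) z
      rw [hV, div_mul_eq_mul_div, le_div_iff₀ he]
      exact h1
    have h2 := stepE hp hτ hV0 F (fun i j => (T (lp.single P j 1)) i) HB x
    have hτq : 0 < τ ^ (p - 1) := by positivity
    have s1 : 0 ≤ ∑ i ∈ F, |∑ j ∈ F, (T (lp.single P j 1)) i * x j| ^ p :=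
      Finset.sum_nonneg fun i _ => by positivity
    have s2 : 0 ≤ ∑ i ∈ F, |x i| ^ p := Finset.sum_nonneg fun i _ => by positivity
    have h3 : (∑ i ∈ F, |∑ j ∈ F, (T (lp.single P j 1)) i * x j| ^ p) ^ (1 / p) ≤
        C * (∑ i ∈ F, |x i| ^ p) ^ (1 / p) := by
      rw [hC, div_mul_eq_mul_div, le_div_iff₀ hτq, mul_comm _ (τ ^ (p - 1))]
      exact h2
    have h4 := Real.rpow_le_rpow (by positivity) h3 hp0.le
    rw [Real.mul_rpow hC0 (by positivity), ← Real.rpow_mul s1, ← Real.rpow_mul s2,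
      one_div_mul_cancel hp0.ne', Real.rpow_one, Real.rpow_one] at h4
    exact h4
  have hτq : 0 < τ ^ (p - 1) := by positivity
  have h5 : C * ((τ ^ (p - 1) / (1 + τ ^ p)) * (|t - t ^ (p - 1)| / (1 + t ^ p))) =
      numRadius T := by
    rw [hC, hV]
    have : 0 < 1 + τ ^ p := by positivity
    have : 0 < 1 + t ^ p := by positivity
    field_simp
  rw [← h5]
  exact mul_le_mul_of_nonneg_right hT (by positivity)

lemma kappa_eq {p : ℝ} (hp : 1 < p) :
    kappa p = ((p - 1) ^ (1 / p)) ^ (p - 1) / (1 + ((p - 1) ^ (1 / p)) ^ p) := by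
  have hp0 : 0 < p := by linarith
  have hp1 : 0 < p - 1 := by linarith
  have e1 : ((p - 1) ^ (1 / p)) ^ p = p - 1 := by
    rw [← Real.rpow_mul hp1.le, one_div_mul_cancel hp0.ne', Real.rpow_one]
  have e2 : ((p - 1) ^ (1 / p)) ^ (p - 1) = (p - 1) ^ ((p - 1) / p) := by
    rw [← Real.rpow_mul hp1.le]; congr 1; ring
  have e3 : p ^ (1 / p) * (p / (p - 1)) ^ ((p - 1) / p) = p / (p - 1) ^ ((p - 1) / p) := by
    rw [Real.div_rpow hp0.le hp1.le, mul_div_assoc', ← Real.rpow_add hp0]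
    have : 1 / p + (p - 1) / p = 1 := by field_simp; ring
    rw [this, Real.rpow_one]
  have e4 : 1 + (p - 1) = p := by ring
  unfold kappa
  rw [e1, e2, e3, e4, one_div_div]

theorem real_lower [Nonempty ι] (hP1 : 1 < P) (hPt : P ≠ ∞) :
    kappa P.toReal * bigM P.toReal ≤ numIndex (lp (fun _ : ι => ℝ) P) := by
  have hp : 1 < P.toReal := by
    rw [← ENNReal.toReal_one]
    exact (ENNReal.toReal_lt_toReal ENNReal.one_ne_top hPt).mpr hP1
  obtain ⟨p, hPp⟩ : ∃ p, P.toReal = p := ⟨_, rfl⟩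
  rw [hPp] at hp ⊢
  have hp0 : 0 < p := by linarith
  have hp1 : 0 < p - 1 := by linarith
  obtain ⟨i₀⟩ := (inferInstance : Nonempty ι)
  have hnt : Nontrivial (lp (fun _ : ι => ℝ) P) := by
    refine ⟨lp.single P i₀ 1, 0, fun h => ?_⟩
    have := congrArg (fun y : lp (fun _ : ι => ℝ) P => y i₀) h
    simp only [lp.single_apply_self] at this
    exact one_ne_zero this
  refine le_numIndex fun T hT => ?_
  have hv := numRadius_nonneg T
  have hκ : 0 < kappa p := by unfold kappa; positivity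
  rw [mul_comm, ← le_div_iff₀ hκ]
  refine csSup_le ((Set.nonempty_Icc.mpr zero_le_one).image _) ?_
  rintro _ ⟨t, ⟨ht0, ht1⟩, rfl⟩
  change |t ^ (p - 1) - t| / (1 + t ^ p) ≤ numRadius T / kappa p
  rcases eq_or_ne t (t ^ (p - 1)) with h | hne
  · rw [← h, sub_self, abs_zero, zero_div]; positivity
  · have ht0' : 0 < t := by
      rcases ht0.eq_or_lt with h | h
      · exfalso; apply hne; rw [← h, Real.zero_rpow hp1.ne']
      · exact h
    have ht1' : t < 1 := by
      rcases ht1.eq_or_lt with h | h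
      · exfalso; apply hne; rw [h, Real.one_rpow]
      · exact h
    have := lower (τ := (p - 1) ^ (1 / p)) hp hPp hPt ht0' ht1' hne (by positivity) T
    rw [hT, one_mul, ← kappa_eq hp] at this
    rw [le_div_iff₀ hκ, mul_comm, abs_sub_comm]
    exact this

end Pool.Agent.H148R3.NK
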