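import Pool.Agent.H148R3.NIDefs
import Pool.Agent.H148R3.NKDefs

set_option autoImplicit false

namespace Pool.Agent.H148R3.NM

open Filter Topology
open scoped ENNReal
open Pool.Agent.H148R3.NI

/-- `|x|^{p-2}` times the conjugate of `x`. -/
noncomputable def J (p : ℝ) (x : ℂ) : ℂ := ((‖x‖ ^ (p - 2) : ℝ) : ℂ) * (starRingEnd ℂ) x

lemma J_mul (p : ℝ) (x y : ℂ) : J p (x * y) = J p x * J p y := by
  unfold J
  rw [norm_mul, Real.mul_rpow (norm_nonneg _) (norm_nonneg _), map_mul]; push_cast; ring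

lemma J_zero (p : ℝ) : J p 0 = 0 := by simp [J]

lemma J_one (p : ℝ) : J p 1 = 1 := by simp [J]

lemma J_unit (p : ℝ) {σ : ℂ} (h : ‖σ‖ = 1) : J p σ = (starRingEnd ℂ) σ := by
  unfold J; rw [h, Real.one_rpow]; simp

lemma J_pos {p l : ℝ} (hl : 0 < l) : J p (l : ℂ) = ((l ^ (p - 1) : ℝ) : ℂ) := by
  unfold J
  rw [Complex.conj_ofReal, Complex.norm_real, Real.norm_of_nonneg hl.le, ← Complex.ofReal_mul,
    ← Real.rpow_add_one hl.ne']
  congr 2; ring

lemma norm_J {p : ℝ} (hp : 1 < p) (x : ℂ) : ‖J p x‖ = ‖x‖ ^ (p - 1) := by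
  rcases eq_or_ne x 0 with h | h
  · rw [h, J_zero, norm_zero, Real.zero_rpow (by linarith)]
  · have := norm_pos_iff.mpr h
    unfold J
    rw [norm_mul, Complex.norm_real, RCLike.norm_conj,
      Real.norm_of_nonneg (by positivity : 0 ≤ ‖x‖ ^ (p - 2)),
      ← Real.rpow_add_one this.ne']; congr 1; ring

lemma J_self {p : ℝ} (hp : 1 < p) (x : ℂ) : J p x * x = ((‖x‖ ^ p : ℝ) : ℂ) := by
  rcases eq_or_ne x 0 with h | h
  · rw [h, mul_zero, norm_zero, Real.zero_rpow (by linarith), Complex.ofReal_zero]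
  · have := norm_pos_iff.mpr h
    unfold J
    rw [mul_assoc, mul_comm ((starRingEnd ℂ) x), Complex.mul_conj, Complex.normSq_eq_norm_sq,
      ← Complex.ofReal_mul, ← Real.rpow_natCast ‖x‖ 2, ← Real.rpow_add this]
    congr 2; push_cast; ring

section lp

variable {ι : Type*} [DecidableEq ι] {P : ℝ≥0∞} [Fact (1 ≤ P)]

lemma single_eq (j : ι) (c : ℂ) :
    (lp.single P j c : lp (fun _ : ι => ℂ) P) = c • lp.single P j (1:ℂ) := by
  rw [← lp.single_smul, smul_eq_mul, mul_one]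

lemma T_sum (T : lp (fun _ : ι => ℂ) P →L[ℂ] lp (fun _ : ι => ℂ) P) (F : Finset ι) (x : ι → ℂ)
    (i : ι) : (T (∑ j ∈ F, lp.single P j (x j))) i = ∑ j ∈ F, (T (lp.single P j 1)) i * x j := by
  have : (T (∑ j ∈ F, lp.single P j (x j))) i =
    (lp.evalCLM ℂ (fun _ : ι => ℂ) P i) (T (∑ j ∈ F, lp.single P j (x j))) := rfl
  rw [this, map_sum, map_sum]
  refine Finset.sum_congr rfl fun j _ => ?_
  rw [single_eq, map_smul, map_smul, smul_eq_mul, mul_comm]
  rfl

lemma sum_apply (F : Finset ι) (x : ι → ℂ) {i : ι} (hi : i ∈ F) :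
    (∑ j ∈ F, lp.single P j (x j) : lp (fun _ : ι => ℂ) P) i = x i := by
  have := T_sum (ContinuousLinearMap.id ℂ (lp (fun _ : ι => ℂ) P)) F x i
  rw [ContinuousLinearMap.id_apply] at this
  rw [this, Finset.sum_eq_single_of_mem i hi]
  · rw [ContinuousLinearMap.id_apply, lp.single_apply_self, one_mul]
  · intro j _ hji
    rw [ContinuousLinearMap.id_apply, lp.single_apply_ne _ _ _ hji.symm, zero_mul]

lemma HA {p : ℝ} (hp : 1 < p) (hPp : P.toReal = p)
    (T : lp (fun _ : ι => ℂ) P →L[ℂ] lp (fun _ : ι => ℂ) P) (F : Finset ι) (x : ι → ℂ) :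
    ‖∑ i ∈ F, J p (x i) * ∑ j ∈ F, (T (lp.single P j 1)) i * x j‖ ≤
      numRadius T * ∑ i ∈ F, ‖x i‖ ^ p := by
  have hp0 : 0 < p := by linarith
  have hP0 : 0 < P.toReal := by rw [hPp]; exact hp0
  set z : lp (fun _ : ι => ℂ) P := ∑ j ∈ F, lp.single P j (x j) with hz
  have hzn : ‖z‖ ^ p = ∑ i ∈ F, ‖x i‖ ^ p := by
    have := lp.norm_sum_single (E := fun _ : ι => ℂ) hP0 x F
    rw [hPp] at this
    rw [hz, this]
  set φ : lp (fun _ : ι => ℂ) P →L[ℂ] ℂ :=
    ∑ i ∈ F, J p (x i) • lp.evalCLM ℂ (fun _ : ι => ℂ) P i with hφ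
  have φ_apply : ∀ y : lp (fun _ : ι => ℂ) P, φ y = ∑ i ∈ F, J p (x i) * y i := by
    intro y
    rw [hφ, ContinuousLinearMap.sum_apply]
    rfl
  have hval : ∑ i ∈ F, J p (x i) * ∑ j ∈ F, (T (lp.single P j 1)) i * x j = φ (T z) := by
    rw [φ_apply]
    exact Finset.sum_congr rfl fun i _ => by rw [T_sum]
  rw [hval, ← hzn]
  rcases (norm_nonneg z).eq_or_lt with h | hn
  · have hx0 : ∀ i ∈ F, x i = 0 := by
      intro i hi
      rw [← h, Real.zero_rpow hp0.ne'] at hzn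
      have := (Finset.sum_eq_zero_iff_of_nonneg (fun i _ => by positivity)).mp hzn.symm i hi
      exact norm_eq_zero.mp ((Real.rpow_eq_zero (norm_nonneg _) hp0.ne').mp this)
    have : φ (T z) = 0 := by
      rw [φ_apply]
      exact Finset.sum_eq_zero fun i hi => by rw [hx0 i hi, J_zero, zero_mul]
    rw [this, norm_zero]
    exact mul_nonneg (numRadius_nonneg T) (by positivity)
  · have hφn : ∀ y : lp (fun _ : ι => ℂ) P, ‖φ y‖ ≤ ‖z‖ ^ (p - 1) * ‖y‖ := by
      intro y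
      have hc : (p.conjExponent).HolderConjugate p := (Real.HolderConjugate.conjExponent hp).symm
      have h1 := Real.inner_le_Lp_mul_Lq F (fun i => ‖J p (x i)‖) (fun i => ‖y i‖) hc
      have h2 : ‖φ y‖ ≤ ∑ i ∈ F, ‖J p (x i)‖ * ‖y i‖ := by
        rw [φ_apply]
        refine (norm_sum_le _ _).trans (le_of_eq ?_)
        exact Finset.sum_congr rfl fun i _ => norm_mul _ _
      refine h2.trans (h1.trans ?_)
      have hq : (p - 1) * p.conjExponent = p := by
        unfold Real.conjExponent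
        have : p - 1 ≠ 0 := by linarith
        field_simp
      have hq0 : 0 < p.conjExponent := hc.pos
      have e1 : ∑ i ∈ F, |(‖J p (x i)‖)| ^ p.conjExponent = ‖z‖ ^ p := by
        rw [hzn]
        refine Finset.sum_congr rfl fun i _ => ?_
        rw [abs_norm, norm_J hp, ← Real.rpow_mul (norm_nonneg _), hq]
      have e2 : (‖z‖ ^ p) ^ (1 / p.conjExponent) = ‖z‖ ^ (p - 1) := by
        rw [← Real.rpow_mul (norm_nonneg _)]
        congr 1
        have : p * (1 / p.conjExponent) = p / p.conjExponent := by ring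
        rw [this, div_eq_iff hq0.ne', hq]
      have e3 : (∑ i ∈ F, |(‖y i‖)| ^ p) ^ (1 / p) ≤ ‖y‖ := by
        have h4 := lp.sum_rpow_le_norm_rpow hP0 y F
        rw [hPp] at h4
        have h5 : (∑ i ∈ F, |(‖y i‖)| ^ p) ^ (1 / p) ≤ (‖y‖ ^ p) ^ (1 / p) := by
          apply Real.rpow_le_rpow (Finset.sum_nonneg fun i _ => by positivity) _ (by positivity)
          refine le_trans (le_of_eq ?_) h4
          exact Finset.sum_congr rfl fun i _ => by rw [abs_norm]
        rwa [← Real.rpow_mul (norm_nonneg _), mul_one_div_cancel hp0.ne', Real.rpow_one] at h5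
      rw [e1, e2]
      exact mul_le_mul_of_nonneg_left e3 (by positivity)
    set a := (‖z‖ ^ (p - 1))⁻¹ with ha
    have hq0 : 0 < ‖z‖ ^ (p - 1) := by positivity
    have ha0 : 0 < a := by positivity
    have hpq : ‖z‖ ^ p = ‖z‖ ^ (p - 1) * ‖z‖ := by
      rw [← Real.rpow_add_one hn.ne']; congr 1; ring
    have hφz : φ z = ((‖z‖ ^ p : ℝ) : ℂ) := by
      rw [φ_apply, hzn, Complex.ofReal_sum]
      refine Finset.sum_congr rfl fun i hi => ?_
      rw [hz, sum_apply F x hi, J_self hp]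
    have hna : ‖(a : ℂ)‖ = a := by rw [Complex.norm_real, Real.norm_of_nonneg ha0.le]
    have hnz : ‖((‖z‖⁻¹ : ℝ) : ℂ)‖ = ‖z‖⁻¹ := by
      rw [Complex.norm_real, Real.norm_of_nonneg (by positivity)]
    have hx1 : ‖(((‖z‖⁻¹ : ℝ) : ℂ) • z)‖ = 1 := by
      rw [norm_smul, hnz, inv_mul_cancel₀ hn.ne']
    have hfx : ((a : ℂ) • φ) (((‖z‖⁻¹ : ℝ) : ℂ) • z) = 1 := by
      rw [_root_.smul_apply, map_smul, hφz, smul_eq_mul, smul_eq_mul, ← Complex.ofReal_mul,
        ← Complex.ofReal_mul, hpq, ha]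
      have : (‖z‖ ^ (p - 1))⁻¹ * (‖z‖⁻¹ * (‖z‖ ^ (p - 1) * ‖z‖)) = 1 := by field_simp
      rw [this, Complex.ofReal_one]
    have hf1 : ‖(a : ℂ) • φ‖ ≤ 1 := by
      refine ContinuousLinearMap.opNorm_le_bound _ zero_le_one fun y => ?_
      rw [_root_.smul_apply, smul_eq_mul, norm_mul, hna, one_mul]
      have := mul_le_mul_of_nonneg_left (hφn y) ha0.le
      rwa [← mul_assoc, ha, inv_mul_cancel₀ hq0.ne', one_mul] at this
    have hf2 : 1 ≤ ‖(a : ℂ) • φ‖ := by
      have := ((a : ℂ) • φ).le_opNorm (((‖z‖⁻¹ : ℝ) : ℂ) • z)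
      rwa [hfx, hx1, norm_one, mul_one] at this
    have main := le_numRadius T hx1 (le_antisymm hf1 hf2) hfx
    rw [map_smul, map_smul, _root_.smul_apply, smul_eq_mul, smul_eq_mul, norm_mul, norm_mul,
      hna, hnz] at main
    have hnp : 0 < ‖z‖ ^ p := by positivity
    have : ‖z‖⁻¹ * (a * ‖φ (T z)‖) = ‖φ (T z)‖ / ‖z‖ ^ p := by
      rw [hpq, ha]; field_simp
    rw [this, div_le_iff₀ hnp] at main
    exact main

lemma norm_le_of_matrix {p C : ℝ} (hp : 1 < p) (hPp : P.toReal = p) (hPt : P ≠ ∞) (hC : 0 ≤ C)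
    (T : lp (fun _ : ι => ℂ) P →L[ℂ] lp (fun _ : ι => ℂ) P)
    (h : ∀ (F : Finset ι) (x : ι → ℂ), ∑ i ∈ F, ‖∑ j ∈ F, (T (lp.single P j 1)) i * x j‖ ^ p ≤
      C ^ p * ∑ i ∈ F, ‖x i‖ ^ p) : ‖T‖ ≤ C := by
  have hp0 : 0 < p := by linarith
  have hP0 : 0 < P.toReal := by rw [hPp]; exact hp0
  refine ContinuousLinearMap.opNorm_le_bound _ hC fun x => ?_
  refine lp.norm_le_of_forall_sum_le hP0 (by positivity) fun G => ?_
  rw [hPp]
  have hsum : Tendsto (fun F : Finset ι => ∑ j ∈ F, lp.single P j (x j)) atTop (𝓝 x) :=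
    lp.hasSum_single hPt x
  have hcont : Continuous (fun y : lp (fun _ : ι => ℂ) P => ∑ i ∈ G, ‖(T y) i‖ ^ p) := by
    refine continuous_finsetSum _ fun i _ => ?_
    refine Continuous.rpow_const ?_ (fun _ => Or.inr hp0.le)
    exact ((lp.evalCLM ℂ (fun _ : ι => ℂ) P i).continuous.comp T.continuous).norm
  have hlim := (hcont.tendsto x).comp hsum
  refine le_of_tendsto hlim ?_
  filter_upwards [eventually_ge_atTop G] with F hF
  change ∑ i ∈ G, ‖(T (∑ j ∈ F, lp.single P j (x j))) i‖ ^ p ≤ _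
  calc ∑ i ∈ G, ‖(T (∑ j ∈ F, lp.single P j (x j))) i‖ ^ p ≤
        ∑ i ∈ F, ‖(T (∑ j ∈ F, lp.single P j (x j))) i‖ ^ p :=
        Finset.sum_le_sum_of_subset_of_nonneg hF fun i _ _ => by positivity
    _ = ∑ i ∈ F, ‖∑ j ∈ F, (T (lp.single P j 1)) i * x j‖ ^ p :=
        Finset.sum_congr rfl fun i _ => by rw [T_sum T F (fun j => x j)]
    _ ≤ C ^ p * ∑ i ∈ F, ‖x i‖ ^ p := h F (fun j => x j)
    _ ≤ C ^ p * ‖x‖ ^ p := by
        apply mul_le_mul_of_nonneg_left _ (by positivity)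
        have := lp.sum_rpow_le_norm_rpow hP0 x F
        rw [hPp] at this
        exact this
    _ = (C * ‖x‖) ^ p := (Real.mul_rpow hC (norm_nonneg _)).symm

end lp

variable {ι : Type*}

/-- A convex function on a polydisc is maximal at a point all of whose coordinates are extreme. -/
lemma extreme [DecidableEq ι] (F : Finset ι) (A : ι → ι → ℂ) (w m : ι → ℝ) (hw : ∀ i, 0 ≤ w i)
    (x : ι → ℂ) (hx : ∀ i ∈ F, ‖x i‖ ≤ m i) (G : Finset ι) (hG : G ⊆ F) :
    ∃ z : ι → ℂ, (∀ i ∈ G, ‖z i‖ = m i) ∧ (∀ i, i ∉ G → z i = x i) ∧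
      ∑ i ∈ F, w i * ‖∑ j ∈ F, A i j * x j‖ ≤ ∑ i ∈ F, w i * ‖∑ j ∈ F, A i j * z j‖ := by
  induction G using Finset.induction_on with
  | empty => exact ⟨x, by simp, fun _ _ => rfl, le_rfl⟩
  | @insert g G hg ih =>
    obtain ⟨z, h1, h2, h3⟩ := ih ((Finset.subset_insert g G).trans hG)
    have hgF : g ∈ F := hG (Finset.mem_insert_self g G)
    have hzg : z g = x g := h2 g hg
    have hm : ‖z g‖ ≤ m g := by rw [hzg]; exact hx g hgF
    have hm0 : 0 ≤ m g := (norm_nonneg _).trans hm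
    obtain ⟨θ, ω, hθ0, hθ1, hω, hθ⟩ : ∃ (θ : ℝ) (ω : ℂ), 0 ≤ θ ∧ θ ≤ 1 ∧ ‖ω‖ = m g ∧
        z g = (θ : ℂ) * ω + (1 - (θ : ℂ)) * (-ω) := by
      rcases eq_or_ne (z g) 0 with h | h
      · refine ⟨1 / 2, (m g : ℂ), by norm_num, by norm_num, ?_, ?_⟩
        · rw [Complex.norm_real, Real.norm_of_nonneg hm0]
        · rw [h]; push_cast; ring
      · have hn : 0 < ‖z g‖ := norm_pos_iff.mpr h
        have hm' : 0 < m g := hn.trans_le hm
        refine ⟨(1 + ‖z g‖ / m g) / 2, ((m g / ‖z g‖ : ℝ) : ℂ) * z g, by positivity, ?_, ?_, ?_⟩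
        · have : ‖z g‖ / m g ≤ 1 := by rw [div_le_one hm']; exact hm
          linarith
        · rw [norm_mul, Complex.norm_real, Real.norm_of_nonneg (by positivity)]
          field_simp
        · have e1 : (‖z g‖ : ℂ) ≠ 0 := by exact_mod_cast hn.ne'
          have e2 : (m g : ℂ) ≠ 0 := by exact_mod_cast hm'.ne'
          push_cast
          field_simp
          ring
    have hz : ∀ j, z j = (θ : ℂ) * Function.update z g ω j +
        (1 - (θ : ℂ)) * Function.update z g (-ω) j := by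
      intro j
      by_cases hj : j = g
      · rw [hj, Function.update_self, Function.update_self]; exact hθ
      · rw [Function.update_of_ne hj, Function.update_of_ne hj]; ring
    have hconv : ∑ i ∈ F, w i * ‖∑ j ∈ F, A i j * z j‖ ≤
        θ * ∑ i ∈ F, w i * ‖∑ j ∈ F, A i j * Function.update z g ω j‖ +
        (1 - θ) * ∑ i ∈ F, w i * ‖∑ j ∈ F, A i j * Function.update z g (-ω) j‖ := by
      rw [Finset.mul_sum, Finset.mul_sum, ← Finset.sum_add_distrib]
      refine Finset.sum_le_sum fun i _ => ?_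
      have e : ∑ j ∈ F, A i j * z j = (θ : ℂ) * ∑ j ∈ F, A i j * Function.update z g ω j +
          (1 - (θ : ℂ)) * ∑ j ∈ F, A i j * Function.update z g (-ω) j := by
        rw [Finset.mul_sum, Finset.mul_sum, ← Finset.sum_add_distrib]
        refine Finset.sum_congr rfl fun j _ => ?_
        linear_combination (A i j) * hz j
      have h4 := norm_add_le ((θ : ℂ) * ∑ j ∈ F, A i j * Function.update z g ω j)
        ((1 - (θ : ℂ)) * ∑ j ∈ F, A i j * Function.update z g (-ω) j)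
      have e5 : ‖(1 - (θ : ℂ))‖ = 1 - θ := by
        rw [← Complex.ofReal_one, ← Complex.ofReal_sub, Complex.norm_real,
          Real.norm_of_nonneg (sub_nonneg.mpr hθ1)]
      rw [← e, norm_mul, norm_mul, e5, Complex.norm_real, Real.norm_of_nonneg hθ0] at h4
      have := mul_le_mul_of_nonneg_left h4 (hw i)
      linarith
    have hmax : (∑ i ∈ F, w i * ‖∑ j ∈ F, A i j * z j‖ ≤
        ∑ i ∈ F, w i * ‖∑ j ∈ F, A i j * Function.update z g ω j‖) ∨
        (∑ i ∈ F, w i * ‖∑ j ∈ F, A i j * z j‖ ≤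
        ∑ i ∈ F, w i * ‖∑ j ∈ F, A i j * Function.update z g (-ω) j‖) := by
      by_contra hcon
      push Not at hcon
      obtain ⟨c1, c2⟩ := hcon
      rcases hθ0.eq_or_lt with h | h
      · rw [← h] at hconv
        linarith
      · have := mul_lt_mul_of_pos_left c1 h
        have := mul_le_mul_of_nonneg_left c2.le (sub_nonneg.mpr hθ1)
        linarith
    have hne : ∀ i, i ∉ insert g G → i ≠ g ∧ i ∉ G := fun i hi =>
      ⟨fun h => hi (h ▸ Finset.mem_insert_self g G), fun h => hi (Finset.mem_insert_of_mem h)⟩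
    rcases hmax with h | h
    · refine ⟨Function.update z g ω, ?_, ?_, h3.trans h⟩
      · intro i hi
        rcases Finset.mem_insert.mp hi with rfl | hi'
        · rw [Function.update_self, hω]
        · have : i ≠ g := fun h => hg (h ▸ hi')
          rw [Function.update_of_ne this]; exact h1 i hi'
      · intro i hi
        rw [Function.update_of_ne (hne i hi).1]; exact h2 i (hne i hi).2
    · refine ⟨Function.update z g (-ω), ?_, ?_, h3.trans h⟩
      · intro i hi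
        rcases Finset.mem_insert.mp hi with rfl | hi'
        · rw [Function.update_self, norm_neg, hω]
        · have : i ≠ g := fun h => hg (h ▸ hi')
          rw [Function.update_of_ne this]; exact h1 i hi'
      · intro i hi
        rw [Function.update_of_ne (hne i hi).1]; exact h2 i (hne i hi).2

/-- From the absolute numerical radius to the norm. -/
theorem stepE {p V τ : ℝ} (hp : 1 < p) (hτ : 0 < τ) (hV : 0 ≤ V) (F : Finset ι) (A : ι → ι → ℂ)
    (HB : ∀ z : ι → ℂ, ∑ i ∈ F, ‖z i‖ ^ (p - 1) * ‖∑ j ∈ F, A i j * z j‖ ≤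
      V * ∑ i ∈ F, ‖z i‖ ^ p) (x : ι → ℂ) :
    τ ^ (p - 1) * (∑ i ∈ F, ‖∑ j ∈ F, A i j * x j‖ ^ p) ^ (1 / p) ≤
      V * (1 + τ ^ p) * (∑ i ∈ F, ‖x i‖ ^ p) ^ (1 / p) := by
  classical
  have hp0 : 0 < p := by linarith
  set y : ι → ℂ := fun i => ∑ j ∈ F, A i j * x j with hy
  set N := (∑ i ∈ F, ‖y i‖ ^ p) ^ (1 / p) with hN
  set n := (∑ i ∈ F, ‖x i‖ ^ p) ^ (1 / p) with hn
  have s1 : 0 ≤ ∑ i ∈ F, ‖y i‖ ^ p := Finset.sum_nonneg fun i _ => by positivity
  have s2 : 0 ≤ ∑ i ∈ F, ‖x i‖ ^ p := Finset.sum_nonneg fun i _ => by positivity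
  have hNp : N ^ p = ∑ i ∈ F, ‖y i‖ ^ p := by
    rw [hN, ← Real.rpow_mul s1, one_div_mul_cancel hp0.ne', Real.rpow_one]
  have hnp : n ^ p = ∑ i ∈ F, ‖x i‖ ^ p := by
    rw [hn, ← Real.rpow_mul s2, one_div_mul_cancel hp0.ne', Real.rpow_one]
  have hN0 : 0 ≤ N := by positivity
  have hn0 : 0 ≤ n := by positivity
  change τ ^ (p - 1) * N ≤ V * (1 + τ ^ p) * n
  rcases hN0.eq_or_lt with h | hNpos
  · rw [← h, mul_zero]; positivity
  have hnpos : 0 < n := by
    rcases hn0.eq_or_lt with h | h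
    · exfalso
      rw [← h, Real.zero_rpow hp0.ne'] at hnp
      have hx0 : ∀ i ∈ F, x i = 0 := by
        intro i hi
        have := (Finset.sum_eq_zero_iff_of_nonneg (fun i _ => by positivity)).mp hnp.symm i hi
        have h2 := (Real.rpow_eq_zero (norm_nonneg _) hp0.ne').mp this
        exact norm_eq_zero.mp h2
      have hy0 : ∀ i, y i = 0 := fun i =>
        Finset.sum_eq_zero fun j hj => by rw [hx0 j hj, mul_zero]
      have : N ^ p = 0 := by
        rw [hNp]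
        exact Finset.sum_eq_zero fun i _ => by rw [hy0 i, norm_zero, Real.zero_rpow hp0.ne']
      have := Real.rpow_pos_of_pos hNpos p
      linarith
    · exact h
  set l := τ * n / N with hl
  have hl0 : 0 < l := by positivity
  obtain ⟨z, z1, -, z3⟩ := extreme F A (fun i => max ‖x i‖ (l * ‖y i‖) ^ (p - 1))
    (fun i => max ‖x i‖ (l * ‖y i‖)) (fun i => by positivity) x (fun i _ => le_max_left _ _) F
    (Finset.Subset.refl F)
  have k1 : ∑ i ∈ F, max ‖x i‖ (l * ‖y i‖) ^ (p - 1) * ‖∑ j ∈ F, A i j * z j‖ ≤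
      V * ∑ i ∈ F, max ‖x i‖ (l * ‖y i‖) ^ p := by
    have := HB z
    rw [Finset.sum_congr rfl fun i hi => by rw [z1 i hi]] at this
    rw [Finset.sum_congr (s₁ := F) (f := fun i => ‖z i‖ ^ p) rfl fun i hi => by rw [z1 i hi]] at this
    exact this
  have k2 : ∑ i ∈ F, max ‖x i‖ (l * ‖y i‖) ^ p ≤ n ^ p + l ^ p * N ^ p := by
    rw [hnp, hNp, Finset.mul_sum, ← Finset.sum_add_distrib]
    refine Finset.sum_le_sum fun i _ => ?_
    rw [← Real.mul_rpow hl0.le (norm_nonneg _)]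
    have a1 : 0 ≤ ‖x i‖ ^ p := by positivity
    have a2 : 0 ≤ (l * ‖y i‖) ^ p := by positivity
    rcases max_choice ‖x i‖ (l * ‖y i‖) with h | h <;> rw [h] <;> linarith
  have k3 : l ^ (p - 1) * N ^ p ≤
      ∑ i ∈ F, max ‖x i‖ (l * ‖y i‖) ^ (p - 1) * ‖∑ j ∈ F, A i j * x j‖ := by
    rw [hNp, Finset.mul_sum]
    refine Finset.sum_le_sum fun i _ => ?_
    have b1 : (l * ‖y i‖) ^ (p - 1) ≤ max ‖x i‖ (l * ‖y i‖) ^ (p - 1) :=
      Real.rpow_le_rpow (by positivity) (le_max_right _ _) (by linarith)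
    have b2 := mul_le_mul_of_nonneg_right b1 (norm_nonneg (y i))
    refine le_trans (le_of_eq ?_) b2
    rw [Real.mul_rpow hl0.le (norm_nonneg _), mul_assoc]
    congr 1
    rcases (norm_nonneg (y i)).eq_or_lt with h | h
    · rw [← h, mul_zero, Real.zero_rpow hp0.ne']
    · rw [← Real.rpow_add_one h.ne']; congr 1; ring
  have hlp : l ^ p * N ^ p = τ ^ p * n ^ p := by
    rw [← Real.mul_rpow hl0.le hN0, ← Real.mul_rpow hτ.le hn0, hl, div_mul_cancel₀ _ hNpos.ne']
  have hlq : l ^ (p - 1) * N ^ p = τ ^ (p - 1) * n ^ (p - 1) * N := by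
    have : N ^ p = N ^ (p - 1) * N := by
      rw [← Real.rpow_add_one hNpos.ne']; congr 1; ring
    rw [this, ← mul_assoc, ← Real.mul_rpow hl0.le hN0, ← Real.mul_rpow hτ.le hn0, hl,
      div_mul_cancel₀ _ hNpos.ne']
  have hnq : n ^ p = n ^ (p - 1) * n := by
    rw [← Real.rpow_add_one hnpos.ne']; congr 1; ring
  have k4 : τ ^ (p - 1) * n ^ (p - 1) * N ≤ V * (n ^ p + τ ^ p * n ^ p) := by
    rw [← hlq]
    refine k3.trans (z3.trans (k1.trans ?_))
    rw [← hlp]
    exact mul_le_mul_of_nonneg_left k2 hV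
  rw [hnq] at k4
  have hnq0 : 0 < n ^ (p - 1) := by positivity
  refine le_of_mul_le_mul_left ?_ hnq0
  linarith

end Pool.Agent.H148R3.NM
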