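import Pool.Agent.H148R3.NM1

set_option autoImplicit false

namespace Pool.Agent.H148R3.NM

open Filter Topology
open scoped ENNReal
open Pool.Agent.H148R3.NI

variable {ι : Type*}

lemma align (c a : ℂ) : ∃ σ : ℂ, ‖σ‖ = 1 ∧ ‖c + σ * a‖ = ‖c‖ + ‖a‖ := by
  rcases eq_or_ne a 0 with ha | ha
  · exact ⟨1, norm_one, by rw [ha]; simp⟩
  rcases eq_or_ne c 0 with hc | hc
  · exact ⟨1, norm_one, by rw [hc]; simp⟩
  have ha' : 0 < ‖a‖ := norm_pos_iff.mpr ha
  have hc' : 0 < ‖c‖ := norm_pos_iff.mpr hc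
  have hna : (‖a‖ : ℂ) ≠ 0 := by exact_mod_cast ha'.ne'
  have hnc : (‖c‖ : ℂ) ≠ 0 := by exact_mod_cast hc'.ne'
  refine ⟨(c / ‖c‖) * ((starRingEnd ℂ) a / ‖a‖), ?_, ?_⟩
  · rw [norm_mul, norm_div, norm_div, RCLike.norm_conj, Complex.norm_real, Complex.norm_real,
      norm_norm, norm_norm, div_self hc'.ne', div_self ha'.ne', mul_one]
  · have h1 : (starRingEnd ℂ) a * a = (‖a‖ : ℂ) ^ 2 := by
      rw [mul_comm, Complex.mul_conj, Complex.normSq_eq_norm_sq]; push_cast; ring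
    have h2 : c + (c / ‖c‖) * ((starRingEnd ℂ) a / ‖a‖) * a = c * ((1 + ‖a‖ / ‖c‖ : ℝ) : ℂ) := by
      have : (c / ‖c‖) * ((starRingEnd ℂ) a / ‖a‖) * a =
          (c / ‖c‖) * ((starRingEnd ℂ) a * a / ‖a‖) := by ring
      rw [this, h1]
      push_cast
      field_simp
    rw [h2, norm_mul, Complex.norm_real, Real.norm_of_nonneg (by positivity)]
    field_simp

lemma four {K : ℝ} {w1 w2 w3 w4 : ℂ} (h1 : ‖w1‖ ≤ K) (h2 : ‖w2‖ ≤ K) (h3 : ‖w3‖ ≤ K)
    (h4 : ‖w4‖ ≤ K) : ‖w1 + Complex.I * w2 - w3 - Complex.I * w4‖ ≤ 4 * K ∧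
      ‖w1 - Complex.I * w2 - w3 + Complex.I * w4‖ ≤ 4 * K := by
  have m2 : ‖Complex.I * w2‖ = ‖w2‖ := by rw [norm_mul, Complex.norm_I, one_mul]
  have m4 : ‖Complex.I * w4‖ = ‖w4‖ := by rw [norm_mul, Complex.norm_I, one_mul]
  constructor
  · have n1 := norm_sub_le (w1 + Complex.I * w2 - w3) (Complex.I * w4)
    have n2 := norm_sub_le (w1 + Complex.I * w2) w3
    have n3 := norm_add_le w1 (Complex.I * w2)
    linarith
  · have n1 := norm_add_le (w1 - Complex.I * w2 - w3) (Complex.I * w4)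
    have n2 := norm_sub_le (w1 - Complex.I * w2) w3
    have n3 := norm_sub_le w1 (Complex.I * w2)
    linarith

/-- The four blocks. -/
noncomputable def blk (p : ℝ) (A : ι → ι → ℂ) (x : ι → ℂ) (R C : Finset ι) : ℂ :=
  ∑ i ∈ R, J p (x i) * ∑ j ∈ C, A i j * x j

lemma block {p v : ℝ} (F : Finset ι) (A : ι → ι → ℂ)
    (HA : ∀ x : ι → ℂ, ‖∑ i ∈ F, J p (x i) * ∑ j ∈ F, A i j * x j‖ ≤ v * ∑ i ∈ F, ‖x i‖ ^ p)
    (x : ι → ℂ) (Q : ι → Prop) [DecidablePred Q] (l m : ℂ) :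
    ‖J p l * l * blk p A x (F.filter Q) (F.filter Q) +
      J p l * m * blk p A x (F.filter Q) (F.filter (fun i => ¬ Q i)) +
      J p m * l * blk p A x (F.filter (fun i => ¬ Q i)) (F.filter Q) +
      J p m * m * blk p A x (F.filter (fun i => ¬ Q i)) (F.filter (fun i => ¬ Q i))‖ ≤
      v * (‖l‖ ^ p * ∑ i ∈ F.filter Q, ‖x i‖ ^ p +
        ‖m‖ ^ p * ∑ i ∈ F.filter (fun i => ¬ Q i), ‖x i‖ ^ p) := by
  have h := HA (fun i => if Q i then l * x i else m * x i)
  set S := F.filter Q with hS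
  set S' := F.filter (fun i => ¬ Q i) with hS'
  have hsplit : ∀ f : ι → ℂ, ∑ i ∈ F, f i = ∑ i ∈ S, f i + ∑ i ∈ S', f i := fun f =>
    (Finset.sum_filter_add_sum_filter_not F _ f).symm
  have hsplitR : ∀ f : ι → ℝ, ∑ i ∈ F, f i = ∑ i ∈ S, f i + ∑ i ∈ S', f i := fun f =>
    (Finset.sum_filter_add_sum_filter_not F _ f).symm
  have inS : ∀ i ∈ S, (if Q i then l * x i else m * x i) = l * x i := fun i hi =>
    if_pos (Finset.mem_filter.mp hi).2
  have inS' : ∀ i ∈ S', (if Q i then l * x i else m * x i) = m * x i := fun i hi =>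
    if_neg (Finset.mem_filter.mp hi).2
  have inner : ∀ i, ∑ j ∈ F, A i j * (if Q j then l * x j else m * x j) =
      l * ∑ j ∈ S, A i j * x j + m * ∑ j ∈ S', A i j * x j := by
    intro i
    rw [hsplit, Finset.mul_sum, Finset.mul_sum]
    congr 1
    · exact Finset.sum_congr rfl fun j hj => by rw [inS j hj]; ring
    · exact Finset.sum_congr rfl fun j hj => by rw [inS' j hj]; ring
  have e1 : ∑ i ∈ F, J p (if Q i then l * x i else m * x i) *
      ∑ j ∈ F, A i j * (if Q j then l * x j else m * x j) =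
      J p l * l * blk p A x S S + J p l * m * blk p A x S S' + J p m * l * blk p A x S' S +
      J p m * m * blk p A x S' S' := by
    simp only [inner]
    rw [hsplit]
    have g1 : ∑ i ∈ S, J p (if Q i then l * x i else m * x i) *
        (l * ∑ j ∈ S, A i j * x j + m * ∑ j ∈ S', A i j * x j) =
        J p l * l * blk p A x S S + J p l * m * blk p A x S S' := by
      unfold blk
      rw [Finset.mul_sum, Finset.mul_sum, ← Finset.sum_add_distrib]
      exact Finset.sum_congr rfl fun i hi => by rw [inS i hi, J_mul]; ring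
    have g2 : ∑ i ∈ S', J p (if Q i then l * x i else m * x i) *
        (l * ∑ j ∈ S, A i j * x j + m * ∑ j ∈ S', A i j * x j) =
        J p m * l * blk p A x S' S + J p m * m * blk p A x S' S' := by
      unfold blk
      rw [Finset.mul_sum, Finset.mul_sum, ← Finset.sum_add_distrib]
      exact Finset.sum_congr rfl fun i hi => by rw [inS' i hi, J_mul]; ring
    rw [g1, g2]; ring
  have e2 : ∑ i ∈ F, ‖if Q i then l * x i else m * x i‖ ^ p =
      ‖l‖ ^ p * ∑ i ∈ S, ‖x i‖ ^ p + ‖m‖ ^ p * ∑ i ∈ S', ‖x i‖ ^ p := by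
    rw [hsplitR, Finset.mul_sum, Finset.mul_sum]
    congr 1
    · exact Finset.sum_congr rfl fun i hi => by
        rw [inS i hi, norm_mul, Real.mul_rpow (norm_nonneg _) (norm_nonneg _)]
    · exact Finset.sum_congr rfl fun i hi => by
        rw [inS' i hi, norm_mul, Real.mul_rpow (norm_nonneg _) (norm_nonneg _)]
  rw [e1, e2] at h
  exact h

/-- Abstract estimate: consequences of the block inequality. -/
lemma rowcol {p v α β : ℝ} {c a b d : ℂ} (hp : 1 < p) (hv : 0 ≤ v) (hα : 0 ≤ α) (hβ : 0 ≤ β)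
    (H : ∀ l m : ℂ, ‖J p l * l * c + J p l * m * a + J p m * l * b + J p m * m * d‖ ≤
      v * (‖l‖ ^ p * α + ‖m‖ ^ p * β)) {l : ℝ} (hl : 0 < l) (hl1 : l ≤ 1) :
    l * ‖c + a‖ ≤ v * (α + 3 * l ^ (p - 1) * (α + β)) ∧
    l * ‖c + b‖ ≤ v * (α + 3 * l ^ (1 / (p - 1)) * (α + β)) := by
  have hp0 : 0 < p := by linarith
  have hp1 : 0 < p - 1 := by linarith
  have V : ∀ σ : ℂ, ‖σ‖ = 1 → ‖c + σ * a + (starRingEnd ℂ) σ * b + d‖ ≤ v * (α + β) := by
    intro σ hσ
    have h := H 1 σ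
    have hs : (starRingEnd ℂ) σ * σ = 1 := by
      rw [mul_comm, Complex.mul_conj, Complex.normSq_eq_norm_sq, hσ]; norm_num
    rw [J_one, J_unit p hσ, hs, norm_one, hσ, Real.one_rpow] at h
    simpa only [one_mul, mul_one] using h
  have V1 := V 1 norm_one
  have V2 := V Complex.I Complex.norm_I
  have V3 := V (-1) (by rw [norm_neg, norm_one])
  have V4 := V (-Complex.I) (by rw [norm_neg, Complex.norm_I])
  rw [map_one] at V1
  rw [Complex.conj_I] at V2
  rw [map_neg, map_one] at V3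
  rw [map_neg, Complex.conj_I, neg_neg] at V4
  have hII := Complex.I_mul_I
  have hb : ‖b‖ ≤ v * (α + β) := by
    have e : 4 * b = (c + 1 * a + 1 * b + d) + Complex.I * (c + Complex.I * a + -Complex.I * b + d) -
        (c + -1 * a + -1 * b + d) - Complex.I * (c + -Complex.I * a + Complex.I * b + d) := by
      linear_combination (2 * b - 2 * a) * hII
    have h4 : ‖4 * b‖ = 4 * ‖b‖ := by rw [norm_mul]; norm_num
    have h5 : ‖4 * b‖ ≤ 4 * (v * (α + β)) := by
      rw [e]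
      exact (four V1 V2 V3 V4).1
    linarith
  have ha : ‖a‖ ≤ v * (α + β) := by
    have e : 4 * a = (c + 1 * a + 1 * b + d) - Complex.I * (c + Complex.I * a + -Complex.I * b + d) -
        (c + -1 * a + -1 * b + d) + Complex.I * (c + -Complex.I * a + Complex.I * b + d) := by
      linear_combination (2 * a - 2 * b) * hII
    have h4 : ‖4 * a‖ = 4 * ‖a‖ := by rw [norm_mul]; norm_num
    have h5 : ‖4 * a‖ ≤ 4 * (v * (α + β)) := by
      rw [e]
      exact (four V1 V2 V3 V4).2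
    linarith
  have hd : ‖d‖ ≤ v * (α + β) := by
    have h := H 0 1
    rw [J_one, J_zero, norm_one, norm_zero, Real.one_rpow, Real.zero_rpow hp0.ne'] at h
    simp only [zero_mul, mul_zero, one_mul, mul_one, zero_add] at h
    refine h.trans (mul_le_mul_of_nonneg_left (by linarith) hv)
  have hvS : 0 ≤ v * (α + β) := by positivity
  -- the general test with modulus `m`
  have T : ∀ (m : ℝ) (σ : ℂ), 0 < m → ‖σ‖ = 1 →
      ‖c + (m : ℂ) * σ * a + ((m ^ (p - 1) : ℝ) : ℂ) * (starRingEnd ℂ) σ * b +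
        ((m ^ p : ℝ) : ℂ) * d‖ ≤ v * (α + m ^ p * β) := by
    intro m σ hm hσ
    have h := H 1 ((m : ℂ) * σ)
    have hs : (starRingEnd ℂ) σ * σ = 1 := by
      rw [mul_comm, Complex.mul_conj, Complex.normSq_eq_norm_sq, hσ]; norm_num
    have hmp : m ^ p = m ^ (p - 1) * m := by
      rw [← Real.rpow_add_one hm.ne']; congr 1; ring
    have e1 : J p ((m : ℂ) * σ) * ((m : ℂ) * σ) = ((m ^ p : ℝ) : ℂ) := by
      rw [J_mul, J_pos hm, J_unit p hσ, hmp]
      push_cast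
      linear_combination (((m ^ (p - 1) : ℝ) : ℂ) * (m : ℂ)) * hs
    rw [e1, J_one, J_mul, J_pos hm, J_unit p hσ, norm_one, norm_mul, hσ, Complex.norm_real,
      Real.norm_of_nonneg hm.le, Real.one_rpow] at h
    simpa only [one_mul, mul_one] using h
  constructor
  · obtain ⟨σ, hσ, hal⟩ := align c ((l : ℂ) * a)
    have h := T l σ hl hσ
    have hlp : l ^ p ≤ l ^ (p - 1) := Real.rpow_le_rpow_of_exponent_ge hl hl1 (by linarith)
    have hlq0 : 0 < l ^ (p - 1) := by positivity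
    have hlp0 : 0 < l ^ p := by positivity
    have n1 : ‖c + σ * ((l : ℂ) * a)‖ ≤
        ‖c + (l : ℂ) * σ * a + ((l ^ (p - 1) : ℝ) : ℂ) * (starRingEnd ℂ) σ * b +
        ((l ^ p : ℝ) : ℂ) * d‖ + l ^ (p - 1) * ‖b‖ + l ^ p * ‖d‖ := by
      have e : c + σ * ((l : ℂ) * a) = (c + (l : ℂ) * σ * a +
          ((l ^ (p - 1) : ℝ) : ℂ) * (starRingEnd ℂ) σ * b + ((l ^ p : ℝ) : ℂ) * d) -
          ((l ^ (p - 1) : ℝ) : ℂ) * (starRingEnd ℂ) σ * b - ((l ^ p : ℝ) : ℂ) * d := by ring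
      rw [e]
      refine (norm_sub_le _ _).trans ?_
      have m1 : ‖((l ^ p : ℝ) : ℂ) * d‖ = l ^ p * ‖d‖ := by
        rw [norm_mul, Complex.norm_real, Real.norm_of_nonneg hlp0.le]
      have m2 : ‖((l ^ (p - 1) : ℝ) : ℂ) * (starRingEnd ℂ) σ * b‖ = l ^ (p - 1) * ‖b‖ := by
        rw [norm_mul, norm_mul, Complex.norm_real, RCLike.norm_conj, hσ, mul_one,
          Real.norm_of_nonneg hlq0.le]
      have m3 := norm_sub_le (c + (l : ℂ) * σ * a +
          ((l ^ (p - 1) : ℝ) : ℂ) * (starRingEnd ℂ) σ * b + ((l ^ p : ℝ) : ℂ) * d)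
          (((l ^ (p - 1) : ℝ) : ℂ) * (starRingEnd ℂ) σ * b)
      rw [m2] at m3
      rw [m1]
      linarith
    rw [hal, norm_mul, Complex.norm_real, Real.norm_of_nonneg hl.le] at n1
    have k1 : l ^ (p - 1) * ‖b‖ ≤ l ^ (p - 1) * (v * (α + β)) :=
      mul_le_mul_of_nonneg_left hb hlq0.le
    have k2 : l ^ p * ‖d‖ ≤ l ^ (p - 1) * (v * (α + β)) :=
      mul_le_mul hlp hd (norm_nonneg _) hlq0.le
    have k3 : v * (α + l ^ p * β) ≤ v * α + l ^ (p - 1) * (v * (α + β)) := by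
      have : l ^ p * (v * β) ≤ l ^ (p - 1) * (v * (α + β)) :=
        mul_le_mul hlp (mul_le_mul_of_nonneg_left (by linarith) hv) (by positivity) hlq0.le
      nlinarith
    have k4 : l * ‖c + a‖ ≤ ‖c‖ + l * ‖a‖ := by
      have := mul_le_mul_of_nonneg_left (norm_add_le c a) hl.le
      have := mul_le_mul_of_nonneg_right hl1 (norm_nonneg c)
      linarith
    linarith
  · set m := l ^ (1 / (p - 1)) with hm
    have hm0 : 0 < m := by positivity
    have hm1 : m ≤ 1 := Real.rpow_le_one hl.le hl1 (by positivity)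
    have hml : m ^ (p - 1) = l := by
      rw [hm, ← Real.rpow_mul hl.le, one_div_mul_cancel hp1.ne', Real.rpow_one]
    have hmp : m ^ p ≤ m := by
      have := Real.rpow_le_rpow_of_exponent_ge hm0 hm1 hp.le
      rwa [Real.rpow_one] at this
    have hmp0 : 0 < m ^ p := by positivity
    obtain ⟨τ, hτ, hal⟩ := align c ((l : ℂ) * b)
    have hcτ : ‖(starRingEnd ℂ) τ‖ = 1 := by rw [RCLike.norm_conj, hτ]
    have h := T m ((starRingEnd ℂ) τ) hm0 hcτ
    rw [Complex.conj_conj, hml] at h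
    have n1 : ‖c + τ * ((l : ℂ) * b)‖ ≤
        ‖c + (m : ℂ) * (starRingEnd ℂ) τ * a + (l : ℂ) * τ * b +
        ((m ^ p : ℝ) : ℂ) * d‖ + m * ‖a‖ + m ^ p * ‖d‖ := by
      have e : c + τ * ((l : ℂ) * b) = (c + (m : ℂ) * (starRingEnd ℂ) τ * a + (l : ℂ) * τ * b +
          ((m ^ p : ℝ) : ℂ) * d) - (m : ℂ) * (starRingEnd ℂ) τ * a - ((m ^ p : ℝ) : ℂ) * d := by
        ring
      rw [e]
      refine (norm_sub_le _ _).trans ?_
      have m1 : ‖((m ^ p : ℝ) : ℂ) * d‖ = m ^ p * ‖d‖ := by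
        rw [norm_mul, Complex.norm_real, Real.norm_of_nonneg hmp0.le]
      have m2 : ‖(m : ℂ) * (starRingEnd ℂ) τ * a‖ = m * ‖a‖ := by
        rw [norm_mul, norm_mul, Complex.norm_real, hcτ, mul_one, Real.norm_of_nonneg hm0.le]
      have m3 := norm_sub_le (c + (m : ℂ) * (starRingEnd ℂ) τ * a + (l : ℂ) * τ * b +
          ((m ^ p : ℝ) : ℂ) * d) ((m : ℂ) * (starRingEnd ℂ) τ * a)
      rw [m2] at m3
      rw [m1]
      linarith
    rw [hal, norm_mul, Complex.norm_real, Real.norm_of_nonneg hl.le] at n1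
    have k1 : m * ‖a‖ ≤ m * (v * (α + β)) := mul_le_mul_of_nonneg_left ha hm0.le
    have k2 : m ^ p * ‖d‖ ≤ m * (v * (α + β)) := mul_le_mul hmp hd (norm_nonneg _) hm0.le
    have k3 : v * (α + m ^ p * β) ≤ v * α + m * (v * (α + β)) := by
      have : m ^ p * (v * β) ≤ m * (v * (α + β)) :=
        mul_le_mul hmp (mul_le_mul_of_nonneg_left (by linarith) hv) (by positivity) hm0.le
      nlinarith
    have k4 : l * ‖c + b‖ ≤ ‖c‖ + l * ‖b‖ := by
      have := mul_le_mul_of_nonneg_left (norm_add_le c b) hl.le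
      have := mul_le_mul_of_nonneg_right hl1 (norm_nonneg c)
      linarith
    linarith

end Pool.Agent.H148R3.NM
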