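import Pool.Agent.H148R3.NM3

set_option autoImplicit false

namespace Pool.Agent.H148R3.NM

open Filter Topology
open scoped ENNReal
open Pool.Agent.H148R3.NI
open Pool.Agent.H148R3.NK (kappa kappa_eq)

variable {ι : Type*}

theorem stepB' {p v δ l : ℝ} (hp : 1 < p) (hv : 0 ≤ v) (hl : 0 < l) (hl1 : l ≤ 1)
    (t : Finset ℂ) (ht : ∀ η ∈ t, ‖η‖ = 1) (g : ℂ → ℂ) (hg1 : ∀ z, g z ∈ t)
    (hg2 : ∀ z, ‖(‖z‖ : ℂ) - (starRingEnd ℂ) (g z) * z‖ ≤ δ * ‖z‖) (F : Finset ι)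
    (A : ι → ι → ℂ)
    (HA : ∀ x : ι → ℂ, ‖∑ i ∈ F, J p (x i) * ∑ j ∈ F, A i j * x j‖ ≤ v * ∑ i ∈ F, ‖x i‖ ^ p)
    (x : ι → ℂ) :
    l * (1 - δ) * ∑ i ∈ F, ‖x i‖ ^ (p - 1) * ‖∑ j ∈ F, A i j * x j‖ ≤
      v * (1 + 3 * t.card * l ^ (1 / (p - 1))) * ∑ i ∈ F, ‖x i‖ ^ p := by
  classical
  obtain ⟨z, hz⟩ : ∃ z : ι → ℂ, ∀ i, z i = J p (x i) * ∑ j ∈ F, A i j * x j := ⟨_, fun _ => rfl⟩
  obtain ⟨y, hy⟩ : ∃ y : ι → ℂ, ∀ i, y i = g (z i) * x i := ⟨_, fun _ => rfl⟩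
  have hgn : ∀ i, ‖g (z i)‖ = 1 := fun i => ht _ (hg1 _)
  have hyn : ∀ i, ‖y i‖ = ‖x i‖ := fun i => by rw [hy, norm_mul, hgn, one_mul]
  have hJ : ∀ i, J p (y i) = (starRingEnd ℂ) (g (z i)) * J p (x i) := fun i => by
    rw [hy, J_mul, J_unit p (hgn i)]
  have hxy : ∀ j, x j = (starRingEnd ℂ) (g (z j)) * y j := fun j => by
    have hs : (starRingEnd ℂ) (g (z j)) * g (z j) = 1 := by
      rw [mul_comm, Complex.mul_conj, Complex.normSq_eq_norm_sq, hgn]; norm_num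
    rw [hy, ← mul_assoc, hs, one_mul]
  set Λ := ∑ i ∈ F, ‖z i‖ with hΛ
  set S := ∑ i ∈ F, ‖x i‖ ^ p with hS
  have hΛe : ∑ i ∈ F, ‖x i‖ ^ (p - 1) * ‖∑ j ∈ F, A i j * x j‖ = Λ :=
    Finset.sum_congr rfl fun i _ => by rw [hz, norm_mul, norm_J hp]
  have hpiece : ∀ η ∈ t, l * ‖∑ i ∈ F, J p (y i) * ∑ j ∈ F.filter (fun j => g (z j) = η),
      A i j * y j‖ ≤
      v * (∑ i ∈ F.filter (fun i => g (z i) = η), ‖x i‖ ^ p + 3 * l ^ (1 / (p - 1)) * S) := by
    intro η _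
    have H := block F A HA y (fun i => g (z i) = η)
    have h := (rowcol hp hv (Finset.sum_nonneg fun i _ => by positivity)
      (Finset.sum_nonneg fun i _ => by positivity) H hl hl1).2
    have e1 : blk p A y (F.filter (fun i => g (z i) = η)) (F.filter (fun i => g (z i) = η)) +
        blk p A y (F.filter (fun i => ¬ g (z i) = η)) (F.filter (fun i => g (z i) = η)) =
        ∑ i ∈ F, J p (y i) * ∑ j ∈ F.filter (fun j => g (z j) = η), A i j * y j := by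
      unfold blk
      rw [Finset.sum_filter_add_sum_filter_not]
    rw [e1, Finset.sum_filter_add_sum_filter_not] at h
    simp only [hyn] at h
    exact h
  have hsumz : ∑ i ∈ F, (starRingEnd ℂ) (g (z i)) * z i =
      ∑ η ∈ t, (starRingEnd ℂ) η * ∑ i ∈ F, J p (y i) *
        ∑ j ∈ F.filter (fun j => g (z j) = η), A i j * y j := by
    have h1 : ∀ i, ∑ j ∈ F, A i j * x j = ∑ η ∈ t, (starRingEnd ℂ) η *
        ∑ j ∈ F.filter (fun j => g (z j) = η), A i j * y j := by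
      intro i
      rw [← Finset.sum_fiberwise_of_maps_to (g := fun i => g (z i)) (t := t)
        (fun i _ => hg1 (z i))]
      refine Finset.sum_congr rfl fun η _ => ?_
      rw [Finset.mul_sum]
      refine Finset.sum_congr rfl fun j hj => ?_
      have h2 := hxy j
      rw [(Finset.mem_filter.mp hj).2] at h2
      linear_combination (A i j) * h2
    have h2 : ∀ i ∈ F, (starRingEnd ℂ) (g (z i)) * z i = ∑ η ∈ t, (starRingEnd ℂ) η *
        (J p (y i) * ∑ j ∈ F.filter (fun j => g (z j) = η), A i j * y j) := by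
      intro i _
      have e0 : (starRingEnd ℂ) (g (z i)) * z i = J p (y i) * ∑ j ∈ F, A i j * x j := by
        rw [hJ i]
        linear_combination ((starRingEnd ℂ) (g (z i))) * hz i
      rw [e0, h1 i, Finset.mul_sum]
      exact Finset.sum_congr rfl fun η _ => by ring
    rw [Finset.sum_congr rfl h2, Finset.sum_comm]
    exact Finset.sum_congr rfl fun η _ => by rw [Finset.mul_sum]
  have hS' : ∑ η ∈ t, ∑ i ∈ F.filter (fun i => g (z i) = η), ‖x i‖ ^ p = S :=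
    Finset.sum_fiberwise_of_maps_to (fun i _ => hg1 (z i)) _
  have h1 : l * ‖∑ i ∈ F, (starRingEnd ℂ) (g (z i)) * z i‖ ≤
      v * (1 + 3 * t.card * l ^ (1 / (p - 1))) * S := by
    rw [hsumz]
    calc l * ‖∑ η ∈ t, (starRingEnd ℂ) η * ∑ i ∈ F, J p (y i) *
          ∑ j ∈ F.filter (fun j => g (z j) = η), A i j * y j‖
        ≤ l * ∑ η ∈ t, ‖∑ i ∈ F, J p (y i) *
          ∑ j ∈ F.filter (fun j => g (z j) = η), A i j * y j‖ := by
          apply mul_le_mul_of_nonneg_left _ hl.le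
          refine (norm_sum_le _ _).trans (Finset.sum_le_sum fun η hη => ?_)
          rw [norm_mul, RCLike.norm_conj, ht η hη, one_mul]
      _ = ∑ η ∈ t, l * ‖∑ i ∈ F, J p (y i) *
          ∑ j ∈ F.filter (fun j => g (z j) = η), A i j * y j‖ := Finset.mul_sum _ _ _
      _ ≤ ∑ η ∈ t, v * (∑ i ∈ F.filter (fun i => g (z i) = η), ‖x i‖ ^ p +
            3 * l ^ (1 / (p - 1)) * S) := Finset.sum_le_sum hpiece
      _ = v * (1 + 3 * t.card * l ^ (1 / (p - 1))) * S := by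
          rw [← Finset.mul_sum, Finset.sum_add_distrib, hS', Finset.sum_const, nsmul_eq_mul]; ring
  have h2 : Λ ≤ ‖∑ i ∈ F, (starRingEnd ℂ) (g (z i)) * z i‖ + δ * Λ := by
    have e : (Λ : ℂ) = ∑ i ∈ F, (starRingEnd ℂ) (g (z i)) * z i +
        ∑ i ∈ F, ((‖z i‖ : ℂ) - (starRingEnd ℂ) (g (z i)) * z i) := by
      rw [← Finset.sum_add_distrib, hΛ]
      push_cast
      exact Finset.sum_congr rfl fun i _ => by ring
    have hn : ‖(Λ : ℂ)‖ = Λ := by
      rw [Complex.norm_real, Real.norm_of_nonneg (Finset.sum_nonneg fun i _ => norm_nonneg _)]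
    calc Λ = ‖(Λ : ℂ)‖ := hn.symm
      _ = ‖∑ i ∈ F, (starRingEnd ℂ) (g (z i)) * z i +
        ∑ i ∈ F, ((‖z i‖ : ℂ) - (starRingEnd ℂ) (g (z i)) * z i)‖ := by rw [e]
      _ ≤ ‖∑ i ∈ F, (starRingEnd ℂ) (g (z i)) * z i‖ +
        ‖∑ i ∈ F, ((‖z i‖ : ℂ) - (starRingEnd ℂ) (g (z i)) * z i)‖ := norm_add_le _ _
      _ ≤ ‖∑ i ∈ F, (starRingEnd ℂ) (g (z i)) * z i‖ + δ * Λ := by
          apply add_le_add le_rfl
          refine (norm_sum_le _ _).trans ?_
          rw [hΛ, Finset.mul_sum]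
          exact Finset.sum_le_sum fun i _ => hg2 (z i)
  rw [hΛe]
  have h3 := mul_le_mul_of_nonneg_left h2 hl.le
  linarith

/-- The explicit lower bound for the numerical radius (complex scalars), `p` near `1`. -/
theorem lower' [DecidableEq ι] {P : ℝ≥0∞} [Fact (1 ≤ P)] {p δ l τ : ℝ} (hp : 1 < p)
    (hPp : P.toReal = p) (hPt : P ≠ ∞) (hδ1 : δ < 1) (hl : 0 < l) (hl1 : l ≤ 1) (hτ : 0 < τ)
    (t : Finset ℂ) (ht : ∀ η ∈ t, ‖η‖ = 1) (g : ℂ → ℂ) (hg1 : ∀ z, g z ∈ t)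
    (hg2 : ∀ z, ‖(‖z‖ : ℂ) - (starRingEnd ℂ) (g z) * z‖ ≤ δ * ‖z‖)
    (T : lp (fun _ : ι => ℂ) P →L[ℂ] lp (fun _ : ι => ℂ) P) :
    ‖T‖ * ((τ ^ (p - 1) / (1 + τ ^ p)) * (l * (1 - δ) / (1 + 3 * t.card * l ^ (1 / (p - 1))))) ≤
      numRadius T := by
  have hp0 : 0 < p := by linarith
  have hv := numRadius_nonneg T
  have hd : 0 < l * (1 - δ) := mul_pos hl (by linarith)
  have hW : 0 < 1 + 3 * (t.card : ℝ) * l ^ (1 / (p - 1)) := by positivity
  set V := numRadius T * (1 + 3 * t.card * l ^ (1 / (p - 1))) / (l * (1 - δ)) with hV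
  have hV0 : 0 ≤ V := by positivity
  set C := V * (1 + τ ^ p) / τ ^ (p - 1) with hC
  have hC0 : 0 ≤ C := by positivity
  have hT : ‖T‖ ≤ C := by
    refine norm_le_of_matrix hp hPp hPt hC0 T fun F x => ?_
    have HB : ∀ z : ι → ℂ, ∑ i ∈ F, ‖z i‖ ^ (p - 1) *
        ‖∑ j ∈ F, (T (lp.single P j 1)) i * z j‖ ≤ V * ∑ i ∈ F, ‖z i‖ ^ p := by
      intro z
      have h1 := stepB' hp hv hl hl1 t ht g hg1 hg2 F (fun i j => (T (lp.single P j 1)) i)
        (fun x => HA hp hPp T F x) z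
      rw [hV, div_mul_eq_mul_div, le_div_iff₀ hd, mul_comm _ (l * (1 - δ))]
      exact h1
    have h2 := stepE hp hτ hV0 F (fun i j => (T (lp.single P j 1)) i) HB x
    have hτq : 0 < τ ^ (p - 1) := by positivity
    have s1 : 0 ≤ ∑ i ∈ F, ‖∑ j ∈ F, (T (lp.single P j 1)) i * x j‖ ^ p :=
      Finset.sum_nonneg fun i _ => by positivity
    have s2 : 0 ≤ ∑ i ∈ F, ‖x i‖ ^ p := Finset.sum_nonneg fun i _ => by positivity
    have h3 : (∑ i ∈ F, ‖∑ j ∈ F, (T (lp.single P j 1)) i * x j‖ ^ p) ^ (1 / p) ≤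
        C * (∑ i ∈ F, ‖x i‖ ^ p) ^ (1 / p) := by
      rw [hC, div_mul_eq_mul_div, le_div_iff₀ hτq, mul_comm _ (τ ^ (p - 1))]
      exact h2
    have h4 := Real.rpow_le_rpow (by positivity) h3 hp0.le
    rw [Real.mul_rpow hC0 (by positivity), ← Real.rpow_mul s1, ← Real.rpow_mul s2,
      one_div_mul_cancel hp0.ne', Real.rpow_one, Real.rpow_one] at h4
    exact h4
  have hτq : 0 < τ ^ (p - 1) := by positivity
  have h5 : C * ((τ ^ (p - 1) / (1 + τ ^ p)) *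
      (l * (1 - δ) / (1 + 3 * t.card * l ^ (1 / (p - 1))))) = numRadius T := by
    rw [hC, hV]
    have : 0 < 1 + τ ^ p := by positivity
    have h6 : (1 - δ) ≠ 0 := by linarith
    field_simp
  rw [← h5]
  exact mul_le_mul_of_nonneg_right hT (by positivity)

lemma kappa_conj {p : ℝ} (hp : 1 < p) : kappa p = kappa (p / (p - 1)) := by
  have hp1 : p - 1 ≠ 0 := by linarith
  have hp0 : p ≠ 0 := by linarith
  have e1 : p / (p - 1) - 1 = 1 / (p - 1) := by field_simp; ring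
  have e2 : p / (p - 1) / (1 / (p - 1)) = p := by field_simp
  have e3 : 1 / (p - 1) / (p / (p - 1)) = 1 / p := by field_simp
  have e4 : 1 / (p / (p - 1)) = (p - 1) / p := by rw [one_div_div]
  unfold kappa
  rw [e1, e2, e3, e4, mul_comm]

theorem limit_two {ε : ℝ} (hε : 0 < ε) : ∃ K : ℝ, 1 < K ∧ ∀ (P : ℝ≥0∞) [Fact (1 ≤ P)], 1 < P →
    P ≠ ∞ → (K < P.toReal ∨ K < P.toReal / (P.toReal - 1)) → ∀ (ι : Type*) [Nonempty ι],
    1 - ε ≤ numIndex (lp (fun _ : ι => ℂ) P) := by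
  wlog hε1 : ε ≤ 1 generalizing ε
  · obtain ⟨K, hK, h⟩ := this one_pos le_rfl
    refine ⟨K, hK, fun P _ hP1 hP hKP ι _ => ?_⟩
    have := h P hP1 hP hKP ι
    linarith
  obtain ⟨t, ht, g, hg1, hg2⟩ := directions (δ := ε / 3) (by positivity)
  set l := 1 - ε / 3 with hl
  have hl0 : 0 < l := by rw [hl]; linarith
  have hl1 : l < 1 := by rw [hl]; linarith
  have hlim : Tendsto (fun p : ℝ => kappa p *
      (l * (1 - ε / 3) / (1 + 3 * t.card * l ^ (p - 1)))) atTop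
      (𝓝 (1 * (l * (1 - ε / 3) / (1 + 3 * t.card * 0)))) := by
    refine tendsto_kappa.mul (tendsto_const_nhds.div (tendsto_const_nhds.add
      (tendsto_const_nhds.mul ?_)) (by norm_num))
    exact (tendsto_rpow_atTop_of_base_lt_one l (by linarith) hl1).comp
      (tendsto_atTop_add_const_right _ (-1) tendsto_id)
  have hgt : 1 - ε < 1 * (l * (1 - ε / 3) / (1 + 3 * t.card * 0)) := by
    rw [mul_zero, add_zero, div_one, one_mul, hl]
    nlinarith
  have hev := hlim.eventually (lt_mem_nhds hgt)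
  obtain ⟨K, hK⟩ := eventually_atTop.mp (hev.and (eventually_gt_atTop 1))
  refine ⟨max K 2, lt_of_lt_of_le (by norm_num) (le_max_right _ _), fun P _ hP1 hP hKP ι _ => ?_⟩
  classical
  have hp : 1 < P.toReal := by
    rw [← ENNReal.toReal_one]
    exact (ENNReal.toReal_lt_toReal ENNReal.one_ne_top hP).mpr hP1
  obtain ⟨p, hPp⟩ : ∃ p, P.toReal = p := ⟨_, rfl⟩
  rw [hPp] at hKP hp
  obtain ⟨i₀⟩ := (inferInstance : Nonempty ι)
  have hnt : Nontrivial (lp (fun _ : ι => ℂ) P) := by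
    refine ⟨lp.single P i₀ 1, 0, fun h => ?_⟩
    have := congrArg (fun y : lp (fun _ : ι => ℂ) P => y i₀) h
    simp only [lp.single_apply_self] at this
    exact one_ne_zero this
  refine le_numIndex fun T hT => ?_
  rcases hKP with hKP | hKP
  · obtain ⟨k1, k2⟩ := hK p ((le_max_left _ _).trans hKP.le)
    have := lower (τ := (p - 1) ^ (1 / p)) hp hPp hP (δ := ε / 3) (by linarith) hl0 hl1.le
      (Real.rpow_pos_of_pos (by linarith) _) t ht g hg1 hg2 T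
    rw [hT, one_mul, ← kappa_eq hp] at this
    exact k1.le.trans this
  · obtain ⟨k1, k2⟩ := hK (p / (p - 1)) ((le_max_left _ _).trans hKP.le)
    have := lower' (τ := (p - 1) ^ (1 / p)) hp hPp hP (δ := ε / 3) (by linarith) hl0 hl1.le
      (Real.rpow_pos_of_pos (by linarith) _) t ht g hg1 hg2 T
    rw [hT, one_mul, ← kappa_eq hp, kappa_conj hp] at this
    have e1 : p / (p - 1) - 1 = 1 / (p - 1) := by
      have : p - 1 ≠ 0 := by linarith
      field_simp; ring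
    rw [e1] at k1
    exact k1.le.trans this

end Pool.Agent.H148R3.NM
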