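import Mathlib

/-! Topology of ordinal intervals, and bounded operators on spaces of continuous functions. -/

set_option autoImplicit false

open Filter Topology Set
open scoped BoundedContinuousFunction

namespace Pool.Agent.H148R3

section Ord

lemma cont_ord_add (b : Ordinal.{0}) : Continuous (fun x : Ordinal.{0} => b + x) :=
  (Ordinal.isNormal_add_right b).continuous

lemma cont_ord_sub (b : Ordinal.{0}) : Continuous (fun x : Ordinal.{0} => x - b) := by
  rw [OrderTopology.continuous_iff]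
  intro c
  constructor
  · have : (fun x : Ordinal.{0} => x - b) ⁻¹' Ioi c = Ioi (b + c) := by
      ext x
      simp only [mem_preimage, mem_Ioi]
      exact Ordinal.lt_sub
    rw [this]
    exact isOpen_Ioi
  · rcases eq_or_ne c 0 with hc | hc
    · have : (fun x : Ordinal.{0} => x - b) ⁻¹' Iio c = ∅ := by
        ext x
        simp [hc]
      rw [this]
      exact isOpen_empty
    · have hc0 : 0 < c := pos_iff_ne_zero.2 hc
      have : (fun x : Ordinal.{0} => x - b) ⁻¹' Iio c = Iio (b + c) := by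
        ext x
        simp only [mem_preimage, mem_Iio]
        constructor
        · intro h
          by_cases hb : b ≤ x
          · exact (Ordinal.sub_lt_of_le hb).1 h
          · exact (not_le.1 hb).trans_le le_self_add
        · intro h
          exact Ordinal.sub_lt_of_lt_add h hc0
      rw [this]
      exact isOpen_Iio

variable {Ω : Ordinal.{0}}

lemma nhds_K (k : Iic Ω) (p : Iic Ω → Prop)
    (h : ∃ l < k.1, ∀ k' : Iic Ω, l < k'.1 → k'.1 ≤ k.1 → p k') : ∀ᶠ k' in 𝓝 k, p k' := by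
  obtain ⟨l, hl, h⟩ := h
  have h1 : ∀ᶠ x in 𝓝 k.1, x ∈ Ioo l (Order.succ k.1) := Ioo_mem_nhds hl (Order.lt_succ _)
  have h2 : ∀ᶠ k' in 𝓝 k, (k' : Iic Ω).1 ∈ Ioo l (Order.succ k.1) :=
    (continuous_subtype_val.tendsto k).eventually h1
  filter_upwards [h2] with k' hk'
  exact h k' hk'.1 (Order.lt_succ_iff.1 hk'.2)

lemma nhds_K0 (k : Iic Ω) (hk : k.1 = 0) (p : Iic Ω → Prop) (h : p k) : ∀ᶠ k' in 𝓝 k, p k' := by
  have h1 : ∀ᶠ x in 𝓝 k.1, x ∈ Iio (1 : Ordinal.{0}) := Iio_mem_nhds (by rw [hk]; exact one_pos)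
  have h2 : ∀ᶠ k' in 𝓝 k, (k' : Iic Ω).1 ∈ Iio (1 : Ordinal.{0}) :=
    (continuous_subtype_val.tendsto k).eventually h1
  filter_upwards [h2] with k' hk'
  have h3 : k' = k := by
    apply Subtype.ext
    rw [hk]
    exact Order.lt_one_iff.1 hk'
  rwa [h3]

lemma exists_of_nhds (k : Iic Ω) (hk : 0 < k.1) (p : Iic Ω → Prop) (h : ∀ᶠ k' in 𝓝 k, p k') :
    ∃ l < k.1, ∀ k' : Iic Ω, l < k'.1 → k'.1 ≤ k.1 → p k' := by
  obtain ⟨u, hu, hup⟩ := (mem_nhds_subtype _ _ _).1 h
  obtain ⟨l, hl, hlu⟩ := exists_Ioc_subset_of_mem_nhds hu ⟨0, hk⟩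
  exact ⟨l, hl, fun k' h1 h2 => hup (hlu ⟨h1, h2⟩)⟩

end Ord

section Ops

variable {𝕜 : Type*} [RCLike 𝕜] {K : Type*} [TopologicalSpace K]

/-- Constructor of operators on `K →ᵇ 𝕜`. -/
noncomputable def mkOp (F : (K →ᵇ 𝕜) → K → 𝕜) (C : ℝ) (hc : ∀ f, Continuous (F f))
    (hadd : ∀ f g k, F (f + g) k = F f k + F g k) (hsmul : ∀ (r : 𝕜) f k, F (r • f) k = r * F f k)
    (hb : ∀ f k, ‖F f k‖ ≤ C * ‖f‖) : (K →ᵇ 𝕜) →L[𝕜] (K →ᵇ 𝕜) :=
  LinearMap.mkContinuous
    { toFun := fun f => BoundedContinuousFunction.ofNormedAddCommGroup (F f) (hc f) (C * ‖f‖) (hb f)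
      map_add' := fun f g => by
        ext k
        exact hadd f g k
      map_smul' := fun r f => by
        ext k
        exact hsmul r f k } (max C 0) (fun f => by
    rw [BoundedContinuousFunction.norm_le (by positivity)]
    intro k
    refine (hb f k).trans ?_
    gcongr
    exact le_max_left _ _)

@[simp] lemma mkOp_apply (F : (K →ᵇ 𝕜) → K → 𝕜) (C : ℝ) (hc : ∀ f, Continuous (F f))
    (hadd : ∀ f g k, F (f + g) k = F f k + F g k) (hsmul : ∀ (r : 𝕜) f k, F (r • f) k = r * F f k)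
    (hb : ∀ f k, ‖F f k‖ ≤ C * ‖f‖) (f : K →ᵇ 𝕜) (k : K) :
    mkOp F C hc hadd hsmul hb f k = F f k := rfl

/-- Composition operator. -/
noncomputable def cmp (u : K → K) (hu : Continuous u) : (K →ᵇ 𝕜) →L[𝕜] (K →ᵇ 𝕜) :=
  mkOp (fun f k => f (u k)) 1 (fun f => f.continuous.comp hu) (fun _ _ _ => rfl) (fun _ _ _ => rfl)
    (fun f k => by rw [one_mul]; exact f.norm_coe_le_norm _)

@[simp] lemma cmp_apply (u : K → K) (hu : Continuous u) (f : K →ᵇ 𝕜) (k : K) :
    cmp (𝕜 := 𝕜) u hu f k = f (u k) := rfl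

open Classical in
/-- Multiplication by the indicator of a clopen set. -/
noncomputable def ind (s : Set K) (hs : IsClopen s) : (K →ᵇ 𝕜) →L[𝕜] (K →ᵇ 𝕜) :=
  mkOp (fun f k => if k ∈ s then f k else 0) 1 (fun f => by
      have := f.continuous.indicator (s := s) (by simp [hs.frontier_eq])
      exact this)
    (fun f g k => by by_cases h : k ∈ s <;> simp [h])
    (fun r f k => by by_cases h : k ∈ s <;> simp [h])
    (fun f k => by
      by_cases h : k ∈ s
      · simp only [h, if_true, one_mul]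
        exact f.norm_coe_le_norm _
      · simp [h])

open Classical in
@[simp] lemma ind_apply (s : Set K) (hs : IsClopen s) (f : K →ᵇ 𝕜) (k : K) :
    ind (𝕜 := 𝕜) s hs f k = if k ∈ s then f k else 0 := rfl

/-- evaluation functional -/
noncomputable def ev (k : K) : StrongDual 𝕜 (K →ᵇ 𝕜) :=
  BoundedContinuousFunction.evalCLM 𝕜 k

@[simp] lemma ev_apply (k : K) (f : K →ᵇ 𝕜) : ev (𝕜 := 𝕜) k f = f k := rfl

end Ops

end Pool.Agent.H148R3
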