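import Mathlib
import Pool.Agent.H148R3.OrdTop
import Pool.Agent.H148R3.Key

/-! The `c₀`-type decomposition attached to a fundamental sequence of an ordinal. -/

set_option autoImplicit false

open Filter Topology Set
open scoped BoundedContinuousFunction

namespace Pool.Agent.H148R3

variable {Ω : Ordinal.{0}}

/-- Data: a limit point `α ≤ Ω`, additively indecomposable, with a monotone cofinal sequence. -/
structure Fund (Ω : Ordinal.{0}) where
  α : Ordinal.{0}
  hα : α ≤ Ω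
  pos : 0 < α
  γ : ℕ → Ordinal.{0}
  mono : Monotone γ
  lt : ∀ j, γ j < α
  cof : ∀ l < α, ∃ j, l < γ j
  indec : ∀ x < α, ∀ y < α, x + y < α

namespace Fund

variable (D : Fund Ω)

/-- partial sums -/
noncomputable def β : ℕ → Ordinal.{0}
  | 0 => 0
  | j + 1 => β j + D.γ j

lemma β_lt (j : ℕ) : D.β j < D.α := by
  induction j with
  | zero => exact D.pos
  | succ j ih => exact D.indec _ ih _ (D.lt j)

lemma β_mono : Monotone D.β := monotone_nat_of_le_succ fun _ => le_self_add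

lemma γ_le (j : ℕ) : D.γ j ≤ D.β (j + 1) := le_add_self

lemma β_cof (l : Ordinal.{0}) (hl : l < D.α) : ∃ j, l < D.β j := by
  obtain ⟨j, hj⟩ := D.cof l hl
  exact ⟨j + 1, hj.trans_le (D.γ_le j)⟩

/-- the blocks -/
def inU (j : ℕ) (x : Ordinal.{0}) : Prop := D.β j < x ∧ x ≤ D.β (j + 1)

lemma inU_unique {i j : ℕ} {x : Ordinal.{0}} (hi : D.inU i x) (hj : D.inU j x) : i = j := by
  by_contra hne
  rcases lt_or_gt_of_ne hne with h | h
  · exact absurd (hj.1.trans_le hi.2) (not_lt.2 (D.β_mono h))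
  · exact absurd (hi.1.trans_le hj.2) (not_lt.2 (D.β_mono h))

lemma inU_lt {j : ℕ} {x : Ordinal.{0}} (h : D.inU j x) : x < D.α := h.2.trans_lt (D.β_lt _)

lemma inU_pos {j : ℕ} {x : Ordinal.{0}} (h : D.inU j x) : 0 < x := (zero_le : (0 : Ordinal.{0}) ≤ D.β j).trans_lt h.1

lemma exists_inU {x : Ordinal.{0}} (h0 : 0 < x) (h1 : x < D.α) : ∃ j, D.inU j x := by
  classical
  obtain ⟨j, hj⟩ := D.β_cof x h1
  have hex : ∃ j, x ≤ D.β j := ⟨j, hj.le⟩
  set n := Nat.find hex with hn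
  have hn1 : x ≤ D.β n := Nat.find_spec hex
  have hn0 : n ≠ 0 := by
    intro h
    rw [h] at hn1
    exact absurd h0 (not_lt.2 hn1)
  obtain ⟨i, hi⟩ := Nat.exists_eq_succ_of_ne_zero hn0
  refine ⟨i, ?_, by rwa [hi] at hn1⟩
  have := Nat.find_min hex (m := i) (by omega)
  exact not_le.1 this

/-- the limit point -/
def a : Iic Ω := ⟨D.α, D.hα⟩

lemma not_inU_a (j : ℕ) : ¬ D.inU j (D.a).1 := fun h => lt_irrefl _ (D.inU_lt h)

lemma loc (k : Iic Ω) (hk : k ≠ D.a) : ∀ᶠ k' in 𝓝 k, ∀ j, D.inU j (k' : Iic Ω).1 ↔ D.inU j k.1 := by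
  rcases eq_or_ne k.1 0 with h0 | h0
  · exact nhds_K0 k h0 _ (fun j => Iff.rfl)
  have h0' : 0 < k.1 := pos_iff_ne_zero.2 h0
  have hne : k.1 ≠ D.α := fun h => hk (Subtype.ext h)
  rcases lt_or_gt_of_ne hne with h | h
  · obtain ⟨j, hj⟩ := D.exists_inU h0' h
    refine nhds_K k _ ⟨D.β j, hj.1, fun k' h1 h2 i => ?_⟩
    have h3 : D.inU j k'.1 := ⟨h1, h2.trans hj.2⟩
    constructor
    · intro h4
      rw [D.inU_unique h4 h3]
      exact hj
    · intro h4
      rw [D.inU_unique h4 hj]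
      exact h3
  · refine nhds_K k _ ⟨D.α, h, fun k' h1 h2 i => ?_⟩
    constructor
    · intro h4
      exact absurd (D.inU_lt h4) (not_lt.2 h1.le)
    · intro h4
      exact absurd (D.inU_lt h4) (not_lt.2 h.le)

section P

variable {𝕜 : Type*} [RCLike 𝕜]

open Classical in
noncomputable def Pf (A : Set ℕ) (f : Iic Ω →ᵇ 𝕜) (k : Iic Ω) : 𝕜 :=
  if ∃ j ∈ A, D.inU j k.1 then f k - f D.a else 0

lemma Pf_pos {A : Set ℕ} (f : Iic Ω →ᵇ 𝕜) {k : Iic Ω} (h : ∃ j ∈ A, D.inU j k.1) :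
    D.Pf A f k = f k - f D.a := if_pos h

lemma Pf_neg {A : Set ℕ} (f : Iic Ω →ᵇ 𝕜) {k : Iic Ω} (h : ¬ ∃ j ∈ A, D.inU j k.1) :
    D.Pf A f k = 0 := if_neg h

lemma Pf_norm (A : Set ℕ) (f : Iic Ω →ᵇ 𝕜) (k : Iic Ω) : ‖D.Pf A f k‖ ≤ ‖f k - f D.a‖ := by
  unfold Pf
  split_ifs
  · exact le_rfl
  · rw [norm_zero]; exact norm_nonneg _

lemma Pf_a (A : Set ℕ) (f : Iic Ω →ᵇ 𝕜) : D.Pf A f D.a = 0 := by
  unfold Pf
  rw [if_neg]
  rintro ⟨j, -, hj⟩
  exact D.not_inU_a j hj

lemma Pf_cont (A : Set ℕ) (f : Iic Ω →ᵇ 𝕜) : Continuous (D.Pf A f) := by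
  rw [continuous_iff_continuousAt]
  intro k
  have hfa : Continuous (fun k => f k - f D.a) := f.continuous.sub continuous_const
  by_cases hk : k = D.a
  · rw [hk]
    unfold ContinuousAt
    rw [D.Pf_a]
    apply squeeze_zero_norm (fun k' => D.Pf_norm A f k')
    have := (hfa.tendsto D.a).norm
    simpa using this
  · have h1 := D.loc k hk
    by_cases hA : ∃ j ∈ A, D.inU j k.1
    · have h2 : D.Pf A f =ᶠ[𝓝 k] fun k => f k - f D.a := by
        filter_upwards [h1] with k' hk'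
        unfold Pf
        rw [if_pos]
        obtain ⟨j, hj, hjk⟩ := hA
        exact ⟨j, hj, (hk' j).2 hjk⟩
      exact (hfa.continuousAt).congr h2.symm
    · have h2 : D.Pf A f =ᶠ[𝓝 k] fun k => 0 := by
        filter_upwards [h1] with k' hk'
        unfold Pf
        rw [if_neg]
        rintro ⟨j, hj, hjk⟩
        exact hA ⟨j, hj, (hk' j).1 hjk⟩
      exact continuousAt_const.congr h2.symm

lemma sub_le (f : Iic Ω →ᵇ 𝕜) (k k' : Iic Ω) : ‖f k - f k'‖ ≤ 2 * ‖f‖ := by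
  refine (norm_sub_le _ _).trans ?_
  have := f.norm_coe_le_norm k
  have := f.norm_coe_le_norm k'
  linarith

/-- the projections -/
noncomputable def P (𝕜 : Type*) [RCLike 𝕜] (A : Set ℕ) : (Iic Ω →ᵇ 𝕜) →L[𝕜] (Iic Ω →ᵇ 𝕜) :=
  mkOp (D.Pf A) 2 (D.Pf_cont A)
    (fun f g k => by
      unfold Pf
      split_ifs
      · simp only [BoundedContinuousFunction.add_apply]
        ring
      · simp)
    (fun r f k => by
      unfold Pf
      split_ifs
      · simp only [BoundedContinuousFunction.smul_apply, smul_eq_mul]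
        ring
      · simp)
    (fun f k => (D.Pf_norm A f k).trans (sub_le _ _ _))

@[simp] lemma P_apply (A : Set ℕ) (f : Iic Ω →ᵇ 𝕜) (k : Iic Ω) : D.P 𝕜 A f k = D.Pf A f k := rfl

lemma c0sys : C0Sys (D.P 𝕜) 2 where
  mul A B := by
    ext f k
    change D.Pf A (D.P 𝕜 B f) k = D.Pf (A ∩ B) f k
    have h1 : (D.P 𝕜 B f) D.a = 0 := D.Pf_a B f
    by_cases hA : ∃ j ∈ A, D.inU j k.1
    · rw [D.Pf_pos _ hA, h1, sub_zero, P_apply]
      obtain ⟨j, hj, hjk⟩ := hA
      by_cases hB : ∃ j ∈ B, D.inU j k.1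
      · rw [D.Pf_pos _ hB]
        obtain ⟨i, hi, hik⟩ := hB
        have hij := D.inU_unique hik hjk
        rw [D.Pf_pos (A := A ∩ B) _ ⟨j, ⟨hj, hij ▸ hi⟩, hjk⟩]
      · rw [D.Pf_neg _ hB, D.Pf_neg]
        rintro ⟨i, hi, hik⟩
        exact hB ⟨i, hi.2, hik⟩
    · rw [D.Pf_neg _ hA, D.Pf_neg]
      rintro ⟨i, hi, hik⟩
      exact hA ⟨i, hi.1, hik⟩
  add A B hAB := by
    ext f k
    change D.Pf (A ∪ B) f k = D.Pf A f k + D.Pf B f k
    unfold Pf
    by_cases hA : ∃ j ∈ A, D.inU j k.1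
    · obtain ⟨j, hj, hjk⟩ := hA
      rw [if_pos ⟨j, Or.inl hj, hjk⟩, if_pos ⟨j, hj, hjk⟩, if_neg, add_zero]
      rintro ⟨i, hi, hik⟩
      have hij := D.inU_unique hik hjk
      exact Set.disjoint_left.1 hAB hj (hij ▸ hi)
    · rw [if_neg hA, zero_add]
      by_cases hB : ∃ j ∈ B, D.inU j k.1
      · obtain ⟨j, hj, hjk⟩ := hB
        rw [if_pos ⟨j, Or.inr hj, hjk⟩, if_pos ⟨j, hj, hjk⟩]
      · rw [if_neg hB, if_neg]
        rintro ⟨i, hi | hi, hik⟩
        · exact hA ⟨i, hi, hik⟩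
        · exact hB ⟨i, hi, hik⟩
  tail f := by
    rw [Metric.tendsto_atTop]
    intro ε hε
    have h1 : ∀ᶠ k' in 𝓝 D.a, ‖f k' - f D.a‖ < ε / 2 := by
      have h2 : Tendsto (fun k' => ‖f k' - f D.a‖) (𝓝 D.a) (𝓝 0) := by
        have := ((f.continuous.tendsto D.a).sub_const (f D.a)).norm
        simpa using this
      exact h2.eventually (gt_mem_nhds (by positivity))
    obtain ⟨l, hl, h3⟩ := exists_of_nhds D.a D.pos _ h1
    obtain ⟨j0, hj0⟩ := D.β_cof l hl
    refine ⟨j0, fun m hm => ?_⟩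
    rw [dist_zero_right]
    have h4 : ‖D.P 𝕜 (Ici m) f‖ ≤ ε / 2 := by
      rw [BoundedContinuousFunction.norm_le (by positivity)]
      intro k
      rw [P_apply]
      by_cases hk : ∃ j ∈ Ici m, D.inU j k.1
      · refine (D.Pf_norm _ _ _).trans ?_
        obtain ⟨j, hj, hjk⟩ := hk
        refine (h3 k ?_ (D.inU_lt hjk).le).le
        exact hj0.trans_le ((D.β_mono (hm.trans hj)).trans hjk.1.le)
      · unfold Pf
        rw [if_neg hk, norm_zero]
        positivity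
    linarith
  glue F C z M hM hC hz := by
    rw [BoundedContinuousFunction.norm_le (by positivity)]
    intro k
    rw [BoundedContinuousFunction.sum_apply]
    simp only [P_apply]
    by_cases h : ∃ n ∈ F, ∃ j ∈ C n, D.inU j k.1
    · obtain ⟨n, hn, j, hj, hjk⟩ := h
      rw [Finset.sum_eq_single_of_mem n hn]
      · refine (D.Pf_norm _ _ _).trans ((sub_le _ _ _).trans ?_)
        gcongr
        exact hz n
      · intro m _ hmn
        unfold Pf
        rw [if_neg]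
        rintro ⟨i, hi, hik⟩
        have hij := D.inU_unique hik hjk
        exact Set.disjoint_left.1 (hC m n hmn) hi (hij ▸ hj)
    · rw [Finset.sum_eq_zero, norm_zero]
      · positivity
      · intro n hn
        unfold Pf
        rw [if_neg]
        rintro ⟨i, hi, hik⟩
        exact h ⟨n, hn, i, hi, hik⟩

end P

section Maps

variable (σ : ℕ → ℕ) (F : ℕ → Ordinal.{0} → Ordinal.{0})

open Classical in
/-- generic piecewise map -/
noncomputable def mp (k : Iic Ω) : Iic Ω :=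
  if h : ∃ j, D.inU (σ j) k.1 then ⟨min (F h.choose k.1) Ω, Set.mem_Iic.2 (min_le_right _ _)⟩ else D.a

lemma mp_of (hσ : StrictMono σ) {j : ℕ} {k : Iic Ω} (h : D.inU (σ j) k.1) (hF : F j k.1 ≤ Ω) :
    (D.mp σ F k).1 = F j k.1 := by
  have hex : ∃ j, D.inU (σ j) k.1 := ⟨j, h⟩
  unfold mp
  rw [dif_pos hex]
  have h1 : hex.choose = j := hσ.injective (D.inU_unique hex.choose_spec h)
  simp only [h1]
  exact min_eq_left hF

lemma mp_not {k : Iic Ω} (h : ¬ ∃ j, D.inU (σ j) k.1) : D.mp σ F k = D.a := by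
  unfold mp
  rw [dif_neg h]

lemma mp_a : D.mp σ F D.a = D.a := D.mp_not σ F (by rintro ⟨j, hj⟩; exact D.not_inU_a _ hj)

lemma mp_cont (hσ : StrictMono σ) (hF : ∀ j, Continuous (F j))
    (hF1 : ∀ j x, D.inU (σ j) x → D.β j ≤ F j x ∧ F j x < D.α) : Continuous (D.mp σ F) := by
  rw [continuous_iff_continuousAt]
  intro k
  rw [Topology.IsInducing.subtypeVal.continuousAt_iff]
  have hle : ∀ j x, D.inU (σ j) x → F j x ≤ Ω := fun j x h => ((hF1 j x h).2.trans_le D.hα).le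
  by_cases hk : k = D.a
  · rw [hk]
    unfold ContinuousAt
    have hval : (Subtype.val ∘ D.mp σ F) D.a = D.α := by
      rw [Function.comp_apply, D.mp_a]
      rfl
    rw [hval, tendsto_order]
    have hub : ∀ k', (Subtype.val ∘ D.mp σ F) k' ≤ D.α := by
      intro k'
      rw [Function.comp_apply]
      by_cases h : ∃ j, D.inU (σ j) k'.1
      · obtain ⟨j, hj⟩ := h
        rw [D.mp_of σ F hσ hj (hle j _ hj)]
        exact (hF1 j _ hj).2.le
      · rw [D.mp_not σ F h]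
        exact le_rfl
    constructor
    · intro l hl
      obtain ⟨j0, hj0⟩ := D.β_cof l hl
      have h1 : ∀ᶠ k' in 𝓝 D.a, D.β (σ j0 + 1) < (k' : Iic Ω).1 := by
        have := (continuous_subtype_val.tendsto D.a).eventually
          (lt_mem_nhds (D.β_lt (σ j0 + 1)))
        exact this
      filter_upwards [h1] with k' hk'
      rw [Function.comp_apply]
      by_cases h : ∃ j, D.inU (σ j) k'.1
      · obtain ⟨j, hj⟩ := h
        rw [D.mp_of σ F hσ hj (hle j _ hj)]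
        have h2 : j0 ≤ j := by
          by_contra hcon
          have h3 : σ j < σ j0 := hσ (not_le.1 hcon)
          have h4 : D.β (σ j + 1) ≤ D.β (σ j0 + 1) := D.β_mono (by omega)
          exact absurd (hk'.trans_le (hj.2.trans h4)) (lt_irrefl _)
        exact hj0.trans_le ((D.β_mono h2).trans (hF1 j _ hj).1)
      · rw [D.mp_not σ F h]
        exact hl
    · intro u hu
      exact Eventually.of_forall fun k' => (hub k').trans_lt hu
  · have h1 := D.loc k hk
    by_cases h : ∃ j, D.inU (σ j) k.1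
    · obtain ⟨j, hj⟩ := h
      have h2 : (Subtype.val ∘ D.mp σ F) =ᶠ[𝓝 k] fun k' => F j k'.1 := by
        filter_upwards [h1] with k' hk'
        have h3 := (hk' (σ j)).2 hj
        rw [Function.comp_apply, D.mp_of σ F hσ h3 (hle j _ h3)]
      exact (((hF j).comp continuous_subtype_val).continuousAt).congr h2.symm
    · have h2 : (Subtype.val ∘ D.mp σ F) =ᶠ[𝓝 k] fun k' => D.α := by
        filter_upwards [h1] with k' hk'
        rw [Function.comp_apply, D.mp_not σ F]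
        · rfl
        · rintro ⟨j, hj⟩
          exact h ⟨j, (hk' _).1 hj⟩
      exact continuousAt_const.congr h2.symm

end Maps

section Fact

variable {𝕜 : Type*} [RCLike 𝕜]

/-- The full projection factors through the projection onto any infinite block. -/
lemma factor (A : Set ℕ) (hA : A.Infinite) : ∃ U V : (Iic Ω →ᵇ 𝕜) →L[𝕜] (Iic Ω →ᵇ 𝕜),
    D.P 𝕜 univ = U * D.P 𝕜 A * V := by
  classical
  obtain ⟨s, hs, hsA⟩ : ∃ s : ℕ → ℕ, StrictMono s ∧ ∀ j, s j ∈ A :=
    ⟨Nat.nth (· ∈ A), Nat.nth_strictMono hA, fun j => Nat.nth_mem_of_infinite hA j⟩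
  have hsj : ∀ j, j ≤ s j := fun j => hs.le_apply
  set Fr : ℕ → Ordinal.{0} → Ordinal.{0} := fun j x => D.β j + min (x - D.β (s j)) (D.γ j) with hFr
  set Fi : ℕ → Ordinal.{0} → Ordinal.{0} := fun j x => D.β (s j) + (x - D.β j) with hFi
  have hFrc : ∀ j, Continuous (Fr j) := fun j =>
    (cont_ord_add _).comp ((cont_ord_sub _).min continuous_const)
  have hFic : ∀ j, Continuous (Fi j) := fun j => (cont_ord_add _).comp (cont_ord_sub _)
  have hFr1 : ∀ j x, D.inU (s j) x → D.β j ≤ Fr j x ∧ Fr j x < D.α := by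
    intro j x _
    refine ⟨le_self_add, ?_⟩
    refine lt_of_le_of_lt ?_ (D.β_lt (j + 1))
    change D.β j + min (x - D.β (s j)) (D.γ j) ≤ D.β j + D.γ j
    gcongr
    exact min_le_right _ _
  have hFi0 : ∀ j x, D.inU j x → D.inU (s j) (Fi j x) := by
    intro j x hx
    constructor
    · change D.β (s j) < D.β (s j) + (x - D.β j)
      rw [lt_add_iff_pos_right]
      exact Ordinal.lt_sub.2 (by rw [add_zero]; exact hx.1)
    · change D.β (s j) + (x - D.β j) ≤ D.β (s j) + D.γ (s j)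
      gcongr
      refine (Ordinal.sub_le.2 hx.2).trans (D.mono (hsj j))
  have hFi1 : ∀ j x, D.inU (id j) x → D.β j ≤ Fi j x ∧ Fi j x < D.α := by
    intro j x hx
    exact ⟨(D.β_mono (hsj j)).trans le_self_add, D.inU_lt (hFi0 j x hx)⟩
  have hρ := D.mp_cont s Fr hs hFrc hFr1
  have hι := D.mp_cont id Fi strictMono_id hFic hFi1
  refine ⟨cmp _ hι, cmp _ hρ, ?_⟩
  ext f k
  change D.Pf univ f k = D.Pf A (cmp _ hρ f) (D.mp id Fi k)
  unfold Pf
  simp only [cmp_apply]
  rw [D.mp_a]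
  by_cases h : ∃ j, D.inU j k.1
  · obtain ⟨j, hj⟩ := h
    have h1 : (D.mp id Fi k).1 = Fi j k.1 :=
      D.mp_of id Fi strictMono_id (j := j) hj ((hFi1 j _ hj).2.trans_le D.hα).le
    have h2 : D.inU (s j) (D.mp id Fi k).1 := by rw [h1]; exact hFi0 j _ hj
    have h3 : D.mp s Fr (D.mp id Fi k) = k := by
      apply Subtype.ext
      rw [D.mp_of s Fr hs h2 ((hFr1 j _ h2).2.trans_le D.hα).le, h1]
      change D.β j + min (D.β (s j) + (k.1 - D.β j) - D.β (s j)) (D.γ j) = k.1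
      rw [Ordinal.add_sub_cancel, min_eq_left (Ordinal.sub_le.2 hj.2),
        Ordinal.add_sub_cancel_of_le hj.1.le]
    rw [if_pos ⟨j, mem_univ _, hj⟩, if_pos ⟨s j, hsA j, h2⟩, h3]
  · have h1 : D.mp id Fi k = D.a := D.mp_not id Fi h
    rw [if_neg, if_neg]
    · rintro ⟨j, -, hj⟩
      rw [h1] at hj
      exact D.not_inU_a _ hj
    · rintro ⟨j, -, hj⟩
      exact h ⟨j, hj⟩

end Fact

end Fund

end Pool.Agent.H148R3
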