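import Mathlib
import Pool.Agent.H148R3.OrdSys

/-! SHAI for `C[0, Ω]`, `Ω` a countable ordinal. -/

set_option autoImplicit false

open Filter Topology Set
open scoped BoundedContinuousFunction

namespace Pool.Agent.H148R3

variable {Ω : Ordinal.{0}} {𝕜 : Type*} [RCLike 𝕜]

/-- initial segment -/
def seg (Ω a : Ordinal.{0}) : Set (Iic Ω) := {k | k.1 ≤ a}

lemma seg_clopen (a : Ordinal.{0}) : IsClopen (seg Ω a) := by
  constructor
  · exact isClosed_Iic.preimage continuous_subtype_val
  · have : seg Ω a = Subtype.val ⁻¹' (Iio (Order.succ a)) := by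
      ext k
      simp [seg, Order.lt_succ_iff]
    rw [this]
    exact isOpen_Iio.preimage continuous_subtype_val

noncomputable def Mo (𝕜 : Type*) [RCLike 𝕜] (Ω a : Ordinal.{0}) :
    (Iic Ω →ᵇ 𝕜) →L[𝕜] (Iic Ω →ᵇ 𝕜) := ind (seg Ω a) (seg_clopen a)

open Classical in
lemma Mo_apply (a : Ordinal.{0}) (f : Iic Ω →ᵇ 𝕜) (k : Iic Ω) :
    Mo 𝕜 Ω a f k = if k.1 ≤ a then f k else 0 := rfl

lemma second_countable [Countable (Iic Ω)] : SecondCountableTopology (Iic Ω) := by
  refine ⟨⟨{s | ∃ a : Iic Ω, s = Ioi a ∨ s = Iio a}, ?_,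
    OrderTopology.topology_eq_generate_intervals⟩⟩
  have h1 : {s : Set (Iic Ω) | ∃ a : Iic Ω, s = Ioi a ∨ s = Iio a} =
      range (fun a : Iic Ω => Ioi a) ∪ range (fun a : Iic Ω => Iio a) := by
    ext s
    constructor
    · rintro ⟨a, h | h⟩
      · exact Or.inl ⟨a, h.symm⟩
      · exact Or.inr ⟨a, h.symm⟩
    · rintro (⟨a, h⟩ | ⟨a, h⟩)
      · exact ⟨a, Or.inl h.symm⟩
      · exact ⟨a, Or.inr h.symm⟩
  rw [h1]
  exact (countable_range _).union (countable_range _)

lemma separable [Countable (Iic Ω)] : TopologicalSpace.SeparableSpace (Iic Ω →ᵇ 𝕜) := by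
  have h2 := second_countable (Ω := Ω)
  have hc : CompactSpace (Iic Ω) := by
    rw [← isCompact_iff_compactSpace]
    have : Iic Ω = Icc 0 Ω := by
      ext x
      simp
    rw [this]
    exact isCompact_Icc
  have h3 : SecondCountableTopology C(Iic Ω, 𝕜) := inferInstance
  have e : C(Iic Ω, 𝕜) ≃ᵢ (Iic Ω →ᵇ 𝕜) := (ContinuousMap.isometryEquivBoundedOfCompact _ _)
  have h4 : TopologicalSpace.SeparableSpace C(Iic Ω, 𝕜) := inferInstance
  exact e.surjective.denseRange.separableSpace e.continuous

variable {Y : Type*} [NormedAddCommGroup Y] [NormedSpace 𝕜 Y] [CompleteSpace Y] [Nontrivial Y]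

theorem shai_main [Countable (Iic Ω)]
    (ψ : ((Iic Ω →ᵇ 𝕜) →L[𝕜] (Iic Ω →ᵇ 𝕜)) →ₐ[𝕜] (Y →L[𝕜] Y)) (hψ : Function.Surjective ψ) :
    Function.Injective ψ := by
  classical
  by_contra hinj
  obtain ⟨T, hT0, hT⟩ : ∃ T, T ≠ 0 ∧ ψ T = 0 := by
    by_contra hcon
    push Not at hcon
    exact hinj ((injective_iff_map_eq_zero ψ).2 fun T hT => by
      by_contra h
      exact hcon T h hT)
  have hrk : ∀ (k : Iic Ω) (g : Iic Ω →ᵇ 𝕜), ψ (rk (ev k) g) = 0 := fun k g =>
    rank_one_killed ψ T hT0 hT _ _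
  have hsep := separable (𝕜 := 𝕜) (Ω := Ω)
  have hmain : ∀ α : Ordinal.{0}, α ≤ Ω → ψ (Mo 𝕜 Ω α) = 0 := by
    intro α
    induction α using WellFoundedLT.induction with
    | ind α ih =>
    intro hα
    by_contra hne
    -- the indicator functions
    have hpos : 0 < α := by
      by_contra h0
      have h0 : α = 0 := by simpa using h0
      apply hne
      set z : Iic Ω := ⟨0, Set.mem_Iic.2 zero_le⟩ with hz
      have h1 : Mo 𝕜 Ω α = rk (ev z) (Mo 𝕜 Ω 0 1) := by
        ext f k
        change Mo 𝕜 Ω α f k = f z * Mo 𝕜 Ω 0 1 k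
        rw [Mo_apply, Mo_apply, h0]
        by_cases hk : k.1 ≤ 0
        · have hkz : k = z := Subtype.ext (le_antisymm hk zero_le)
          rw [if_pos hk, if_pos hk, hkz]
          simp
        · rw [if_neg hk, if_neg hk, mul_zero]
      rw [h1, hrk]
    have hindec : ∀ x < α, ∀ y < α, x + y < α := by
      intro x hx y hy
      by_contra hcon
      rw [not_lt] at hcon
      set δ := α - x with hδ
      have hδy : δ ≤ y := Ordinal.sub_le.2 hcon
      have hδα : δ < α := hδy.trans_lt hy
      have hxδ : x + δ = α := Ordinal.add_sub_cancel_of_le hx.le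
      have hxΩ : x ≤ Ω := hx.le.trans hα
      apply hne
      set u : Iic Ω → Iic Ω := fun k => ⟨min (x + k.1) Ω, Set.mem_Iic.2 (min_le_right _ _)⟩ with hu
      set v : Iic Ω → Iic Ω := fun k => ⟨k.1 - x, (Ordinal.sub_le_self _ _).trans k.2⟩ with hv
      have huc : Continuous u := by
        apply Continuous.subtype_mk
        exact ((cont_ord_add x).comp continuous_subtype_val).min continuous_const
      have hvc : Continuous v := by
        apply Continuous.subtype_mk
        exact (cont_ord_sub x).comp continuous_subtype_val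
      set xx : Iic Ω := ⟨x, hxΩ⟩ with hxx
      have h1 : Mo 𝕜 Ω α = Mo 𝕜 Ω x + cmp v hvc * Mo 𝕜 Ω δ * cmp u huc
          - rk (ev xx) (Mo 𝕜 Ω x 1) := by
        ext f k
        change Mo 𝕜 Ω α f k = Mo 𝕜 Ω x f k + Mo 𝕜 Ω δ (cmp u huc f) (v k) - f xx * Mo 𝕜 Ω x 1 k
        rw [Mo_apply, Mo_apply, Mo_apply, Mo_apply, cmp_apply]
        by_cases hk : k.1 ≤ x
        · have h2 : (v k).1 ≤ δ := by
            change k.1 - x ≤ δ
            rw [Ordinal.sub_eq_zero_iff_le.2 hk]
            exact zero_le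
          have h3 : u (v k) = xx := by
            apply Subtype.ext
            change min (x + (k.1 - x)) Ω = x
            rw [Ordinal.sub_eq_zero_iff_le.2 hk, add_zero, min_eq_left hxΩ]
          rw [if_pos (hk.trans hx.le), if_pos hk, if_pos h2, if_pos hk, h3]
          simp
        · rw [not_le] at hk
          rw [if_neg (not_le.2 hk), if_neg (not_le.2 hk), mul_zero, sub_zero, zero_add]
          have hxk : x + (k.1 - x) = k.1 := Ordinal.add_sub_cancel_of_le hk.le
          by_cases hkα : k.1 ≤ α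
          · have h2 : (v k).1 ≤ δ := Ordinal.sub_le.2 (by rw [hxδ]; exact hkα)
            have h3 : u (v k) = k := by
              apply Subtype.ext
              change min (x + (k.1 - x)) Ω = k.1
              rw [hxk, min_eq_left k.2]
            rw [if_pos hkα, if_pos h2, h3]
          · have h2 : ¬ (v k).1 ≤ δ := by
              intro hcon2
              apply hkα
              rw [← hxδ, ← hxk]
              gcongr
            rw [if_neg hkα, if_neg h2]
      rw [h1, map_sub, map_add, map_mul, map_mul, ih x hx hxΩ, ih δ hδα (hδα.le.trans hα), hrk]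
      simp
    -- fundamental sequence
    have hc1 : Countable (Iio α) := by
      have hinj2 : Function.Injective (fun x : Iio α => (⟨x.1, (le_of_lt x.2).trans hα⟩ : Iic Ω)) := by
        intro x y hxy
        exact Subtype.ext (congrArg (fun z : Iic Ω => z.1) hxy)
      exact hinj2.countable
    by_cases hone : α = 1
    · -- successor case: α = 1
      apply hne
      set z : Iic Ω := ⟨0, Set.mem_Iic.2 zero_le⟩ with hz
      set o : Iic Ω := ⟨α, hα⟩ with ho
      have h1 : Mo 𝕜 Ω α = Mo 𝕜 Ω 0 + rk (ev o) (Mo 𝕜 Ω α 1 - Mo 𝕜 Ω 0 1) := by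
        ext f k
        change Mo 𝕜 Ω α f k = Mo 𝕜 Ω 0 f k + f o * (Mo 𝕜 Ω α 1 k - Mo 𝕜 Ω 0 1 k)
        simp only [Mo_apply]
        by_cases hk : k.1 ≤ 0
        · rw [if_pos (hk.trans zero_le), if_pos hk, if_pos (hk.trans zero_le), if_pos hk]
          simp
        · by_cases hk1 : k.1 ≤ α
          · have hko : k = o := by
              apply Subtype.ext
              apply le_antisymm hk1
              rw [not_le] at hk
              change α ≤ k.1
              rw [hone]
              exact Order.one_le_iff_pos.2 hk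
            rw [if_neg hk, if_pos hk1, if_pos hk1, if_neg hk, hko]
            simp
          · rw [if_neg hk, if_neg hk1, if_neg hk1, if_neg hk]
            simp
      rw [h1, map_add, ih 0 hpos zero_le, hrk, add_zero]
    have h1α : 1 < α := lt_of_le_of_ne (Order.one_le_iff_pos.2 hpos) (Ne.symm hone)
    have hsucc : ∀ x < α, x + 1 < α := fun x hx => hindec x hx 1 h1α
    have : Nonempty (Iio α) := ⟨⟨0, hpos⟩⟩
    obtain ⟨g, hg1, hg2⟩ := exists_seq_monotone_tendsto_atTop_atTop (Iio α)
    let D : Fund Ω :=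
      { α := α
        hα := hα
        pos := hpos
        γ := fun j => (g j).1
        mono := fun i j hij => hg1 hij
        lt := fun j => (g j).2
        cof := fun l hl => by
          obtain ⟨j, hj⟩ := (hg2.eventually (eventually_ge_atTop (⟨l + 1, hsucc l hl⟩ : Iio α))).exists
          refine ⟨j, ?_⟩
          have h2 : l + 1 ≤ (g j).1 := hj
          exact (lt_add_one l).trans_le h2
        indec := hindec }
    refine key ψ hψ (D.P 𝕜) 2 D.c0sys (fun n => ?_) (fun A hA hA0 => ?_)
    · -- finite blocks are killed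
      have h2 : D.P 𝕜 {n} = Mo 𝕜 Ω (D.β (n + 1)) * D.P 𝕜 {n} := by
        ext f k
        change D.Pf {n} f k = Mo 𝕜 Ω (D.β (n + 1)) (D.P 𝕜 {n} f) k
        rw [Mo_apply, Fund.P_apply]
        by_cases hk : k.1 ≤ D.β (n + 1)
        · rw [if_pos hk]
        · rw [if_neg hk, D.Pf_neg]
          rintro ⟨j, hj, hjk⟩
          rw [mem_singleton_iff] at hj
          rw [hj] at hjk
          exact hk hjk.2
      rw [h2, map_mul, ih _ (D.β_lt _) ((D.β_lt _).le.trans hα), zero_mul]
    · -- infinite blocks are not killed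
      apply hne
      obtain ⟨U, V, hUV⟩ := D.factor (𝕜 := 𝕜) A hA
      have h2 : ψ (D.P 𝕜 univ) = 0 := by
        rw [hUV, map_mul, map_mul, hA0, mul_zero, zero_mul]
      set z : Iic Ω := ⟨0, Set.mem_Iic.2 zero_le⟩ with hz
      have h3 : Mo 𝕜 Ω α = D.P 𝕜 univ + rk (ev D.a) (Mo 𝕜 Ω α 1 - Mo 𝕜 Ω 0 1)
          + rk (ev z) (Mo 𝕜 Ω 0 1) := by
        ext f k
        change Mo 𝕜 Ω α f k = D.Pf univ f k + f D.a * (Mo 𝕜 Ω α 1 k - Mo 𝕜 Ω 0 1 k)
          + f z * Mo 𝕜 Ω 0 1 k
        simp only [Mo_apply]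
        by_cases hk : k.1 ≤ 0
        · have hkz : k = z := Subtype.ext (le_antisymm hk zero_le)
          rw [if_pos (hk.trans zero_le), if_pos (hk.trans zero_le), if_pos hk, D.Pf_neg, hkz]
          · simp
          · rintro ⟨j, -, hj⟩
            exact absurd (D.inU_pos hj) (not_lt.2 hk)
        · rw [if_neg hk]
          by_cases hk1 : k.1 ≤ α
          · rw [if_pos hk1, if_pos hk1]
            rw [not_le] at hk
            rcases lt_or_eq_of_le hk1 with hlt | heq
            · obtain ⟨j, hj⟩ := D.exists_inU hk hlt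
              rw [D.Pf_pos _ ⟨j, mem_univ _, hj⟩]
              simp
            · have hka : k = D.a := Subtype.ext heq
              rw [hka, D.Pf_a]
              simp
          · rw [if_neg hk1, if_neg hk1, D.Pf_neg]
            · simp
            · rintro ⟨j, -, hj⟩
              exact hk1 (D.inU_lt hj).le
      rw [h3, map_add, map_add, h2, hrk, hrk]
      simp
  have h1 : Mo 𝕜 Ω Ω = 1 := by
    ext f k
    rw [Mo_apply, if_pos (Set.mem_Iic.1 k.2)]
    rfl
  have h2 := hmain Ω le_rfl
  rw [h1, map_one] at h2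
  exact one_ne_zero h2

end Pool.Agent.H148R3
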